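import Pool.Agent.Lib_helper36.CMC.Defs

set_option autoImplicit false

namespace Pool.Agent.CMC

open MeasureTheory Set
open scoped ContDiff

variable {n : ℕ}

theorem Carnot.mul_zero (G : Carnot n) (g : Fin n → ℝ) : G.mul g 0 = g := by
  have h := G.expo g 1 0
  simpa using h

theorem Carnot.zero_mul (G : Carnot n) (g : Fin n → ℝ) : G.mul 0 g = g := by
  have h := G.expo g 0 1
  simpa using h

theorem Carnot.mul_neg (G : Carnot n) (g : Fin n → ℝ) : G.mul g (-g) = 0 := by
  have h := G.expo g 1 (-1)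
  simpa using h

theorem Carnot.neg_mul (G : Carnot n) (g : Fin n → ℝ) : G.mul (-g) g = 0 := by
  have h := G.expo g (-1) 1
  simpa using h

theorem Carnot.neg_mul_cancel (G : Carnot n) (a b : Fin n → ℝ) : G.mul (-a) (G.mul a b) = b := by
  rw [← G.assoc, G.neg_mul, G.zero_mul]

theorem Carnot.mul_neg_cancel (G : Carnot n) (a b : Fin n → ℝ) : G.mul a (G.mul (-a) b) = b := by
  rw [← G.assoc, G.mul_neg, G.zero_mul]

theorem Carnot.mul_mul_neg (G : Carnot n) (a b : Fin n → ℝ) : G.mul (G.mul a b) (-b) = a := by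
  rw [G.assoc, G.mul_neg, G.mul_zero]

theorem Carnot.mul_neg_mul (G : Carnot n) (a b : Fin n → ℝ) : G.mul (G.mul a (-b)) b = a := by
  rw [G.assoc, G.neg_mul, G.mul_zero]

theorem Carnot.neg_rev (G : Carnot n) (a b : Fin n → ℝ) : -(G.mul a b) = G.mul (-b) (-a) := by
  have h : G.mul (G.mul a b) (G.mul (-b) (-a)) = 0 := by
    rw [G.assoc, G.mul_neg_cancel, G.mul_neg]
  have h2 := G.neg_mul_cancel (G.mul a b) (G.mul (-b) (-a))
  rw [h, G.mul_zero] at h2
  exact h2

end Pool.Agent.CMC
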