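import Pool.Agent.Lib_helper36.CMC.Defs
import Pool.Agent.Lib_helper36.CMC.W.A1

set_option autoImplicit false

namespace Pool.Agent.CMC

open MeasureTheory Set
open scoped ContDiff

variable {n : ℕ}

/-- smoothness of the group law in each variable -/
theorem smooth_right (G : Carnot n) (g : Fin n → ℝ) : ContDiff ℝ ∞ (G.mul g) := by
  have h : ContDiff ℝ ∞ (fun b : Fin n → ℝ => ((g, b) : (Fin n → ℝ) × (Fin n → ℝ))) := by fun_prop
  exact G.smooth.comp h

theorem smooth_left (G : Carnot n) (h : Fin n → ℝ) : ContDiff ℝ ∞ (fun g => G.mul g h) := by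
  have h' : ContDiff ℝ ∞ (fun b : Fin n → ℝ => ((b, h) : (Fin n → ℝ) × (Fin n → ℝ))) := by fun_prop
  exact G.smooth.comp h'

/-- joint smoothness of `(a, g) ↦ X_a(g)` -/
theorem smooth_X2 (G : Carnot n) :
    ContDiff ℝ ∞ (fun p : (Fin n → ℝ) × (Fin n → ℝ) => X G p.1 p.2) := by
  have hf : ContDiff ℝ ∞ (Function.uncurry
      (fun (p : (Fin n → ℝ) × (Fin n → ℝ)) (b : Fin n → ℝ) => G.mul p.2 b)) := by
    have h : ContDiff ℝ ∞ (fun q : ((Fin n → ℝ) × (Fin n → ℝ)) × (Fin n → ℝ) =>
        ((q.1.2, q.2) : (Fin n → ℝ) × (Fin n → ℝ))) := by fun_prop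
    exact G.smooth.comp h
  have hg : ContDiff ℝ ∞ (fun _ : (Fin n → ℝ) × (Fin n → ℝ) => (0 : Fin n → ℝ)) := contDiff_const
  have hk : ContDiff ℝ ∞ (fun p : (Fin n → ℝ) × (Fin n → ℝ) => p.1) := contDiff_fst
  exact ContDiff.fderiv_apply hf hg hk (by simp)

theorem smooth_X (G : Carnot n) (a : Fin n → ℝ) : ContDiff ℝ ∞ (X G a) := by
  have h : ContDiff ℝ ∞ (fun b : Fin n → ℝ => ((a, b) : (Fin n → ℝ) × (Fin n → ℝ))) := by fun_prop
  exact (smooth_X2 G).comp h

theorem X_add (G : Carnot n) (a b g : Fin n → ℝ) : X G (a + b) g = X G a g + X G b g := by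
  unfold X lif; exact map_add _ _ _

theorem X_smul (G : Carnot n) (c : ℝ) (a g : Fin n → ℝ) : X G (c • a) g = c • X G a g := by
  unfold X lif; exact map_smul _ _ _

theorem X_zero (G : Carnot n) (g : Fin n → ℝ) : X G 0 g = 0 := by
  unfold X lif; exact map_zero _

theorem X_at_zero (G : Carnot n) (a : Fin n → ℝ) : X G a 0 = a := by
  unfold X lif
  have h : G.mul 0 = id := by funext g; exact G.zero_mul g
  rw [h]; simp

/-- left invariance -/
theorem fderiv_mul_X (G : Carnot n) (g h a : Fin n → ℝ) :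
    fderiv ℝ (G.mul g) h (X G a h) = X G a (G.mul g h) := by
  have h1 : HasFDerivAt (G.mul h) (fderiv ℝ (G.mul h) 0) 0 :=
    ((smooth_right G h).differentiable (by simp) 0).hasFDerivAt
  have h2 : HasFDerivAt (G.mul g) (fderiv ℝ (G.mul g) h) (G.mul h 0) := by
    rw [G.mul_zero]
    exact ((smooth_right G g).differentiable (by simp) h).hasFDerivAt
  have h3 := h2.comp (0 : Fin n → ℝ) h1
  have h4 : (G.mul g ∘ G.mul h) = G.mul (G.mul g h) := by
    funext b
    exact (G.assoc g h b).symm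
  rw [h4] at h3
  unfold X lif
  rw [h3.fderiv]
  rfl

theorem hasDerivAt_mul_smul (G : Carnot n) (g a : Fin n → ℝ) (t : ℝ) :
    HasDerivAt (fun s : ℝ => G.mul g (s • a)) (X G a (G.mul g (t • a))) t := by
  have h1 : HasFDerivAt (G.mul (G.mul g (t • a))) (fderiv ℝ (G.mul (G.mul g (t • a))) 0)
      ((t - t) • a) := by
    rw [sub_self, zero_smul]
    exact ((smooth_right G _).differentiable (by simp) 0).hasFDerivAt
  have h2 : HasDerivAt (fun s : ℝ => (s - t) • a) a t := by
    have h := ((hasDerivAt_id t).sub_const t).smul_const a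
    simpa using h
  have h3 := HasFDerivAt.comp_hasDerivAt t h1 h2
  have h4 : (G.mul (G.mul g (t • a)) ∘ fun s : ℝ => (s - t) • a) = fun s : ℝ => G.mul g (s • a) := by
    funext s
    rw [Function.comp_apply, G.assoc, G.expo]
    congr 2
    ring
  rw [h4] at h3
  exact h3

/-- `X_a` at `g` is the derivative of left multiplication along the curve `t ↦ g (t a)` -/
theorem hasDerivAt_mul_smul_zero (G : Carnot n) (g a : Fin n → ℝ) :
    HasDerivAt (fun s : ℝ => G.mul g (s • a)) (X G a g) 0 := by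
  have h := hasDerivAt_mul_smul G g a 0
  rwa [zero_smul, G.mul_zero] at h

end Pool.Agent.CMC
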