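import Pool.Agent.Lib_helper36.CMC.Defs
import Pool.Agent.Lib_helper36.CMC.W.A1
import Pool.Agent.Lib_helper36.CMC.W.A2

set_option autoImplicit false

namespace Pool.Agent.CMC

open MeasureTheory Set
open scoped ContDiff

variable {n : ℕ}

theorem dl_add (wt : Fin n → ℕ) (r : ℝ) (a b : Fin n → ℝ) :
    dl wt r (a + b) = dl wt r a + dl wt r b := by
  funext i; simp [dl, mul_add]

theorem dl_smul (wt : Fin n → ℕ) (r c : ℝ) (a : Fin n → ℝ) : dl wt r (c • a) = c • dl wt r a := by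
  funext i; simp only [dl, Pi.smul_apply, smul_eq_mul]; ring

theorem dl_zero (wt : Fin n → ℕ) (r : ℝ) : dl wt r (0 : Fin n → ℝ) = 0 := by
  funext i; simp [dl]

theorem dl_neg (wt : Fin n → ℕ) (r : ℝ) (a : Fin n → ℝ) : dl wt r (-a) = -dl wt r a := by
  funext i; simp [dl]

theorem dl_one (wt : Fin n → ℕ) (a : Fin n → ℝ) : dl wt 1 a = a := by
  funext i; simp [dl]

theorem dl_dl (wt : Fin n → ℕ) (r s : ℝ) (a : Fin n → ℝ) : dl wt r (dl wt s a) = dl wt (r * s) a := by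
  funext i; simp only [dl, mul_pow]; ring

theorem dl_inv (wt : Fin n → ℕ) {r : ℝ} (hr : 0 < r) (a : Fin n → ℝ) :
    dl wt r (dl wt r⁻¹ a) = a := by
  rw [dl_dl, mul_inv_cancel₀ hr.ne', dl_one]

theorem dl_inv' (wt : Fin n → ℕ) {r : ℝ} (hr : 0 < r) (a : Fin n → ℝ) :
    dl wt r⁻¹ (dl wt r a) = a := by
  rw [dl_dl, inv_mul_cancel₀ hr.ne', dl_one]

theorem dl_lay (wt : Fin n → ℕ) (r : ℝ) {j : ℕ} {a : Fin n → ℝ} (ha : a ∈ lay wt j) :
    dl wt r a = r ^ j • a := by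
  funext i
  by_cases h : wt i = j
  · simp [dl, h]
  · simp [dl, ha i h]

/-- the dilation as a continuous linear map -/
noncomputable def dlL (wt : Fin n → ℕ) (r : ℝ) : (Fin n → ℝ) →L[ℝ] (Fin n → ℝ) :=
  LinearMap.toContinuousLinearMap
    { toFun := dl wt r
      map_add' := dl_add wt r
      map_smul' := fun c a => dl_smul wt r c a }

theorem dlL_apply (wt : Fin n → ℕ) (r : ℝ) (a : Fin n → ℝ) : dlL wt r a = dl wt r a := rfl

theorem X_dl (G : Carnot n) {r : ℝ} (hr : 0 < r) (a g : Fin n → ℝ) :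
    X G (dl G.wt r a) (dl G.wt r g) = dl G.wt r (X G a g) := by
  have hcomp : (fun b : Fin n → ℝ => G.mul (dl G.wt r g) (dlL G.wt r b))
      = fun b => dlL G.wt r (G.mul g b) := by
    funext b
    exact G.dil r hr g b
  have hd1 : HasFDerivAt (G.mul g) (fderiv ℝ (G.mul g) 0) 0 :=
    (((smooth_right G g).differentiable (by simp)) 0).hasFDerivAt
  have hz : dlL G.wt r 0 = 0 := map_zero _
  have hd2 : HasFDerivAt (G.mul (dl G.wt r g)) (fderiv ℝ (G.mul (dl G.wt r g)) 0)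
      (dlL G.wt r 0) := by
    rw [hz]
    exact (((smooth_right G (dl G.wt r g)).differentiable (by simp)) 0).hasFDerivAt
  have h1 : HasFDerivAt (fun b : Fin n → ℝ => G.mul (dl G.wt r g) (dlL G.wt r b))
      ((fderiv ℝ (G.mul (dl G.wt r g)) 0).comp (dlL G.wt r)) 0 :=
    hd2.comp 0 (dlL G.wt r).hasFDerivAt
  have h2 : HasFDerivAt (fun b : Fin n → ℝ => dlL G.wt r (G.mul g b))
      ((dlL G.wt r).comp (fderiv ℝ (G.mul g) 0)) 0 :=
    (dlL G.wt r).hasFDerivAt.comp 0 hd1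
  rw [hcomp] at h1
  have h3 := h1.unique h2
  have h4 := congrArg (fun L : (Fin n → ℝ) →L[ℝ] (Fin n → ℝ) => L a) h3
  exact h4

theorem X_dl_lay (G : Carnot n) {r : ℝ} (hr : 0 < r) {j : ℕ} {a : Fin n → ℝ} (ha : a ∈ lay G.wt j)
    (g : Fin n → ℝ) (i : Fin n) :
    r ^ j * X G a (dl G.wt r g) i = r ^ G.wt i * X G a g i := by
  have h := congrFun (X_dl G hr a g) i
  rw [dl_lay G.wt r ha, X_smul] at h
  simpa [dl] using h

end Pool.Agent.CMC
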