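import Pool.Agent.Lib_helper36.CMC.Defs
import Pool.Agent.Lib_helper36.CMC.W.A1
import Pool.Agent.Lib_helper36.CMC.W.A2
import Pool.Agent.Lib_helper36.CMC.W.A3

set_option autoImplicit false

namespace Pool.Agent.CMC

open MeasureTheory Set
open scoped ContDiff

variable {n : ℕ}

theorem A4_cont_right (G : Carnot n) (v : Fin n → ℝ) :
    Continuous (fun p : (Fin n → ℝ) × (Fin n → ℝ) => fderiv ℝ (G.mul p.1) p.2 v) := by
  have h1 : ContDiff ℝ 1 (Function.uncurry
      (fun (p : (Fin n → ℝ) × (Fin n → ℝ)) (x : Fin n → ℝ) => G.mul p.1 x)) := by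
    have hs : ContDiff ℝ 1 (fun p : (Fin n → ℝ) × (Fin n → ℝ) => G.mul p.1 p.2) :=
      G.smooth.of_le (by exact_mod_cast le_top)
    have hp : ContDiff ℝ 1 (fun q : ((Fin n → ℝ) × (Fin n → ℝ)) × (Fin n → ℝ) =>
        ((q.1.1, q.2) : (Fin n → ℝ) × (Fin n → ℝ))) := by fun_prop
    exact hs.comp hp
  have h2 : ContDiff ℝ 0 (fun p : (Fin n → ℝ) × (Fin n → ℝ) => fderiv ℝ (G.mul p.1) p.2) :=
    ContDiff.fderiv (f := fun (p : (Fin n → ℝ) × (Fin n → ℝ)) (x : Fin n → ℝ) => G.mul p.1 x)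
      (g := Prod.snd) h1 contDiff_snd (by simp)
  exact h2.continuous.clm_apply continuous_const

theorem A4_cont_left (G : Carnot n) (v : Fin n → ℝ) :
    Continuous (fun p : (Fin n → ℝ) × (Fin n → ℝ) => fderiv ℝ (fun x => G.mul x p.2) p.1 v) := by
  have h1 : ContDiff ℝ 1 (Function.uncurry
      (fun (p : (Fin n → ℝ) × (Fin n → ℝ)) (x : Fin n → ℝ) => G.mul x p.2)) := by
    have hs : ContDiff ℝ 1 (fun p : (Fin n → ℝ) × (Fin n → ℝ) => G.mul p.1 p.2) :=
      G.smooth.of_le (by exact_mod_cast le_top)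
    have hp : ContDiff ℝ 1 (fun q : ((Fin n → ℝ) × (Fin n → ℝ)) × (Fin n → ℝ) =>
        ((q.2, q.1.2) : (Fin n → ℝ) × (Fin n → ℝ))) := by fun_prop
    exact hs.comp hp
  have h2 : ContDiff ℝ 0 (fun p : (Fin n → ℝ) × (Fin n → ℝ) =>
      fderiv ℝ (fun x => G.mul x p.2) p.1) :=
    ContDiff.fderiv (f := fun (p : (Fin n → ℝ) × (Fin n → ℝ)) (x : Fin n → ℝ) => G.mul x p.2)
      (g := Prod.fst) h1 contDiff_fst (by simp)
  exact h2.continuous.clm_apply continuous_const

theorem A4_dl_single (wt : Fin n → ℕ) (r : ℝ) (j : Fin n) :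
    dl wt r (Pi.single j 1) = r ^ wt j • (Pi.single j (1 : ℝ) : Fin n → ℝ) := by
  funext i
  by_cases h : i = j
  · subst h; simp [dl]
  · simp [dl, h]

theorem A4_cont_dl (wt : Fin n → ℕ) (g : Fin n → ℝ) : Continuous (fun r : ℝ => dl wt r g) := by
  unfold dl
  fun_prop

/-- homogeneity of the differential of left multiplication -/
theorem A4_hom_right (G : Carnot n) {r : ℝ} (hr : 0 < r) (g h : Fin n → ℝ) (i j : Fin n) :
    r ^ G.wt j * fderiv ℝ (G.mul (dl G.wt r g)) (dl G.wt r h) (Pi.single j 1) i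
      = r ^ G.wt i * fderiv ℝ (G.mul g) h (Pi.single j 1) i := by
  have e : (fun x => G.mul (dl G.wt r g) (dlL G.wt r x)) = fun x => dlL G.wt r (G.mul g x) := by
    funext x
    rw [dlL_apply, dlL_apply]
    exact G.dil r hr g x
  have d1 : HasFDerivAt (fun x => G.mul (dl G.wt r g) (dlL G.wt r x))
      ((fderiv ℝ (G.mul (dl G.wt r g)) (dlL G.wt r h)).comp (dlL G.wt r)) h :=
    HasFDerivAt.comp h
      (((smooth_right G (dl G.wt r g)).differentiable (by simp)) _).hasFDerivAt
      (dlL G.wt r).hasFDerivAt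
  have d2 : HasFDerivAt (fun x => dlL G.wt r (G.mul g x))
      ((dlL G.wt r).comp (fderiv ℝ (G.mul g) h)) h :=
    HasFDerivAt.comp h (dlL G.wt r).hasFDerivAt
      (((smooth_right G g).differentiable (by simp)) h).hasFDerivAt
  rw [e] at d1
  have hu := d1.unique d2
  have hv := congrFun (congrArg (fun L : (Fin n → ℝ) →L[ℝ] (Fin n → ℝ) => L (Pi.single j 1)) hu) i
  simp only [ContinuousLinearMap.comp_apply, dlL_apply] at hv
  rw [A4_dl_single, map_smul] at hv
  simpa [dl] using hv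

theorem A4_hom_left (G : Carnot n) {r : ℝ} (hr : 0 < r) (g h : Fin n → ℝ) (i j : Fin n) :
    r ^ G.wt j * fderiv ℝ (fun x => G.mul x (dl G.wt r h)) (dl G.wt r g) (Pi.single j 1) i
      = r ^ G.wt i * fderiv ℝ (fun x => G.mul x h) g (Pi.single j 1) i := by
  have e : (fun x => G.mul (dlL G.wt r x) (dl G.wt r h)) = fun x => dlL G.wt r (G.mul x h) := by
    funext x
    rw [dlL_apply, dlL_apply]
    exact G.dil r hr x h
  have d1 : HasFDerivAt (fun x => G.mul (dlL G.wt r x) (dl G.wt r h))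
      ((fderiv ℝ (fun x => G.mul x (dl G.wt r h)) (dlL G.wt r g)).comp (dlL G.wt r)) g :=
    HasFDerivAt.comp (g := fun x => G.mul x (dl G.wt r h)) g
      (((smooth_left G (dl G.wt r h)).differentiable (by simp)) _).hasFDerivAt
      (dlL G.wt r).hasFDerivAt
  have d2 : HasFDerivAt (fun x => dlL G.wt r (G.mul x h))
      ((dlL G.wt r).comp (fderiv ℝ (fun x => G.mul x h) g)) g :=
    HasFDerivAt.comp g (dlL G.wt r).hasFDerivAt
      (((smooth_left G h).differentiable (by simp)) g).hasFDerivAt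
  rw [e] at d1
  have hu := d1.unique d2
  have hv := congrFun (congrArg (fun L : (Fin n → ℝ) →L[ℝ] (Fin n → ℝ) => L (Pi.single j 1)) hu) i
  simp only [ContinuousLinearMap.comp_apply, dlL_apply] at hv
  rw [A4_dl_single, map_smul] at hv
  simpa [dl] using hv

/-- the limit argument -/
theorem A4_limit (φ : ℝ → ℝ) (hφ : Continuous φ) {a b : ℕ} (hab : a ≤ b) (c : ℝ)
    (h : ∀ r : ℝ, 0 < r → r ^ b * φ r = r ^ a * c) : c = 0 ^ (b - a) * φ 0 := by
  have h1 : ∀ r : ℝ, 0 < r → r ^ (b - a) * φ r = c := by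
    intro r hr
    have := h r hr
    have hb : r ^ b = r ^ a * r ^ (b - a) := by rw [← pow_add, Nat.add_sub_cancel' hab]
    rw [hb, mul_assoc] at this
    exact mul_left_cancel₀ (pow_pos hr a).ne' this
  have h2 : Filter.Tendsto (fun r : ℝ => r ^ (b - a) * φ r) (nhdsWithin 0 (Ioi 0))
      (nhds (0 ^ (b - a) * φ 0)) :=
    (((continuous_pow (b - a)).mul hφ).tendsto 0).mono_left nhdsWithin_le_nhds
  have h3 : Filter.Tendsto (fun r : ℝ => r ^ (b - a) * φ r) (nhdsWithin 0 (Ioi 0)) (nhds c) := by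
    refine tendsto_const_nhds.congr' ?_
    filter_upwards [self_mem_nhdsWithin] with r hr
    exact (h1 r hr).symm
  exact tendsto_nhds_unique h3 h2

/-- the differential of left multiplication is unipotent with respect to the weights -/
theorem fderiv_right_tri (G : Carnot n) (g h : Fin n → ℝ) (i j : Fin n) (hij : G.wt i ≤ G.wt j) :
    fderiv ℝ (G.mul g) h (Pi.single j 1) i = if i = j then 1 else 0 := by
  have hc : Continuous (fun r : ℝ =>
      fderiv ℝ (G.mul (dl G.wt r g)) (dl G.wt r h) (Pi.single j 1) i) :=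
    (continuous_apply i).comp ((A4_cont_right G (Pi.single j 1)).comp
      ((A4_cont_dl G.wt g).prodMk (A4_cont_dl G.wt h)))
  have key := A4_limit _ hc hij (fderiv ℝ (G.mul g) h (Pi.single j 1) i)
    (fun r hr => A4_hom_right G hr g h i j)
  rw [key]
  have hw : ∀ x : Fin n → ℝ, dl G.wt 0 x = 0 := by
    intro x; funext k
    have hk : G.wt k ≠ 0 := by have := G.wt_pos k; omega
    simp only [dl, zero_pow hk, zero_mul, Pi.zero_apply]
  have h0 : G.mul 0 = id := by funext x; exact G.zero_mul x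
  rw [hw, hw, h0, fderiv_id]
  by_cases hi : i = j
  · subst hi; simp
  · simp [hi]

/-- the differential of right multiplication is unipotent with respect to the weights -/
theorem fderiv_left_tri (G : Carnot n) (g h : Fin n → ℝ) (i j : Fin n) (hij : G.wt i ≤ G.wt j) :
    fderiv ℝ (fun p => G.mul p h) g (Pi.single j 1) i = if i = j then 1 else 0 := by
  have hc : Continuous (fun r : ℝ =>
      fderiv ℝ (fun p => G.mul p (dl G.wt r h)) (dl G.wt r g) (Pi.single j 1) i) :=
    (continuous_apply i).comp ((A4_cont_left G (Pi.single j 1)).comp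
      ((A4_cont_dl G.wt g).prodMk (A4_cont_dl G.wt h)))
  have key := A4_limit _ hc hij (fderiv ℝ (fun p => G.mul p h) g (Pi.single j 1) i)
    (fun r hr => A4_hom_left G hr g h i j)
  rw [key]
  have hw : ∀ x : Fin n → ℝ, dl G.wt 0 x = 0 := by
    intro x; funext k
    have hk : G.wt k ≠ 0 := by have := G.wt_pos k; omega
    simp only [dl, zero_pow hk, zero_mul, Pi.zero_apply]
  have h0 : (fun p => G.mul p 0) = id := by funext x; exact G.mul_zero x
  rw [hw, hw, h0, fderiv_id]
  by_cases hi : i = j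
  · subst hi; simp
  · simp [hi]

theorem A4_ge (G : Carnot n) {j : ℕ} {v : Fin n → ℝ} (hv : Ge G j v) (i : Fin n)
    (hij : G.wt i ≤ j) (L : (Fin n → ℝ) →L[ℝ] (Fin n → ℝ))
    (hL : ∀ k, G.wt i ≤ G.wt k → L (Pi.single k 1) i = if i = k then 1 else 0) : L v i = v i := by
  have hd : v = ∑ k, v k • (Pi.single k (1 : ℝ) : Fin n → ℝ) := by
    funext m
    simp [Finset.sum_apply, Pi.single_apply]
  have h1 : L v = ∑ k, v k • L (Pi.single k 1) := by
    conv_lhs => rw [hd]
    simp only [map_sum, map_smul]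
  rw [h1, Finset.sum_apply]
  have h2 : ∀ k ∈ Finset.univ, (v k • L (Pi.single k 1)) i = if i = k then v k else 0 := by
    intro k _
    rw [Pi.smul_apply, smul_eq_mul]
    by_cases hk : G.wt k < j
    · rw [hv k hk]; simp
    · rw [hL k (by omega)]
      split_ifs <;> simp
  rw [Finset.sum_congr rfl h2]
  simp

/-- the same for vectors without components of low weight -/
theorem fderiv_right_ge (G : Carnot n) (g h : Fin n → ℝ) {j : ℕ} {v : Fin n → ℝ} (hv : Ge G j v)
    (i : Fin n) (hij : G.wt i ≤ j) : fderiv ℝ (G.mul g) h v i = v i :=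
  A4_ge G hv i hij _ (fun k hk => fderiv_right_tri G g h i k hk)

theorem fderiv_left_ge (G : Carnot n) (g h : Fin n → ℝ) {j : ℕ} {v : Fin n → ℝ} (hv : Ge G j v)
    (i : Fin n) (hij : G.wt i ≤ j) : fderiv ℝ (fun p => G.mul p h) g v i = v i :=
  A4_ge G hv i hij _ (fun k hk => fderiv_left_tri G g h i k hk)

end Pool.Agent.CMC
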