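import Pool.Agent.Lib_helper36.CMC.Defs

set_option autoImplicit false

namespace Pool.Agent.CMC

open MeasureTheory Set
open scoped ContDiff

variable {n : ℕ}

/-- the determinant of a matrix which is block triangular with respect to the weights depends only
on the blocks on the diagonal -/
theorem det_tri (wt : Fin n → ℕ) (A B : Matrix (Fin n) (Fin n) ℝ)
    (h : ∀ i j, wt i ≤ wt j → A i j = B i j) (h0 : ∀ i j, wt i < wt j → B i j = 0) :
    A.det = B.det := by
  have hA : A.BlockTriangular (fun i => OrderDual.toDual (wt i)) := by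
    intro i j hij
    have hij' : wt i < wt j := OrderDual.toDual_lt_toDual.1 hij
    rw [h i j hij'.le]
    exact h0 i j hij'
  have hB : B.BlockTriangular (fun i => OrderDual.toDual (wt i)) := by
    intro i j hij
    have hij' : wt i < wt j := OrderDual.toDual_lt_toDual.1 hij
    exact h0 i j hij'
  rw [hA.det, hB.det]
  refine Finset.prod_congr rfl (fun a _ => ?_)
  have hE : A.toSquareBlock (fun i => OrderDual.toDual (wt i)) a
      = B.toSquareBlock (fun i => OrderDual.toDual (wt i)) a := by
    ext ⟨i, hi⟩ ⟨j, hj⟩
    have hij : wt i = wt j := by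
      have : OrderDual.toDual (wt i) = OrderDual.toDual (wt j) := by rw [hi, hj]
      exact OrderDual.toDual.injective this
    exact h i j hij.le
  rw [hE]

/-- `det (1 + c e eᵀ) = 1 + c |e|²` -/
theorem det_rank_one (c : ℝ) (e : Fin n → ℝ) :
    (Matrix.of fun i j : Fin n => (if i = j then (1 : ℝ) else 0) + c * e j * e i).det
      = 1 + c * nsq e := by
  have hM : (Matrix.of fun i j : Fin n => (if i = j then (1 : ℝ) else 0) + c * e j * e i)
      = 1 + Matrix.replicateCol Unit (fun i => c * e i) * Matrix.replicateRow Unit e := by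
    ext i j
    rw [Matrix.of_apply, Matrix.add_apply, Matrix.one_apply, Matrix.mul_apply]
    simp only [Finset.univ_unique, Matrix.replicateCol_apply, Matrix.replicateRow_apply,
      Finset.sum_const, Finset.card_singleton, one_smul]
    ring
  rw [hM, Matrix.det_one_add_replicateCol_mul_replicateRow]
  unfold nsq
  simp only [dotProduct, Finset.mul_sum]
  congr 1
  refine Finset.sum_congr rfl (fun i _ => ?_)
  ring

theorem det_clm_matrix (L : (Fin n → ℝ) →L[ℝ] (Fin n → ℝ)) :
    L.det = (Matrix.of fun i j : Fin n => L (Pi.single j 1) i).det := by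
  have h1 : L.det = LinearMap.det (L : (Fin n → ℝ) →ₗ[ℝ] (Fin n → ℝ)) := rfl
  rw [h1, ← LinearMap.det_toMatrix']
  congr 1

/-- linear maps which are unipotent with respect to the weights -/
theorem det_clm_tri (wt : Fin n → ℕ) (L : (Fin n → ℝ) →L[ℝ] (Fin n → ℝ))
    (h : ∀ i j, wt i ≤ wt j → L (Pi.single j 1) i = if i = j then 1 else 0) : L.det = 1 := by
  rw [det_clm_matrix, det_tri wt _ 1]
  · exact Matrix.det_one
  · intro i j hij
    rw [Matrix.of_apply, h i j hij, Matrix.one_apply]
  · intro i j hij
    have : i ≠ j := by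
      rintro rfl
      exact lt_irrefl _ hij
    rw [Matrix.one_apply, if_neg this]

/-- the same with one more term of rank one in the weight one block -/
theorem det_clm_rank_one (wt : Fin n → ℕ) (c : ℝ) {e : Fin n → ℝ} (he : e ∈ lay wt 1)
    (hwt : ∀ i, 1 ≤ wt i) (L : (Fin n → ℝ) →L[ℝ] (Fin n → ℝ))
    (h : ∀ i j, wt i ≤ wt j → L (Pi.single j 1) i = (if i = j then 1 else 0) + c * e j * e i) :
    L.det = 1 + c * nsq e := by
  rw [det_clm_matrix, det_tri wt _
    (Matrix.of fun i j : Fin n => (if i = j then (1 : ℝ) else 0) + c * e j * e i)]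
  · exact det_rank_one c e
  · intro i j hij
    rw [Matrix.of_apply, Matrix.of_apply, h i j hij]
  · intro i j hij
    have hne : i ≠ j := by
      rintro rfl
      exact lt_irrefl _ hij
    have hj : e j = 0 := by
      have h1 := hwt i
      have h2 : wt j ≠ 1 := by omega
      exact he j h2
    rw [Matrix.of_apply, if_neg hne, hj]
    ring

end Pool.Agent.CMC
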