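import Pool.Agent.Lib_helper36.CMC.Defs
import Pool.Agent.Lib_helper36.CMC.W.A1
import Pool.Agent.Lib_helper36.CMC.W.A2
import Pool.Agent.Lib_helper36.CMC.W.A4
import Pool.Agent.Lib_helper36.CMC.W.DET

set_option autoImplicit false

namespace Pool.Agent.CMC

open MeasureTheory Set
open scoped ContDiff

variable {n : ℕ}

theorem volume_mul_image (G : Carnot n) (g : Fin n → ℝ) {A : Set (Fin n → ℝ)}
    (hA : MeasurableSet A) : volume (G.mul g '' A) = volume A := by
  have hinj : InjOn (G.mul g) A := by
    intro a _ b _ hab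
    have h : G.mul (-g) (G.mul g a) = G.mul (-g) (G.mul g b) := congrArg (G.mul (-g)) hab
    rwa [G.neg_mul_cancel, G.neg_mul_cancel] at h
  have hd : ∀ x ∈ A, HasFDerivWithinAt (G.mul g) (fderiv ℝ (G.mul g) x) A x := by
    intro x _
    exact (((smooth_right G g).differentiable (by simp)) x).hasFDerivAt.hasFDerivWithinAt
  rw [← lintegral_abs_det_fderiv_eq_addHaar_image volume hA hd hinj]
  have hdet : ∀ x : Fin n → ℝ, ENNReal.ofReal |(fderiv ℝ (G.mul g) x).det| = 1 := by
    intro x
    rw [det_clm_tri G.wt (fderiv ℝ (G.mul g) x) (fun i j hij => fderiv_right_tri G g x i j hij)]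
    simp
  simp only [hdet, lintegral_const, one_mul, Measure.restrict_apply, MeasurableSet.univ, univ_inter]

theorem volume_mul_image' (G : Carnot n) (h : Fin n → ℝ) {A : Set (Fin n → ℝ)}
    (hA : MeasurableSet A) : volume ((fun g => G.mul g h) '' A) = volume A := by
  have hinj : InjOn (fun g => G.mul g h) A := by
    intro a _ b _ hab
    have h2 : G.mul (G.mul a h) (-h) = G.mul (G.mul b h) (-h) :=
      congrArg (fun x => G.mul x (-h)) hab
    rwa [G.mul_mul_neg, G.mul_mul_neg] at h2
  have hd : ∀ x ∈ A, HasFDerivWithinAt (fun g => G.mul g h) (fderiv ℝ (fun g => G.mul g h) x) A x := by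
    intro x _
    exact (((smooth_left G h).differentiable (by simp)) x).hasFDerivAt.hasFDerivWithinAt
  rw [← lintegral_abs_det_fderiv_eq_addHaar_image volume hA hd hinj]
  have hdet : ∀ x : Fin n → ℝ, ENNReal.ofReal |(fderiv ℝ (fun g => G.mul g h) x).det| = 1 := by
    intro x
    rw [det_clm_tri G.wt (fderiv ℝ (fun g => G.mul g h) x)
      (fun i j hij => fderiv_left_tri G x h i j hij)]
    simp
  simp only [hdet, lintegral_const, one_mul, Measure.restrict_apply, MeasurableSet.univ, univ_inter]

/-- Lebesgue measure is a left and right Haar measure of the group -/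
theorem measurePreserving_left (G : Carnot n) (g : Fin n → ℝ) :
    MeasurePreserving (G.mul g) volume volume := by
  have hm : Measurable (G.mul g) := (smooth_right G g).continuous.measurable
  refine ⟨hm, ?_⟩
  ext A hA
  rw [Measure.map_apply hm hA]
  have hpre : G.mul g ⁻¹' A = G.mul (-g) '' A := by
    ext x
    constructor
    · intro hx
      exact ⟨G.mul g x, hx, G.neg_mul_cancel g x⟩
    · rintro ⟨y, hy, rfl⟩
      show G.mul g (G.mul (-g) y) ∈ A
      rw [G.mul_neg_cancel]
      exact hy
  rw [hpre, volume_mul_image G (-g) hA]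

theorem measurePreserving_right (G : Carnot n) (h : Fin n → ℝ) :
    MeasurePreserving (fun g => G.mul g h) volume volume := by
  have hm : Measurable (fun g => G.mul g h) := (smooth_left G h).continuous.measurable
  refine ⟨hm, ?_⟩
  ext A hA
  rw [Measure.map_apply hm hA]
  have hpre : (fun g => G.mul g h) ⁻¹' A = (fun g => G.mul g (-h)) '' A := by
    ext x
    constructor
    · intro hx
      exact ⟨G.mul x h, hx, G.mul_mul_neg x h⟩
    · rintro ⟨y, hy, rfl⟩
      show G.mul (G.mul y (-h)) h ∈ A
      rw [G.mul_neg_mul]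
      exact hy
  rw [hpre, volume_mul_image' G (-h) hA]

end Pool.Agent.CMC
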