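import Pool.Agent.Lib_helper36.CMC.Defs
import Pool.Agent.Lib_helper36.CMC.W.A1
import Pool.Agent.Lib_helper36.CMC.W.A2

set_option autoImplicit false

namespace Pool.Agent.CMC

open MeasureTheory Set
open scoped ContDiff

variable {n : ℕ}

/-- the bracket is the antisymmetric part of `∂₁∂₂ (g h)` at `(0, 0)` -/
theorem brk_eq_bet (G : Carnot n) (a b : Fin n → ℝ) : brk G.mul a b = bet G a b - bet G b a := by
  have ha : lif G.mul a 0 = a := X_at_zero G a
  have hb : lif G.mul b 0 = b := X_at_zero G b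
  unfold brk
  rw [VectorField.lieBracket_eq]
  change fderiv ℝ (lif G.mul b) 0 (lif G.mul a 0) - fderiv ℝ (lif G.mul a) 0 (lif G.mul b 0) = _
  rw [ha, hb]
  rfl

theorem bet_add_left (G : Carnot n) (a b c : Fin n → ℝ) : bet G (a + b) c = bet G a c + bet G b c := by
  unfold bet; exact map_add _ _ _

theorem bet_smul_left (G : Carnot n) (s : ℝ) (a c : Fin n → ℝ) : bet G (s • a) c = s • bet G a c := by
  unfold bet; exact map_smul _ _ _

theorem bet_add_right (G : Carnot n) (a b c : Fin n → ℝ) : bet G a (b + c) = bet G a b + bet G a c := by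
  have h : X G (b + c) = fun g => X G b g + X G c g := by
    funext g
    exact X_add G b c g
  have hb : DifferentiableAt ℝ (X G b) 0 := (smooth_X G b).differentiable (by simp) 0
  have hc : DifferentiableAt ℝ (X G c) 0 := (smooth_X G c).differentiable (by simp) 0
  unfold bet
  rw [h, fderiv_fun_add hb hc]
  rfl

theorem bet_smul_right (G : Carnot n) (s : ℝ) (a c : Fin n → ℝ) : bet G a (s • c) = s • bet G a c := by
  have h : X G (s • c) = fun g => s • X G c g := by
    funext g
    exact X_smul G s c g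
  have hc : DifferentiableAt ℝ (X G c) 0 := (smooth_X G c).differentiable (by simp) 0
  unfold bet
  rw [h, fderiv_fun_const_smul hc]
  rfl

/-- the lines `t ↦ t v` are one parameter subgroups -/
theorem bet_self (G : Carnot n) (v : Fin n → ℝ) : bet G v v = 0 := by
  have h1 : ∀ t : ℝ, X G v (t • v) = v := by
    intro t
    have h2 := hasDerivAt_mul_smul G 0 v t
    have h3 : (fun s : ℝ => G.mul 0 (s • v)) = fun s : ℝ => s • v := by
      funext s
      exact G.zero_mul _
    rw [h3, G.zero_mul] at h2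
    have h4 : HasDerivAt (fun s : ℝ => s • v) ((1 : ℝ) • v) t := (hasDerivAt_id t).smul_const v
    rw [one_smul] at h4
    exact h2.unique h4
  have hv : DifferentiableAt ℝ (X G v) 0 := (smooth_X G v).differentiable (by simp) 0
  have h5 : HasDerivAt (fun s : ℝ => s • v) ((1 : ℝ) • v) 0 := (hasDerivAt_id (0 : ℝ)).smul_const v
  rw [one_smul] at h5
  have h6 : HasFDerivAt (X G v) (fderiv ℝ (X G v) 0) ((0 : ℝ) • v) := by
    rw [zero_smul]
    exact hv.hasFDerivAt
  have h7 := h6.comp_hasDerivAt (0 : ℝ) h5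
  have h8 : (X G v ∘ fun s : ℝ => s • v) = fun _ : ℝ => v := by
    funext s
    exact h1 s
  rw [h8] at h7
  exact h7.unique (hasDerivAt_const (0 : ℝ) v)

theorem bet_antisymm (G : Carnot n) (a b : Fin n → ℝ) : bet G a b = -bet G b a := by
  have h := bet_self G (a + b)
  rw [bet_add_left, bet_add_right, bet_add_right, bet_self, bet_self, zero_add, add_zero] at h
  exact eq_neg_of_add_eq_zero_left h

theorem brk_eq_two_bet (G : Carnot n) (a b : Fin n → ℝ) : brk G.mul a b = (2 : ℝ) • bet G a b := by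
  rw [brk_eq_bet, bet_antisymm G b a]; module

theorem bet_eq_half_brk (G : Carnot n) (a b : Fin n → ℝ) :
    bet G a b = (1 / 2 : ℝ) • brk G.mul a b := by
  rw [brk_eq_two_bet, smul_smul]; norm_num

theorem brk_add_left (G : Carnot n) (a b c : Fin n → ℝ) :
    brk G.mul (a + b) c = brk G.mul a c + brk G.mul b c := by
  rw [brk_eq_two_bet, brk_eq_two_bet, brk_eq_two_bet, bet_add_left, smul_add]

theorem brk_add_right (G : Carnot n) (a b c : Fin n → ℝ) :
    brk G.mul a (b + c) = brk G.mul a b + brk G.mul a c := by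
  rw [brk_eq_two_bet, brk_eq_two_bet, brk_eq_two_bet, bet_add_right, smul_add]

theorem brk_smul_left (G : Carnot n) (s : ℝ) (a b : Fin n → ℝ) :
    brk G.mul (s • a) b = s • brk G.mul a b := by
  rw [brk_eq_two_bet, brk_eq_two_bet, bet_smul_left, smul_comm]

theorem brk_smul_right (G : Carnot n) (s : ℝ) (a b : Fin n → ℝ) :
    brk G.mul a (s • b) = s • brk G.mul a b := by
  rw [brk_eq_two_bet, brk_eq_two_bet, bet_smul_right, smul_comm]

theorem brk_self (G : Carnot n) (a : Fin n → ℝ) : brk G.mul a a = 0 := by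
  rw [brk_eq_two_bet, bet_self, smul_zero]

theorem brk_antisymm (G : Carnot n) (a b : Fin n → ℝ) : brk G.mul a b = -brk G.mul b a := by
  rw [brk_eq_two_bet, brk_eq_two_bet, bet_antisymm, smul_neg]

/-- the bracket as a bilinear map -/
noncomputable def brkL (G : Carnot n) : (Fin n → ℝ) →ₗ[ℝ] (Fin n → ℝ) →ₗ[ℝ] (Fin n → ℝ) :=
  LinearMap.mk₂ ℝ (brk G.mul) (brk_add_left G) (brk_smul_left G) (brk_add_right G)
    (brk_smul_right G)

theorem brkL_apply (G : Carnot n) (a b : Fin n → ℝ) : brkL G a b = brk G.mul a b := rfl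

end Pool.Agent.CMC
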