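import Pool.Agent.Lib_helper36.CMC.Defs
import Pool.Agent.Lib_helper36.CMC.W.B0

set_option autoImplicit false

namespace Pool.Agent.CMC

open MeasureTheory Set
open scoped ContDiff

variable {n : ℕ}

lemma b12_single_mem (G : Carnot n) (k : Fin n) :
    (Pi.single k (1 : ℝ) : Fin n → ℝ) ∈ lay G.wt (G.wt k) := by
  intro i hi
  have h : i ≠ k := fun h => hi (by rw [h])
  simp [Pi.single_eq_of_ne h]

lemma b12_decomp (G : Carnot n) {i j : Fin n} (hij : i ≠ j)
    (hw : ∀ k, G.wt k = 1 ↔ k = i ∨ k = j) {a : Fin n → ℝ} (ha : a ∈ lay G.wt 1) :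
    a = a i • (Pi.single i (1 : ℝ) : Fin n → ℝ) + a j • (Pi.single j (1 : ℝ) : Fin n → ℝ) := by
  funext k
  by_cases hi : k = i
  · subst hi
    simp [Pi.single_eq_of_ne hij]
  · by_cases hj : k = j
    · subst hj
      simp [Pi.single_eq_of_ne hi]
    · have h1 : G.wt k ≠ 1 := fun h => by
        rcases (hw k).mp h with h | h
        · exact hi h
        · exact hj h
      simp [Pi.single_eq_of_ne hi, Pi.single_eq_of_ne hj, ha k h1]

lemma b12_brk (G : Carnot n) {i j : Fin n} (hij : i ≠ j)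
    (hw : ∀ k, G.wt k = 1 ↔ k = i ∨ k = j) {a b : Fin n → ℝ} (ha : a ∈ lay G.wt 1)
    (hb : b ∈ lay G.wt 1) :
    brk G.mul a b = (a i * b j - a j * b i) •
      brk G.mul (Pi.single i (1 : ℝ)) (Pi.single j (1 : ℝ)) := by
  have e1 := b12_decomp G hij hw ha
  have e2 := b12_decomp G hij hw hb
  conv_lhs => rw [e1, e2]
  rw [brk_add_left, brk_add_right, brk_add_right, brk_smul_left, brk_smul_left, brk_smul_left,
    brk_smul_left, brk_smul_right, brk_smul_right, brk_smul_right, brk_smul_right, brk_self,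
    brk_self, brk_antisymm G (Pi.single j (1 : ℝ)) (Pi.single i (1 : ℝ))]
  module

/-- in rank two and step at least three the criterion applies -/
theorem rank_two (G : Carnot n) (h2 : ∃ i j : Fin n, i ≠ j ∧ ∀ k, G.wt k = 1 ↔ k = i ∨ k = j)
    (h3 : ∃ k, 3 ≤ G.wt k) :
    ∃ Y ∈ lay G.wt 1, ∃ l : (Fin n → ℝ) →ₗ[ℝ] ℝ,
      (∀ a ∈ lay G.wt 1, ∀ b ∈ lay G.wt 1, l (brk G.mul Y (brk G.mul a b)) = 0) ∧
      (∀ a ∈ lay G.wt 1, 0 ≤ l (brk G.mul a (brk G.mul a Y))) ∧
      ∃ a ∈ lay G.wt 1, l (brk G.mul a (brk G.mul a Y)) ≠ 0 := by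
  obtain ⟨i, j, hij, hw⟩ := h2
  obtain ⟨k, hk⟩ := h3
  have hwi : G.wt i = 1 := (hw i).mpr (Or.inl rfl)
  have hwj : G.wt j = 1 := (hw j).mpr (Or.inr rfl)
  -- some bracket of layers one and two is nonzero
  have hex : ∃ a ∈ lay G.wt 1, ∃ b ∈ lay G.wt 2, brk G.mul a b ≠ 0 := by
    by_contra hcon
    push Not at hcon
    have h3 : ∀ m : ℕ, lay G.wt (m + 3) = ⊥ := by
      intro m
      induction m with
      | zero =>
        have h := G.strat 2 (by norm_num)
        rw [show (0 + 3 : ℕ) = 2 + 1 from rfl, h, Submodule.span_eq_bot]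
        rintro c ⟨a, ha, b, hb, rfl⟩
        exact hcon a ha b hb
      | succ m ih =>
        have h := G.strat (m + 3) (by omega)
        rw [show (m + 1 + 3 : ℕ) = m + 3 + 1 from by ring, h, Submodule.span_eq_bot]
        rintro c ⟨a, ha, b, hb, rfl⟩
        rw [ih, Submodule.mem_bot] at hb
        have h0 := brk_smul_right G 0 a b
        rw [zero_smul, zero_smul] at h0
        rw [hb]
        exact h0
    obtain ⟨m, hm⟩ : ∃ m, G.wt k = m + 3 := ⟨G.wt k - 3, by omega⟩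
    have h4 := b12_single_mem G k
    rw [hm, h3 m, Submodule.mem_bot] at h4
    have h5 := congrFun h4 k
    simp at h5
  obtain ⟨a0, ha0, b0, hb0, hne⟩ := hex
  -- `b0` is a multiple of `Z`
  have hb1 : b0 ∈ Submodule.span ℝ
      {brk G.mul (Pi.single i (1 : ℝ)) (Pi.single j (1 : ℝ))} := by
    have h := G.strat 1 le_rfl
    have hb2 : b0 ∈ lay G.wt (1 + 1) := hb0
    rw [h] at hb2
    refine Submodule.span_le.mpr ?_ hb2
    rintro c ⟨a, ha, b, hb, rfl⟩
    rw [b12_brk G hij hw ha hb]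
    exact Submodule.smul_mem _ _ (Submodule.subset_span rfl)
  obtain ⟨μ, hμ⟩ := Submodule.mem_span_singleton.mp hb1
  have hne2 : brk G.mul a0 (brk G.mul (Pi.single i (1 : ℝ)) (Pi.single j (1 : ℝ))) ≠ 0 := by
    intro h
    apply hne
    rw [← hμ, brk_smul_right, h, smul_zero]
  obtain ⟨c, hc⟩ := Function.ne_iff.mp hne2
  have hc' : brk G.mul a0 (brk G.mul (Pi.single i (1 : ℝ)) (Pi.single j (1 : ℝ))) c ≠ 0 := hc
  set Z : Fin n → ℝ := brk G.mul (Pi.single i (1 : ℝ)) (Pi.single j (1 : ℝ)) with hZ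
  set l : (Fin n → ℝ) →ₗ[ℝ] ℝ := LinearMap.proj c with hl
  set p : ℝ := l (brk G.mul (Pi.single i (1 : ℝ)) Z) with hp
  set q : ℝ := l (brk G.mul (Pi.single j (1 : ℝ)) Z) with hq
  have hlin : ∀ a ∈ lay G.wt 1, l (brk G.mul a Z) = a i * p + a j * q := by
    intro a ha
    conv_lhs => rw [b12_decomp G hij hw ha]
    rw [brk_add_left, brk_smul_left, brk_smul_left, map_add, map_smul, map_smul, smul_eq_mul,
      smul_eq_mul]
  have hei : (Pi.single i (1 : ℝ) : Fin n → ℝ) ∈ lay G.wt 1 := by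
    have h := b12_single_mem G i
    rwa [hwi] at h
  have hej : (Pi.single j (1 : ℝ) : Fin n → ℝ) ∈ lay G.wt 1 := by
    have h := b12_single_mem G j
    rwa [hwj] at h
  have hY : -q • (Pi.single i (1 : ℝ) : Fin n → ℝ) + p • (Pi.single j (1 : ℝ) : Fin n → ℝ) ∈
      lay G.wt 1 :=
    Submodule.add_mem _ (Submodule.smul_mem _ _ hei) (Submodule.smul_mem _ _ hej)
  set Y : Fin n → ℝ :=
    -q • (Pi.single i (1 : ℝ) : Fin n → ℝ) + p • (Pi.single j (1 : ℝ) : Fin n → ℝ) with hYdef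
  have hYi : Y i = -q := by
    simp [hYdef, Pi.single_eq_of_ne hij]
  have hYj : Y j = p := by
    simp [hYdef, Pi.single_eq_of_ne (Ne.symm hij)]
  have hsq : ∀ a ∈ lay G.wt 1, l (brk G.mul a (brk G.mul a Y)) =
      l (brk G.mul a Z) ^ 2 := by
    intro a ha
    rw [b12_brk G hij hw ha hY, brk_smul_right, map_smul, smul_eq_mul, hYi, hYj, hlin a ha]
    ring
  refine ⟨Y, hY, l, ?_, ?_, a0, ha0, ?_⟩
  · intro a ha b hb
    rw [b12_brk G hij hw ha hb, brk_smul_right, map_smul, hlin Y hY, hYi, hYj, smul_eq_mul]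
    ring
  · intro a ha
    rw [hsq a ha]
    positivity
  · rw [hsq a0 ha0]
    exact pow_ne_zero 2 hc'

end Pool.Agent.CMC
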