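import Pool.Agent.Lib_helper36.CMC.Defs

set_option autoImplicit false

namespace Pool.Agent.CMC

open MeasureTheory Set
open scoped ContDiff

variable {n : ℕ}

theorem B10_expand (S : (Fin n → ℝ) →ₗ[ℝ] (Fin n → ℝ) →ₗ[ℝ] ℝ) (v : Fin n → ℝ) :
    S v v = ∑ i, ∑ j, v i * (v j * S (fun k => if i = k then 1 else 0)
      (fun k => if j = k then 1 else 0)) := by
  rw [LinearMap.pi_apply_eq_sum_univ S v, LinearMap.sum_apply]
  refine Finset.sum_congr rfl fun i _ => ?_
  rw [LinearMap.smul_apply, LinearMap.pi_apply_eq_sum_univ (S fun k => if i = k then 1 else 0) v,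
    Finset.smul_sum]
  rfl

theorem B10_nsq_nonneg (v : Fin n → ℝ) : 0 ≤ nsq v := Finset.sum_nonneg fun i _ => sq_nonneg _

theorem B10_eq_zero {v : Fin n → ℝ} (h : nsq v = 0) : v = 0 := by
  funext i
  have := (Finset.sum_eq_zero_iff_of_nonneg (fun i _ => sq_nonneg (v i))).1 h i (Finset.mem_univ i)
  exact pow_eq_zero_iff (two_ne_zero) |>.1 this

theorem B10_nsq_smul (c : ℝ) (v : Fin n → ℝ) : nsq (c • v) = c ^ 2 * nsq v := by
  unfold nsq
  rw [Finset.mul_sum]
  refine Finset.sum_congr rfl fun i _ => ?_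
  simp only [Pi.smul_apply, smul_eq_mul]; ring

theorem B10_nsq_add (e v : Fin n → ℝ) (t : ℝ) :
    nsq (e + t • v) = nsq e + 2 * t * dt e v + t ^ 2 * nsq v := by
  unfold nsq dt
  rw [Finset.mul_sum, Finset.mul_sum, ← Finset.sum_add_distrib, ← Finset.sum_add_distrib]
  refine Finset.sum_congr rfl fun i _ => ?_
  simp only [Pi.smul_apply, Pi.add_apply, smul_eq_mul]; ring

/-- the eigenvector at the maximum of a positive semidefinite form on a subspace -/
theorem exists_eig (V : Submodule ℝ (Fin n → ℝ)) (S : (Fin n → ℝ) →ₗ[ℝ] (Fin n → ℝ) →ₗ[ℝ] ℝ)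
    (hsymm : ∀ a ∈ V, ∀ b ∈ V, S a b = S b a) (hpos : ∀ a ∈ V, 0 ≤ S a a)
    (hne : ∃ a ∈ V, S a a ≠ 0) :
    ∃ e ∈ V, nsq e = 1 ∧ ∃ s : ℝ, 0 < s ∧ (∀ v ∈ V, S e v = s * dt e v) ∧
      ∀ v ∈ V, S v v ≤ s * nsq v := by
  have hcont : Continuous fun v : Fin n → ℝ => S v v := by
    have : (fun v : Fin n → ℝ => S v v) = fun v => ∑ i, ∑ j, v i * (v j *
        S (fun k => if i = k then 1 else 0) (fun k => if j = k then 1 else 0)) := by
      funext v; exact B10_expand S v
    rw [this]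
    fun_prop
  have hnc : Continuous fun v : Fin n → ℝ => nsq v := by
    unfold nsq; fun_prop
  have hVc : IsClosed (V : Set (Fin n → ℝ)) := Submodule.closed_of_finiteDimensional V
  have hK : IsCompact {v : Fin n → ℝ | v ∈ V ∧ nsq v = 1} := by
    refine Metric.isCompact_of_isClosed_isBounded ?_ ?_
    · exact IsClosed.inter hVc (isClosed_eq hnc continuous_const)
    · refine (Metric.isBounded_closedBall (x := (0 : Fin n → ℝ)) (r := 1)).subset ?_
      rintro v ⟨-, hv⟩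
      rw [mem_closedBall_zero_iff, pi_norm_le_iff_of_nonneg zero_le_one]
      intro i
      have h1 : v i ^ 2 ≤ 1 := by
        rw [← hv]
        exact Finset.single_le_sum (f := fun i => v i ^ 2) (fun i _ => sq_nonneg _)
          (Finset.mem_univ i)
      rw [Real.norm_eq_abs]
      exact abs_le_one_iff_mul_self_le_one.2 (by nlinarith)
  have hnorm : ∀ v ∈ V, nsq v ≠ 0 → (Real.sqrt (nsq v))⁻¹ • v ∈ {v | v ∈ V ∧ nsq v = 1} := by
    intro v hv h
    refine ⟨V.smul_mem _ hv, ?_⟩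
    rw [B10_nsq_smul, inv_pow, Real.sq_sqrt (B10_nsq_nonneg v), inv_mul_cancel₀ h]
  obtain ⟨a, haV, ha⟩ := hne
  have ha0 : nsq a ≠ 0 := by
    intro h
    rw [B10_eq_zero h] at ha
    simp at ha
  obtain ⟨e, ⟨heV, he1⟩, hmax⟩ := hK.exists_isMaxOn ⟨_, hnorm a haV ha0⟩ hcont.continuousOn
  have hle : ∀ v ∈ V, S v v ≤ S e e * nsq v := by
    intro v hv
    by_cases h : nsq v = 0
    · rw [B10_eq_zero h]; simp [nsq]
    · have h1 := hmax (hnorm v hv h)
      simp only [Set.mem_ofPred_eq, map_smul, LinearMap.smul_apply, smul_eq_mul] at h1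
      have h2 : 0 < nsq v := lt_of_le_of_ne (B10_nsq_nonneg v) (Ne.symm h)
      have h3 : (Real.sqrt (nsq v))⁻¹ * ((Real.sqrt (nsq v))⁻¹ * S v v) = S v v / nsq v := by
        rw [← mul_assoc, ← sq, inv_pow, Real.sq_sqrt h2.le]; ring
      rw [h3, div_le_iff₀ h2] at h1
      exact h1
  have hs : 0 < S e e := by
    have h1 := hle a haV
    have h2 : 0 < S a a := lt_of_le_of_ne (hpos a haV) (Ne.symm ha)
    have h3 := B10_nsq_nonneg a
    by_contra hcon
    push Not at hcon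
    have := mul_nonpos_of_nonpos_of_nonneg hcon h3
    linarith
  refine ⟨e, heV, he1, S e e, hs, ?_, hle⟩
  intro v hv
  set c := S e e * nsq v - S v v with hc
  have hc0 : 0 ≤ c := by rw [hc]; linarith [hle v hv]
  set b := S e v - S e e * dt e v with hb
  have key : ∀ t : ℝ, 2 * t * b ≤ t ^ 2 * c := by
    intro t
    have h1 := hle (e + t • v) (V.add_mem heV (V.smul_mem t hv))
    rw [B10_nsq_add, he1] at h1
    simp only [map_add, LinearMap.add_apply, map_smul, LinearMap.smul_apply, smul_eq_mul] at h1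
    rw [hsymm v hv e heV] at h1
    rw [hb, hc]
    nlinarith [h1]
  have h1 := key (b / (c + 1))
  have hc1 : 0 < c + 1 := by linarith
  have h2 : 2 * (b / (c + 1)) * b = 2 * b ^ 2 / (c + 1) := by ring
  have h3 : (b / (c + 1)) ^ 2 * c = b ^ 2 * c / (c + 1) ^ 2 := by rw [div_pow]; ring
  rw [h2, h3, div_le_div_iff₀ hc1 (by positivity)] at h1
  have h4 : 2 * b ^ 2 * (c + 1) ≤ b ^ 2 * c := by
    have h5 : (2 * b ^ 2 * (c + 1)) * (c + 1) ≤ (b ^ 2 * c) * (c + 1) := by nlinarith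
    exact le_of_mul_le_mul_right h5 hc1
  have h6 : b ^ 2 ≤ 0 := by nlinarith [sq_nonneg b, mul_nonneg (sq_nonneg b) hc0]
  have h7 : b = 0 := pow_eq_zero_iff (two_ne_zero) |>.1 (le_antisymm h6 (sq_nonneg b))
  rw [hb] at h7
  linarith

end Pool.Agent.CMC
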