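import Pool.Agent.Lib_helper36.CMC.Defs
import Pool.Agent.Lib_helper36.CMC.W.A1
import Pool.Agent.Lib_helper36.CMC.W.A2
import Pool.Agent.Lib_helper36.CMC.W.B0

set_option autoImplicit false

namespace Pool.Agent.CMC

open MeasureTheory Set
open scoped ContDiff

variable {n : ℕ}

/-- the brackets of left-invariant fields are left-invariant -/
theorem lieBracket_X (G : Carnot n) (a b g : Fin n → ℝ) :
    VectorField.lieBracket ℝ (X G a) (X G b) g = X G (brk G.mul a b) g := by
  have hLd : ∀ x, DifferentiableAt ℝ (G.mul g) x := fun x =>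
    ((smooth_right G g).differentiable (by simp)) x
  have hXd : ∀ c x, DifferentiableAt ℝ (X G c) x := fun c x =>
    ((smooth_X G c).differentiable (by simp)) x
  have hmain := VectorField.fderiv_apply_lieBracket (𝕜 := ℝ) (f := G.mul g) (x := 0)
    (V := X G a) (W := X G b) (n := 2) (((smooth_right G g).of_le (WithTop.coe_le_coe.2 le_top)).contDiffAt) (by simp)
    (hXd b 0) (hXd a 0)
  have e1 : ∀ c : Fin n → ℝ, (fun x => fderiv ℝ (G.mul g) x (X G c x)) =
      fun x => X G c (G.mul g x) := by
    intro c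
    funext x
    exact fderiv_mul_X G g x c
  have e2 : ∀ c d : Fin n → ℝ, fderiv ℝ (fun x => X G c (G.mul g x)) 0 (X G d 0) =
      fderiv ℝ (X G c) g (X G d g) := by
    intro c d
    have h1 : fderiv ℝ (fun x => X G c (G.mul g x)) 0 =
        (fderiv ℝ (X G c) (G.mul g 0)).comp (fderiv ℝ (G.mul g) 0) :=
      fderiv_comp (0 : Fin n → ℝ) (hXd c _) (hLd 0)
    rw [h1, ContinuousLinearMap.comp_apply, fderiv_mul_X, G.mul_zero]
  rw [e1, e1, e2, e2] at hmain
  have h3 : X G (brk G.mul a b) g = fderiv ℝ (G.mul g) 0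
      (VectorField.lieBracket ℝ (X G a) (X G b) 0) := rfl
  rw [h3, hmain, VectorField.lieBracket_eq]

end Pool.Agent.CMC
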