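import Pool.Agent.Lib_helper36.CMC.Defs
import Pool.Agent.Lib_helper36.CMC.W.A1
import Pool.Agent.Lib_helper36.CMC.W.A2
import Pool.Agent.Lib_helper36.CMC.W.B0
import Pool.Agent.Lib_helper36.CMC.W.B1

set_option autoImplicit false

namespace Pool.Agent.CMC

open MeasureTheory Set
open scoped ContDiff

variable {n : ℕ}

theorem jacobi (G : Carnot n) (a b c : Fin n → ℝ) :
    brk G.mul a (brk G.mul b c) = brk G.mul (brk G.mul a b) c + brk G.mul b (brk G.mul a c) := by
  have hb : ∀ u v : Fin n → ℝ,
      VectorField.lieBracket ℝ (X G u) (X G v) = X G (brk G.mul u v) := by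
    intro u v
    funext g
    exact lieBracket_X G u v g
  have h0 : ∀ u v : Fin n → ℝ, brk G.mul u v = VectorField.lieBracket ℝ (X G u) (X G v) 0 :=
    fun _ _ => rfl
  have h := VectorField.leibniz_identity_lieBracket (𝕜 := ℝ) (n := ∞) (x := (0 : Fin n → ℝ))
    (U := X G a) (V := X G b) (W := X G c) (by simpa using ENat.LEInfty.out)
    (smooth_X G a).contDiffAt (smooth_X G b).contDiffAt (smooth_X G c).contDiffAt
  rw [hb b c, hb a b, hb a c] at h
  rw [h0 a (brk G.mul b c), h0 (brk G.mul a b) c, h0 b (brk G.mul a c)]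
  exact h

end Pool.Agent.CMC
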