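import Pool.Agent.Lib_helper36.CMC.Defs
import Pool.Agent.Lib_helper36.CMC.W.A1
import Pool.Agent.Lib_helper36.CMC.W.A2
import Pool.Agent.Lib_helper36.CMC.W.A3
import Pool.Agent.Lib_helper36.CMC.W.B0

set_option autoImplicit false

namespace Pool.Agent.CMC

open MeasureTheory Set
open scoped ContDiff

variable {n : ℕ}

theorem bet_dl (G : Carnot n) {r : ℝ} (hr : 0 < r) (a b : Fin n → ℝ) :
    bet G (dl G.wt r a) (dl G.wt r b) = dl G.wt r (bet G a b) := by
  have hdiff : ∀ c : Fin n → ℝ, Differentiable ℝ (X G c) := fun c =>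
    (smooth_X G c).differentiable (by simp)
  -- the identity of maps
  have hid : (fun g => X G (dl G.wt r b) (dlL G.wt r g)) = fun g => dlL G.wt r (X G b g) := by
    funext g
    exact X_dl G hr b g
  -- derivative of the left-hand side at zero
  have h1 : HasFDerivAt (fun g => X G (dl G.wt r b) (dlL G.wt r g))
      ((fderiv ℝ (X G (dl G.wt r b)) 0).comp (dlL G.wt r)) 0 := by
    have hz : dlL G.wt r (0 : Fin n → ℝ) = 0 := map_zero _
    have hX : HasFDerivAt (X G (dl G.wt r b)) (fderiv ℝ (X G (dl G.wt r b)) 0)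
        (dlL G.wt r (0 : Fin n → ℝ)) := by
      rw [hz]
      exact (hdiff (dl G.wt r b) 0).hasFDerivAt
    exact hX.comp (0 : Fin n → ℝ) (dlL G.wt r).hasFDerivAt
  have h2 : HasFDerivAt (fun g => dlL G.wt r (X G b g))
      ((dlL G.wt r).comp (fderiv ℝ (X G b) 0)) 0 :=
    (dlL G.wt r).hasFDerivAt.comp (0 : Fin n → ℝ) (hdiff b 0).hasFDerivAt
  rw [hid] at h1
  have h3 := h1.unique h2
  have h4 := congrArg (fun L : (Fin n → ℝ) →L[ℝ] (Fin n → ℝ) => L a) h3
  exact h4

/-- the bracket respects the grading -/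
theorem brk_lay (G : Carnot n) {i j : ℕ} {a b : Fin n → ℝ} (ha : a ∈ lay G.wt i)
    (hb : b ∈ lay G.wt j) : brk G.mul a b ∈ lay G.wt (i + j) := by
  intro k hk
  have h := bet_dl G (r := 2) (by norm_num) a b
  rw [dl_lay G.wt 2 ha, dl_lay G.wt 2 hb, bet_smul_left, bet_smul_right] at h
  have hk2 := congrFun h k
  simp only [Pi.smul_apply, smul_eq_mul, dl] at hk2
  have hne : (2 : ℝ) ^ G.wt k ≠ 2 ^ (i + j) := by
    intro he
    exact hk (Nat.pow_right_injective (le_refl 2) (by exact_mod_cast he))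
  have h0 : bet G a b k = 0 := by
    have h5 : ((2 : ℝ) ^ G.wt k - 2 ^ (i + j)) * bet G a b k = 0 := by
      rw [pow_add]
      linarith
    rcases mul_eq_zero.mp h5 with h6 | h6
    · exact absurd (sub_eq_zero.mp h6) hne
    · exact h6
  rw [brk_eq_two_bet, Pi.smul_apply, h0, smul_zero]

theorem pj_mem (G : Carnot n) (j : ℕ) (g : Fin n → ℝ) : pj G j g ∈ lay G.wt j := fun i hi => by
  simp [pj, hi]

theorem pj_of_mem (G : Carnot n) {j : ℕ} {g : Fin n → ℝ} (hg : g ∈ lay G.wt j) :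
    pj G j g = g := by
  funext i
  by_cases h : G.wt i = j
  · simp [pj, h]
  · simp [pj, h, hg i h]

end Pool.Agent.CMC
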