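import Pool.Agent.Lib_helper36.CMC.Defs
import Pool.Agent.Lib_helper36.CMC.W.A3

set_option autoImplicit false

namespace Pool.Agent.CMC

open MeasureTheory Set
open scoped ContDiff

variable {n : ℕ}

theorem homog_dl_at_zero (G : Carnot n) (g : Fin n → ℝ) : dl G.wt 0 g = 0 := by
  funext i
  have h := G.wt_pos i
  simp only [dl, Pi.zero_apply]
  rw [zero_pow (by omega), MulZeroClass.zero_mul]

theorem homog_dl_deriv (G : Carnot n) (g : Fin n → ℝ) (r : ℝ) :
    HasDerivAt (fun s : ℝ => dl G.wt s g)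
      (fun i => ((G.wt i : ℝ) * r ^ (G.wt i - 1)) * g i) r := by
  rw [hasDerivAt_pi]
  intro i
  simp only [dl]
  exact (hasDerivAt_pow (G.wt i) r).mul_const (g i)

theorem homog_dl_deriv_zero (G : Carnot n) (g : Fin n → ℝ) :
    (fun i => ((G.wt i : ℝ) * (0 : ℝ) ^ (G.wt i - 1)) * g i) = pj G 1 g := by
  funext i
  have h := G.wt_pos i
  simp only [pj]
  by_cases h1 : G.wt i = 1
  · simp [h1]
  · rw [if_neg h1, zero_pow (by omega), MulZeroClass.mul_zero, MulZeroClass.zero_mul]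

theorem homog_dl_deriv2 (G : Carnot n) (g : Fin n → ℝ) :
    HasDerivAt (fun s : ℝ => (fun i => ((G.wt i : ℝ) * s ^ (G.wt i - 1)) * g i : Fin n → ℝ))
      ((2 : ℝ) • pj G 2 g) 0 := by
  rw [hasDerivAt_pi]
  intro i
  have h := G.wt_pos i
  have h1 := (((hasDerivAt_pow (G.wt i - 1) (0 : ℝ)).const_mul (G.wt i : ℝ)).mul_const (g i))
  refine h1.congr_deriv ?_
  show _ = (2 : ℝ) * (if G.wt i = 2 then g i else 0)
  by_cases h2 : G.wt i = 2
  · simp [h2]
  · rw [if_neg h2]
    by_cases h3 : G.wt i = 1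
    · simp [h3]
    · rw [zero_pow (by omega)]
      ring

theorem homog_unique {φ : ℝ → ℝ} {a b : ℝ} (h1 : HasDerivAt φ a 0)
    (h2 : ∀ r : ℝ, 0 < r → φ r = r * b) (h0 : φ 0 = 0) : a = b := by
  have h3 : HasDerivWithinAt φ b (Ici 0) 0 := by
    have h4 : HasDerivWithinAt (fun r : ℝ => r * b) b (Ici 0) 0 := by
      have h5 := (hasDerivAt_id (0 : ℝ)).mul_const b
      simp only [id, one_mul] at h5
      exact h5.hasDerivWithinAt
    refine h4.congr (fun r hr => ?_) (by rw [h0, MulZeroClass.zero_mul])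
    rcases eq_or_lt_of_le (mem_Ici.1 hr) with h6 | h6
    · rw [← h6, h0, MulZeroClass.zero_mul]
    · exact h2 r h6
  exact ((uniqueDiffOn_Ici (0 : ℝ)) 0 self_mem_Ici).eq_deriv _ h1.hasDerivWithinAt h3

/-- smooth functions which are homogeneous of degree one -/
theorem homog_one (G : Carnot n) {f : (Fin n → ℝ) → ℝ} (hf : ContDiff ℝ ∞ f)
    (h : ∀ r : ℝ, 0 < r → ∀ g, f (dl G.wt r g) = r * f g) (g : Fin n → ℝ) :
    f g = fderiv ℝ f 0 (pj G 1 g) := by
  have hd : Differentiable ℝ f := hf.differentiable (by simp)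
  have h00 : f 0 = 0 := by
    have h1 := h 2 (by norm_num) 0
    rw [dl_zero] at h1
    linarith
  have h1 : HasDerivAt (fun s : ℝ => f (dl G.wt s g)) (fderiv ℝ f 0 (pj G 1 g)) 0 := by
    have h2 := homog_dl_deriv G g 0
    rw [homog_dl_deriv_zero] at h2
    have h3 : HasFDerivAt f (fderiv ℝ f 0) (dl G.wt 0 g) := by
      rw [homog_dl_at_zero]
      exact (hd 0).hasFDerivAt
    exact h3.comp_hasDerivAt (0 : ℝ) h2
  exact (homog_unique h1 (fun r hr => h r hr g) (by rw [homog_dl_at_zero, h00])).symm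

/-- smooth functions which are homogeneous of degree two -/
theorem homog_two (G : Carnot n) {f : (Fin n → ℝ) → ℝ} (hf : ContDiff ℝ ∞ f)
    (h : ∀ r : ℝ, 0 < r → ∀ g, f (dl G.wt r g) = r ^ 2 * f g) (g : Fin n → ℝ) :
    f g = fderiv ℝ f 0 (pj G 2 g) +
      (1 / 2) * fderiv ℝ (fderiv ℝ f) 0 (pj G 1 g) (pj G 1 g) := by
  have hd : Differentiable ℝ f := hf.differentiable (by simp)
  have hd2 : Differentiable ℝ (fderiv ℝ f) :=
    (hf.fderiv_right (m := 1) (by norm_cast)).differentiable (by simp)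
  have h00 : f 0 = 0 := by
    have h1 := h 2 (by norm_num) 0
    rw [dl_zero] at h1
    linarith
  -- first derivative
  have h1 : ∀ r : ℝ, HasDerivAt (fun s : ℝ => f (dl G.wt s g))
      (fderiv ℝ f (dl G.wt r g) (fun i => ((G.wt i : ℝ) * r ^ (G.wt i - 1)) * g i)) r := by
    intro r
    exact ((hd (dl G.wt r g)).hasFDerivAt).comp_hasDerivAt r (homog_dl_deriv G g r)
  have h2 : ∀ r : ℝ, 0 < r →
      fderiv ℝ f (dl G.wt r g) (fun i => ((G.wt i : ℝ) * r ^ (G.wt i - 1)) * g i)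
        = r * (2 * f g) := by
    intro r hr
    have h3 : HasDerivAt (fun s : ℝ => f (dl G.wt s g)) (2 * r * f g) r := by
      have h4 : HasDerivAt (fun s : ℝ => s ^ 2 * f g) (2 * r * f g) r := by
        have h5 := (hasDerivAt_pow 2 r).mul_const (f g)
        simpa using h5
      refine h4.congr_of_eventuallyEq ?_
      filter_upwards [Ioi_mem_nhds hr] with s hs
      exact h s hs g
    rw [(h1 r).unique h3]
    ring
  have h3 : fderiv ℝ f (dl G.wt 0 g) (fun i => ((G.wt i : ℝ) * (0 : ℝ) ^ (G.wt i - 1)) * g i)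
      = 0 := by
    have h4 := h1 0
    have h5 : HasDerivWithinAt (fun s : ℝ => f (dl G.wt s g)) 0 (Ici 0) 0 := by
      have h6 : HasDerivWithinAt (fun s : ℝ => s ^ 2 * f g) 0 (Ici 0) 0 := by
        have h7 := (hasDerivAt_pow 2 (0 : ℝ)).mul_const (f g)
        simp only [Nat.cast_ofNat, MulZeroClass.mul_zero, MulZeroClass.zero_mul,
          Nat.add_one_sub_one, pow_one] at h7
        simpa using h7.hasDerivWithinAt
      refine h6.congr (fun r hr => ?_) (by simp [homog_dl_at_zero, h00])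
      rcases eq_or_lt_of_le (mem_Ici.1 hr) with h8 | h8
      · rw [← h8]
        simp [homog_dl_at_zero, h00]
      · exact h r h8 g
    exact ((uniqueDiffOn_Ici (0 : ℝ)) 0 self_mem_Ici).eq_deriv _ h4.hasDerivWithinAt h5
  -- second derivative
  have h4 : HasDerivAt (fun r : ℝ => fderiv ℝ f (dl G.wt r g)
      (fun i => ((G.wt i : ℝ) * r ^ (G.wt i - 1)) * g i))
      (fderiv ℝ (fderiv ℝ f) 0 (pj G 1 g) (pj G 1 g) + fderiv ℝ f 0 ((2 : ℝ) • pj G 2 g)) 0 := by
    have h5 := homog_dl_deriv G g 0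
    rw [homog_dl_deriv_zero] at h5
    have h6 : HasFDerivAt (fderiv ℝ f) (fderiv ℝ (fderiv ℝ f) 0) (dl G.wt 0 g) := by
      rw [homog_dl_at_zero]
      exact (hd2 0).hasFDerivAt
    have h7 := (h6.comp_hasDerivAt (0 : ℝ) h5).clm_apply (homog_dl_deriv2 G g)
    simp only [Function.comp] at h7
    rw [homog_dl_at_zero, homog_dl_deriv_zero] at h7
    exact h7
  have h5 := homog_unique h4 h2 h3
  rw [map_smul, smul_eq_mul] at h5
  linarith

end Pool.Agent.CMC
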