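import Pool.Agent.Lib_helper36.CMC.Defs
import Pool.Agent.Lib_helper36.CMC.W.A1
import Pool.Agent.Lib_helper36.CMC.W.A2
import Pool.Agent.Lib_helper36.CMC.W.A3
import Pool.Agent.Lib_helper36.CMC.W.B0
import Pool.Agent.Lib_helper36.CMC.W.B3
import Pool.Agent.Lib_helper36.CMC.W.B5

set_option autoImplicit false

namespace Pool.Agent.CMC

open MeasureTheory Set
open scoped ContDiff

variable {n : ℕ}

/-- the component of weight `j + 1` of a left-invariant field of weight `j` -/
theorem X_next (G : Carnot n) {j : ℕ} {a : Fin n → ℝ} (ha : a ∈ lay G.wt j) (g : Fin n → ℝ)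
    (i : Fin n) (hi : G.wt i = j + 1) :
    X G a g i = (1 / 2) * brk G.mul (pj G 1 g) a i := by
  have hsm : ContDiff ℝ ∞ (fun p : Fin n → ℝ => X G a p i) := contDiff_pi.1 (smooth_X G a) i
  have hh : ∀ r : ℝ, 0 < r → ∀ p : Fin n → ℝ,
      (fun p : Fin n → ℝ => X G a p i) (dl G.wt r p) =
        r * (fun p : Fin n → ℝ => X G a p i) p := by
    intro r hr p
    have h1 := X_dl_lay G hr ha p i
    rw [hi, pow_succ, mul_assoc] at h1
    exact mul_left_cancel₀ (pow_pos hr j).ne' h1
  have h := homog_one G hsm hh g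
  have hd : DifferentiableAt ℝ (X G a) 0 :=
    ((smooth_X G a).differentiable (by simp)).differentiableAt
  have h2 : fderiv ℝ (fun p : Fin n → ℝ => X G a p i) 0 (pj G 1 g) =
      fderiv ℝ (X G a) 0 (pj G 1 g) i := by
    have h3 := (hasFDerivAt_pi'.1 hd.hasFDerivAt i).fderiv
    rw [h3]
    rfl
  have h4 : bet G (pj G 1 g) a i = (1 / 2) * brk G.mul (pj G 1 g) a i := by
    rw [bet_eq_half_brk]; rfl
  rw [← h4]
  exact h.trans h2

end Pool.Agent.CMC
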