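import Pool.Agent.Lib_helper36.CMC.Defs
import Pool.Agent.Lib_helper36.CMC.W.A1
import Pool.Agent.Lib_helper36.CMC.W.A2
import Pool.Agent.Lib_helper36.CMC.W.A4

set_option autoImplicit false

namespace Pool.Agent.CMC

open MeasureTheory Set
open scoped ContDiff

variable {n : ℕ}

theorem mul_low_left (G : Carnot n) {j : ℕ} {a : Fin n → ℝ} (ha : Ge G j a) (b : Fin n → ℝ)
    (i : Fin n) (hi : G.wt i ≤ j) : G.mul a b i = a i + b i := by
  have hd : ∀ s : ℝ, HasDerivAt (fun s : ℝ => G.mul (s • a) b i - s * a i) 0 s := by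
    intro s
    have h1 : HasFDerivAt (fun p => G.mul p b) (fderiv ℝ (fun p => G.mul p b) (s • a)) (s • a) :=
      (((smooth_left G b).differentiable (by simp)) _).hasFDerivAt
    have h2 : HasDerivAt (fun s : ℝ => s • a) a s := by
      simpa using (hasDerivAt_id s).smul_const a
    have h3 := h1.comp_hasDerivAt s h2
    have h4 := (hasDerivAt_pi.1 h3) i
    have h5 : HasDerivAt (fun s : ℝ => s * a i) (a i) s := by
      simpa using (hasDerivAt_id s).mul_const (a i)
    have h6 := h4.sub h5
    rw [fderiv_left_ge G (s • a) b ha i hi, sub_self] at h6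
    exact h6
  have hc := is_const_of_deriv_eq_zero (fun s => (hd s).differentiableAt)
    (fun s => (hd s).deriv) 1 0
  simp only [one_smul, zero_smul, G.zero_mul, one_mul, zero_mul, sub_zero] at hc
  linarith

theorem mul_low_right (G : Carnot n) {j : ℕ} {a : Fin n → ℝ} (ha : Ge G j a) (b : Fin n → ℝ)
    (i : Fin n) (hi : G.wt i ≤ j) : G.mul b a i = b i + a i := by
  have hd : ∀ s : ℝ, HasDerivAt (fun s : ℝ => G.mul b (s • a) i - s * a i) 0 s := by
    intro s
    have h1 : HasFDerivAt (G.mul b) (fderiv ℝ (G.mul b) (s • a)) (s • a) :=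
      (((smooth_right G b).differentiable (by simp)) _).hasFDerivAt
    have h2 : HasDerivAt (fun s : ℝ => s • a) a s := by
      simpa using (hasDerivAt_id s).smul_const a
    have h3 := h1.comp_hasDerivAt s h2
    have h4 := (hasDerivAt_pi.1 h3) i
    have h5 : HasDerivAt (fun s : ℝ => s * a i) (a i) s := by
      simpa using (hasDerivAt_id s).mul_const (a i)
    have h6 := h4.sub h5
    rw [fderiv_right_ge G b (s • a) ha i hi, sub_self] at h6
    exact h6
  have hc := is_const_of_deriv_eq_zero (fun s => (hd s).differentiableAt)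
    (fun s => (hd s).deriv) 1 0
  simp only [one_smul, zero_smul, G.mul_zero, one_mul, zero_mul, sub_zero] at hc
  linarith

theorem ge_one (G : Carnot n) (a : Fin n → ℝ) : Ge G 1 a := fun i hi =>
  absurd (G.wt_pos i) (by omega)

theorem mul_wt1 (G : Carnot n) (a b : Fin n → ℝ) (i : Fin n) (hi : G.wt i = 1) :
    G.mul a b i = a i + b i :=
  mul_low_left G (ge_one G a) b i hi.le

theorem X_wt1 (G : Carnot n) (a g : Fin n → ℝ) (i : Fin n) (hi : G.wt i = 1) :
    X G a g i = a i :=
  fderiv_right_ge G g 0 (ge_one G a) i hi.le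

theorem ge_mul (G : Carnot n) {j : ℕ} {a b : Fin n → ℝ} (ha : Ge G j a) (hb : Ge G j b) :
    Ge G j (G.mul a b) := fun i hi => by
  rw [mul_low_left G ha b i hi.le, ha i hi, hb i hi, add_zero]

theorem ge_neg (G : Carnot n) {j : ℕ} {a : Fin n → ℝ} (ha : Ge G j a) : Ge G j (-a) :=
  fun i hi => by rw [Pi.neg_apply, ha i hi, neg_zero]

theorem ge_dl (G : Carnot n) {j : ℕ} {a : Fin n → ℝ} (ha : Ge G j a) (r : ℝ) :
    Ge G j (dl G.wt r a) := fun i hi => by
  simp only [dl]; rw [ha i hi, mul_zero]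

theorem ge_mono (G : Carnot n) {j k : ℕ} (hjk : j ≤ k) {a : Fin n → ℝ} (ha : Ge G k a) :
    Ge G j a := fun i hi => ha i (by omega)

end Pool.Agent.CMC
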