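import Pool.Agent.Lib_helper36.CMC.Defs
import Pool.Agent.Lib_helper36.CMC.W.A1
import Pool.Agent.Lib_helper36.CMC.W.A2
import Pool.Agent.Lib_helper36.CMC.W.A3
import Pool.Agent.Lib_helper36.CMC.W.A4
import Pool.Agent.Lib_helper36.CMC.W.B0
import Pool.Agent.Lib_helper36.CMC.W.B1
import Pool.Agent.Lib_helper36.CMC.W.B2
import Pool.Agent.Lib_helper36.CMC.W.B3
import Pool.Agent.Lib_helper36.CMC.W.B5
import Pool.Agent.Lib_helper36.CMC.W.B6
import Pool.Agent.Lib_helper36.CMC.W.C1

set_option autoImplicit false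

namespace Pool.Agent.CMC

open MeasureTheory Set
open scoped ContDiff

variable {n : ℕ}

/-- the second derivative at `0` of a component of a left-invariant field -/
noncomputable def wq (G : Carnot n) (i : Fin n) (a u v : Fin n → ℝ) : ℝ :=
  fderiv ℝ (fderiv ℝ (fun g => X G a g i)) 0 u v

theorem wq_smooth (G : Carnot n) (a : Fin n → ℝ) (i : Fin n) :
    ContDiff ℝ ∞ (fun g => X G a g i) := (contDiff_pi.1 (smooth_X G a)) i

theorem wq_fderiv (G : Carnot n) (a g w : Fin n → ℝ) (i : Fin n) :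
    fderiv ℝ (fun g => X G a g i) g w = (fderiv ℝ (X G a) g w) i := by
  have hd : DifferentiableAt ℝ (X G a) g :=
    ((smooth_X G a).differentiable (by simp)) g
  have h := hasFDerivAt_pi'.1 hd.hasFDerivAt i
  rw [h.fderiv]
  rfl

theorem wq_symm (G : Carnot n) (a u v : Fin n → ℝ) (i : Fin n) :
    wq G i a u v = wq G i a v u := by
  have h : IsSymmSndFDerivAt ℝ (fun g => X G a g i) 0 :=
    ((wq_smooth G a i).contDiffAt).isSymmSndFDerivAt (by
      rw [minSmoothness_of_isRCLikeNormedField]; exact WithTop.coe_le_coe.2 le_top)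
  exact h u v

theorem wq_add_left (G : Carnot n) (a u u' v : Fin n → ℝ) (i : Fin n) :
    wq G i a (u + u') v = wq G i a u v + wq G i a u' v := by
  unfold wq; rw [map_add]; rfl

theorem wq_add_right (G : Carnot n) (a u v v' : Fin n → ℝ) (i : Fin n) :
    wq G i a u (v + v') = wq G i a u v + wq G i a u v' := by
  unfold wq; rw [map_add]

theorem wq_smul_left (G : Carnot n) (c : ℝ) (a u v : Fin n → ℝ) (i : Fin n) :
    wq G i a (c • u) v = c * wq G i a u v := by
  unfold wq; rw [map_smul]; rfl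

theorem wq_smul_right (G : Carnot n) (c : ℝ) (a u v : Fin n → ℝ) (i : Fin n) :
    wq G i a u (c • v) = c * wq G i a u v := by
  unfold wq; rw [map_smul]; rfl

theorem wq_pj_other (G : Carnot n) {j k : ℕ} (hjk : j ≠ k) {g : Fin n → ℝ} (hg : g ∈ lay G.wt j) :
    pj G k g = 0 := by
  funext i
  by_cases h : G.wt i = k
  · simp only [pj, if_pos h, Pi.zero_apply]
    exact hg i (by omega)
  · simp [pj, h]

theorem wq_eq (G : Carnot n) {a : Fin n → ℝ} (ha : a ∈ lay G.wt 1) (g : Fin n → ℝ)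
    (i : Fin n) (hi : G.wt i = 3) :
    X G a g i = (1 / 2) * brk G.mul (pj G 2 g) a i + (1 / 2) * wq G i a (pj G 1 g) (pj G 1 g) := by
  have h := homog_two G (wq_smooth G a i) (fun r hr g => by
    have h1 := X_dl_lay G hr ha g i
    rw [hi, pow_one] at h1
    have h2 : r * (X G a (dl G.wt r g) i) = r * (r ^ 2 * X G a g i) := by
      rw [h1]; ring
    exact mul_left_cancel₀ hr.ne' h2) g
  rw [h, wq_fderiv]
  have h3 : fderiv ℝ (X G a) 0 (pj G 2 g) = bet G (pj G 2 g) a := rfl
  rw [h3, bet_eq_half_brk]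
  rfl

theorem wq_lay (G : Carnot n) {a g : Fin n → ℝ} (ha : a ∈ lay G.wt 1) (hg : g ∈ lay G.wt 1)
    (i : Fin n) (hi : G.wt i = 3) : X G a g i = (1 / 2) * wq G i a g g := by
  rw [wq_eq G ha g i hi, wq_pj_other G (by norm_num : (1 : ℕ) ≠ 2) hg, pj_of_mem G hg]
  have h0 : brk G.mul 0 a = 0 := by
    have h := brk_smul_left G 0 0 a
    rw [zero_smul, zero_smul] at h
    exact h
  rw [h0]
  simp

theorem wq_add_first (G : Carnot n) {a b u v : Fin n → ℝ} (ha : a ∈ lay G.wt 1)
    (hb : b ∈ lay G.wt 1) (hu : u ∈ lay G.wt 1) (hv : v ∈ lay G.wt 1)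
    (i : Fin n) (hi : G.wt i = 3) :
    wq G i (a + b) u v = wq G i a u v + wq G i b u v := by
  have hD : ∀ w ∈ lay G.wt 1, wq G i (a + b) w w = wq G i a w w + wq G i b w w := by
    intro w hw
    have h1 := wq_lay G ((lay G.wt 1).add_mem ha hb) hw i hi
    rw [X_add, Pi.add_apply, wq_lay G ha hw i hi, wq_lay G hb hw i hi] at h1
    linarith
  have h1 := hD (u + v) ((lay G.wt 1).add_mem hu hv)
  simp only [wq_add_left, wq_add_right] at h1
  rw [hD u hu, hD v hv, wq_symm G (a + b) v u, wq_symm G a v u, wq_symm G b v u] at h1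
  linarith

theorem wq_smul_first (G : Carnot n) (c : ℝ) {a u v : Fin n → ℝ} (ha : a ∈ lay G.wt 1)
    (hu : u ∈ lay G.wt 1) (hv : v ∈ lay G.wt 1)
    (i : Fin n) (hi : G.wt i = 3) :
    wq G i (c • a) u v = c * wq G i a u v := by
  have hD : ∀ w ∈ lay G.wt 1, wq G i (c • a) w w = c * wq G i a w w := by
    intro w hw
    have h1 := wq_lay G ((lay G.wt 1).smul_mem c ha) hw i hi
    rw [X_smul, Pi.smul_apply, wq_lay G ha hw i hi, smul_eq_mul] at h1
    linarith
  have h1 := hD (u + v) ((lay G.wt 1).add_mem hu hv)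
  simp only [wq_add_left, wq_add_right] at h1
  rw [hD u hu, hD v hv, wq_symm G (c • a) v u, wq_symm G a v u] at h1
  linarith

/-- `X_v(v) = v` -/
theorem wq_X_self (G : Carnot n) (v : Fin n → ℝ) : X G v v = v := by
  have h1 := hasDerivAt_mul_smul_zero G v v
  have h2 : HasDerivAt (fun s : ℝ => G.mul v (s • v)) v 0 := by
    have h3 : (fun s : ℝ => G.mul v (s • v)) = fun s : ℝ => (1 + s) • v := by
      funext s
      have h4 := G.expo v 1 s
      rwa [one_smul] at h4
    rw [h3]
    have h5 := ((hasDerivAt_id (0 : ℝ)).const_add 1).smul_const v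
    rw [one_smul] at h5
    exact h5
  exact h1.unique h2

theorem wq_self (G : Carnot n) {v : Fin n → ℝ} (hv : v ∈ lay G.wt 1)
    (i : Fin n) (hi : G.wt i = 3) : wq G i v v v = 0 := by
  have h1 := wq_lay G hv hv i hi
  rw [wq_X_self, hv i (by omega)] at h1
  linarith

/-- polarization -/
theorem wq_pol (G : Carnot n) {b v : Fin n → ℝ} (hb : b ∈ lay G.wt 1) (hv : v ∈ lay G.wt 1)
    (i : Fin n) (hi : G.wt i = 3) : wq G i b v v + 2 * wq G i v v b = 0 := by
  have hexp : ∀ t : ℝ, wq G i v v v + t * wq G i v v b + t * wq G i v v b + t * t * wq G i v b b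
      + (t * wq G i b v v + t * (t * wq G i b v b) + t * (t * wq G i b v b)
        + t * (t * (t * wq G i b b b))) = 0 := by
    intro t
    have htb : t • b ∈ lay G.wt 1 := (lay G.wt 1).smul_mem t hb
    have hs : v + t • b ∈ lay G.wt 1 := (lay G.wt 1).add_mem hv htb
    have h1 := wq_self G hs i hi
    rw [wq_add_first G hv htb hs hs i hi] at h1
    rw [wq_smul_first G t hb hs hs i hi] at h1
    simp only [wq_add_left, wq_add_right, wq_smul_left, wq_smul_right] at h1
    rw [wq_symm G v b v, wq_symm G b b v] at h1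
    linarith
  have h1 := hexp 1
  have h2 := hexp (-1)
  have h3 := wq_self G hb i hi
  linarith

/-- the derivative at a horizontal point -/
theorem wq_deriv (G : Carnot n) {a g : Fin n → ℝ} (ha : a ∈ lay G.wt 1) (hg : g ∈ lay G.wt 1)
    (w : Fin n → ℝ) (i : Fin n) (hi : G.wt i = 3) :
    (fderiv ℝ (X G a) g w) i = (1 / 2) * brk G.mul (pj G 2 w) a i + wq G i a g (pj G 1 w) := by
  rw [← wq_fderiv]
  have hd : DifferentiableAt ℝ (fun g => X G a g i) g :=
    ((wq_smooth G a i).differentiable (by simp)) g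
  have h1 : HasDerivAt (fun t : ℝ => X G a (g + t • w) i)
      (fderiv ℝ (fun g => X G a g i) g w) 0 := by
    have h2 : HasDerivAt (fun t : ℝ => g + t • w) w 0 := by
      have h5 := ((hasDerivAt_id (0 : ℝ)).smul_const w).const_add g
      rw [one_smul] at h5
      exact h5
    have h3 : HasFDerivAt (fun g => X G a g i) (fderiv ℝ (fun g => X G a g i) g)
        (g + (0 : ℝ) • w) := by
      rw [zero_smul, add_zero]; exact hd.hasFDerivAt
    exact h3.comp_hasDerivAt (0 : ℝ) h2
  have hp2 : ∀ t : ℝ, pj G 2 (g + t • w) = t • pj G 2 w := by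
    intro t
    funext k
    by_cases hk : G.wt k = 2
    · simp [pj, hk, hg k (by omega)]
    · simp [pj, hk]
  have hp1 : ∀ t : ℝ, pj G 1 (g + t • w) = g + t • pj G 1 w := by
    intro t
    funext k
    by_cases hk : G.wt k = 1
    · simp [pj, hk]
    · simp [pj, hk, hg k hk]
  have h2 : (fun t : ℝ => X G a (g + t • w) i) = fun t : ℝ =>
      t * ((1 / 2) * brk G.mul (pj G 2 w) a i + wq G i a g (pj G 1 w))
      + ((1 / 2) * wq G i a g g + t ^ 2 * ((1 / 2) * wq G i a (pj G 1 w) (pj G 1 w))) := by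
    funext t
    rw [wq_eq G ha (g + t • w) i hi, hp2, hp1, brk_smul_left]
    simp only [wq_add_left, wq_add_right, wq_smul_left, wq_smul_right, Pi.smul_apply, smul_eq_mul]
    rw [wq_symm G a (pj G 1 w) g]
    ring
  rw [h2] at h1
  have h3 : HasDerivAt (fun t : ℝ =>
      t * ((1 / 2) * brk G.mul (pj G 2 w) a i + wq G i a g (pj G 1 w))
      + ((1 / 2) * wq G i a g g + t ^ 2 * ((1 / 2) * wq G i a (pj G 1 w) (pj G 1 w))))
      ((1 / 2) * brk G.mul (pj G 2 w) a i + wq G i a g (pj G 1 w)) 0 := by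
    have h4 := ((hasDerivAt_id (0 : ℝ)).mul_const
      ((1 / 2) * brk G.mul (pj G 2 w) a i + wq G i a g (pj G 1 w))).add
      (((hasDerivAt_pow 2 (0 : ℝ)).mul_const
        ((1 / 2) * wq G i a (pj G 1 w) (pj G 1 w))).const_add ((1 / 2) * wq G i a g g))
    refine HasDerivAt.congr_deriv h4 ?_
    simp
  exact h1.unique h3

/-- the commutator identity -/
theorem wq_comm (G : Carnot n) {a b g : Fin n → ℝ} (ha : a ∈ lay G.wt 1) (hb : b ∈ lay G.wt 1)
    (hg : g ∈ lay G.wt 1) (i : Fin n) (hi : G.wt i = 3) :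
    wq G i b g a - wq G i a g b = (1 / 4) * brk G.mul g (brk G.mul a b) i := by
  have hp1 : ∀ c ∈ lay G.wt 1, pj G 1 (X G c g) = c := by
    intro c hc
    funext k
    by_cases hk : G.wt k = 1
    · simp only [pj, if_pos hk]
      exact X_wt1 G c g k hk
    · simp [pj, hk, hc k hk]
  have hp2 : ∀ c ∈ lay G.wt 1, pj G 2 (X G c g) = (1 / 2 : ℝ) • brk G.mul g c := by
    intro c hc
    funext k
    by_cases hk : G.wt k = 2
    · simp only [pj, if_pos hk]
      rw [X_next G hc g k hk, pj_of_mem G hg]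
      rfl
    · have h1 : brk G.mul g c k = 0 := brk_lay G hg hc k hk
      simp [pj, hk, h1]
  have h1 := congrFun (lieBracket_X G a b g) i
  have hab : brk G.mul a b ∈ lay G.wt 2 := brk_lay G ha hb
  rw [X_next G hab g i hi, pj_of_mem G hg] at h1
  unfold VectorField.lieBracket at h1
  rw [Pi.sub_apply, wq_deriv G hb hg _ i hi, wq_deriv G ha hg _ i hi, hp1 a ha, hp1 b hb,
    hp2 a ha, hp2 b hb, brk_smul_left, brk_smul_left] at h1
  simp only [Pi.smul_apply, smul_eq_mul] at h1
  have h2 := congrFun (jacobi G g a b) i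
  rw [Pi.add_apply, brk_antisymm G a (brk G.mul g b), Pi.neg_apply] at h2
  linarith

/-- the component of weight three of a horizontal left-invariant field -/
theorem X_wt3 (G : Carnot n) {a : Fin n → ℝ} (ha : a ∈ lay G.wt 1) (g : Fin n → ℝ)
    (i : Fin n) (hi : G.wt i = 3) :
    X G a g i = (1 / 2) * brk G.mul (pj G 2 g) a i +
      (1 / 12) * brk G.mul (pj G 1 g) (brk G.mul (pj G 1 g) a) i := by
  rw [wq_eq G ha g i hi]
  have hv := pj_mem G 1 g
  have h1 := wq_comm G hv ha hv i hi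
  have h2 := wq_pol G ha hv i hi
  linarith

end Pool.Agent.CMC
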