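import Pool.Agent.Lib_helper36.CMC.Defs
import Pool.Agent.Lib_helper36.CMC.W.A1
import Pool.Agent.Lib_helper36.CMC.W.A2
import Pool.Agent.Lib_helper36.CMC.W.B0
import Pool.Agent.Lib_helper36.CMC.W.B3
import Pool.Agent.Lib_helper36.CMC.W.B6
import Pool.Agent.Lib_helper36.CMC.W.B7
import Pool.Agent.Lib_helper36.CMC.W.C1

set_option autoImplicit false

namespace Pool.Agent.CMC

open MeasureTheory Set
open scoped ContDiff

variable {n : ℕ}

/-- a function with `X_A W = l [g₁, [g₁, A]]` -/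
noncomputable def Wf (G : Carnot n) (l : (Fin n → ℝ) →ₗ[ℝ] ℝ) (g : Fin n → ℝ) : ℝ :=
  3 * l (pj G 3 g) + 3 / 2 * l (brk G.mul (pj G 1 g) (pj G 2 g))

/-- the projection as a linear map -/
noncomputable def B8_pjL (G : Carnot n) (j : ℕ) : (Fin n → ℝ) →ₗ[ℝ] (Fin n → ℝ) where
  toFun := pj G j
  map_add' := fun a b => by
    funext i
    by_cases h : G.wt i = j <;> simp [pj, h]
  map_smul' := fun c a => by
    funext i
    by_cases h : G.wt i = j <;> simp [pj, h]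

theorem B8_pjL_apply (G : Carnot n) (j : ℕ) (g : Fin n → ℝ) : B8_pjL G j g = pj G j g := rfl

/-- the linear part -/
noncomputable def B8_L (G : Carnot n) (l : (Fin n → ℝ) →ₗ[ℝ] ℝ) : (Fin n → ℝ) →L[ℝ] ℝ :=
  LinearMap.toContinuousLinearMap ((3 : ℝ) • l.comp (B8_pjL G 3))

theorem B8_L_apply (G : Carnot n) (l : (Fin n → ℝ) →ₗ[ℝ] ℝ) (g : Fin n → ℝ) :
    B8_L G l g = 3 * l (pj G 3 g) := rfl

/-- the bilinear part -/
noncomputable def B8_B (G : Carnot n) (l : (Fin n → ℝ) →ₗ[ℝ] ℝ) :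
    (Fin n → ℝ) →L[ℝ] (Fin n → ℝ) →L[ℝ] ℝ :=
  LinearMap.toContinuousBilinearMap
    ((3 / 2 : ℝ) • ((brkL G).compl₁₂ (B8_pjL G 1) (B8_pjL G 2)).compr₂ l)

theorem B8_B_apply (G : Carnot n) (l : (Fin n → ℝ) →ₗ[ℝ] ℝ) (g g' : Fin n → ℝ) :
    B8_B G l g g' = 3 / 2 * l (brk G.mul (pj G 1 g) (pj G 2 g')) := rfl

theorem B8_Wf (G : Carnot n) (l : (Fin n → ℝ) →ₗ[ℝ] ℝ) :
    Wf G l = fun g => B8_L G l g + B8_B G l g g := by
  funext g
  rw [B8_L_apply, B8_B_apply]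
  rfl

theorem contDiff_Wf (G : Carnot n) (l : (Fin n → ℝ) →ₗ[ℝ] ℝ) : ContDiff ℝ 1 (Wf G l) := by
  rw [B8_Wf]
  refine (B8_L G l).contDiff.add ?_
  exact ContDiff.clm_apply (B8_B G l).contDiff contDiff_id

theorem B8_fderiv (G : Carnot n) (l : (Fin n → ℝ) →ₗ[ℝ] ℝ) (g v : Fin n → ℝ) :
    fderiv ℝ (Wf G l) g v = 3 * l (pj G 3 v) +
      3 / 2 * (l (brk G.mul (pj G 1 v) (pj G 2 g)) + l (brk G.mul (pj G 1 g) (pj G 2 v))) := by
  have h1 : HasFDerivAt (fun g => B8_L G l g + B8_B G l g g)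
      (B8_L G l + ((B8_B G l).precompR (Fin n → ℝ) g (ContinuousLinearMap.id ℝ (Fin n → ℝ)) +
        (B8_B G l).precompL (Fin n → ℝ) (ContinuousLinearMap.id ℝ (Fin n → ℝ)) g)) g := by
    have h2 : HasFDerivAt (fun g => B8_L G l g) (B8_L G l) g := (B8_L G l).hasFDerivAt
    have h3 := (B8_B G l).hasFDerivAt_of_bilinear (hasFDerivAt_id g) (hasFDerivAt_id g)
    exact h2.add h3
  rw [B8_Wf, h1.fderiv]
  have e1 : (B8_B G l).precompR (Fin n → ℝ) g (ContinuousLinearMap.id ℝ (Fin n → ℝ)) v =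
      B8_B G l g v := rfl
  have e2 : (B8_B G l).precompL (Fin n → ℝ) (ContinuousLinearMap.id ℝ (Fin n → ℝ)) g v =
      B8_B G l v g := rfl
  rw [add_apply, add_apply, e1, e2, B8_L_apply,
    B8_B_apply, B8_B_apply]
  ring

theorem fderiv_Wf (G : Carnot n) (l : (Fin n → ℝ) →ₗ[ℝ] ℝ) (g : Fin n → ℝ) {A : Fin n → ℝ}
    (hA : A ∈ lay G.wt 1) :
    fderiv ℝ (Wf G l) g (X G A g) =
      l (brk G.mul (pj G 1 g) (brk G.mul (pj G 1 g) A)) := by
  have h1 : pj G 1 (X G A g) = A := by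
    funext i
    by_cases hi : G.wt i = 1
    · rw [pj, if_pos hi, X_wt1 G A g i hi]
    · rw [pj, if_neg hi, hA i hi]
  have hg1 := pj_mem G 1 g
  have hg2 := pj_mem G 2 g
  have hb1 : brk G.mul (pj G 1 g) A ∈ lay G.wt 2 := brk_lay G hg1 hA
  have hb2 : brk G.mul (pj G 2 g) A ∈ lay G.wt 3 := brk_lay G hg2 hA
  have hb3 : brk G.mul (pj G 1 g) (brk G.mul (pj G 1 g) A) ∈ lay G.wt 3 := brk_lay G hg1 hb1
  have h2 : pj G 2 (X G A g) = (1 / 2 : ℝ) • brk G.mul (pj G 1 g) A := by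
    funext i
    by_cases hi : G.wt i = 2
    · rw [pj, if_pos hi, X_next G hA g i hi]
      rfl
    · rw [pj, if_neg hi, Pi.smul_apply, hb1 i hi, smul_zero]
  have h3 : pj G 3 (X G A g) = (1 / 2 : ℝ) • brk G.mul (pj G 2 g) A +
      (1 / 12 : ℝ) • brk G.mul (pj G 1 g) (brk G.mul (pj G 1 g) A) := by
    funext i
    by_cases hi : G.wt i = 3
    · rw [pj, if_pos hi, X_wt3 G hA g i hi]
      rfl
    · rw [pj, if_neg hi, Pi.add_apply, Pi.smul_apply, Pi.smul_apply, hb2 i hi, hb3 i hi]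
      simp
  rw [B8_fderiv, h1, h2, h3, map_add, map_smul, map_smul, brk_smul_right, map_smul,
    brk_antisymm G A (pj G 2 g), map_neg]
  simp only [smul_eq_mul]
  ring

end Pool.Agent.CMC
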