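import Pool.Agent.Lib_helper36.CMC.Defs
import Pool.Agent.Lib_helper36.CMC.W.A1
import Pool.Agent.Lib_helper36.CMC.W.A2
import Pool.Agent.Lib_helper36.CMC.W.C1

set_option autoImplicit false

namespace Pool.Agent.CMC

open MeasureTheory Set
open scoped ContDiff

variable {n : ℕ}

theorem f0_dt_add (v a b : Fin n → ℝ) : dt v (a + b) = dt v a + dt v b := by
  unfold dt
  rw [← Finset.sum_add_distrib]
  exact Finset.sum_congr rfl fun i _ => by rw [Pi.add_apply, mul_add]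

theorem f0_dt_smul (v a : Fin n → ℝ) (c : ℝ) : dt v (c • a) = c * dt v a := by
  unfold dt
  rw [Finset.mul_sum]
  exact Finset.sum_congr rfl fun i _ => by rw [Pi.smul_apply, smul_eq_mul]; ring

theorem f0_dt_comm (a b : Fin n → ℝ) : dt a b = dt b a := by
  unfold dt
  exact Finset.sum_congr rfl fun i _ => mul_comm _ _

theorem f0_dt_self (a : Fin n → ℝ) : dt a a = nsq a := by
  unfold dt nsq
  exact Finset.sum_congr rfl fun i _ => by ring

theorem f0_pj_lay {G : Carnot n} {v : Fin n → ℝ} (hv : v ∈ lay G.wt 1) : pj G 1 v = v := by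
  funext i
  unfold pj
  by_cases h : G.wt i = 1
  · rw [if_pos h]
  · rw [if_neg h, hv i h]

theorem f0_dt_pj {G : Carnot n} {v : Fin n → ℝ} (hv : v ∈ lay G.wt 1) (g : Fin n → ℝ) :
    dt v (pj G 1 g) = dt v g := by
  unfold dt pj
  refine Finset.sum_congr rfl fun i _ => ?_
  by_cases h : G.wt i = 1
  · rw [if_pos h]
  · rw [if_neg h, hv i h, MulZeroClass.zero_mul, MulZeroClass.zero_mul]

/-- the coordinates of the first layer are additive -/
theorem dt_mul {G : Carnot n} {v : Fin n → ℝ} (hv : v ∈ lay G.wt 1) (a b : Fin n → ℝ) :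
    dt v (G.mul a b) = dt v a + dt v b := by
  rw [← f0_dt_add]
  unfold dt
  refine Finset.sum_congr rfl fun i _ => ?_
  by_cases h : G.wt i = 1
  · rw [mul_wt1 G a b i h, Pi.add_apply]
  · rw [hv i h, MulZeroClass.zero_mul, MulZeroClass.zero_mul]

theorem pj_one_mul (G : Carnot n) (a b : Fin n → ℝ) :
    pj G 1 (G.mul a b) = pj G 1 a + pj G 1 b := by
  funext i
  rw [Pi.add_apply]
  unfold pj
  by_cases h : G.wt i = 1
  · rw [if_pos h, if_pos h, if_pos h, mul_wt1 G a b i h]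
  · rw [if_neg h, if_neg h, if_neg h, add_zero]

theorem f0_dir_mem {G : Carnot n} (D : Cal G) (c : ℝ) : D.Y + c • D.e ∈ lay G.wt 1 :=
  (lay G.wt 1).add_mem D.hY ((lay G.wt 1).smul_mem c D.he)

theorem Cal.xi_stp {G : Carnot n} (D : Cal G) (κ h : ℝ) (g : Fin n → ℝ) :
    D.xi (D.stp κ h g) = D.xi g * (1 + κ * h) := by
  have h1 : dt D.e D.Y = 0 := by rw [f0_dt_comm]; exact D.hYe
  have h2 : dt D.e D.e = 1 := by rw [f0_dt_self]; exact D.hee
  unfold Cal.stp Cal.xi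
  rw [dt_mul D.he, f0_dt_smul, f0_dt_add, f0_dt_smul, h1, h2]
  ring

theorem Cal.yy_stp {G : Carnot n} (D : Cal G) (κ h : ℝ) (g : Fin n → ℝ) :
    D.yy (D.stp κ h g) = D.yy g + h := by
  have h2 : dt D.Y D.Y = 1 := by rw [f0_dt_self]; exact D.hYY
  unfold Cal.stp Cal.yy
  rw [dt_mul D.hY, f0_dt_smul, f0_dt_add, f0_dt_smul, D.hYe, h2]
  ring

theorem Cal.zz_stp {G : Carnot n} (D : Cal G) (κ h : ℝ) (g : Fin n → ℝ) :
    D.zz (D.stp κ h g) = D.zz g := by
  funext i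
  have hx := D.xi_stp κ h g
  have hy := D.yy_stp κ h g
  have hp : pj G 1 (D.stp κ h g) i = pj G 1 g i + h * (D.Y i + κ * D.xi g * D.e i) := by
    unfold Cal.stp
    rw [pj_one_mul, Pi.add_apply,
      f0_pj_lay ((lay G.wt 1).smul_mem h (f0_dir_mem D (κ * D.xi g)))]
    simp only [Pi.smul_apply, Pi.add_apply, smul_eq_mul]
  unfold Cal.zz
  rw [hx, hy, hp]
  ring

theorem Cal.nsq_dir {G : Carnot n} (D : Cal G) (c : ℝ) : nsq (D.Y + c • D.e) = 1 + c ^ 2 := by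
  have h1 : dt D.e D.Y = 0 := by rw [f0_dt_comm]; exact D.hYe
  have h2 : dt D.e D.e = 1 := by rw [f0_dt_self]; exact D.hee
  have h3 : dt D.Y D.Y = 1 := by rw [f0_dt_self]; exact D.hYY
  rw [← f0_dt_self, f0_dt_add, f0_dt_smul, f0_dt_comm _ D.Y, f0_dt_comm _ D.e, f0_dt_add,
    f0_dt_add, f0_dt_smul, f0_dt_smul, h1, h2, h3, D.hYe]
  ring

theorem Cal.dir_mem {G : Carnot n} (D : Cal G) (c : ℝ) : D.Y + c • D.e ∈ lay G.wt 1 :=
  (lay G.wt 1).add_mem D.hY ((lay G.wt 1).smul_mem c D.he)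

/-- `|x|²` and the data of the structure `Cal` -/
theorem Cal.nsq_zz {G : Carnot n} (D : Cal G) (g : Fin n → ℝ) :
    nsq (D.zz g) = nsq (pj G 1 g) - D.yy g ^ 2 - D.xi g ^ 2 := by
  have h1 : dt D.e D.Y = 0 := by rw [f0_dt_comm]; exact D.hYe
  have h2 : dt D.e D.e = 1 := by rw [f0_dt_self]; exact D.hee
  have h3 : dt D.Y D.Y = 1 := by rw [f0_dt_self]; exact D.hYY
  have hz : D.zz g = pj G 1 g + ((-D.yy g) • D.Y + (-D.xi g) • D.e) := by
    funext i
    simp only [Cal.zz, Pi.add_apply, Pi.smul_apply, smul_eq_mul]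
    ring
  have hy : dt (pj G 1 g) D.Y = D.yy g := by
    rw [f0_dt_comm, f0_dt_pj D.hY]
    rfl
  have hx : dt (pj G 1 g) D.e = D.xi g := by
    rw [f0_dt_comm, f0_dt_pj D.he]
    rfl
  have hA : ∀ p A : Fin n → ℝ, dt (p + A) (p + A) = dt p p + 2 * dt p A + dt A A := by
    intro p A
    rw [f0_dt_add, f0_dt_comm (p + A) p, f0_dt_comm (p + A) A, f0_dt_add, f0_dt_add,
      f0_dt_comm A p]
    ring
  rw [hz, ← f0_dt_self, hA, ← f0_dt_self, f0_dt_add, f0_dt_smul, f0_dt_smul, hy, hx, hA,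
    f0_dt_smul, f0_dt_smul, f0_dt_smul, f0_dt_comm _ D.Y, f0_dt_comm _ D.e, f0_dt_smul,
    f0_dt_smul, f0_dt_comm (_ • D.e) D.e, f0_dt_smul, h1, h2, h3]
  ring

theorem Cal.xs_eq {G : Carnot n} (D : Cal G) (g : Fin n → ℝ) :
    D.xs g = nsq (pj G 1 g) - D.yy g ^ 2 := by
  unfold Cal.xs; rw [D.nsq_zz]; ring

end Pool.Agent.CMC
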