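import Pool.Agent.Lib_helper36.CMC.Defs
import Pool.Agent.Lib_helper36.CMC.W.A1
import Pool.Agent.Lib_helper36.CMC.W.A2
import Pool.Agent.Lib_helper36.CMC.W.B0
import Pool.Agent.Lib_helper36.CMC.W.B2
import Pool.Agent.Lib_helper36.CMC.W.B3
import Pool.Agent.Lib_helper36.CMC.W.B8
import Pool.Agent.Lib_helper36.CMC.W.C1
import Pool.Agent.Lib_helper36.CMC.W.F0

set_option autoImplicit false

namespace Pool.Agent.CMC

open MeasureTheory Set
open scoped ContDiff

variable {n : ℕ}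

/-! ### the inner product -/

theorem b9_dt_add_right (a b c : Fin n → ℝ) : dt a (b + c) = dt a b + dt a c := by
  simp only [dt, Pi.add_apply, mul_add, Finset.sum_add_distrib]

theorem b9_dt_smul_right (s : ℝ) (a b : Fin n → ℝ) : dt a (s • b) = s * dt a b := by
  simp only [dt, Pi.smul_apply, smul_eq_mul, Finset.mul_sum]
  exact Finset.sum_congr rfl fun i _ => by ring

theorem b9_dt_comm (a b : Fin n → ℝ) : dt a b = dt b a := by
  simp only [dt]
  exact Finset.sum_congr rfl fun i _ => by ring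

theorem b9_nsq_eq (a : Fin n → ℝ) : nsq a = dt a a := by
  simp only [dt, nsq]
  exact Finset.sum_congr rfl fun i _ => by ring

theorem b9_nsq_nonneg (a : Fin n → ℝ) : 0 ≤ nsq a := Finset.sum_nonneg fun _ _ => sq_nonneg _

theorem b9_nsq_sub_smul (a b : Fin n → ℝ) (s : ℝ) :
    nsq (a - s • b) = nsq a - 2 * s * dt b a + s ^ 2 * nsq b := by
  simp only [nsq, dt, Pi.sub_apply, Pi.smul_apply, smul_eq_mul, Finset.mul_sum]
  rw [← Finset.sum_sub_distrib, ← Finset.sum_add_distrib]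
  exact Finset.sum_congr rfl fun i _ => by ring

/-- the inner product with a horizontal vector depends on the first layer only -/
theorem b9_dt_pj (G : Carnot n) {Y : Fin n → ℝ} (hY : Y ∈ lay G.wt 1) (g : Fin n → ℝ) :
    dt Y (pj G 1 g) = dt Y g := by
  simp only [dt]
  refine Finset.sum_congr rfl fun i _ => ?_
  by_cases h : G.wt i = 1
  · simp [pj, h]
  · rw [hY i h, zero_mul, zero_mul]

theorem b9_norm_le (a : Fin n → ℝ) : ‖a‖ ≤ Real.sqrt (nsq a) := by
  refine (pi_norm_le_iff_of_nonneg (Real.sqrt_nonneg _)).2 fun i => ?_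
  rw [Real.norm_eq_abs]
  refine Real.abs_le_sqrt ?_
  exact Finset.single_le_sum (f := fun i => a i ^ 2) (fun j _ => sq_nonneg _) (Finset.mem_univ i)

/-! ### linear maps -/

theorem b9_pj_X (G : Carnot n) {A : Fin n → ℝ} (hA : A ∈ lay G.wt 1) (g : Fin n → ℝ) :
    pj G 1 (X G A g) = A := by
  funext i
  by_cases h : G.wt i = 1
  · simp only [pj, h, if_true]
    exact X_wt1 G A g i h
  · simp only [pj, h, if_false]
    exact (hA i h).symm

/-- the projection as a linear map -/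
noncomputable def b9_pjL (G : Carnot n) (j : ℕ) : (Fin n → ℝ) →ₗ[ℝ] (Fin n → ℝ) where
  toFun := pj G j
  map_add' := fun a b => by
    funext i
    by_cases h : G.wt i = j <;> simp [pj, h]
  map_smul' := fun c a => by
    funext i
    by_cases h : G.wt i = j <;> simp [pj, h]

/-- the inner product with `Y` -/
noncomputable def b9_dtL (Y : Fin n → ℝ) : (Fin n → ℝ) →L[ℝ] ℝ :=
  LinearMap.toContinuousLinearMap
    { toFun := dt Y
      map_add' := b9_dt_add_right Y
      map_smul' := fun c a => by rw [b9_dt_smul_right]; rfl }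

theorem b9_dtL_apply (Y g : Fin n → ℝ) : b9_dtL Y g = dt Y g := rfl

/-- `S(a, b) = l [a, [b, Y]]` on the first layer components -/
noncomputable def b9_S (G : Carnot n) (l : (Fin n → ℝ) →ₗ[ℝ] ℝ) (Y : Fin n → ℝ) :
    (Fin n → ℝ) →L[ℝ] (Fin n → ℝ) →L[ℝ] ℝ :=
  LinearMap.toContinuousBilinearMap
    (((brkL G).compl₁₂ (b9_pjL G 1) (((brkL G).flip Y).comp (b9_pjL G 1))).compr₂ l)

theorem b9_S_apply (G : Carnot n) (l : (Fin n → ℝ) →ₗ[ℝ] ℝ) (Y a b : Fin n → ℝ) :
    b9_S G l Y a b = l (brk G.mul (pj G 1 a) (brk G.mul (pj G 1 b) Y)) := rfl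

theorem b9_S_apply' (G : Carnot n) (l : (Fin n → ℝ) →ₗ[ℝ] ℝ) (Y : Fin n → ℝ) {a b : Fin n → ℝ}
    (ha : a ∈ lay G.wt 1) (hb : b ∈ lay G.wt 1) :
    b9_S G l Y a b = l (brk G.mul a (brk G.mul b Y)) := by
  rw [b9_S_apply, pj_of_mem G ha, pj_of_mem G hb]

/-- the function `w` -/
noncomputable def b9_w (G : Carnot n) (l : (Fin n → ℝ) →ₗ[ℝ] ℝ) (Y : Fin n → ℝ) (s : ℝ)
    (g : Fin n → ℝ) : ℝ :=
  1 / (3 * s) * (Wf G l g + 1 / 2 * (b9_dtL Y g * b9_S G l Y g g))

theorem b9_contDiff_w (G : Carnot n) (l : (Fin n → ℝ) →ₗ[ℝ] ℝ) (Y : Fin n → ℝ) (s : ℝ) :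
    ContDiff ℝ 1 (b9_w G l Y s) := by
  unfold b9_w
  refine contDiff_const.mul ((contDiff_Wf G l).add (contDiff_const.mul ?_))
  exact (b9_dtL Y).contDiff.mul (ContDiff.clm_apply (b9_S G l Y).contDiff contDiff_id)

theorem b9_fderiv_w (G : Carnot n) (l : (Fin n → ℝ) →ₗ[ℝ] ℝ) (Y : Fin n → ℝ) (s : ℝ)
    (g v : Fin n → ℝ) :
    fderiv ℝ (b9_w G l Y s) g v = 1 / (3 * s) * (fderiv ℝ (Wf G l) g v +
      1 / 2 * (dt Y v * b9_S G l Y g g + dt Y g * (b9_S G l Y g v + b9_S G l Y v g))) := by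
  have h0 : HasFDerivAt (Wf G l) (fderiv ℝ (Wf G l) g) g :=
    ((contDiff_Wf G l).differentiable (by norm_num) g).hasFDerivAt
  have h1 : HasFDerivAt (fun g => b9_dtL Y g) (b9_dtL Y) g := (b9_dtL Y).hasFDerivAt
  have h2 := (b9_S G l Y).hasFDerivAt_of_bilinear (hasFDerivAt_id g) (hasFDerivAt_id g)
  have h3 := (h0.add ((h1.mul h2).const_mul (1 / 2 : ℝ))).const_mul (1 / (3 * s))
  have h4 : HasFDerivAt (b9_w G l Y s) _ g := h3
  rw [h4.fderiv]
  have e1 : (b9_S G l Y).precompR (Fin n → ℝ) g (ContinuousLinearMap.id ℝ (Fin n → ℝ)) v =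
      b9_S G l Y g v := rfl
  have e2 : (b9_S G l Y).precompL (Fin n → ℝ) (ContinuousLinearMap.id ℝ (Fin n → ℝ)) g v =
      b9_S G l Y v g := rfl
  simp only [smul_apply, add_apply, smul_eq_mul, id]
  rw [e1, e2, b9_dtL_apply, b9_dtL_apply]
  ring

/-- the calibrating data from `Y`, `l` and an eigenvector `e` at the maximum of the quadratic form
`a ↦ l [a, [a, Y]]`; moreover the derivative of `w` at the point `Y` is not zero -/
theorem cal_of_eig' (G : Carnot n) {Y e : Fin n → ℝ} (hY : Y ∈ lay G.wt 1) (he : e ∈ lay G.wt 1)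
    (hYY : nsq Y = 1) (hee : nsq e = 1) (hYe : dt Y e = 0) (l : (Fin n → ℝ) →ₗ[ℝ] ℝ)
    (h1 : ∀ a ∈ lay G.wt 1, ∀ b ∈ lay G.wt 1, l (brk G.mul Y (brk G.mul a b)) = 0)
    {s : ℝ} (hs : 0 < s)
    (hS1 : ∀ v ∈ lay G.wt 1, l (brk G.mul e (brk G.mul v Y)) = s * dt e v)
    (hS2 : ∀ v ∈ lay G.wt 1, 0 ≤ l (brk G.mul v (brk G.mul v Y)))
    (hS3 : ∀ v ∈ lay G.wt 1, l (brk G.mul v (brk G.mul v Y)) ≤ s * nsq v) :
    ∃ D : Cal G, fderiv ℝ D.w D.Y ≠ 0 := by
  -- algebra of the form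
  have hsym : ∀ a ∈ lay G.wt 1, ∀ b ∈ lay G.wt 1,
      l (brk G.mul a (brk G.mul b Y)) = l (brk G.mul b (brk G.mul a Y)) := by
    intro a ha b hb
    have h := jacobi G a b Y
    rw [h, map_add, brk_antisymm G (brk G.mul a b) Y, map_neg, h1 a ha b hb]
    ring
  have hYY0 : brk G.mul Y Y = 0 := brk_self G Y
  have hzr : ∀ a, brk G.mul a 0 = 0 := by
    intro a
    have h := brk_smul_right G 0 a 0
    rwa [zero_smul, zero_smul] at h
  have hSr : ∀ a, l (brk G.mul a (brk G.mul Y Y)) = 0 := by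
    intro a
    rw [hYY0, hzr, map_zero]
  -- the bounded trilinear form
  obtain ⟨K, hK0, hK⟩ : ∃ K : ℝ, 0 ≤ K ∧ ∀ a b c : Fin n → ℝ,
      |l (brk G.mul a (brk G.mul b c))| ≤ K * (‖a‖ * ‖b‖ * ‖c‖) := by
    set β : (Fin n → ℝ) →L[ℝ] (Fin n → ℝ) →L[ℝ] (Fin n → ℝ) :=
      LinearMap.toContinuousBilinearMap (brkL G) with hβ
    set l' : (Fin n → ℝ) →L[ℝ] ℝ := LinearMap.toContinuousLinearMap l with hl'
    refine ⟨‖l'‖ * (‖β‖ * ‖β‖), by positivity, fun a b c => ?_⟩
    have e1 : l (brk G.mul a (brk G.mul b c)) = l' (β a (β b c)) := rfl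
    rw [e1, ← Real.norm_eq_abs]
    calc ‖l' (β a (β b c))‖ ≤ ‖l'‖ * ‖β a (β b c)‖ := l'.le_opNorm _
      _ ≤ ‖l'‖ * (‖β‖ * ‖a‖ * ‖β b c‖) :=
          mul_le_mul_of_nonneg_left (β.le_opNorm₂ a _) (norm_nonneg _)
      _ ≤ ‖l'‖ * (‖β‖ * ‖a‖ * (‖β‖ * ‖b‖ * ‖c‖)) :=
          mul_le_mul_of_nonneg_left
            (mul_le_mul_of_nonneg_left (β.le_opNorm₂ b c) (by positivity)) (norm_nonneg _)
      _ = ‖l'‖ * (‖β‖ * ‖β‖) * (‖a‖ * ‖b‖ * ‖c‖) := by ring
  -- the component orthogonal to `Y`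
  have hxmem : ∀ v ∈ lay G.wt 1, ∀ t : ℝ, v - t • Y ∈ lay G.wt 1 := fun v hv t =>
    (lay G.wt 1).sub_mem hv ((lay G.wt 1).smul_mem t hY)
  have hsub_l : ∀ (a b c : Fin n → ℝ) (t : ℝ), brk G.mul (a - t • b) c =
      brk G.mul a c - t • brk G.mul b c := by
    intro a b c t
    rw [sub_eq_add_neg, ← neg_smul, brk_add_left, brk_smul_left, neg_smul, ← sub_eq_add_neg]
  have hsub_r : ∀ (a b c : Fin n → ℝ) (t : ℝ), brk G.mul c (a - t • b) =
      brk G.mul c a - t • brk G.mul c b := by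
    intro a b c t
    rw [sub_eq_add_neg, ← neg_smul, brk_add_right, brk_smul_right, neg_smul, ← sub_eq_add_neg]
  have hSx : ∀ a ∈ lay G.wt 1, ∀ b ∈ lay G.wt 1, ∀ t u : ℝ,
      l (brk G.mul (a - t • Y) (brk G.mul (b - u • Y) Y)) = l (brk G.mul a (brk G.mul b Y)) := by
    intro a ha b hb t u
    rw [hsub_l b Y Y u, hYY0, smul_zero, sub_zero, hsub_l, map_sub, map_smul, h1 b hb Y hY,
      smul_zero, sub_zero]
  -- the key identity
  have hkey : ∀ u ∈ lay G.wt 1, ∀ A ∈ lay G.wt 1, ∀ y α : ℝ,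
      l (brk G.mul u (brk G.mul u A)) + y * l (brk G.mul u (brk G.mul A Y)) =
        α * l (brk G.mul u (brk G.mul u Y)) +
          l (brk G.mul (u - y • Y) (brk G.mul (u - y • Y) (A - α • Y))) := by
    intro u hu A hA y α
    have e1 : l (brk G.mul (u - y • Y) (brk G.mul (u - y • Y) (A - α • Y))) =
        l (brk G.mul u (brk G.mul (u - y • Y) (A - α • Y))) := by
      rw [hsub_l, map_sub, map_smul, h1 _ (hxmem u hu y) _ (hxmem A hA α), smul_zero, sub_zero]
    have e3 : brk G.mul u (brk G.mul Y A) = -brk G.mul u (brk G.mul A Y) := by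
      rw [brk_antisymm G Y A]
      have h := brk_smul_right G (-1) u (brk G.mul A Y)
      rwa [neg_one_smul, neg_one_smul] at h
    rw [e1]
    simp only [hsub_l, hsub_r, hYY0, smul_zero, sub_zero, map_sub, map_smul, smul_eq_mul, e3,
      map_neg]
    ring
  -- decomposition of the form
  have hdec : ∀ u ∈ lay G.wt 1, ∃ q : ℝ, 0 ≤ q ∧ q ≤ s * (nsq u - dt Y u ^ 2 - dt e u ^ 2) ∧
      l (brk G.mul u (brk G.mul u Y)) = s * dt e u ^ 2 + q := by
    intro u hu
    set ξ := dt e u with hξ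
    set y := dt Y u with hy
    set z := (u - y • Y) - ξ • e with hz
    have hzm : z ∈ lay G.wt 1 := (lay G.wt 1).sub_mem (hxmem u hu y) ((lay G.wt 1).smul_mem ξ he)
    have hez : dt e z = 0 := by
      have e1 : z = u + ((-y) • Y + (-ξ) • e) := by rw [hz]; module
      rw [e1, b9_dt_add_right, b9_dt_add_right, b9_dt_smul_right, b9_dt_smul_right,
        b9_dt_comm e Y, hYe, ← b9_nsq_eq, hee, ← hξ]
      ring
    have hnz : nsq z = nsq u - y ^ 2 - ξ ^ 2 := by
      have e1 : dt e (u - y • Y) = ξ := by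
        have e2 : u - y • Y = u + (-y) • Y := by module
        rw [e2, b9_dt_add_right, b9_dt_smul_right, b9_dt_comm e Y, hYe, ← hξ]
        ring
      rw [hz, b9_nsq_sub_smul, b9_nsq_sub_smul, e1, hYY, hee, ← hy]
      ring
    refine ⟨l (brk G.mul z (brk G.mul z Y)), hS2 z hzm, ?_, ?_⟩
    · have h := hS3 z hzm
      rwa [hnz] at h
    · have e1 : u - y • Y = z + ξ • e := by rw [hz]; module
      have e2 := hSx u hu u hu y y
      rw [← e2, e1]
      simp only [brk_add_left, brk_smul_left, brk_add_right, brk_smul_right, map_add, map_smul,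
        smul_eq_mul]
      rw [hsym z hzm e he, hS1 z hzm, hS1 e he, hez, ← b9_nsq_eq, hee]
      ring
  -- the data
  let D : Cal G :=
    { Y := Y
      e := e
      w := b9_w G l Y s
      Q := fun g => l (brk G.mul (pj G 1 g) (brk G.mul (pj G 1 g) Y)) / s
      r := fun g A => l (brk G.mul (pj G 1 g - dt Y g • Y)
        (brk G.mul (pj G 1 g - dt Y g • Y) (A - dt Y A • Y))) / (3 * s)
      C := 1 + K / (3 * s)
      hY := hY
      he := he
      hYY := hYY
      hee := hee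
      hYe := hYe
      hw := b9_contDiff_w G l Y s
      w0 := by
        have hp : ∀ j, pj G j (0 : Fin n → ℝ) = 0 := by
          intro j
          funext i
          simp [pj]
        unfold b9_w Wf
        rw [hp 1, hp 2, hp 3, hzr, map_zero, map_zero]
        simp
      hC := by
        have : 0 ≤ K / (3 * s) := by positivity
        linarith
      hX := by
        intro g A hA
        have hu := pj_mem G 1 g
        have hk := hkey (pj G 1 g) hu A hA (dt Y g) (dt Y A)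
        have e1 : b9_S G l Y (X G A g) g = l (brk G.mul (pj G 1 g) (brk G.mul A Y)) := by
          rw [b9_S_apply, b9_pj_X G hA, hsym A hA _ hu]
        have e2 : b9_S G l Y g (X G A g) = l (brk G.mul (pj G 1 g) (brk G.mul A Y)) := by
          rw [b9_S_apply, b9_pj_X G hA]
        have e3 : dt Y (X G A g) = dt Y A := by
          rw [← b9_dt_pj G hY (X G A g), b9_pj_X G hA]
        rw [b9_fderiv_w, fderiv_Wf G l g hA, e1, e2, e3, b9_S_apply]
        field_simp
        linear_combination (2 : ℝ) * hk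
      hQ1 := by
        intro g
        obtain ⟨q, hq0, hq1, hq2⟩ := hdec _ (pj_mem G 1 g)
        rw [b9_dt_pj G he] at hq2
        rw [hq2, le_div_iff₀ hs]
        nlinarith
      hQ2 := by
        intro g
        obtain ⟨q, hq0, hq1, hq2⟩ := hdec _ (pj_mem G 1 g)
        rw [b9_dt_pj G he] at hq1 hq2
        rw [b9_dt_pj G hY] at hq1
        have h5 : 0 ≤ nsq (pj G 1 g) - dt Y g ^ 2 - dt e g ^ 2 := by
          by_contra hneg
          push Not at hneg
          have := mul_neg_of_pos_of_neg hs hneg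
          linarith
        rw [hq2, div_le_iff₀ hs]
        have h6 : 0 ≤ K / (3 * s) := by positivity
        nlinarith [mul_nonneg (mul_nonneg h6 h5) hs.le]
      hr := by
        intro g A hA
        set x := pj G 1 g - dt Y g • Y with hx
        set B := A - dt Y A • Y with hB
        have hnx : nsq x = nsq (pj G 1 g) - dt Y g ^ 2 := by
          rw [hx, b9_nsq_sub_smul, b9_dt_pj G hY, hYY]
          ring
        have hnB : nsq B = nsq A - dt Y A ^ 2 := by
          rw [hB, b9_nsq_sub_smul, hYY]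
          ring
        have h3s : 0 < 3 * s := by positivity
        rw [abs_div, abs_of_pos h3s, ← hnx, ← hnB]
        have h7 := hK x x B
        have h8 : ‖x‖ * ‖x‖ * ‖B‖ ≤ nsq x * Real.sqrt (nsq B) := by
          have h9 : ‖x‖ * ‖x‖ ≤ nsq x := by
            calc ‖x‖ * ‖x‖ ≤ Real.sqrt (nsq x) * Real.sqrt (nsq x) :=
                  mul_le_mul (b9_norm_le x) (b9_norm_le x) (norm_nonneg _) (Real.sqrt_nonneg _)
              _ = nsq x := Real.mul_self_sqrt (b9_nsq_nonneg x)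
          exact mul_le_mul h9 (b9_norm_le B) (norm_nonneg _) (b9_nsq_nonneg x)
        have h10 : 0 ≤ nsq x * Real.sqrt (nsq B) :=
          mul_nonneg (b9_nsq_nonneg x) (Real.sqrt_nonneg _)
        calc |l (brk G.mul x (brk G.mul x B))| / (3 * s)
            ≤ K * (nsq x * Real.sqrt (nsq B)) / (3 * s) := by
              refine div_le_div_of_nonneg_right ?_ h3s.le
              exact h7.trans (mul_le_mul_of_nonneg_left h8 hK0)
          _ = K / (3 * s) * (nsq x * Real.sqrt (nsq B)) := by ring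
          _ ≤ (1 + K / (3 * s)) * nsq x * Real.sqrt (nsq B) := by nlinarith }
  refine ⟨D, ?_⟩
  -- the derivative in the direction `[e, [e, Y]]`
  intro hzero
  set c := brk G.mul e (brk G.mul e Y) with hc
  have hcm : c ∈ lay G.wt 3 := by
    have := brk_lay G he (brk_lay G he hY)
    exact this
  have hlc : l c = s := by
    rw [hc, hS1 e he, ← b9_nsq_eq, hee, mul_one]
  have hw : ∀ t : ℝ, b9_w G l Y s (Y + t • c) = t := by
    intro t
    have p1 : pj G 1 (Y + t • c) = Y := by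
      funext i
      by_cases h : G.wt i = 1
      · simp only [pj, h, if_true, Pi.add_apply, Pi.smul_apply, smul_eq_mul]
        rw [hcm i (by omega)]
        ring
      · simp only [pj, h, if_false]
        exact (hY i h).symm
    have p2 : pj G 2 (Y + t • c) = 0 := by
      funext i
      by_cases h : G.wt i = 2
      · simp only [pj, h, if_true, Pi.add_apply, Pi.smul_apply, smul_eq_mul]
        rw [hcm i (by omega), hY i (by omega)]
        simp
      · simp [pj, h]
    have p3 : pj G 3 (Y + t • c) = t • c := by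
      funext i
      by_cases h : G.wt i = 3
      · simp only [pj, h, if_true, Pi.add_apply, Pi.smul_apply, smul_eq_mul]
        rw [hY i (by omega)]
        simp
      · simp only [pj, h, if_false, Pi.smul_apply, smul_eq_mul]
        rw [hcm i h, mul_zero]
    unfold b9_w Wf
    rw [p1, p2, p3, hzr, map_zero, b9_S_apply, p1, hSr, map_smul, hlc, smul_eq_mul]
    field_simp
    ring
  have h11 : HasDerivAt (fun t : ℝ => b9_w G l Y s (Y + t • c))
      (fderiv ℝ (b9_w G l Y s) Y c) 0 := by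
    have hd : HasFDerivAt (b9_w G l Y s) (fderiv ℝ (b9_w G l Y s) Y) (Y + (0 : ℝ) • c) := by
      rw [zero_smul, add_zero]
      exact ((b9_contDiff_w G l Y s).differentiable (by norm_num) Y).hasFDerivAt
    have hl : HasDerivAt (fun t : ℝ => Y + t • c) c 0 := by
      have := ((hasDerivAt_id (0 : ℝ)).smul_const c).const_add Y
      simpa using this
    exact hd.comp_hasDerivAt (0 : ℝ) hl
  have h12 : HasDerivAt (fun t : ℝ => b9_w G l Y s (Y + t • c)) 1 0 := by
    have : (fun t : ℝ => b9_w G l Y s (Y + t • c)) = fun t => t := by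
      funext t; exact hw t
    rw [this]
    exact hasDerivAt_id 0
  have h13 := h11.unique h12
  have h14 : fderiv ℝ (b9_w G l Y s) Y = 0 := hzero
  rw [h14] at h13
  simp at h13

/-- the calibrating data from `Y`, `l` and an eigenvector `e` at the maximum of the quadratic form
`a ↦ l [a, [a, Y]]` -/
theorem cal_of_eig (G : Carnot n) {Y e : Fin n → ℝ} (hY : Y ∈ lay G.wt 1) (he : e ∈ lay G.wt 1)
    (hYY : nsq Y = 1) (hee : nsq e = 1) (hYe : dt Y e = 0) (l : (Fin n → ℝ) →ₗ[ℝ] ℝ)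
    (h1 : ∀ a ∈ lay G.wt 1, ∀ b ∈ lay G.wt 1, l (brk G.mul Y (brk G.mul a b)) = 0)
    {s : ℝ} (hs : 0 < s)
    (hS1 : ∀ v ∈ lay G.wt 1, l (brk G.mul e (brk G.mul v Y)) = s * dt e v)
    (hS2 : ∀ v ∈ lay G.wt 1, 0 ≤ l (brk G.mul v (brk G.mul v Y)))
    (hS3 : ∀ v ∈ lay G.wt 1, l (brk G.mul v (brk G.mul v Y)) ≤ s * nsq v) :
    Nonempty (Cal G) := by
  obtain ⟨D, -⟩ := cal_of_eig' G hY he hYY hee hYe l h1 hs hS1 hS2 hS3
  exact ⟨D⟩

end Pool.Agent.CMC
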