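import Pool.Agent.Lib_helper36.CMC.Defs
import Pool.Agent.Lib_helper36.CMC.W.B0
import Pool.Agent.Lib_helper36.CMC.W.B2
import Pool.Agent.Lib_helper36.CMC.W.B3
import Pool.Agent.Lib_helper36.CMC.W.B9
import Pool.Agent.Lib_helper36.CMC.W.B10

set_option autoImplicit false

namespace Pool.Agent.CMC

open MeasureTheory Set
open scoped ContDiff

variable {n : ℕ}

theorem B13_brk_zero_right (G : Carnot n) (a : Fin n → ℝ) : brk G.mul a 0 = 0 := by
  have h := brk_smul_right G 0 a 0
  rwa [zero_smul, zero_smul] at h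

theorem cal_of_form' (G : Carnot n) {Y : Fin n → ℝ} (hY : Y ∈ lay G.wt 1)
    (l : (Fin n → ℝ) →ₗ[ℝ] ℝ)
    (h1 : ∀ a ∈ lay G.wt 1, ∀ b ∈ lay G.wt 1, l (brk G.mul Y (brk G.mul a b)) = 0)
    (h2 : ∀ a ∈ lay G.wt 1, 0 ≤ l (brk G.mul a (brk G.mul a Y)))
    (h3 : ∃ a ∈ lay G.wt 1, l (brk G.mul a (brk G.mul a Y)) ≠ 0) :
    ∃ D : Cal G, fderiv ℝ D.w D.Y ≠ 0 := by
  have hY0 : Y ≠ 0 := by
    rintro rfl
    obtain ⟨a, -, ha⟩ := h3
    rw [B13_brk_zero_right, B13_brk_zero_right, map_zero] at ha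
    exact ha rfl
  have hpos : 0 < nsq Y := by
    obtain ⟨i, hi⟩ : ∃ i, Y i ≠ 0 := by
      by_contra hcon
      push Not at hcon
      exact hY0 (funext hcon)
    unfold nsq
    exact Finset.sum_pos' (fun j _ => sq_nonneg _) ⟨i, Finset.mem_univ _, by positivity⟩
  set c : ℝ := 1 / Real.sqrt (nsq Y) with hc
  have hc0 : 0 < c := by
    have := Real.sqrt_pos.2 hpos
    positivity
  have hc2 : c ^ 2 * nsq Y = 1 := by
    rw [hc, div_pow, Real.sq_sqrt hpos.le]
    field_simp
  have hYm : c • Y ∈ lay G.wt 1 := Submodule.smul_mem _ _ hY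
  have hYY : nsq (c • Y) = 1 := by
    rw [← hc2]
    unfold nsq
    rw [Finset.mul_sum]
    refine Finset.sum_congr rfl fun i _ => ?_
    rw [Pi.smul_apply, smul_eq_mul, mul_pow]
  have h1' : ∀ a ∈ lay G.wt 1, ∀ b ∈ lay G.wt 1,
      l (brk G.mul (c • Y) (brk G.mul a b)) = 0 := by
    intro a ha b hb
    rw [brk_smul_left, map_smul, h1 a ha b hb, smul_zero]
  have hSc : ∀ a b, l (brk G.mul a (brk G.mul b (c • Y))) = c * l (brk G.mul a (brk G.mul b Y)) := by
    intro a b
    rw [brk_smul_right, brk_smul_right, map_smul, smul_eq_mul]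
  obtain ⟨e, he, hee, s, hs, hS1, hS3⟩ := exists_eig (lay G.wt 1)
    (LinearMap.mk₂ ℝ (fun a b => l (brk G.mul a (brk G.mul b (c • Y))))
      (fun a a' b => by rw [brk_add_left, map_add])
      (fun r a b => by rw [brk_smul_left, map_smul])
      (fun a b b' => by rw [brk_add_left, brk_add_right, map_add])
      (fun r a b => by rw [brk_smul_left, brk_smul_right, map_smul]))
    (by
      intro a ha b hb
      rw [LinearMap.mk₂_apply, LinearMap.mk₂_apply, jacobi G a b, map_add,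
        brk_antisymm G (brk G.mul a b), map_neg, h1' a ha b hb, neg_zero, zero_add])
    (by
      intro a ha
      rw [LinearMap.mk₂_apply, hSc]
      exact mul_nonneg hc0.le (h2 a ha))
    (by
      obtain ⟨a, ha, hn⟩ := h3
      refine ⟨a, ha, ?_⟩
      rw [LinearMap.mk₂_apply, hSc]
      exact mul_ne_zero hc0.ne' hn)
  have hYe : dt (c • Y) e = 0 := by
    have h := hS1 (c • Y) hYm
    rw [LinearMap.mk₂_apply, brk_self, B13_brk_zero_right, map_zero] at h
    have h' : dt e (c • Y) = 0 := by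
      rcases mul_eq_zero.1 h.symm with h'' | h''
      · exact absurd h'' hs.ne'
      · exact h''
    rw [← h']
    unfold dt
    exact Finset.sum_congr rfl fun i _ => mul_comm _ _
  refine cal_of_eig' G hYm he hYY hee hYe l h1' hs ?_ ?_ ?_
  · intro v hv
    have h := hS1 v hv
    rwa [LinearMap.mk₂_apply] at h
  · intro v hv
    rw [hSc]
    exact mul_nonneg hc0.le (h2 v hv)
  · intro v hv
    have h := hS3 v hv
    rwa [LinearMap.mk₂_apply] at h

end Pool.Agent.CMC
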