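import Pool.Agent.Lib_helper36.CMC.Defs

set_option autoImplicit false

namespace Pool.Agent.CMC

open MeasureTheory Set
open scoped ContDiff

variable {n : ℕ}

/-- the group law of the Engel group -/
noncomputable def engM (a b : Fin 4 → ℝ) : Fin 4 → ℝ :=
  ![a 0 + b 0, a 1 + b 1, a 2 + b 2 + (a 0 * b 1 - a 1 * b 0) / 2,
      a 3 + b 3 + (a 0 * b 2 - a 2 * b 0) / 2 + (a 0 - b 0) * (a 0 * b 1 - a 1 * b 0) / 12]

theorem ex_smooth : ContDiff ℝ ∞ (fun p : (Fin 4 → ℝ) × (Fin 4 → ℝ) => engM p.1 p.2) := by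
  rw [contDiff_pi]
  intro i
  fin_cases i <;> simp only [engM] <;> simp <;> fun_prop

theorem ex_quad (c0 c1 c2 : ℝ) : HasDerivAt (fun t : ℝ => c0 + c1 * t + c2 * t ^ 2) c1 0 := by
  have h1 : HasDerivAt (fun t : ℝ => c0 + c1 * t + c2 * t ^ 2)
      (0 + c1 * 1 + c2 * ((2 : ℕ) * (0 : ℝ) ^ (2 - 1) * 1)) 0 :=
    ((hasDerivAt_const (0 : ℝ) c0).add ((hasDerivAt_id (0 : ℝ)).const_mul c1)).add
      (((hasDerivAt_id (0 : ℝ)).pow 2).const_mul c2)
  convert h1 using 1
  simp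

theorem ex_quad' {f : ℝ → ℝ} {v : ℝ} (c0 c2 : ℝ) (h : ∀ t, f t = c0 + v * t + c2 * t ^ 2) :
    HasDerivAt f v 0 := by
  have h1 : f = fun t : ℝ => c0 + v * t + c2 * t ^ 2 := funext h
  rw [h1]
  exact ex_quad c0 v c2

theorem ex_line {f : (Fin 4 → ℝ) → (Fin 4 → ℝ)} (hf : DifferentiableAt ℝ f 0) (a v : Fin 4 → ℝ)
    (h : HasDerivAt (fun t : ℝ => f (t • a)) v 0) : fderiv ℝ f 0 a = v := by
  have h5 : HasDerivAt (fun s : ℝ => s • a) ((1 : ℝ) • a) 0 := (hasDerivAt_id (0 : ℝ)).smul_const a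
  rw [one_smul] at h5
  have h6 : HasFDerivAt f (fderiv ℝ f 0) ((0 : ℝ) • a) := by
    rw [zero_smul]
    exact hf.hasFDerivAt
  have h7 := h6.comp_hasDerivAt (0 : ℝ) h5
  exact h7.unique h

/-- the left-invariant fields of the Engel group -/
noncomputable def engX (a g : Fin 4 → ℝ) : Fin 4 → ℝ :=
  ![a 0, a 1, a 2 + (g 0 * a 1 - g 1 * a 0) / 2,
      a 3 + (g 0 * a 2 - g 2 * a 0) / 2 + g 0 * (g 0 * a 1 - g 1 * a 0) / 12]

theorem ex_lif (a g : Fin 4 → ℝ) : lif engM a g = engX a g := by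
  unfold lif
  apply ex_line
  · have h : ContDiff ℝ ∞ (fun b : Fin 4 → ℝ => ((g, b) : (Fin 4 → ℝ) × (Fin 4 → ℝ))) := by fun_prop
    exact (ex_smooth.comp h).differentiable (by simp) 0
  · rw [hasDerivAt_pi]
    intro i
    fin_cases i
    · refine ex_quad' (g 0) 0 fun t => ?_
      simp [engM, engX]
      ring
    · refine ex_quad' (g 1) 0 fun t => ?_
      simp [engM, engX]
      ring
    · refine ex_quad' (g 2) 0 fun t => ?_
      simp [engM, engX]
      ring
    · refine ex_quad' (g 3) (-(a 0 * (g 0 * a 1 - g 1 * a 0)) / 12) fun t => ?_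
      simp [engM, engX]
      ring

theorem ex_fd (a b : Fin 4 → ℝ) : fderiv ℝ (engX b) 0 a =
    ![0, 0, (a 0 * b 1 - a 1 * b 0) / 2, (a 0 * b 2 - a 2 * b 0) / 2] := by
  apply ex_line
  · have h : ContDiff ℝ ∞ (engX b) := by
      rw [contDiff_pi]
      intro i
      fin_cases i <;> simp only [engX] <;> simp <;> fun_prop
    exact h.differentiable (by simp) 0
  · rw [hasDerivAt_pi]
    intro i
    fin_cases i
    · refine ex_quad' (b 0) 0 fun t => ?_
      simp [engX]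
    · refine ex_quad' (b 1) 0 fun t => ?_
      simp [engX]
    · refine ex_quad' (b 2) 0 fun t => ?_
      simp [engX]
      ring
    · refine ex_quad' (b 3) (a 0 * (a 0 * b 1 - a 1 * b 0) / 12) fun t => ?_
      simp [engX]
      ring

theorem ex_brk (a b : Fin 4 → ℝ) : brk engM a b =
    ![0, 0, a 0 * b 1 - a 1 * b 0, a 0 * b 2 - a 2 * b 0] := by
  have h : ∀ a, lif engM a = engX a := fun a => funext (ex_lif a)
  have h0 : ∀ a, engX a 0 = a := by
    intro a
    funext i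
    fin_cases i <;> simp [engX]
  unfold brk
  rw [VectorField.lieBracket_eq, h, h]
  change fderiv ℝ (engX b) 0 (engX a 0) - fderiv ℝ (engX a) 0 (engX b 0) = _
  rw [h0, h0, ex_fd, ex_fd]
  funext i
  fin_cases i <;> simp <;> ring

theorem ex_e0 : (![1, 0, 0, 0] : Fin 4 → ℝ) ∈ lay (![1, 1, 2, 3] : Fin 4 → ℕ) 1 := by
  intro i hi
  fin_cases i
  · exact absurd rfl hi
  all_goals rfl

theorem ex_e1 : (![0, 1, 0, 0] : Fin 4 → ℝ) ∈ lay (![1, 1, 2, 3] : Fin 4 → ℕ) 1 := by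
  intro i hi
  fin_cases i
  · rfl
  · exact absurd rfl hi
  all_goals rfl

theorem ex_e2 : (![0, 0, 1, 0] : Fin 4 → ℝ) ∈ lay (![1, 1, 2, 3] : Fin 4 → ℕ) 2 := by
  intro i hi
  fin_cases i
  · rfl
  · rfl
  · exact absurd rfl hi
  · rfl

theorem ex_strat (j : ℕ) (hj : 1 ≤ j) :
    lay (![1, 1, 2, 3] : Fin 4 → ℕ) (j + 1) = Submodule.span ℝ
      {c | ∃ a ∈ lay (![1, 1, 2, 3] : Fin 4 → ℕ) 1, ∃ b ∈ lay (![1, 1, 2, 3] : Fin 4 → ℕ) j,
        c = brk engM a b} := by
  apply le_antisymm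
  · intro v hv
    have hv' : ∀ i, (![1, 1, 2, 3] : Fin 4 → ℕ) i ≠ j + 1 → v i = 0 := hv
    have v0 : v 0 = 0 := hv' 0 (by simp; omega)
    have v1 : v 1 = 0 := hv' 1 (by simp; omega)
    by_cases h1 : j = 1
    · subst h1
      have v3 : v 3 = 0 := hv' 3 (by simp)
      have h2 : v = v 2 • brk engM ![1, 0, 0, 0] ![0, 1, 0, 0] := by
        rw [ex_brk]
        funext i
        fin_cases i <;> simp [v0, v1, v3]
      rw [h2]
      apply Submodule.smul_mem
      apply Submodule.subset_span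
      exact ⟨_, ex_e0, _, ex_e1, rfl⟩
    by_cases h2 : j = 2
    · subst h2
      have v2 : v 2 = 0 := hv' 2 (by simp)
      have h2 : v = v 3 • brk engM ![1, 0, 0, 0] ![0, 0, 1, 0] := by
        rw [ex_brk]
        funext i
        fin_cases i <;> simp [v0, v1, v2]
      rw [h2]
      apply Submodule.smul_mem
      apply Submodule.subset_span
      exact ⟨_, ex_e0, _, ex_e2, rfl⟩
    · have v2 : v 2 = 0 := hv' 2 (by simp; omega)
      have v3 : v 3 = 0 := hv' 3 (by simp; omega)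
      have h3 : v = 0 := by
        funext i
        fin_cases i <;> simp [v0, v1, v2, v3]
      rw [h3]
      exact Submodule.zero_mem _
  · rw [Submodule.span_le]
    rintro c ⟨a, ha, b, hb, rfl⟩
    have ha' : ∀ i, (![1, 1, 2, 3] : Fin 4 → ℕ) i ≠ 1 → a i = 0 := ha
    have hb' : ∀ i, (![1, 1, 2, 3] : Fin 4 → ℕ) i ≠ j → b i = 0 := hb
    have a2 : a 2 = 0 := ha' 2 (by simp)
    rw [ex_brk]
    intro i hi
    fin_cases i
    · rfl
    · rfl
    · have hj1 : j ≠ 1 := by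
        rintro rfl
        exact hi rfl
      have b0 : b 0 = 0 := hb' 0 (by simp; omega)
      have b1 : b 1 = 0 := hb' 1 (by simp; omega)
      simp [b0, b1]
    · have hj1 : j ≠ 2 := by
        rintro rfl
        exact hi rfl
      have b2 : b 2 = 0 := hb' 2 (by simp; omega)
      simp [b2, a2]

/-- the Engel group is a Carnot group in the sense of the structure -/
theorem exists_engel : ∃ G : Carnot 4, G.wt = ![1, 1, 2, 3] ∧
    ∀ a b, G.mul a b = ![a 0 + b 0, a 1 + b 1, a 2 + b 2 + (a 0 * b 1 - a 1 * b 0) / 2,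
      a 3 + b 3 + (a 0 * b 2 - a 2 * b 0) / 2 + (a 0 - b 0) * (a 0 * b 1 - a 1 * b 0) / 12] := by
  refine ⟨{
    wt := ![1, 1, 2, 3]
    mul := engM
    wt_pos := ?_
    smooth := ex_smooth
    assoc := ?_
    expo := ?_
    dil := ?_
    strat := ex_strat }, rfl, fun a b => rfl⟩
  · intro i
    fin_cases i <;> simp
  · intro a b c
    funext i
    fin_cases i <;> simp [engM] <;> ring
  · intro v s t
    funext i
    fin_cases i <;> simp [engM] <;> ring
  · intro r hr a b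
    funext i
    fin_cases i <;> simp [engM, dl] <;> ring

end Pool.Agent.CMC
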