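import Pool.Agent.Lib_helper36.CMC.Defs
import Pool.Agent.Lib_helper36.CMC.W.A1
import Pool.Agent.Lib_helper36.CMC.W.A2
import Pool.Agent.Lib_helper36.CMC.W.A3
import Pool.Agent.Lib_helper36.CMC.W.A4
import Pool.Agent.Lib_helper36.CMC.W.C1

set_option autoImplicit false

namespace Pool.Agent.CMC

open MeasureTheory Set
open scoped ContDiff

variable {n : ℕ}

/-- the group law as a map of pairs -/
def c2F (G : Carnot n) (p : (Fin n → ℝ) × (Fin n → ℝ)) : Fin n → ℝ := G.mul p.1 p.2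

theorem c2_smooth (G : Carnot n) : ContDiff ℝ ∞ (c2F G) := G.smooth

theorem c2_hF (G : Carnot n) (p : (Fin n → ℝ) × (Fin n → ℝ)) :
    HasFDerivAt (c2F G) (fderiv ℝ (c2F G) p) p :=
  (((c2_smooth G).differentiable (by simp)) p).hasFDerivAt

theorem c2_smooth' (G : Carnot n) : ContDiff ℝ 1 (fderiv ℝ (c2F G)) :=
  (contDiff_infty.1 (c2_smooth G) 2).fderiv_right (m := 1) (by norm_num)

theorem c2_hF' (G : Carnot n) (p : (Fin n → ℝ) × (Fin n → ℝ)) :
    HasFDerivAt (fderiv ℝ (c2F G)) (fderiv ℝ (fderiv ℝ (c2F G)) p) p :=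
  (((c2_smooth' G).differentiable (by simp)) p).hasFDerivAt

/-- the second derivative at the neutral element -/
noncomputable def c2B (G : Carnot n) : ((Fin n → ℝ) × (Fin n → ℝ)) →L[ℝ]
    ((Fin n → ℝ) × (Fin n → ℝ)) →L[ℝ] (Fin n → ℝ) := fderiv ℝ (fderiv ℝ (c2F G)) 0

theorem c2_symm (G : Carnot n) (u w : (Fin n → ℝ) × (Fin n → ℝ)) : c2B G u w = c2B G w u :=
  second_derivative_symmetric (fun y => c2_hF G y) (c2_hF' G 0) u w

theorem c2_right (G : Carnot n) (p : (Fin n → ℝ) × (Fin n → ℝ)) (v : Fin n → ℝ) :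
    fderiv ℝ (c2F G) p (0, v) = fderiv ℝ (G.mul p.1) p.2 v := by
  have h1 : HasFDerivAt (fun x : Fin n → ℝ => ((p.1, x) : (Fin n → ℝ) × (Fin n → ℝ)))
      (ContinuousLinearMap.inr ℝ (Fin n → ℝ) (Fin n → ℝ)) p.2 := hasFDerivAt_prodMk_right p.1 p.2
  have h2 := (c2_hF G (p.1, p.2)).comp p.2 h1
  have h3 : HasFDerivAt (G.mul p.1) ((fderiv ℝ (c2F G) (p.1, p.2)).comp
    (ContinuousLinearMap.inr ℝ (Fin n → ℝ) (Fin n → ℝ))) p.2 := h2
  rw [h3.fderiv]
  simp

theorem c2_left (G : Carnot n) (p : (Fin n → ℝ) × (Fin n → ℝ)) (v : Fin n → ℝ) :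
    fderiv ℝ (c2F G) p (v, 0) = fderiv ℝ (fun x => G.mul x p.2) p.1 v := by
  have h1 : HasFDerivAt (fun x : Fin n → ℝ => ((x, p.2) : (Fin n → ℝ) × (Fin n → ℝ)))
      (ContinuousLinearMap.inl ℝ (Fin n → ℝ) (Fin n → ℝ)) p.1 := hasFDerivAt_prodMk_left p.1 p.2
  have h2 := (c2_hF G (p.1, p.2)).comp p.1 h1
  have h3 : HasFDerivAt (fun x => G.mul x p.2) ((fderiv ℝ (c2F G) (p.1, p.2)).comp
    (ContinuousLinearMap.inl ℝ (Fin n → ℝ) (Fin n → ℝ))) p.1 := h2
  rw [h3.fderiv]
  simp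

/-- the second derivative as the derivative along a line -/
theorem c2_line (G : Carnot n) (u w : (Fin n → ℝ) × (Fin n → ℝ)) :
    HasDerivAt (fun t : ℝ => fderiv ℝ (c2F G) (t • u) w) (c2B G u w) 0 := by
  have h1 : HasDerivAt (fun t : ℝ => t • u) u 0 := by
    simpa using (hasDerivAt_id (0 : ℝ)).smul_const u
  have h0 : HasFDerivAt (fderiv ℝ (c2F G)) (c2B G) ((0 : ℝ) • u) := by
    rw [zero_smul]; exact c2_hF' G 0
  have h2 := h0.comp_hasDerivAt (0 : ℝ) h1
  exact ((ContinuousLinearMap.apply ℝ (Fin n → ℝ) w).hasFDerivAt (x := fderiv ℝ (c2F G) ((0:ℝ) • u))).comp_hasDerivAt (0 : ℝ) h2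

theorem c2_B1 (G : Carnot n) (y v : Fin n → ℝ) : c2B G (0, y) (0, v) = 0 := by
  have h := c2_line G (0, y) (0, v)
  have h2 : (fun t : ℝ => fderiv ℝ (c2F G) (t • ((0 : Fin n → ℝ), y)) (0, v)) = fun _ => v := by
    funext t
    rw [c2_right]
    have e : G.mul (t • ((0 : Fin n → ℝ), y)).1 = id := by
      funext x
      simp [G.zero_mul]
    rw [e]; simp
  rw [h2] at h
  exact h.unique (hasDerivAt_const _ _)

theorem c2_B2 (G : Carnot n) (x v : Fin n → ℝ) : c2B G (x, 0) (0, v) = bet G x v := by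
  have h := c2_line G (x, 0) (0, v)
  have h2 : (fun t : ℝ => fderiv ℝ (c2F G) (t • (x, (0 : Fin n → ℝ))) (0, v)) =
      fun t => X G v (t • x) := by
    funext t
    rw [c2_right]
    simp [X, lif]
  rw [h2] at h
  have h1 : HasDerivAt (fun t : ℝ => t • x) x 0 := by
    simpa using (hasDerivAt_id (0 : ℝ)).smul_const x
  have h0 : HasFDerivAt (X G v) (fderiv ℝ (X G v) 0) ((0 : ℝ) • x) := by
    rw [zero_smul]
    exact (((smooth_X G v).differentiable (by simp)) 0).hasFDerivAt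
  exact h.unique (h0.comp_hasDerivAt (0 : ℝ) h1)

theorem c2_B3 (G : Carnot n) (x v : Fin n → ℝ) : c2B G (x, 0) (v, 0) = 0 := by
  have h := c2_line G (x, 0) (v, 0)
  have h2 : (fun t : ℝ => fderiv ℝ (c2F G) (t • (x, (0 : Fin n → ℝ))) (v, 0)) = fun _ => v := by
    funext t
    rw [c2_left]
    have e : (fun y => G.mul y (t • (x, (0 : Fin n → ℝ))).2) = id := by
      funext y
      simp [G.mul_zero]
    rw [e]; simp
  rw [h2] at h
  exact h.unique (hasDerivAt_const _ _)

/-- homogeneity of the differential -/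
theorem c2_hom (G : Carnot n) {r : ℝ} (hr : 0 < r) (p w : (Fin n → ℝ) × (Fin n → ℝ)) :
    fderiv ℝ (c2F G) (dl G.wt r p.1, dl G.wt r p.2) (dl G.wt r w.1, dl G.wt r w.2) =
      dl G.wt r (fderiv ℝ (c2F G) p w) := by
  have e : (fun q : (Fin n → ℝ) × (Fin n → ℝ) =>
      c2F G (((dlL G.wt r).prodMap (dlL G.wt r)) q)) = fun q => dlL G.wt r (c2F G q) := by
    funext q
    exact G.dil r hr q.1 q.2
  have h1 : HasFDerivAt (fun q : (Fin n → ℝ) × (Fin n → ℝ) =>
      c2F G (((dlL G.wt r).prodMap (dlL G.wt r)) q))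
      ((fderiv ℝ (c2F G) (((dlL G.wt r).prodMap (dlL G.wt r)) p)).comp
        ((dlL G.wt r).prodMap (dlL G.wt r))) p :=
    (c2_hF G _).comp p (((dlL G.wt r).prodMap (dlL G.wt r)).hasFDerivAt)
  have h2 : HasFDerivAt (fun q => dlL G.wt r (c2F G q))
      ((dlL G.wt r).comp (fderiv ℝ (c2F G) p)) p :=
    (dlL G.wt r).hasFDerivAt.comp p (c2_hF G p)
  rw [e] at h1
  have h3 := congrArg (fun L => L w) (h1.unique h2)
  exact h3

/-- functions which are homogeneous of degree one -/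
theorem c2_homog (G : Carnot n) {f : (Fin n → ℝ) × (Fin n → ℝ) → ℝ}
    {L : ((Fin n → ℝ) × (Fin n → ℝ)) →L[ℝ] ℝ} (hf : HasFDerivAt f L 0)
    (h : ∀ r : ℝ, 0 < r → ∀ p : (Fin n → ℝ) × (Fin n → ℝ),
      f (dl G.wt r p.1, dl G.wt r p.2) = r * f p) (p : (Fin n → ℝ) × (Fin n → ℝ)) :
    f p = L (pj G 1 p.1, pj G 1 p.2) := by
  have hd : ∀ g : Fin n → ℝ, HasDerivAt (fun r : ℝ => dl G.wt r g) (pj G 1 g) 0 := by
    intro g
    rw [hasDerivAt_pi]
    intro i
    have h1 : HasDerivAt (fun r : ℝ => r ^ G.wt i * g i)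
        ((G.wt i : ℝ) * 0 ^ (G.wt i - 1) * g i) 0 := by
      simpa using (hasDerivAt_pow (G.wt i) (0 : ℝ)).mul_const (g i)
    have h2 : ((G.wt i : ℝ) * 0 ^ (G.wt i - 1) * g i) = pj G 1 g i := by
      by_cases hi : G.wt i = 1
      · simp [pj, hi]
      · have h3 := G.wt_pos i
        have h4 : G.wt i - 1 ≠ 0 := by omega
        simp [pj, hi, h4]
    rw [h2] at h1
    exact h1
  have hz : ∀ g : Fin n → ℝ, dl G.wt 0 g = 0 := by
    intro g
    funext i
    have h3 := G.wt_pos i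
    have h4 : G.wt i ≠ 0 := by omega
    simp [dl, h4]
  have hc : HasDerivAt (fun r : ℝ => ((dl G.wt r p.1, dl G.wt r p.2) :
      (Fin n → ℝ) × (Fin n → ℝ))) (pj G 1 p.1, pj G 1 p.2) 0 := (hd p.1).prodMk (hd p.2)
  have hf' : HasFDerivAt f L ((fun r : ℝ => ((dl G.wt r p.1, dl G.wt r p.2) :
      (Fin n → ℝ) × (Fin n → ℝ))) 0) := by
    simp only [hz]
    exact hf
  have h1 := hf'.comp_hasDerivAt (0 : ℝ) hc
  have h0 : f 0 = 0 := by
    have h2 := h 2 two_pos 0
    simp only [Prod.fst_zero, Prod.snd_zero, dl_zero] at h2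
    have h3 : f ((0 : Fin n → ℝ), (0 : Fin n → ℝ)) = f 0 := rfl
    rw [h3] at h2
    linarith
  have h2 : HasDerivWithinAt (fun r : ℝ => r * f p) (L (pj G 1 p.1, pj G 1 p.2)) (Ici 0) 0 := by
    refine (h1.hasDerivWithinAt (s := Ici 0)).congr ?_ ?_
    · intro r hr
      rcases eq_or_lt_of_le (show (0 : ℝ) ≤ r from hr) with h3 | h3
      · subst h3
        simp only [Function.comp, hz, zero_mul]
        exact h0.symm
      · exact (h r h3 p).symm
    · simp only [Function.comp, hz, zero_mul]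
      exact h0.symm
  have h3 : HasDerivWithinAt (fun r : ℝ => r * f p) (f p) (Ici 0) 0 := by
    simpa using ((hasDerivAt_id (0 : ℝ)).mul_const (f p)).hasDerivWithinAt (s := Ici 0)
  exact (uniqueDiffOn_Ici (0 : ℝ) 0 self_mem_Ici).eq_deriv _ h3 h2

/-- a component of the differential in a fixed direction -/
theorem c2_comp (G : Carnot n) (w : (Fin n → ℝ) × (Fin n → ℝ)) (i : Fin n) :
    HasFDerivAt (fun p => fderiv ℝ (c2F G) p w i)
      ((ContinuousLinearMap.proj i : (Fin n → ℝ) →L[ℝ] ℝ).comp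
        ((ContinuousLinearMap.apply ℝ (Fin n → ℝ) w).comp (c2B G))) 0 := by
  have h1 := ((ContinuousLinearMap.apply ℝ (Fin n → ℝ) w).hasFDerivAt
    (x := fderiv ℝ (c2F G) 0)).comp 0 (c2_hF' G 0)
  exact ((ContinuousLinearMap.proj i : (Fin n → ℝ) →L[ℝ] ℝ).hasFDerivAt
    (x := fderiv ℝ (c2F G) 0 w)).comp 0 h1

theorem c2_key (G : Carnot n) {j : ℕ} {w : (Fin n → ℝ) × (Fin n → ℝ)} (h1 : w.1 ∈ lay G.wt j)
    (h2 : w.2 ∈ lay G.wt j) {i : Fin n} (hi : G.wt i = j + 1)
    (p : (Fin n → ℝ) × (Fin n → ℝ)) :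
    fderiv ℝ (c2F G) p w i = c2B G (pj G 1 p.1, pj G 1 p.2) w i := by
  refine c2_homog G (c2_comp G w i) ?_ p
  intro r hr q
  have h3 := congrFun (c2_hom G hr q w) i
  rw [dl_lay G.wt r h1, dl_lay G.wt r h2] at h3
  have h4 : ((r ^ j • w.1, r ^ j • w.2) : (Fin n → ℝ) × (Fin n → ℝ)) = r ^ j • w := rfl
  rw [h4, map_smul] at h3
  simp only [Pi.smul_apply, smul_eq_mul, dl, hi] at h3
  have h5 : r ^ j ≠ 0 := by positivity
  have h6 : r ^ j * (fderiv ℝ (c2F G) (dl G.wt r q.1, dl G.wt r q.2) w i) =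
      r ^ j * (r * fderiv ℝ (c2F G) q w i) := by
    rw [pow_succ] at h3
    rw [h3]; ring
  exact mul_left_cancel₀ h5 h6

theorem c2_pj_mem (G : Carnot n) (j : ℕ) (g : Fin n → ℝ) : pj G j g ∈ lay G.wt j :=
  fun i hi => by simp [pj, hi]

theorem c2_rest (G : Carnot n) {j : ℕ} {h : Fin n → ℝ} (hh : Ge G j h) :
    Ge G (j + 1) (h - pj G j h) := by
  intro i hi
  by_cases h1 : G.wt i = j
  · simp [pj, h1]
  · have : h i = 0 := hh i (by omega)
    simp [pj, h1, this]

theorem c2_pj_self (G : Carnot n) {a : Fin n → ℝ} (ha : a ∈ lay G.wt 1) : pj G 1 a = a := by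
  funext i
  by_cases h : G.wt i = 1
  · simp [pj, h]
  · simp [pj, h, ha i h]

/-- for `a` horizontal and `h` without components of weight less than `j`, the component of weight
`j + 1` of the products is `h + ∂₁∂₂(a, h)` -/
theorem mul_next_left (G : Carnot n) {j : ℕ} (hj : 1 ≤ j) {a h : Fin n → ℝ} (ha : a ∈ lay G.wt 1)
    (hh : Ge G j h) (i : Fin n) (hi : G.wt i = j + 1) :
    G.mul a h i = h i + bet G a (pj G j h) i := by
  have hD : ∀ b : Fin n → ℝ, fderiv ℝ (G.mul a) b h i = h i + bet G a (pj G j h) i := by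
    intro b
    have e : h = pj G j h + (h - pj G j h) := by abel
    have h1 : fderiv ℝ (G.mul a) b (h - pj G j h) i = (h - pj G j h) i :=
      fderiv_right_ge G a b (c2_rest G hh) i hi.le
    have h2 : fderiv ℝ (G.mul a) b (pj G j h) i = bet G a (pj G j h) i := by
      have h3 := c2_key G (w := (0, pj G j h)) (j := j) (lay G.wt j).zero_mem
        (c2_pj_mem G j h) hi (a, b)
      rw [c2_right] at h3
      have h4 : ((pj G 1 a, pj G 1 b) : (Fin n → ℝ) × (Fin n → ℝ)) =
        (pj G 1 a, 0) + (0, pj G 1 b) := by simp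
      simp only [] at h3
      rw [h3, h4, map_add, add_apply, c2_B1, c2_B2, add_zero, c2_pj_self G ha]
    have h5 : pj G j h i = 0 := by
      have : G.wt i ≠ j := by omega
      simp [pj, this]
    calc fderiv ℝ (G.mul a) b h i
        = fderiv ℝ (G.mul a) b (pj G j h + (h - pj G j h)) i := by rw [← e]
      _ = fderiv ℝ (G.mul a) b (pj G j h) i + fderiv ℝ (G.mul a) b (h - pj G j h) i := by
          rw [map_add, Pi.add_apply]
      _ = h i + bet G a (pj G j h) i := by
          rw [h1, h2, Pi.sub_apply, h5]; ring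
  have hd : ∀ s : ℝ, HasDerivAt
      (fun s : ℝ => G.mul a (s • h) i - s * (h i + bet G a (pj G j h) i)) 0 s := by
    intro s
    have h1 : HasFDerivAt (G.mul a) (fderiv ℝ (G.mul a) (s • h)) (s • h) :=
      (((smooth_right G a).differentiable (by simp)) _).hasFDerivAt
    have h2 : HasDerivAt (fun s : ℝ => s • h) h s := by
      simpa using (hasDerivAt_id s).smul_const h
    have h3 := h1.comp_hasDerivAt s h2
    have h4 := (hasDerivAt_pi.1 h3) i
    have h5 : HasDerivAt (fun s : ℝ => s * (h i + bet G a (pj G j h) i))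
        (h i + bet G a (pj G j h) i) s := by
      simpa using (hasDerivAt_id s).mul_const (h i + bet G a (pj G j h) i)
    have h6 := h4.sub h5
    rw [hD, sub_self] at h6
    exact h6
  have hc := is_const_of_deriv_eq_zero (fun s => (hd s).differentiableAt)
    (fun s => (hd s).deriv) 1 0
  have h0 : a i = 0 := ha i (by omega)
  simp only [one_smul, zero_smul, G.mul_zero, one_mul, zero_mul, sub_zero, h0] at hc
  linarith

theorem mul_next_right (G : Carnot n) {j : ℕ} (hj : 1 ≤ j) {a h : Fin n → ℝ} (ha : a ∈ lay G.wt 1)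
    (hh : Ge G j h) (i : Fin n) (hi : G.wt i = j + 1) :
    G.mul h a i = h i + bet G (pj G j h) a i := by
  have hD : ∀ b : Fin n → ℝ, fderiv ℝ (fun x => G.mul x a) b h i =
      h i + bet G (pj G j h) a i := by
    intro b
    have e : h = pj G j h + (h - pj G j h) := by abel
    have h1 : fderiv ℝ (fun x => G.mul x a) b (h - pj G j h) i = (h - pj G j h) i :=
      fderiv_left_ge G b a (c2_rest G hh) i hi.le
    have h2 : fderiv ℝ (fun x => G.mul x a) b (pj G j h) i = bet G (pj G j h) a i := by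
      have h3 := c2_key G (w := (pj G j h, 0)) (j := j) (c2_pj_mem G j h)
        (lay G.wt j).zero_mem hi (b, a)
      rw [c2_left] at h3
      have h4 : ((pj G 1 b, pj G 1 a) : (Fin n → ℝ) × (Fin n → ℝ)) =
        (pj G 1 b, 0) + (0, pj G 1 a) := by simp
      simp only [] at h3
      rw [h3, h4, map_add, add_apply, c2_B3, c2_symm, c2_B2, zero_add, c2_pj_self G ha]
    have h5 : pj G j h i = 0 := by
      have : G.wt i ≠ j := by omega
      simp [pj, this]
    calc fderiv ℝ (fun x => G.mul x a) b h i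
        = fderiv ℝ (fun x => G.mul x a) b (pj G j h + (h - pj G j h)) i := by rw [← e]
      _ = fderiv ℝ (fun x => G.mul x a) b (pj G j h) i +
            fderiv ℝ (fun x => G.mul x a) b (h - pj G j h) i := by
          rw [map_add, Pi.add_apply]
      _ = h i + bet G (pj G j h) a i := by
          rw [h1, h2, Pi.sub_apply, h5]; ring
  have hd : ∀ s : ℝ, HasDerivAt
      (fun s : ℝ => G.mul (s • h) a i - s * (h i + bet G (pj G j h) a i)) 0 s := by
    intro s
    have h1 : HasFDerivAt (fun x => G.mul x a) (fderiv ℝ (fun x => G.mul x a) (s • h)) (s • h) :=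
      (((smooth_left G a).differentiable (by simp)) _).hasFDerivAt
    have h2 : HasDerivAt (fun s : ℝ => s • h) h s := by
      simpa using (hasDerivAt_id s).smul_const h
    have h3 := h1.comp_hasDerivAt s h2
    have h4 := (hasDerivAt_pi.1 h3) i
    have h5 : HasDerivAt (fun s : ℝ => s * (h i + bet G (pj G j h) a i))
        (h i + bet G (pj G j h) a i) s := by
      simpa using (hasDerivAt_id s).mul_const (h i + bet G (pj G j h) a i)
    have h6 := h4.sub h5
    rw [hD, sub_self] at h6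
    exact h6
  have hc := is_const_of_deriv_eq_zero (fun s => (hd s).differentiableAt)
    (fun s => (hd s).deriv) 1 0
  have h0 : a i = 0 := ha i (by omega)
  simp only [one_smul, zero_smul, G.zero_mul, one_mul, zero_mul, sub_zero, h0] at hc
  linarith

end Pool.Agent.CMC
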