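import Pool.Agent.Lib_helper36.CMC.Defs
import Pool.Agent.Lib_helper36.CMC.W.A1
import Pool.Agent.Lib_helper36.CMC.W.A2
import Pool.Agent.Lib_helper36.CMC.W.A4
import Pool.Agent.Lib_helper36.CMC.W.B0
import Pool.Agent.Lib_helper36.CMC.W.C1
import Pool.Agent.Lib_helper36.CMC.W.C2

set_option autoImplicit false

namespace Pool.Agent.CMC

open MeasureTheory Set
open scoped ContDiff

variable {n : ℕ}

/-- the commutator of `a` and `h` has no component of weight less than `j + 1`, and its component
of weight `j + 1` is the bracket -/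
theorem ge_comm (G : Carnot n) {j : ℕ} (hj : 1 ≤ j) {a h : Fin n → ℝ} (ha : a ∈ lay G.wt 1)
    (hh : Ge G j h) : Ge G (j + 1) (G.mul (G.mul a h) (-(G.mul h a))) := by
  have _ := hj
  have _ := ha
  obtain ⟨z, hz⟩ : ∃ z, z = G.mul (G.mul a h) (-(G.mul h a)) := ⟨_, rfl⟩
  rw [← hz]
  have hmul : G.mul z (G.mul h a) = G.mul a h := by rw [hz]; exact G.mul_neg_mul _ _
  have key : ∀ m : ℕ, m ≤ j + 1 → Ge G m z := by
    intro m
    induction m with
    | zero => intro _ i hi; exact absurd hi (Nat.not_lt_zero _)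
    | succ m ih =>
      intro hm
      have ih' := ih (by omega)
      intro i hi
      by_cases him : G.wt i < m
      · exact ih' i him
      · have him' : G.wt i = m := by omega
        have h1 := mul_low_left G ih' (G.mul h a) i him'.le
        rw [hmul] at h1
        have h2 := mul_low_right G hh a i (by omega)
        have h3 := mul_low_left G hh a i (by omega)
        rw [h2, h3] at h1
        linarith
  exact key (j + 1) le_rfl

theorem pj_comm (G : Carnot n) {j : ℕ} (hj : 1 ≤ j) {a h : Fin n → ℝ} (ha : a ∈ lay G.wt 1)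
    (hh : Ge G j h) : pj G (j + 1) (G.mul (G.mul a h) (-(G.mul h a))) =
      pj G (j + 1) (brk G.mul a (pj G j h)) := by
  have hge := ge_comm G hj ha hh
  obtain ⟨z, hz⟩ : ∃ z, z = G.mul (G.mul a h) (-(G.mul h a)) := ⟨_, rfl⟩
  rw [← hz] at hge ⊢
  have hmul : G.mul z (G.mul h a) = G.mul a h := by rw [hz]; exact G.mul_neg_mul _ _
  funext i
  unfold pj
  by_cases hi : G.wt i = j + 1
  · rw [if_pos hi, if_pos hi]
    have h1 := mul_low_left G hge (G.mul h a) i hi.le
    rw [hmul] at h1
    have h2 := mul_next_left G hj ha hh i hi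
    have h3 := mul_next_right G hj ha hh i hi
    rw [h2, h3] at h1
    have h4 := congrFun (brk_eq_bet G a (pj G j h)) i
    rw [Pi.sub_apply] at h4
    unfold pj at h1 h4
    linarith
  · rw [if_neg hi, if_neg hi]

end Pool.Agent.CMC
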