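import Pool.Agent.Lib_helper36.CMC.Defs
import Pool.Agent.Lib_helper36.CMC.W.A1
import Pool.Agent.Lib_helper36.CMC.W.A3

set_option autoImplicit false

namespace Pool.Agent.CMC

open MeasureTheory Set
open scoped ContDiff

variable {n : ℕ}

theorem gen_of_lay (G : Carnot n) {a : Fin n → ℝ} (ha : a ∈ lay G.wt 1) : Gen G a := by
  have h := Gen.step 0 a (Gen.zero (G := G)) ha
  rwa [G.zero_mul] at h

theorem gen_mul (G : Carnot n) {g h : Fin n → ℝ} (hg : Gen G g) (hh : Gen G h) :
    Gen G (G.mul g h) := by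
  induction hh with
  | zero => rw [G.mul_zero]; exact hg
  | step k a _ ha ih => rw [← G.assoc]; exact Gen.step _ a ih ha

theorem gen_neg (G : Carnot n) {g : Fin n → ℝ} (hg : Gen G g) : Gen G (-g) := by
  induction hg with
  | zero => rw [neg_zero]; exact Gen.zero
  | step k a _ ha ih =>
    rw [G.neg_rev]
    exact gen_mul G (gen_of_lay G (Submodule.neg_mem _ ha)) ih

theorem gen_dl (G : Carnot n) {g : Fin n → ℝ} (hg : Gen G g) {r : ℝ} (hr : 0 < r) :
    Gen G (dl G.wt r g) := by
  induction hg with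
  | zero => rw [dl_zero]; exact Gen.zero
  | step k a _ ha ih =>
    rw [← G.dil r hr]
    refine Gen.step _ _ ih ?_
    rw [dl_lay G.wt r ha]
    exact Submodule.smul_mem _ _ ha

end Pool.Agent.CMC
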