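import Pool.Agent.Lib_helper36.CMC.Defs
import Pool.Agent.Lib_helper36.CMC.W.A1
import Pool.Agent.Lib_helper36.CMC.W.A3
import Pool.Agent.Lib_helper36.CMC.W.C1
import Pool.Agent.Lib_helper36.CMC.W.C3
import Pool.Agent.Lib_helper36.CMC.W.C4

set_option autoImplicit false

namespace Pool.Agent.CMC

open MeasureTheory Set
open scoped ContDiff

variable {n : ℕ}

theorem c5_pj_mul (G : Carnot n) {j : ℕ} {a : Fin n → ℝ} (ha : Ge G j a) (b : Fin n → ℝ) :
    pj G j (G.mul a b) = pj G j a + pj G j b := by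
  funext i
  by_cases h : G.wt i = j
  · simp only [pj, h, if_true, Pi.add_apply]
    exact mul_low_left G ha b i h.le
  · simp [pj, h]

theorem c5_pj_dl (G : Carnot n) (j : ℕ) (r : ℝ) (a : Fin n → ℝ) :
    pj G j (dl G.wt r a) = r ^ j • pj G j a := by
  funext i
  by_cases h : G.wt i = j
  · simp [pj, h, dl]
  · simp [pj, h]

theorem c5_pj_neg (G : Carnot n) (j : ℕ) (a : Fin n → ℝ) : pj G j (-a) = -pj G j a := by
  funext i
  by_cases h : G.wt i = j
  · simp [pj, h]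
  · simp [pj, h]

/-- leading components of horizontal products -/
def c5_L (G : Carnot n) (j : ℕ) : Set (Fin n → ℝ) :=
  {v | ∃ h, Gen G h ∧ Ge G j h ∧ pj G j h = v}

theorem c5_zero (G : Carnot n) (j : ℕ) : (0 : Fin n → ℝ) ∈ c5_L G j :=
  ⟨0, Gen.zero, fun _ _ => rfl, by funext i; simp [pj]⟩

theorem c5_add (G : Carnot n) (j : ℕ) {v w : Fin n → ℝ} (hv : v ∈ c5_L G j) (hw : w ∈ c5_L G j) :
    v + w ∈ c5_L G j := by
  obtain ⟨a, ha1, ha2, rfl⟩ := hv
  obtain ⟨b, hb1, hb2, rfl⟩ := hw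
  exact ⟨G.mul a b, gen_mul G ha1 hb1, ge_mul G ha2 hb2, c5_pj_mul G ha2 b⟩

theorem c5_neg (G : Carnot n) (j : ℕ) {v : Fin n → ℝ} (hv : v ∈ c5_L G j) : -v ∈ c5_L G j := by
  obtain ⟨a, ha1, ha2, rfl⟩ := hv
  exact ⟨-a, gen_neg G ha1, ge_neg G ha2, c5_pj_neg G j a⟩

theorem c5_pos (G : Carnot n) {j : ℕ} (hj : 1 ≤ j) {v : Fin n → ℝ} (hv : v ∈ c5_L G j) {c : ℝ}
    (hc : 0 < c) : c • v ∈ c5_L G j := by
  obtain ⟨a, ha1, ha2, rfl⟩ := hv
  have hr : 0 < c ^ (1 / (j : ℝ)) := Real.rpow_pos_of_pos hc _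
  refine ⟨dl G.wt (c ^ (1 / (j : ℝ))) a, gen_dl G ha1 hr, ge_dl G ha2 _, ?_⟩
  rw [c5_pj_dl]
  congr 1
  rw [← Real.rpow_natCast, ← Real.rpow_mul hc.le]
  have : (j : ℝ) ≠ 0 := by positivity
  rw [one_div, inv_mul_cancel₀ this, Real.rpow_one]

theorem c5_smul (G : Carnot n) {j : ℕ} (hj : 1 ≤ j) {v : Fin n → ℝ} (hv : v ∈ c5_L G j) (c : ℝ) :
    c • v ∈ c5_L G j := by
  rcases lt_trichotomy c 0 with h | h | h
  · have := c5_neg G j (c5_pos G hj hv (neg_pos.2 h))
    rwa [neg_smul, neg_neg] at this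
  · rw [h, zero_smul]; exact c5_zero G j
  · exact c5_pos G hj hv h

/-- the leading components form a subspace -/
def c5_S (G : Carnot n) {j : ℕ} (hj : 1 ≤ j) : Submodule ℝ (Fin n → ℝ) where
  carrier := c5_L G j
  add_mem' := fun ha hb => c5_add G j ha hb
  zero_mem' := c5_zero G j
  smul_mem' := fun c _ hv => c5_smul G hj hv c

theorem c5_pj_of_mem (G : Carnot n) {j : ℕ} {g : Fin n → ℝ} (hg : g ∈ lay G.wt j) :
    pj G j g = g := by
  funext i
  by_cases h : G.wt i = j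
  · simp [pj, h]
  · simp [pj, h, hg i h]

theorem c5_pj_mem (G : Carnot n) (j : ℕ) (g : Fin n → ℝ) : pj G j g ∈ lay G.wt j :=
  fun i hi => by simp [pj, hi]

theorem c5_lay (G : Carnot n) : ∀ j, 1 ≤ j → ∀ v ∈ lay G.wt j, v ∈ c5_L G j := by
  intro j hj
  induction j, hj using Nat.le_induction with
  | base =>
    intro v hv
    exact ⟨v, gen_of_lay G hv, ge_one G v, c5_pj_of_mem G hv⟩
  | succ j hj ih =>
    intro v hv
    have hj' : 1 ≤ j + 1 := by omega
    have h : lay G.wt (j + 1) ≤ c5_S G hj' := by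
      rw [G.strat j hj, Submodule.span_le]
      rintro c ⟨a, ha, b, hb, rfl⟩
      have hmem : brk G.mul a b ∈ lay G.wt (j + 1) := by
        rw [G.strat j hj]
        exact Submodule.subset_span ⟨a, ha, b, hb, rfl⟩
      obtain ⟨h, hh1, hh2, hh3⟩ := ih b hb
      refine ⟨G.mul (G.mul a h) (-(G.mul h a)), ?_, ge_comm G hj ha hh2, ?_⟩
      · exact gen_mul G (gen_mul G (gen_of_lay G ha) hh1)
          (gen_neg G (gen_mul G hh1 (gen_of_lay G ha)))
      · rw [pj_comm G hj ha hh2, hh3, c5_pj_of_mem G hmem]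
    exact h hv

theorem c5_approx (G : Carnot n) (g : Fin n → ℝ) :
    ∀ m, 1 ≤ m → ∃ h, Gen G h ∧ Ge G m (G.mul (-h) g) := by
  intro m hm
  induction m, hm using Nat.le_induction with
  | base => exact ⟨0, Gen.zero, ge_one G _⟩
  | succ m hm ih =>
    obtain ⟨h, hh1, hh2⟩ := ih
    obtain ⟨h', hh1', hh2', hh3'⟩ := c5_lay G m hm _ (c5_pj_mem G m (G.mul (-h) g))
    refine ⟨G.mul h h', gen_mul G hh1 hh1', ?_⟩
    rw [G.neg_rev, G.assoc]
    intro i hi
    rw [mul_low_left G (ge_neg G hh2') _ i (by omega), Pi.neg_apply]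
    by_cases him : G.wt i = m
    · have := congrFun hh3' i
      simp only [pj, him, if_true] at this
      rw [this]; ring
    · rw [hh2' i (by omega), hh2 i (by omega)]; ring

/-- Chow: every element is a product of horizontal elements -/
theorem gen_all (G : Carnot n) (g : Fin n → ℝ) : Gen G g := by
  obtain ⟨h, hh1, hh2⟩ := c5_approx G g (∑ i, G.wt i + 1) (by omega)
  have h0 : G.mul (-h) g = 0 := by
    funext i
    refine hh2 i ?_
    have : G.wt i ≤ ∑ i, G.wt i := Finset.single_le_sum (f := G.wt) (fun _ _ => Nat.zero_le _)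
      (Finset.mem_univ i)
    omega
  have h1 := G.mul_neg_cancel h g
  rw [h0, G.mul_zero] at h1
  rwa [← h1]

end Pool.Agent.CMC
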