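import Pool.Agent.Lib_helper36.CMC.Defs
import Pool.Agent.Lib_helper36.CMC.W.A1
import Pool.Agent.Lib_helper36.CMC.W.A2
import Pool.Agent.Lib_helper36.CMC.W.A3

set_option autoImplicit false

namespace Pool.Agent.CMC

open MeasureTheory Set
open scoped ContDiff

variable {n : ℕ}

theorem d1_smooth_one (G : Carnot n) (g : Fin n → ℝ) : ContDiff ℝ 1 (G.mul g) :=
  (smooth_right G g).of_le (by exact_mod_cast le_top)

theorem subunit_left (G : Carnot n) (g : Fin n → ℝ) {T : ℝ} {γ : ℝ → Fin n → ℝ}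
    (h : SubUnit G T γ) : SubUnit G T (fun t => G.mul g (γ t)) := by
  obtain ⟨⟨K, hK⟩, hd⟩ := h
  constructor
  · have hc : IsCompact (γ '' Icc 0 T) := isCompact_Icc.image_of_continuousOn hK.continuousOn
    obtain ⟨K', hK'⟩ := ((d1_smooth_one G g).locallyLipschitz.locallyLipschitzOn
      (s := γ '' Icc 0 T)).exists_lipschitzOnWith_of_compact hc
    exact ⟨K' * K, hK'.comp hK (mapsTo_image _ _)⟩
  · filter_upwards [hd] with t ht hT
    obtain ⟨u, hu, hu1, hγ⟩ := ht hT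
    refine ⟨u, hu, hu1, ?_⟩
    have h1 : HasFDerivAt (G.mul g) (fderiv ℝ (G.mul g) (γ t)) (γ t) :=
      ((d1_smooth_one G g).differentiable (by norm_num) (γ t)).hasFDerivAt
    have h2 := h1.comp_hasDerivAt t hγ
    have h3 := fderiv_mul_X G g (γ t) u
    unfold X at h3
    rw [h3] at h2
    exact h2

theorem subunit_dl (G : Carnot n) {r : ℝ} (hr : 0 < r) {T : ℝ} {γ : ℝ → Fin n → ℝ}
    (h : SubUnit G T γ) : SubUnit G (r * T) (fun t => dl G.wt r (γ (t / r))) := by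
  obtain ⟨⟨K, hK⟩, hd⟩ := h
  have hmem : ∀ t, t ∈ Icc 0 (r * T) → t / r ∈ Icc 0 T := by
    intro t ht
    refine ⟨div_nonneg ht.1 hr.le, ?_⟩
    rw [div_le_iff₀ hr, mul_comm]
    exact ht.2
  constructor
  · have h1 : LipschitzWith (Real.toNNReal r⁻¹) fun t : ℝ => t / r := by
      refine LipschitzWith.of_dist_le_mul fun x y => ?_
      rw [Real.dist_eq, Real.dist_eq, Real.coe_toNNReal _ (inv_nonneg.2 hr.le), ← sub_div, abs_div,
        abs_of_pos hr, div_eq_inv_mul]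
    refine ⟨‖dlL G.wt r‖₊ * (K * Real.toNNReal r⁻¹), ?_⟩
    exact (dlL G.wt r).lipschitz.lipschitzOnWith.comp
      (hK.comp h1.lipschitzOnWith (fun t ht => hmem t ht)) (mapsTo_univ _ _)
  · have h1 : ∀ᵐ t : ℝ, t * r⁻¹ ∈ Icc 0 T → ∃ u ∈ lay G.wt 1, ∑ i, u i ^ 2 ≤ 1 ∧
        HasDerivAt γ (lif G.mul u (γ (t * r⁻¹))) (t * r⁻¹) := by
      rw [ae_iff] at hd ⊢
      have h2 := Real.volume_preimage_mul_right (inv_ne_zero hr.ne')
        {a | ¬(a ∈ Icc 0 T → ∃ u ∈ lay G.wt 1, ∑ i, u i ^ 2 ≤ 1 ∧ HasDerivAt γ (lif G.mul u (γ a)) a)}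
      rw [hd, mul_zero] at h2
      exact h2
    filter_upwards [h1] with t ht hT
    have hdiv : t / r = t * r⁻¹ := div_eq_mul_inv t r
    have hm := hmem t hT
    rw [hdiv] at hm
    obtain ⟨u, hu, hu1, hγ⟩ := ht hm
    refine ⟨u, hu, hu1, ?_⟩
    rw [← hdiv] at hγ
    have h2 : HasDerivAt (fun s : ℝ => s / r) (1 / r) t := (hasDerivAt_id t).div_const r
    have h3 := HasDerivAt.scomp t hγ h2
    have h4 := (dlL G.wt r).hasFDerivAt.comp_hasDerivAt t h3
    have h5 : (dlL G.wt r) ((1 / r) • lif G.mul u (γ (t / r))) =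
        lif G.mul u (dl G.wt r (γ (t / r))) := by
      have h6 := X_dl G hr u (γ (t / r))
      rw [dl_lay G.wt r hu, pow_one, X_smul] at h6
      unfold X at h6
      rw [map_smul, dlL_apply, ← h6, smul_smul, one_div, inv_mul_cancel₀ hr.ne', one_smul]
    rw [h5] at h4
    exact h4

theorem subunit_seg (G : Carnot n) (g : Fin n → ℝ) {a : Fin n → ℝ} (ha : a ∈ lay G.wt 1)
    (h1 : nsq a ≤ 1) (T : ℝ) : SubUnit G T (fun t => G.mul g (t • a)) := by
  constructor
  · have h2 : ContDiff ℝ 1 (fun t : ℝ => G.mul g (t • a)) :=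
      (d1_smooth_one G g).comp (contDiff_id.smul contDiff_const)
    exact (h2.locallyLipschitz.locallyLipschitzOn
      (s := Icc 0 T)).exists_lipschitzOnWith_of_compact isCompact_Icc
  · refine Filter.Eventually.of_forall fun t _ => ⟨a, ha, h1, ?_⟩
    exact hasDerivAt_mul_smul G g a t

end Pool.Agent.CMC
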