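import Pool.Agent.Lib_helper36.CMC.Defs
import Pool.Agent.Lib_helper36.CMC.W.A1
import Pool.Agent.Lib_helper36.CMC.W.A2
import Pool.Agent.Lib_helper36.CMC.W.A3

set_option autoImplicit false

namespace Pool.Agent.CMC

open MeasureTheory Set
open scoped ContDiff

variable {n : ℕ}

theorem subunit_rev (G : Carnot n) {T : ℝ} {γ : ℝ → Fin n → ℝ}
    (h : SubUnit G T γ) : SubUnit G T (fun t => γ (T - t)) := by
  obtain ⟨⟨K, h1⟩, h2⟩ := h
  refine ⟨⟨K, ?_⟩, ?_⟩
  · rw [lipschitzOnWith_iff_dist_le_mul] at h1 ⊢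
    intro x hx y hy
    have h3 := h1 (T - x) ⟨by linarith [hx.2], by linarith [hx.1]⟩ (T - y)
      ⟨by linarith [hy.2], by linarith [hy.1]⟩
    have h4 : dist (T - x) (T - y) = dist x y := dist_sub_left T x y
    rwa [h4] at h3
  · have h5 := (Measure.measurePreserving_sub_left (volume : Measure ℝ) T).quasiMeasurePreserving.ae h2
    filter_upwards [h5] with t ht ht1
    obtain ⟨u, hu, hu1, hu2⟩ := ht ⟨by linarith [ht1.2], by linarith [ht1.1]⟩
    refine ⟨-u, Submodule.neg_mem _ hu, ?_, ?_⟩
    · simpa using hu1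
    · have h6 : HasDerivAt (fun s : ℝ => T - s) (-1) t := by
        simpa using (hasDerivAt_id t).const_sub T
      have h7 := HasDerivAt.scomp t hu2 h6
      have h8 : lif G.mul (-u) (γ (T - t)) = (-1 : ℝ) • lif G.mul u (γ (T - t)) := by
        unfold lif
        rw [map_neg, neg_one_smul]
      rw [h8]
      exact h7

theorem subunit_concat (G : Carnot n) {T S : ℝ} (hT : 0 ≤ T) (hS : 0 ≤ S)
    {γ η : ℝ → Fin n → ℝ} (h : SubUnit G T γ) (h' : SubUnit G S η) (e : γ T = η 0) :
    SubUnit G (T + S) (fun t => if t ≤ T then γ t else η (t - T)) := by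
  obtain ⟨⟨K1, h1⟩, h2⟩ := h
  obtain ⟨⟨K2, h3⟩, h4⟩ := h'
  rw [lipschitzOnWith_iff_dist_le_mul] at h1 h3
  refine ⟨⟨max K1 K2, ?_⟩, ?_⟩
  · have hK1 : (K1 : ℝ) ≤ (max K1 K2 : NNReal) := by exact_mod_cast le_max_left K1 K2
    have hK2 : (K2 : ℝ) ≤ (max K1 K2 : NNReal) := by exact_mod_cast le_max_right K1 K2
    have key : ∀ x ∈ Icc 0 (T + S), ∀ y ∈ Icc 0 (T + S), x ≤ y →
        dist (if x ≤ T then γ x else η (x - T)) (if y ≤ T then γ y else η (y - T)) ≤
          (max K1 K2 : NNReal) * dist x y := by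
      intro x hx y hy hxy
      by_cases hyT : y ≤ T
      · have hxT : x ≤ T := hxy.trans hyT
        rw [if_pos hxT, if_pos hyT]
        exact (h1 x ⟨hx.1, hxT⟩ y ⟨hy.1, hyT⟩).trans (mul_le_mul_of_nonneg_right hK1 dist_nonneg)
      · by_cases hxT : x ≤ T
        · rw [if_pos hxT, if_neg hyT]
          push Not at hyT
          have e1 := h1 x ⟨hx.1, hxT⟩ T ⟨hT, le_rfl⟩
          have e2 := h3 0 ⟨le_rfl, hS⟩ (y - T) ⟨by linarith, by linarith [hy.2]⟩
          have e3 : dist x T = T - x := by
            rw [dist_comm, Real.dist_eq, abs_of_nonneg (by linarith)]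
          have e4 : dist 0 (y - T) = y - T := by
            rw [dist_comm, Real.dist_eq, sub_zero, abs_of_nonneg (by linarith)]
          have e5 : dist x y = y - x := by
            rw [dist_comm, Real.dist_eq, abs_of_nonneg (by linarith)]
          have e6 := dist_triangle (γ x) (γ T) (η (y - T))
          rw [e] at e6
          rw [e3, e] at e1
          rw [e4] at e2
          rw [e5]
          have e7 : (K1 : ℝ) * (T - x) ≤ (max K1 K2 : NNReal) * (T - x) :=
            mul_le_mul_of_nonneg_right hK1 (by linarith)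
          have e8 : (K2 : ℝ) * (y - T) ≤ (max K1 K2 : NNReal) * (y - T) :=
            mul_le_mul_of_nonneg_right hK2 (by linarith)
          have e9 : ((max K1 K2 : NNReal) : ℝ) * (y - x) =
            (max K1 K2 : NNReal) * (T - x) + (max K1 K2 : NNReal) * (y - T) := by ring
          linarith
        · rw [if_neg hxT, if_neg hyT]
          push Not at hxT hyT
          have e1 := h3 (x - T) ⟨by linarith, by linarith [hx.2]⟩ (y - T)
            ⟨by linarith, by linarith [hy.2]⟩
          rw [dist_sub_right] at e1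
          exact e1.trans (mul_le_mul_of_nonneg_right hK2 dist_nonneg)
    rw [lipschitzOnWith_iff_dist_le_mul]
    intro x hx y hy
    rcases le_total x y with hxy | hxy
    · exact key x hx y hy hxy
    · have := key y hy x hx hxy
      rwa [dist_comm, dist_comm y x] at this
  · have h5 := (measurePreserving_sub_right (volume : Measure ℝ) T).quasiMeasurePreserving.ae h4
    have h6 : ∀ᵐ t : ℝ, t ≠ T := compl_mem_ae_iff.mpr (measure_singleton T)
    filter_upwards [h2, h5, h6] with t ht1 ht2 ht3 ht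
    rcases lt_or_gt_of_ne ht3 with hlt | hgt
    · obtain ⟨u, hu, hu1, hu2⟩ := ht1 ⟨ht.1, hlt.le⟩
      refine ⟨u, hu, hu1, ?_⟩
      have e1 : (if t ≤ T then γ t else η (t - T)) = γ t := if_pos hlt.le
      rw [e1]
      refine hu2.congr_of_eventuallyEq ?_
      filter_upwards [Iio_mem_nhds hlt] with s hs
      exact if_pos (le_of_lt hs)
    · obtain ⟨u, hu, hu1, hu2⟩ := ht2 ⟨by linarith, by linarith [ht.2]⟩
      refine ⟨u, hu, hu1, ?_⟩
      have e1 : (if t ≤ T then γ t else η (t - T)) = η (t - T) := if_neg (not_le.mpr hgt)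
      rw [e1]
      have e2 : HasDerivAt (fun s : ℝ => s - T) 1 t := (hasDerivAt_id t).sub_const T
      have e3 := HasDerivAt.scomp t hu2 e2
      rw [one_smul] at e3
      refine e3.congr_of_eventuallyEq ?_
      filter_upwards [Ioi_mem_nhds hgt] with s hs
      exact if_neg (not_le.mpr hs)

end Pool.Agent.CMC
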