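import Pool.Agent.Lib_helper36.CMC.Defs
import Pool.Agent.Lib_helper36.CMC.W.A1
import Pool.Agent.Lib_helper36.CMC.W.A2
import Pool.Agent.Lib_helper36.CMC.W.A3
import Pool.Agent.Lib_helper36.CMC.W.C5
import Pool.Agent.Lib_helper36.CMC.W.D1
import Pool.Agent.Lib_helper36.CMC.W.D1b

set_option autoImplicit false

namespace Pool.Agent.CMC

open MeasureTheory Set
open scoped ContDiff

variable {n : ℕ}

/-- concatenation, with endpoints -/
theorem d2_concat (G : Carnot n) {p q r : Fin n → ℝ} {T S : ℝ} (hT : 0 ≤ T) (hS : 0 ≤ S)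
    (h : ∃ γ, SubUnit G T γ ∧ γ 0 = p ∧ γ T = q) (h' : ∃ γ, SubUnit G S γ ∧ γ 0 = q ∧ γ S = r) :
    ∃ γ, SubUnit G (T + S) γ ∧ γ 0 = p ∧ γ (T + S) = r := by
  obtain ⟨γ, hγ, h1, h2⟩ := h
  obtain ⟨η, hη, h3, h4⟩ := h'
  refine ⟨fun t => if t ≤ T then γ t else η (t - T),
    subunit_concat G hT hS hγ hη (h2.trans h3.symm), ?_, ?_⟩
  · simp only [hT, if_true, h1]
  · by_cases hS0 : S = 0
    · subst hS0
      simp only [add_zero, le_refl, if_true]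
      rw [h2, ← h3, h4]
    · have hpos : 0 < S := lt_of_le_of_ne hS (Ne.symm hS0)
      have hn : ¬ (T + S ≤ T) := by linarith
      simp only [hn, if_false]
      rw [add_sub_cancel_left, h4]

/-- a segment, with endpoints -/
theorem d2_seg (G : Carnot n) (g : Fin n → ℝ) {a : Fin n → ℝ} (ha : a ∈ lay G.wt 1) :
    ∃ T, 0 ≤ T ∧ ∃ γ, SubUnit G T γ ∧ γ 0 = g ∧ γ T = G.mul g a := by
  have h0 : 0 ≤ nsq a := Finset.sum_nonneg (fun i _ => sq_nonneg (a i))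
  have hL : 0 < nsq a + 1 := by linarith
  refine ⟨nsq a + 1, hL.le, fun t => G.mul g (t • ((nsq a + 1)⁻¹ • a)), ?_, ?_, ?_⟩
  · apply subunit_seg G g (Submodule.smul_mem _ _ ha)
    have h1 : nsq ((nsq a + 1)⁻¹ • a) = ((nsq a + 1)⁻¹) ^ 2 * nsq a := by
      unfold nsq
      rw [Finset.mul_sum]
      apply Finset.sum_congr rfl
      intro i _
      simp only [Pi.smul_apply, smul_eq_mul, mul_pow]
    rw [h1, inv_pow, inv_mul_le_iff₀ (by positivity)]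
    nlinarith
  · simp only [zero_smul, G.mul_zero]
  · simp only [smul_smul]
    rw [mul_inv_cancel₀ hL.ne', one_smul]

theorem d2_gen (G : Carnot n) (p : Fin n → ℝ) {g : Fin n → ℝ} (hg : Gen G g) :
    ∃ T, 0 ≤ T ∧ ∃ γ, SubUnit G T γ ∧ γ 0 = p ∧ γ T = G.mul p g := by
  induction hg with
  | zero =>
    have h := d2_seg G p (Submodule.zero_mem (lay G.wt 1))
    exact h
  | step k a _ ha ih =>
    obtain ⟨T, hT, h1⟩ := ih
    obtain ⟨S, hS, h2⟩ := d2_seg G (G.mul p k) ha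
    rw [G.assoc] at h2
    exact ⟨T + S, by linarith, d2_concat G hT hS h1 h2⟩

/-- any two points are joined by a horizontal curve -/
theorem cc_reach (G : Carnot n) (p q : Fin n → ℝ) :
    ∃ T, 0 ≤ T ∧ ∃ γ, SubUnit G T γ ∧ γ 0 = p ∧ γ T = q := by
  have h := d2_gen G p (gen_all G (G.mul (-p) q))
  rw [G.mul_neg_cancel] at h
  exact h

theorem d2_bdd (G : Carnot n) (p q : Fin n → ℝ) :
    BddBelow {T : ℝ | 0 ≤ T ∧ ∃ γ, SubUnit G T γ ∧ γ 0 = p ∧ γ T = q} :=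
  ⟨0, fun _ h => h.1⟩

theorem cc_le_of_subunit (G : Carnot n) {T : ℝ} (hT : 0 ≤ T) {γ : ℝ → Fin n → ℝ}
    (h : SubUnit G T γ) : cc G (γ 0) (γ T) ≤ T :=
  csInf_le (d2_bdd G _ _) ⟨hT, γ, h, rfl, rfl⟩

theorem exists_near (G : Carnot n) (p q : Fin n → ℝ) {ε : ℝ} (hε : 0 < ε) :
    ∃ T, 0 ≤ T ∧ T < cc G p q + ε ∧ ∃ γ, SubUnit G T γ ∧ γ 0 = p ∧ γ T = q := by
  have hne : {T : ℝ | 0 ≤ T ∧ ∃ γ, SubUnit G T γ ∧ γ 0 = p ∧ γ T = q}.Nonempty := cc_reach G p q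
  obtain ⟨T, hT, hlt⟩ := exists_lt_of_csInf_lt hne
    (show sInf {T : ℝ | 0 ≤ T ∧ ∃ γ, SubUnit G T γ ∧ γ 0 = p ∧ γ T = q} < cc G p q + ε from
      lt_add_of_pos_right _ hε)
  exact ⟨T, hT.1, hlt, hT.2⟩

theorem cc_nonneg (G : Carnot n) (p q : Fin n → ℝ) : 0 ≤ cc G p q :=
  Real.sInf_nonneg (fun _ h => h.1)

theorem cc_self (G : Carnot n) (p : Fin n → ℝ) : cc G p p = 0 := by
  apply le_antisymm _ (cc_nonneg G p p)
  have h := subunit_seg G p (Submodule.zero_mem (lay G.wt 1)) (by simp [nsq]) 0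
  have h1 := cc_le_of_subunit G le_rfl h
  simpa [G.mul_zero] using h1

theorem d2_symm (G : Carnot n) (p q : Fin n → ℝ) : cc G p q ≤ cc G q p := by
  apply le_of_forall_pos_le_add
  intro ε hε
  obtain ⟨T, hT, hlt, γ, hγ, h0, h1⟩ := exists_near G q p hε
  have h2 := cc_le_of_subunit G hT (subunit_rev G hγ)
  simp only [sub_zero, sub_self, h0, h1] at h2
  linarith

theorem cc_symm (G : Carnot n) (p q : Fin n → ℝ) : cc G p q = cc G q p :=
  le_antisymm (d2_symm G p q) (d2_symm G q p)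

theorem cc_triangle (G : Carnot n) (p q r : Fin n → ℝ) : cc G p r ≤ cc G p q + cc G q r := by
  apply le_of_forall_pos_le_add
  intro ε hε
  obtain ⟨T, hT, hlt, h1⟩ := exists_near G p q (half_pos hε)
  obtain ⟨S, hS, hlt', h2⟩ := exists_near G q r (half_pos hε)
  obtain ⟨γ, hγ, h3, h4⟩ := d2_concat G hT hS h1 h2
  have h5 := cc_le_of_subunit G (add_nonneg hT hS) hγ
  rw [h3, h4] at h5
  linarith

end Pool.Agent.CMC
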