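import Pool.Agent.Lib_helper36.CMC.Defs
import Pool.Agent.Lib_helper36.CMC.W.A1
import Pool.Agent.Lib_helper36.CMC.W.A2
import Pool.Agent.Lib_helper36.CMC.W.A4
import Pool.Agent.Lib_helper36.CMC.W.DET
import Pool.Agent.Lib_helper36.CMC.W.C1
import Pool.Agent.Lib_helper36.CMC.W.F0

set_option autoImplicit false

namespace Pool.Agent.CMC

open MeasureTheory Set
open scoped ContDiff

variable {n : ℕ}

/-- the coordinate `ξ` is smooth -/
theorem Cal.F4_contDiff_xi {G : Carnot n} (D : Cal G) : ContDiff ℝ ∞ D.xi := by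
  have h : D.xi = fun g => ∑ i, D.e i * g i := rfl
  rw [h]
  fun_prop

theorem Cal.F4_contDiff_H {G : Carnot n} (D : Cal G) (κ h : ℝ) :
    ContDiff ℝ ∞ (fun g => h • (D.Y + (κ * D.xi g) • D.e)) := by
  have h1 := D.F4_contDiff_xi
  have h2 : ContDiff ℝ ∞ (fun g => κ * D.xi g) := contDiff_const.mul h1
  have h3 : ContDiff ℝ ∞ (fun g => (κ * D.xi g) • D.e) := h2.smul contDiff_const
  exact (contDiff_const (c := h)).smul (contDiff_const.add h3)

theorem Cal.contDiff_stp {G : Carnot n} (D : Cal G) (κ h : ℝ) : ContDiff ℝ 1 (D.stp κ h) := by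
  have h1 : ContDiff ℝ ∞ (fun g : Fin n → ℝ =>
      ((g, h • (D.Y + (κ * D.xi g) • D.e)) : (Fin n → ℝ) × (Fin n → ℝ))) :=
    contDiff_id.prodMk (D.F4_contDiff_H κ h)
  have h2 : ContDiff ℝ ∞ (D.stp κ h) := G.smooth.comp h1
  exact h2.of_le (by exact_mod_cast le_top)

/-- the derivative of `H` -/
theorem Cal.F4_hasFDerivAt_H {G : Carnot n} (D : Cal G) (κ h : ℝ) (g v : Fin n → ℝ) :
    fderiv ℝ (fun g => h • (D.Y + (κ * D.xi g) • D.e)) g v = (κ * h * dt D.e v) • D.e := by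
  have h1 : HasFDerivAt D.xi
      (∑ i, D.e i • (ContinuousLinearMap.proj i : (Fin n → ℝ) →L[ℝ] ℝ)) g := by
    have h : D.xi = fun g => ∑ i, D.e i * g i := rfl
    rw [h]
    refine HasFDerivAt.fun_sum fun i _ => ?_
    exact (hasFDerivAt_apply (𝕜 := ℝ) i g).const_mul (D.e i)
  have h2 := ((h1.const_mul κ).smul_const D.e).const_add D.Y |>.const_smul h
  have h3 : HasFDerivAt (fun g => h • (D.Y + (κ * D.xi g) • D.e)) _ g := h2
  rw [h3.fderiv]
  simp only [_root_.smul_apply, ContinuousLinearMap.smulRight_apply,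
    _root_.sum_apply, ContinuousLinearMap.proj_apply, smul_eq_mul, dt, smul_smul]
  congr 1
  ring

theorem Cal.F4_fderiv_stp {G : Carnot n} (D : Cal G) (κ h : ℝ) (g v : Fin n → ℝ) :
    fderiv ℝ (D.stp κ h) g v =
      fderiv ℝ (fun p => G.mul p (h • (D.Y + (κ * D.xi g) • D.e))) g v +
      (κ * h * dt D.e v) • fderiv ℝ (G.mul g) (h • (D.Y + (κ * D.xi g) • D.e)) D.e := by
  set H : (Fin n → ℝ) → (Fin n → ℝ) := fun g => h • (D.Y + (κ * D.xi g) • D.e) with hH
  set F : (Fin n → ℝ) × (Fin n → ℝ) → (Fin n → ℝ) := fun p => G.mul p.1 p.2 with hF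
  have hFd : HasFDerivAt F (fderiv ℝ F (g, H g)) (g, H g) :=
    (G.smooth.differentiable (by simp) (g, H g)).hasFDerivAt
  have hHd : HasFDerivAt H (fderiv ℝ H g) g :=
    ((D.F4_contDiff_H κ h).differentiable (by simp) g).hasFDerivAt
  have h1 : HasFDerivAt (D.stp κ h)
      ((fderiv ℝ F (g, H g)).comp ((ContinuousLinearMap.id ℝ (Fin n → ℝ)).prod (fderiv ℝ H g))) g :=
    HasFDerivAt.comp (f := fun g => (g, H g)) g hFd ((hasFDerivAt_id g).prodMk hHd)
  have h2 : HasFDerivAt (fun p => G.mul p (H g))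
      ((fderiv ℝ F (g, H g)).comp ((ContinuousLinearMap.id ℝ (Fin n → ℝ)).prod 0)) g :=
    HasFDerivAt.comp (f := fun p => (p, H g)) g hFd ((hasFDerivAt_id g).prodMk (hasFDerivAt_const _ _))
  have h3 : HasFDerivAt (G.mul g)
      ((fderiv ℝ F (g, H g)).comp
        ((0 : (Fin n → ℝ) →L[ℝ] (Fin n → ℝ)).prod (ContinuousLinearMap.id ℝ (Fin n → ℝ)))) (H g) :=
    HasFDerivAt.comp (f := fun p => (g, p)) (H g) hFd
      ((hasFDerivAt_const _ _).prodMk (hasFDerivAt_id (H g)))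
  have h4 : fderiv ℝ H g v = (κ * h * dt D.e v) • D.e := D.F4_hasFDerivAt_H κ h g v
  rw [h1.fderiv, h2.fderiv, h3.fderiv]
  simp only [ContinuousLinearMap.comp_apply, ContinuousLinearMap.prod_apply,
    ContinuousLinearMap.id_apply, _root_.zero_apply, h4]
  rw [← map_smul, ← map_add]
  simp

theorem Cal.det_stp {G : Carnot n} (D : Cal G) (κ h : ℝ) (g : Fin n → ℝ) :
    (fderiv ℝ (D.stp κ h) g).det = 1 + κ * h := by
  have key := det_clm_rank_one G.wt (κ * h) D.he G.wt_pos (fderiv ℝ (D.stp κ h) g) ?_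
  · rw [key, D.hee, mul_one]
  · intro i j hij
    rw [D.F4_fderiv_stp]
    have h1 : dt D.e (Pi.single j 1) = D.e j := by
      simp [dt, Pi.single_apply]
    rw [Pi.add_apply, Pi.smul_apply, fderiv_left_tri G g _ i j hij, h1, smul_eq_mul]
    congr 1
    by_cases hj : G.wt j = 1
    · have hi : G.wt i ≤ 1 := by omega
      rw [fderiv_right_ge G g _ (ge_one G D.e) i hi]
    · have : D.e j = 0 := D.he j hj
      rw [this]; ring

/-- the inverse of one step -/
theorem Cal.stp_inv {G : Carnot n} (D : Cal G) {κ h : ℝ} (hκ : 0 ≤ κ) (hh : 0 ≤ h) :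
    ∃ φ : (Fin n → ℝ) → (Fin n → ℝ), Continuous φ ∧ (∀ g, φ (D.stp κ h g) = g) ∧
      ∀ g, D.stp κ h (φ g) = g := by
  have hp : 0 < 1 + κ * h := by positivity
  refine ⟨fun g => G.mul g (-(h • (D.Y + (κ * (D.xi g / (1 + κ * h))) • D.e))), ?_, ?_, ?_⟩
  · have h1 : Continuous D.xi := D.F4_contDiff_xi.continuous
    have h2 : Continuous (fun g : Fin n → ℝ =>
        ((g, -(h • (D.Y + (κ * (D.xi g / (1 + κ * h))) • D.e))) :
          (Fin n → ℝ) × (Fin n → ℝ))) := by fun_prop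
    exact G.smooth.continuous.comp h2
  · intro g
    show G.mul (D.stp κ h g)
      (-(h • (D.Y + (κ * (D.xi (D.stp κ h g) / (1 + κ * h))) • D.e))) = g
    rw [D.xi_stp, mul_div_assoc, div_self hp.ne', mul_one]
    exact G.mul_mul_neg g _
  · intro g
    have h1 : D.xi (G.mul g (-(h • (D.Y + (κ * (D.xi g / (1 + κ * h))) • D.e)))) =
        D.xi g / (1 + κ * h) := by
      unfold Cal.xi
      rw [dt_mul D.he]
      have h2 : dt D.e (-(h • (D.Y + (κ * (dt D.e g / (1 + κ * h))) • D.e))) =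
          -(h * (dt D.Y D.e + (κ * (dt D.e g / (1 + κ * h))) * nsq D.e)) := by
        simp only [dt, nsq, Pi.neg_apply, Pi.smul_apply, Pi.add_apply, smul_eq_mul]
        rw [Finset.mul_sum, ← Finset.sum_add_distrib, Finset.mul_sum, ← Finset.sum_neg_distrib]
        exact Finset.sum_congr rfl fun i _ => by ring
      rw [h2, D.hYe, D.hee]
      field_simp
      ring
    show G.mul (G.mul g (-(h • (D.Y + (κ * (D.xi g / (1 + κ * h))) • D.e))))
      (h • (D.Y + (κ * D.xi (G.mul g (-(h • (D.Y + (κ * (D.xi g / (1 + κ * h))) • D.e))))) • D.e))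
        = g
    rw [h1]
    exact G.mul_neg_mul g _

end Pool.Agent.CMC
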