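import Pool.Agent.Lib_helper36.CMC.Defs
import Pool.Agent.Lib_helper36.CMC.W.F4

set_option autoImplicit false

namespace Pool.Agent.CMC

open MeasureTheory Set
open scoped ContDiff

variable {n : ℕ}

theorem Cal.volume_stp {G : Carnot n} (D : Cal G) {κ h : ℝ} (hκ : 0 ≤ κ) (hh : 0 ≤ h)
    {A : Set (Fin n → ℝ)} (hA : MeasurableSet A) :
    MeasurableSet (D.stp κ h '' A) ∧
      volume (D.stp κ h '' A) = ENNReal.ofReal (1 + κ * h) * volume A := by
  obtain ⟨φ, hφc, hφ1, hφ2⟩ := D.stp_inv hκ hh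
  have hp : 0 ≤ 1 + κ * h := by positivity
  have himg : D.stp κ h '' A = φ ⁻¹' A := by
    ext q
    constructor
    · rintro ⟨g, hg, rfl⟩
      rw [mem_preimage, hφ1]
      exact hg
    · intro hq
      exact ⟨φ q, hq, hφ2 q⟩
  refine ⟨himg ▸ hφc.measurable hA, ?_⟩
  have hd : ∀ x ∈ A, HasFDerivWithinAt (D.stp κ h) (fderiv ℝ (D.stp κ h) x) A x := fun x _ =>
    (((D.contDiff_stp κ h).differentiable (by simp)) x).hasFDerivAt.hasFDerivWithinAt
  have hinj : InjOn (D.stp κ h) A := by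
    intro x _ y _ hxy
    have h1 := congrArg φ hxy
    rwa [hφ1, hφ1] at h1
  rw [← lintegral_abs_det_fderiv_eq_addHaar_image volume hA hd hinj]
  simp only [D.det_stp, abs_of_nonneg hp]
  rw [setLIntegral_const]

theorem Cal.volume_flw {G : Carnot n} (D : Cal G) {κ : ℝ} (hκ : 0 ≤ κ) (J : ℕ)
    {A : Set (Fin n → ℝ)} (hA : MeasurableSet A) :
    MeasurableSet (D.flw κ J '' A) ∧
      volume (D.flw κ J '' A) = ENNReal.ofReal ((1 + κ / J) ^ J) * volume A := by
  have hh : (0 : ℝ) ≤ 1 / J := by positivity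
  have hp : 0 ≤ 1 + κ / J := by positivity
  have key : ∀ k : ℕ, MeasurableSet (((D.stp κ (1 / J))^[k]) '' A) ∧
      volume (((D.stp κ (1 / J))^[k]) '' A) = ENNReal.ofReal ((1 + κ / J) ^ k) * volume A := by
    intro k
    induction k with
    | zero => simp [hA]
    | succ k ih =>
      rw [Function.iterate_succ', image_comp]
      obtain ⟨h1, h2⟩ := D.volume_stp hκ hh ih.1
      refine ⟨h1, ?_⟩
      rw [h2, ih.2, ← mul_assoc, ← ENNReal.ofReal_mul (by positivity)]
      congr 2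
      rw [pow_succ', mul_one_div]
  exact key J

end Pool.Agent.CMC
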