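import Pool.Agent.Lib_helper36.CMC.Defs
import Pool.Agent.Lib_helper36.CMC.W.A1
import Pool.Agent.Lib_helper36.CMC.W.A2

set_option autoImplicit false

namespace Pool.Agent.CMC

open MeasureTheory Set
open scoped ContDiff

variable {n : ℕ}

lemma d3_lip {f : (Fin n → ℝ) → ℝ} (hf : ContDiff ℝ 1 f) (R : ℝ) :
    ∃ C : NNReal, LipschitzOnWith C f (Metric.closedBall 0 R) := by
  have hc : Continuous (fun x => fderiv ℝ f x) := hf.continuous_fderiv one_ne_zero
  have hK : IsCompact (Metric.closedBall (0 : Fin n → ℝ) R) := isCompact_closedBall _ _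
  obtain ⟨C, hC⟩ := hK.exists_bound_of_continuousOn hc.continuousOn
  refine ⟨Real.toNNReal C, Convex.lipschitzOnWith_of_nnnorm_fderiv_le (𝕜 := ℝ)
    (fun x _ => (hf.differentiable one_ne_zero).differentiableAt) (fun x hx => ?_)
    (convex_closedBall 0 R)⟩
  have h := hC x hx
  exact NNReal.coe_le_coe.mp (h.trans (Real.le_coe_toNNReal C))

theorem ac_comp (G : Carnot n) {f : (Fin n → ℝ) → ℝ} (hf : ContDiff ℝ 1 f) {T : ℝ} (hT : 0 ≤ T)
    {γ : ℝ → Fin n → ℝ} (h : SubUnit G T γ) :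
    AbsolutelyContinuousOnInterval (fun t => f (γ t)) 0 T := by
  obtain ⟨⟨K, hK⟩, -⟩ := h
  have hcomp : IsCompact (γ '' Icc 0 T) := isCompact_Icc.image_of_continuousOn hK.continuousOn
  obtain ⟨R, hR⟩ := hcomp.isBounded.subset_closedBall 0
  obtain ⟨C, hC⟩ := d3_lip hf R
  have h1 : LipschitzOnWith (C * K) (fun t => f (γ t)) (Icc 0 T) :=
    hC.comp hK fun x hx => hR (mem_image_of_mem γ hx)
  have h2 : LipschitzOnWith (C * K) (fun t => f (γ t)) (uIcc 0 T) := by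
    rw [uIcc_of_le hT]
    exact h1
  exact h2.absolutelyContinuousOnInterval

theorem deriv_comp (G : Carnot n) {T : ℝ} {γ : ℝ → Fin n → ℝ} (h : SubUnit G T γ) :
    ∀ᵐ t : ℝ, t ∈ Icc 0 T → ∃ u ∈ lay G.wt 1, nsq u ≤ 1 ∧
      ∀ f : (Fin n → ℝ) → ℝ, ContDiff ℝ 1 f →
        deriv (fun s => f (γ s)) t = fderiv ℝ f (γ t) (X G u (γ t)) := by
  filter_upwards [h.2] with t ht hmem
  obtain ⟨u, hu, hu1, hd⟩ := ht hmem
  refine ⟨u, hu, hu1, fun f hf => ?_⟩
  have hfd : HasFDerivAt f (fderiv ℝ f (γ t)) (γ t) :=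
    (hf.differentiable one_ne_zero).differentiableAt.hasFDerivAt
  exact (hfd.comp_hasDerivAt t hd).deriv

end Pool.Agent.CMC
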