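import Pool.Agent.Lib_helper36.CMC.Defs
import Pool.Agent.Lib_helper36.CMC.W.A1
import Pool.Agent.Lib_helper36.CMC.W.A2
import Pool.Agent.Lib_helper36.CMC.W.A4
import Pool.Agent.Lib_helper36.CMC.W.C1
import Pool.Agent.Lib_helper36.CMC.W.D3

set_option autoImplicit false

namespace Pool.Agent.CMC

open MeasureTheory Set
open scoped ContDiff

variable {n : ℕ}

theorem D3b_zsum (Y e v : Fin n → ℝ) (hY : nsq Y = 1) (he : nsq e = 1) (hYe : dt Y e = 0) :
    ∑ i, (v i - dt Y v * Y i - dt e v * e i) ^ 2 = nsq v - dt Y v ^ 2 - dt e v ^ 2 := by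
  have h1 : ∀ i, (v i - dt Y v * Y i - dt e v * e i) ^ 2 =
      v i ^ 2 - 2 * dt Y v * (Y i * v i) - 2 * dt e v * (e i * v i) + dt Y v ^ 2 * Y i ^ 2 +
        dt e v ^ 2 * e i ^ 2 + 2 * dt Y v * dt e v * (Y i * e i) := fun i => by ring
  rw [Finset.sum_congr rfl (fun i _ => h1 i)]
  rw [Finset.sum_add_distrib, Finset.sum_add_distrib, Finset.sum_add_distrib,
    Finset.sum_sub_distrib, Finset.sum_sub_distrib, ← Finset.mul_sum, ← Finset.mul_sum,
    ← Finset.mul_sum, ← Finset.mul_sum, ← Finset.mul_sum]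
  have e1 : ∑ i, Y i * v i = dt Y v := rfl
  have e2 : ∑ i, e i * v i = dt e v := rfl
  have e3 : ∑ i, Y i ^ 2 = nsq Y := rfl
  have e4 : ∑ i, e i ^ 2 = nsq e := rfl
  have e5 : ∑ i, Y i * e i = dt Y e := rfl
  have e6 : ∑ i, v i ^ 2 = nsq v := rfl
  rw [e1, e2, e3, e4, e5, e6, hY, he, hYe]
  ring

theorem D3b_dt (G : Carnot n) {Y : Fin n → ℝ} (hY : Y ∈ lay G.wt 1) {g g' : Fin n → ℝ}
    (h : ∀ i, G.wt i = 1 → g i = g' i) : dt Y g = dt Y g' := by
  unfold dt
  refine Finset.sum_congr rfl fun i _ => ?_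
  by_cases hi : G.wt i = 1
  · rw [h i hi]
  · rw [hY i hi, zero_mul, zero_mul]

theorem D3b_pj_dt (G : Carnot n) {Y : Fin n → ℝ} (hY : Y ∈ lay G.wt 1) (g : Fin n → ℝ) :
    dt Y (pj G 1 g) = dt Y g :=
  D3b_dt G hY fun i hi => by simp [pj, hi]

/-- the linear functional `⟨Y, ·⟩` -/
noncomputable def D3b_lin (Y : Fin n → ℝ) : (Fin n → ℝ) →L[ℝ] ℝ :=
  ∑ i, Y i • (ContinuousLinearMap.proj i : (Fin n → ℝ) →L[ℝ] ℝ)

theorem D3b_lin_apply (Y g : Fin n → ℝ) : D3b_lin Y g = dt Y g := by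
  unfold D3b_lin dt
  simp

theorem D3b_fd (Y g v : Fin n → ℝ) : fderiv ℝ (fun q => dt Y q) g v = dt Y v := by
  have h : (fun q => dt Y q) = fun q => D3b_lin Y q := by
    funext q
    exact (D3b_lin_apply Y q).symm
  rw [h]
  have h2 : fderiv ℝ (fun q => D3b_lin Y q) g = D3b_lin Y := (D3b_lin Y).fderiv
  rw [h2, D3b_lin_apply]

theorem D3b_cd (Y : Fin n → ℝ) : ContDiff ℝ 1 (fun q => dt Y q) := by
  have h : (fun q => dt Y q) = fun q => D3b_lin Y q := by
    funext q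
    exact (D3b_lin_apply Y q).symm
  rw [h]
  exact (D3b_lin Y).contDiff

/-- the linear functional giving the coordinate `i` of `z` -/
noncomputable def D3b_vec (G : Carnot n) (Y e : Fin n → ℝ) (i : Fin n) : Fin n → ℝ := fun k =>
  (if G.wt i = 1 then (if k = i then 1 else 0) else 0) - Y i * Y k - e i * e k

theorem D3b_zz {G : Carnot n} (D : Cal G) (g : Fin n → ℝ) (i : Fin n) :
    D.zz g i = dt (D3b_vec G D.Y D.e i) g := by
  unfold Cal.zz Cal.yy Cal.xi D3b_vec
  have h1 : dt (fun k => (if G.wt i = 1 then (if k = i then (1 : ℝ) else 0) else 0) -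
      D.Y i * D.Y k - D.e i * D.e k) g = pj G 1 g i - D.Y i * dt D.Y g - D.e i * dt D.e g := by
    unfold dt
    have h2 : ∀ k, ((if G.wt i = 1 then (if k = i then (1 : ℝ) else 0) else 0) -
      D.Y i * D.Y k - D.e i * D.e k) * g k =
      (if G.wt i = 1 then (if k = i then g k else 0) else 0) - D.Y i * (D.Y k * g k) -
        D.e i * (D.e k * g k) := by
      intro k
      split_ifs <;> ring
    rw [Finset.sum_congr rfl (fun k _ => h2 k), Finset.sum_sub_distrib, Finset.sum_sub_distrib,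
      ← Finset.mul_sum, ← Finset.mul_sum]
    congr 2
    by_cases hi : G.wt i = 1
    · simp [pj, hi]
    · simp [pj, hi]
  rw [h1]
  ring

/-- the coordinates along a horizontal curve -/
theorem exists_prof {G : Carnot n} (D : Cal G) {T : ℝ} (hT : 0 ≤ T) {γ : ℝ → Fin n → ℝ}
    (h : SubUnit G T γ) : ∃ P : Prof n D.C T, (∀ t, P.y t = D.yy (γ t)) ∧
      (∀ t, P.ξ t = D.xi (γ t)) ∧ (∀ t, P.w t = D.w (γ t)) ∧ ∀ i t, P.z i t = D.zz (γ t) i := by
  have hd := deriv_comp G h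
  -- the derivatives
  have hder : ∀ᵐ t : ℝ, t ∈ Icc 0 T → ∃ u ∈ lay G.wt 1, nsq u ≤ 1 ∧
      deriv (fun s => D.yy (γ s)) t = dt D.Y u ∧ deriv (fun s => D.xi (γ s)) t = dt D.e u ∧
      (∀ i, deriv (fun s => D.zz (γ s) i) t = u i - dt D.Y u * D.Y i - dt D.e u * D.e i) ∧
      deriv (fun s => D.w (γ s)) t = D.Q (γ t) / 2 * dt D.Y u + D.r (γ t) u := by
    filter_upwards [hd] with t ht htT
    obtain ⟨u, hu, hu1, hf⟩ := ht htT
    have hX : ∀ i, G.wt i = 1 → X G u (γ t) i = u i := fun i hi => X_wt1 G u (γ t) i hi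
    have hy : dt D.Y (X G u (γ t)) = dt D.Y u := D3b_dt G D.hY hX
    have he : dt D.e (X G u (γ t)) = dt D.e u := D3b_dt G D.he hX
    refine ⟨u, hu, hu1, ?_, ?_, ?_, ?_⟩
    · have h1 := hf (fun q => dt D.Y q) (D3b_cd D.Y)
      rw [D3b_fd, hy] at h1
      exact h1
    · have h1 := hf (fun q => dt D.e q) (D3b_cd D.e)
      rw [D3b_fd, he] at h1
      exact h1
    · intro i
      have h1 := hf (fun q => dt (D3b_vec G D.Y D.e i) q) (D3b_cd _)
      rw [D3b_fd] at h1
      have h2 : (fun s => D.zz (γ s) i) = fun s => dt (D3b_vec G D.Y D.e i) (γ s) := by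
        funext s
        exact D3b_zz D (γ s) i
      rw [h2, h1, ← D3b_zz]
      unfold Cal.zz Cal.yy Cal.xi
      rw [hy, he]
      have h3 : pj G 1 (X G u (γ t)) i = u i := by
        unfold pj
        by_cases hi : G.wt i = 1
        · rw [if_pos hi, hX i hi]
        · rw [if_neg hi, hu i hi]
      rw [h3]
    · have h1 := hf D.w D.hw
      rw [D.hX (γ t) u hu] at h1
      exact h1
  have hac : ∀ Y : Fin n → ℝ, AbsolutelyContinuousOnInterval (fun t => dt Y (γ t)) 0 T :=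
    fun Y => ac_comp G (D3b_cd Y) hT h
  have hzs : ∀ g : Fin n → ℝ, ∑ i, D.zz g i ^ 2 = nsq (pj G 1 g) - dt D.Y g ^ 2 - dt D.e g ^ 2 := by
    intro g
    have h1 := D3b_zsum D.Y D.e (pj G 1 g) D.hYY D.hee D.hYe
    rw [D3b_pj_dt G D.hY, D3b_pj_dt G D.he] at h1
    exact h1
  refine ⟨{ y := fun t => D.yy (γ t)
            ξ := fun t => D.xi (γ t)
            w := fun t => D.w (γ t)
            z := fun i t => D.zz (γ t) i
            hT := hT
            hC := D.hC
            acy := hac D.Y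
            acξ := hac D.e
            acw := ac_comp G D.hw hT h
            acz := fun i => by
              have h2 : (fun s => D.zz (γ s) i) = fun s => dt (D3b_vec G D.Y D.e i) (γ s) := by
                funext s
                exact D3b_zz D (γ s) i
              rw [h2]
              exact hac _
            sub := ?_
            wr := ?_ }, fun _ => rfl, fun _ => rfl, fun _ => rfl, fun _ _ => rfl⟩
  · filter_upwards [hder] with t ht htT
    obtain ⟨u, hu, hu1, h1, h2, h3, h4⟩ := ht htT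
    rw [h1, h2, Finset.sum_congr rfl (fun i _ => by rw [h3 i]),
      D3b_zsum D.Y D.e u D.hYY D.hee D.hYe]
    linarith
  · filter_upwards [hder] with t ht htT
    obtain ⟨u, hu, hu1, h1, h2, h3, h4⟩ := ht htT
    refine ⟨D.Q (γ t), D.r (γ t) u, D.hQ1 (γ t), ?_, ?_, ?_⟩
    · have h5 := D.hQ2 (γ t)
      have h6 := hzs (γ t)
      show D.Q (γ t) ≤ dt D.e (γ t) ^ 2 + D.C * ∑ i, D.zz (γ t) i ^ 2
      rw [h6]
      exact h5
    · have h5 := D.hr (γ t) u hu
      have h6 := hzs (γ t)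
      have h7 : deriv (fun s => D.xi (γ s)) t ^ 2 + ∑ i, deriv (fun s => D.zz (γ s) i) t ^ 2 =
          nsq u - dt D.Y u ^ 2 := by
        rw [h2, Finset.sum_congr rfl (fun i _ => by rw [h3 i]),
          D3b_zsum D.Y D.e u D.hYY D.hee D.hYe]
        ring
      rw [h7]
      show |D.r (γ t) u| ≤ D.C * (dt D.e (γ t) ^ 2 + ∑ i, D.zz (γ t) i ^ 2) * _
      rw [h6]
      have h8 : dt D.e (γ t) ^ 2 + (nsq (pj G 1 (γ t)) - dt D.Y (γ t) ^ 2 - dt D.e (γ t) ^ 2) =
          nsq (pj G 1 (γ t)) - dt D.Y (γ t) ^ 2 := by ring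
      rw [h8]
      exact h5
    · rw [h4, h1]

end Pool.Agent.CMC
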