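import Pool.Agent.Lib_helper36.CMC.Defs

set_option autoImplicit false

namespace Pool.Agent.CMC

open MeasureTheory Set
open scoped ContDiff

variable {n : ℕ}

variable {C T : ℝ}

/-- a function which is bounded almost everywhere is integrable -/
theorem Prof.ii_of_bound {T : ℝ} (hT : 0 ≤ T) {f : ℝ → ℝ} (hf : Measurable f) {K : ℝ}
    (hK : ∀ᵐ t : ℝ, t ∈ Icc 0 T → |f t| ≤ K) {s t : ℝ} (hs : s ∈ Icc 0 T) (ht : t ∈ Icc 0 T) :
    IntervalIntegrable f volume s t := by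
  have hsub : uIoc s t ⊆ Icc 0 T := by
    intro x hx
    rw [mem_uIoc] at hx
    rcases hx with hx | hx
    · exact ⟨hs.1.trans hx.1.le, hx.2.trans ht.2⟩
    · exact ⟨ht.1.trans hx.1.le, hx.2.trans hs.2⟩
  rw [intervalIntegrable_iff]
  refine Measure.integrableOn_of_bounded (M := K) ?_ hf.aestronglyMeasurable ?_
  · exact ((measure_mono hsub).trans_lt (by rw [Real.volume_Icc]; exact ENNReal.ofReal_lt_top)).ne
  · rw [ae_restrict_iff' measurableSet_uIoc]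
    filter_upwards [hK] with x hx hxs
    rw [Real.norm_eq_abs]
    exact hx (hsub hxs)

/-- the interval between two points of `[0, T]` -/
theorem Prof.sub_uIcc {T : ℝ} {s t : ℝ} (hs : s ∈ Icc 0 T) (ht : t ∈ Icc 0 T) :
    uIcc s t ⊆ uIcc 0 T := by
  have hT : (0 : ℝ) ≤ T := hs.1.trans hs.2
  rw [uIcc_of_le hT]
  intro x hx
  rw [mem_uIcc] at hx
  rcases hx with hx | hx
  · exact ⟨hs.1.trans hx.1, hx.2.trans ht.2⟩
  · exact ⟨ht.1.trans hx.1, hx.2.trans hs.2⟩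

theorem Prof.contOn_y (P : Prof n C T) : ContinuousOn P.y (Icc 0 T) := by
  have h := P.acy.continuousOn
  rwa [uIcc_of_le P.hT] at h

theorem Prof.contOn_ξ (P : Prof n C T) : ContinuousOn P.ξ (Icc 0 T) := by
  have h := P.acξ.continuousOn
  rwa [uIcc_of_le P.hT] at h

theorem Prof.contOn_w (P : Prof n C T) : ContinuousOn P.w (Icc 0 T) := by
  have h := P.acw.continuousOn
  rwa [uIcc_of_le P.hT] at h

theorem Prof.contOn_z (P : Prof n C T) (i : Fin n) : ContinuousOn (P.z i) (Icc 0 T) := by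
  have h := (P.acz i).continuousOn
  rwa [uIcc_of_le P.hT] at h

theorem Prof.ii_dy (P : Prof n C T) {s t : ℝ} (hs : s ∈ Icc 0 T) (ht : t ∈ Icc 0 T) :
    IntervalIntegrable (deriv P.y) volume s t :=
  (P.acy.mono (Prof.sub_uIcc hs ht)).intervalIntegrable_deriv

theorem Prof.ii_dξ (P : Prof n C T) {s t : ℝ} (hs : s ∈ Icc 0 T) (ht : t ∈ Icc 0 T) :
    IntervalIntegrable (deriv P.ξ) volume s t :=
  (P.acξ.mono (Prof.sub_uIcc hs ht)).intervalIntegrable_deriv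

theorem Prof.ii_dz (P : Prof n C T) (i : Fin n) {s t : ℝ} (hs : s ∈ Icc 0 T) (ht : t ∈ Icc 0 T) :
    IntervalIntegrable (deriv (P.z i)) volume s t :=
  ((P.acz i).mono (Prof.sub_uIcc hs ht)).intervalIntegrable_deriv

theorem Prof.ii_dw (P : Prof n C T) {s t : ℝ} (hs : s ∈ Icc 0 T) (ht : t ∈ Icc 0 T) :
    IntervalIntegrable (deriv P.w) volume s t :=
  (P.acw.mono (Prof.sub_uIcc hs ht)).intervalIntegrable_deriv

theorem Prof.sq_dξ_le (P : Prof n C T) : ∀ᵐ t : ℝ, t ∈ Icc 0 T → |deriv P.ξ t ^ 2| ≤ 1 := by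
  filter_upwards [P.sub] with t h ht
  have h1 := h ht
  have h2 : 0 ≤ ∑ i, deriv (P.z i) t ^ 2 := Finset.sum_nonneg fun i _ => sq_nonneg _
  rw [abs_of_nonneg (sq_nonneg _)]
  nlinarith [sq_nonneg (deriv P.y t)]

theorem Prof.sq_dz_le (P : Prof n C T) (i : Fin n) :
    ∀ᵐ t : ℝ, t ∈ Icc 0 T → |deriv (P.z i) t ^ 2| ≤ 1 := by
  filter_upwards [P.sub] with t h ht
  have h1 := h ht
  have h2 : deriv (P.z i) t ^ 2 ≤ ∑ i, deriv (P.z i) t ^ 2 :=
    Finset.single_le_sum (f := fun i => deriv (P.z i) t ^ 2) (fun i _ => sq_nonneg _)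
      (Finset.mem_univ i)
  rw [abs_of_nonneg (sq_nonneg _)]
  nlinarith [sq_nonneg (deriv P.y t), sq_nonneg (deriv P.ξ t)]

theorem Prof.ii_dξ2 (P : Prof n C T) {s t : ℝ} (hs : s ∈ Icc 0 T) (ht : t ∈ Icc 0 T) (κ : ℝ) :
    IntervalIntegrable (fun τ => (deriv P.ξ τ - κ * P.ξ τ) ^ 2) volume s t := by
  have hc : ContinuousOn P.ξ (uIcc s t) := (P.acξ.mono (Prof.sub_uIcc hs ht)).continuousOn
  have h1 : IntervalIntegrable (fun τ => deriv P.ξ τ ^ 2) volume s t :=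
    Prof.ii_of_bound P.hT ((measurable_deriv P.ξ).pow_const 2) P.sq_dξ_le hs ht
  have h2 : IntervalIntegrable (fun τ => deriv P.ξ τ * P.ξ τ) volume s t :=
    (P.ii_dξ hs ht).mul_continuousOn hc
  have h3 : IntervalIntegrable (fun τ => P.ξ τ ^ 2) volume s t := (hc.pow 2).intervalIntegrable
  have h4 := (h1.sub (h2.const_mul (2 * κ))).add (h3.const_mul (κ ^ 2))
  refine h4.congr ?_
  intro τ _
  show deriv P.ξ τ ^ 2 - 2 * κ * (deriv P.ξ τ * P.ξ τ) + κ ^ 2 * P.ξ τ ^ 2 = _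
  ring

theorem Prof.ii_dz2 (P : Prof n C T) (i : Fin n) {s t : ℝ} (hs : s ∈ Icc 0 T)
    (ht : t ∈ Icc 0 T) : IntervalIntegrable (fun τ => deriv (P.z i) τ ^ 2) volume s t :=
  Prof.ii_of_bound P.hT ((measurable_deriv (P.z i)).pow_const 2) (P.sq_dz_le i) hs ht

theorem Prof.ii_en (P : Prof n C T) {s t : ℝ} (hs : s ∈ Icc 0 T) (ht : t ∈ Icc 0 T) (κ : ℝ) :
    IntervalIntegrable (fun τ => (deriv P.ξ τ - κ * P.ξ τ) ^ 2 + ∑ i, deriv (P.z i) τ ^ 2)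
      volume s t := by
  refine (P.ii_dξ2 hs ht κ).add ?_
  have h := IntervalIntegrable.sum (Finset.univ : Finset (Fin n))
    (f := fun i τ => deriv (P.z i) τ ^ 2) (μ := volume) (a := s) (b := t)
    fun i _ => P.ii_dz2 i hs ht
  refine h.congr ?_
  intro τ _
  simp [Finset.sum_apply]

theorem Prof.ii_ξdξ (P : Prof n C T) {s t : ℝ} (hs : s ∈ Icc 0 T) (ht : t ∈ Icc 0 T) :
    IntervalIntegrable (fun τ => P.ξ τ * deriv P.ξ τ) volume s t :=
  (P.ii_dξ hs ht).continuousOn_mul (P.acξ.mono (Prof.sub_uIcc hs ht)).continuousOn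

/-- the fundamental theorem of calculus along the curve -/
theorem Prof.int_dy (P : Prof n C T) {s t : ℝ} (hs : s ∈ Icc 0 T) (ht : t ∈ Icc 0 T) :
    ∫ τ in s..t, deriv P.y τ = P.y t - P.y s :=
  (P.acy.mono (Prof.sub_uIcc hs ht)).integral_deriv_eq_sub

theorem Prof.int_dξ (P : Prof n C T) {s t : ℝ} (hs : s ∈ Icc 0 T) (ht : t ∈ Icc 0 T) :
    ∫ τ in s..t, deriv P.ξ τ = P.ξ t - P.ξ s :=
  (P.acξ.mono (Prof.sub_uIcc hs ht)).integral_deriv_eq_sub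

theorem Prof.int_dz (P : Prof n C T) (i : Fin n) {s t : ℝ} (hs : s ∈ Icc 0 T)
    (ht : t ∈ Icc 0 T) : ∫ τ in s..t, deriv (P.z i) τ = P.z i t - P.z i s :=
  ((P.acz i).mono (Prof.sub_uIcc hs ht)).integral_deriv_eq_sub

theorem Prof.int_dw (P : Prof n C T) {s t : ℝ} (hs : s ∈ Icc 0 T) (ht : t ∈ Icc 0 T) :
    ∫ τ in s..t, deriv P.w τ = P.w t - P.w s :=
  (P.acw.mono (Prof.sub_uIcc hs ht)).integral_deriv_eq_sub

theorem Prof.int_ξdξ (P : Prof n C T) {s t : ℝ} (hs : s ∈ Icc 0 T) (ht : t ∈ Icc 0 T) :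
    ∫ τ in s..t, P.ξ τ * deriv P.ξ τ = (P.ξ t ^ 2 - P.ξ s ^ 2) / 2 := by
  have h1 := P.acξ.mono (Prof.sub_uIcc hs ht)
  have h2 := h1.integral_mul_deriv_eq_deriv_mul h1
  have h3 : ∫ τ in s..t, deriv P.ξ τ * P.ξ τ = ∫ τ in s..t, P.ξ τ * deriv P.ξ τ := by
    congr 1
    ext τ
    ring
  rw [h3] at h2
  linarith [h2, sq (P.ξ t), sq (P.ξ s)]

end Pool.Agent.CMC
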