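import Pool.Agent.Lib_helper36.CMC.Defs
import Pool.Agent.Lib_helper36.CMC.W.R0

set_option autoImplicit false

namespace Pool.Agent.CMC

open MeasureTheory Set
open scoped ContDiff

variable {n : ℕ}

variable {C T : ℝ}

lemma r1_uIoc_sub {T s t : ℝ} (hs : s ∈ Icc 0 T) (ht : t ∈ Icc 0 T) :
    uIoc s t ⊆ Icc 0 T := by
  intro x hx
  rcases le_total s t with h | h
  · rw [uIoc_of_le h] at hx
    exact ⟨hs.1.trans hx.1.le, hx.2.trans ht.2⟩
  · rw [uIoc_of_ge h] at hx
    exact ⟨ht.1.trans hx.1.le, hx.2.trans hs.2⟩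

theorem Prof.y_lip (P : Prof n C T) {s t : ℝ} (hs : s ∈ Icc 0 T) (ht : t ∈ Icc 0 T) :
    |P.y t - P.y s| ≤ |t - s| := by
  have h := intervalIntegral.norm_integral_le_of_norm_le_const_ae (a := s) (b := t) (C := 1)
    (f := deriv P.y) (by
      filter_upwards [P.sub] with x hx hmem
      have h1 := hx (r1_uIoc_sub hs ht hmem)
      have h2 : 0 ≤ ∑ i, deriv (P.z i) x ^ 2 := Finset.sum_nonneg fun i _ => sq_nonneg _
      have h3 : deriv P.y x ^ 2 ≤ 1 := by nlinarith [sq_nonneg (deriv P.ξ x)]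
      rw [Real.norm_eq_abs]
      exact abs_le_one_iff_mul_self_le_one.mpr (by nlinarith))
  rw [P.int_dy hs ht, Real.norm_eq_abs, one_mul] at h
  exact h

theorem Prof.en_nonneg (P : Prof n C T) (κ : ℝ) : 0 ≤ P.en κ := by
  unfold Prof.en
  refine intervalIntegral.integral_nonneg P.hT fun x _ => ?_
  exact add_nonneg (sq_nonneg _) (Finset.sum_nonneg fun i _ => sq_nonneg _)

theorem Prof.en_zero_le (P : Prof n C T) : P.en 0 ≤ 2 * (T - (P.y T - P.y 0)) := by
  have h0 : (0 : ℝ) ∈ Icc 0 T := ⟨le_rfl, P.hT⟩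
  have hT : T ∈ Icc 0 T := ⟨P.hT, le_rfl⟩
  have hy := P.ii_dy h0 hT
  have hc : IntervalIntegrable (fun _ : ℝ => (1 : ℝ)) volume 0 T := intervalIntegrable_const
  have hg : IntervalIntegrable (fun τ => 2 * (1 - deriv P.y τ)) volume 0 T :=
    (hc.sub hy).const_mul 2
  have e : ∫ τ in (0 : ℝ)..T, 2 * (1 - deriv P.y τ) = 2 * (T - (P.y T - P.y 0)) := by
    rw [intervalIntegral.integral_const_mul, intervalIntegral.integral_sub hc hy,
      P.int_dy h0 hT]
    simp
  rw [← e]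
  unfold Prof.en
  refine intervalIntegral.integral_mono_ae_restrict P.hT (P.ii_en h0 hT 0) hg ?_
  rw [Filter.EventuallyLE, ae_restrict_iff' measurableSet_Icc]
  filter_upwards [P.sub] with x hx hmem
  have h1 := hx hmem
  nlinarith [sq_nonneg (1 - deriv P.y x)]

end Pool.Agent.CMC
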