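import Pool.Agent.Lib_helper36.CMC.Defs
import Pool.Agent.Lib_helper36.CMC.W.R0
import Pool.Agent.Lib_helper36.CMC.W.R1

set_option autoImplicit false

namespace Pool.Agent.CMC

open MeasureTheory Set
open scoped ContDiff

variable {n : ℕ}

variable {C T : ℝ}

/-- Cauchy-Schwarz -/
lemma r2_cs {f : ℝ → ℝ} {s t : ℝ} (hst : s ≤ t) (hf : IntervalIntegrable f volume s t)
    (hf2 : IntervalIntegrable (fun τ => f τ ^ 2) volume s t) :
    (∫ τ in s..t, f τ) ^ 2 ≤ (t - s) * ∫ τ in s..t, f τ ^ 2 := by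
  rcases hst.eq_or_lt with h | h
  · subst h
    simp
  have hpos : 0 < t - s := sub_pos.mpr h
  set I := ∫ τ in s..t, f τ with hI
  have h1 : 0 ≤ ∫ τ in s..t, (f τ - I / (t - s)) ^ 2 :=
    intervalIntegral.integral_nonneg hst fun x _ => sq_nonneg _
  have e : (fun τ => (f τ - I / (t - s)) ^ 2) =
      fun τ => f τ ^ 2 - 2 * (I / (t - s)) * f τ + (I / (t - s)) ^ 2 := by
    funext τ
    ring
  have i1 : IntervalIntegrable (fun τ => 2 * (I / (t - s)) * f τ) volume s t :=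
    hf.const_mul _
  have i2 : IntervalIntegrable (fun _ : ℝ => (I / (t - s)) ^ 2) volume s t :=
    intervalIntegrable_const
  rw [e, intervalIntegral.integral_add (hf2.sub i1) i2, intervalIntegral.integral_sub hf2 i1,
    intervalIntegral.integral_const_mul, intervalIntegral.integral_const, ← hI, smul_eq_mul] at h1
  have e2 : (t - s) * ((∫ τ in s..t, f τ ^ 2) - 2 * (I / (t - s)) * I +
      (t - s) * (I / (t - s)) ^ 2) = (t - s) * (∫ τ in s..t, f τ ^ 2) - I ^ 2 := by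
    field_simp
    ring
  have h2 := mul_nonneg hpos.le h1
  rw [e2] at h2
  linarith

lemma r2_cs' {f : ℝ → ℝ} {s t : ℝ} (hst : s ≤ t) (hf : IntervalIntegrable f volume s t)
    (hf2 : IntervalIntegrable (fun τ => f τ ^ 2) volume s t) {a : ℝ}
    (ha : ∫ τ in s..t, f τ = a) :
    a ^ 2 ≤ (t - s) * ∫ τ in s..t, f τ ^ 2 := by
  rw [← ha]
  exact r2_cs hst hf hf2

lemma r2_mono (P : Prof n C T) (κ : ℝ) {s t : ℝ} (hs : s ∈ Icc 0 T) (ht : t ∈ Icc 0 T)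
    (hst : s ≤ t) :
    ∫ τ in s..t, ((deriv P.ξ τ - κ * P.ξ τ) ^ 2 + ∑ i, deriv (P.z i) τ ^ 2) ≤ P.en κ := by
  unfold Prof.en
  refine intervalIntegral.integral_mono_interval hs.1 hst ht.2
    (Filter.Eventually.of_forall fun x => ?_) (P.ii_en ⟨le_rfl, P.hT⟩ ⟨P.hT, le_rfl⟩ κ)
  exact add_nonneg (sq_nonneg _) (Finset.sum_nonneg fun i _ => sq_nonneg _)

lemma r2_sum (P : Prof n C T) {s t : ℝ} (hs : s ∈ Icc 0 T) (ht : t ∈ Icc 0 T) (hst : s ≤ t) :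
    ∑ i, (P.z i t - P.z i s) ^ 2 ≤ (t - s) * ∫ τ in s..t, ∑ i, deriv (P.z i) τ ^ 2 := by
  rw [intervalIntegral.integral_finsetSum fun i _ => P.ii_dz2 i hs ht, Finset.mul_sum]
  exact Finset.sum_le_sum fun i _ => r2_cs' hst (P.ii_dz i hs ht) (P.ii_dz2 i hs ht)
    (P.int_dz i hs ht)

lemma r2_ii_sum (P : Prof n C T) {s t : ℝ} (hs : s ∈ Icc 0 T) (ht : t ∈ Icc 0 T) :
    IntervalIntegrable (fun τ => ∑ i, deriv (P.z i) τ ^ 2) volume s t := by
  have h := IntervalIntegrable.sum Finset.univ (f := fun i τ => deriv (P.z i) τ ^ 2)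
    (fun i _ => P.ii_dz2 i hs ht)
  have e : (∑ i, fun τ => deriv (P.z i) τ ^ 2) = fun τ => ∑ i, deriv (P.z i) τ ^ 2 := by
    funext τ
    simp
  rwa [e] at h

lemma r2_main (P : Prof n C T) {s t : ℝ} (hs : s ∈ Icc 0 T) (ht : t ∈ Icc 0 T) (hst : s ≤ t) :
    (P.ξ t - P.ξ s) ^ 2 + ∑ i, (P.z i t - P.z i s) ^ 2 ≤ T * P.en 0 := by
  have hx2 : IntervalIntegrable (fun τ => deriv P.ξ τ ^ 2) volume s t := by
    have h := P.ii_dξ2 hs ht 0
    simpa using h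
  have h1 := r2_cs' hst (P.ii_dξ hs ht) hx2 (P.int_dξ hs ht)
  have h2 := r2_sum P hs ht hst
  have h3 := r2_mono P 0 hs ht hst
  have e : ∫ τ in s..t, ((deriv P.ξ τ - 0 * P.ξ τ) ^ 2 + ∑ i, deriv (P.z i) τ ^ 2) =
      (∫ τ in s..t, deriv P.ξ τ ^ 2) + ∫ τ in s..t, ∑ i, deriv (P.z i) τ ^ 2 := by
    rw [← intervalIntegral.integral_add hx2 (r2_ii_sum P hs ht)]
    congr 1
    funext τ
    ring
  rw [e] at h3
  have h4 := P.en_nonneg 0
  have h5 : t - s ≤ T := by linarith [hs.1, ht.2]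
  have h6 : 0 ≤ t - s := sub_nonneg.mpr hst
  calc (P.ξ t - P.ξ s) ^ 2 + ∑ i, (P.z i t - P.z i s) ^ 2
      ≤ (t - s) * ((∫ τ in s..t, deriv P.ξ τ ^ 2) +
          ∫ τ in s..t, ∑ i, deriv (P.z i) τ ^ 2) := by
        rw [mul_add]
        exact add_le_add h1 h2
    _ ≤ (t - s) * P.en 0 := mul_le_mul_of_nonneg_left h3 h6
    _ ≤ T * P.en 0 := mul_le_mul_of_nonneg_right h5 h4

lemma r2_main_z (P : Prof n C T) (κ : ℝ) {s t : ℝ} (hs : s ∈ Icc 0 T) (ht : t ∈ Icc 0 T)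
    (hst : s ≤ t) : ∑ i, (P.z i t - P.z i s) ^ 2 ≤ T * P.en κ := by
  have h2 := r2_sum P hs ht hst
  have h3 := r2_mono P κ hs ht hst
  have e : ∫ τ in s..t, ∑ i, deriv (P.z i) τ ^ 2 ≤
      ∫ τ in s..t, ((deriv P.ξ τ - κ * P.ξ τ) ^ 2 + ∑ i, deriv (P.z i) τ ^ 2) := by
    refine intervalIntegral.integral_mono_on hst (r2_ii_sum P hs ht) (P.ii_en hs ht κ) ?_
    intro x _
    linarith [sq_nonneg (deriv P.ξ x - κ * P.ξ x)]
  have h4 := P.en_nonneg κ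
  have h5 : t - s ≤ T := by linarith [hs.1, ht.2]
  have h6 : 0 ≤ t - s := sub_nonneg.mpr hst
  calc ∑ i, (P.z i t - P.z i s) ^ 2
      ≤ (t - s) * ∫ τ in s..t, ∑ i, deriv (P.z i) τ ^ 2 := h2
    _ ≤ (t - s) * P.en κ := mul_le_mul_of_nonneg_left (e.trans h3) h6
    _ ≤ T * P.en κ := mul_le_mul_of_nonneg_right h5 h4

theorem Prof.sq_le_en (P : Prof n C T) {s t : ℝ} (hs : s ∈ Icc 0 T) (ht : t ∈ Icc 0 T) :
    (P.ξ t - P.ξ s) ^ 2 + ∑ i, (P.z i t - P.z i s) ^ 2 ≤ T * P.en 0 := by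
  rcases le_total s t with h | h
  · exact r2_main P hs ht h
  · have h1 := r2_main P ht hs h
    have e : (P.ξ t - P.ξ s) ^ 2 + ∑ i, (P.z i t - P.z i s) ^ 2 =
        (P.ξ s - P.ξ t) ^ 2 + ∑ i, (P.z i s - P.z i t) ^ 2 := by
      congr 1
      · ring
      · exact Finset.sum_congr rfl fun i _ => by ring
    rw [e]
    exact h1

theorem Prof.sq_z_le_en (P : Prof n C T) (κ : ℝ) {s t : ℝ} (hs : s ∈ Icc 0 T)
    (ht : t ∈ Icc 0 T) : ∑ i, (P.z i t - P.z i s) ^ 2 ≤ T * P.en κ := by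
  rcases le_total s t with h | h
  · exact r2_main_z P κ hs ht h
  · have h1 := r2_main_z P κ ht hs h
    have e : ∑ i, (P.z i t - P.z i s) ^ 2 = ∑ i, (P.z i s - P.z i t) ^ 2 :=
      Finset.sum_congr rfl fun i _ => by ring
    rw [e]
    exact h1

end Pool.Agent.CMC
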