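import Pool.Agent.Lib_helper36.CMC.Defs
import Pool.Agent.Lib_helper36.CMC.W.R0
import Pool.Agent.Lib_helper36.CMC.W.R1

set_option autoImplicit false

namespace Pool.Agent.CMC

open MeasureTheory Set
open scoped ContDiff

variable {n : ℕ}

variable {C T : ℝ}

theorem Prof.w_le (P : Prof n C T) {b : ℝ} (hb : ∀ t ∈ Icc 0 T, P.xx t ≤ b) :
    |P.w T - P.w 0| ≤ 3 / 2 * C * T * b := by
  have h0 : (0 : ℝ) ∈ Icc 0 T := ⟨le_rfl, P.hT⟩
  have h1 : T ∈ Icc 0 T := ⟨P.hT, le_rfl⟩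
  have hC := P.hC
  rw [← P.int_dw h0 h1, ← Real.norm_eq_abs]
  have h2 : ‖∫ τ in (0 : ℝ)..T, deriv P.w τ‖ ≤ 3 / 2 * C * b * |T - 0| := by
    apply intervalIntegral.norm_integral_le_of_norm_le_const_ae
    filter_upwards [P.sub, P.wr] with t hs hw ht
    rw [uIoc_of_le P.hT] at ht
    have htI : t ∈ Icc 0 T := ⟨ht.1.le, ht.2⟩
    have k1 := hs htI
    obtain ⟨Q, r, hQ1, hQ2, hr, hw'⟩ := hw htI
    have k2 := hb t htI
    have k3 : 0 ≤ ∑ i, P.z i t ^ 2 := Finset.sum_nonneg fun i _ => sq_nonneg _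
    have k4 : 0 ≤ ∑ i, deriv (P.z i) t ^ 2 := Finset.sum_nonneg fun i _ => sq_nonneg _
    unfold Prof.xx at k2
    have k5 : 0 ≤ Q := (sq_nonneg _).trans hQ1
    have k6 : Q ≤ C * b := by
      have k7 : P.ξ t ^ 2 + C * ∑ i, P.z i t ^ 2 ≤ C * (P.ξ t ^ 2 + ∑ i, P.z i t ^ 2) := by
        nlinarith [sq_nonneg (P.ξ t)]
      exact hQ2.trans (k7.trans (mul_le_mul_of_nonneg_left k2 (by linarith)))
    have k8 : |deriv P.y t| ≤ 1 := by
      rw [abs_le_one_iff_mul_self_le_one]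
      nlinarith [sq_nonneg (deriv P.ξ t)]
    have k9 : Real.sqrt (deriv P.ξ t ^ 2 + ∑ i, deriv (P.z i) t ^ 2) ≤ 1 := by
      rw [Real.sqrt_le_one]
      nlinarith [sq_nonneg (deriv P.y t)]
    have k10 : 0 ≤ b := by
      have := sq_nonneg (P.ξ t)
      linarith
    have k11 : |r| ≤ C * b := by
      calc |r| ≤ C * (P.ξ t ^ 2 + ∑ i, P.z i t ^ 2) *
            Real.sqrt (deriv P.ξ t ^ 2 + ∑ i, deriv (P.z i) t ^ 2) := hr
        _ ≤ (C * b) * 1 := by
          apply mul_le_mul _ k9 (Real.sqrt_nonneg _) (by positivity)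
          exact mul_le_mul_of_nonneg_left k2 (by linarith)
        _ = C * b := mul_one _
    rw [Real.norm_eq_abs, hw']
    calc |Q / 2 * deriv P.y t + r| ≤ |Q / 2 * deriv P.y t| + |r| := abs_add_le _ _
      _ ≤ C * b / 2 * 1 + C * b := by
        apply add_le_add _ k11
        rw [abs_mul, abs_of_nonneg (by linarith : 0 ≤ Q / 2)]
        exact mul_le_mul (by linarith) k8 (abs_nonneg _) (by positivity)
      _ = 3 / 2 * C * b := by ring
  refine h2.trans (le_of_eq ?_)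
  rw [sub_zero, abs_of_nonneg P.hT]
  ring

end Pool.Agent.CMC
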