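import Pool.Agent.Lib_helper36.CMC.Defs
import Pool.Agent.Lib_helper36.CMC.W.F0
import Pool.Agent.Lib_helper36.CMC.W.D2
import Pool.Agent.Lib_helper36.CMC.W.D3b
import Pool.Agent.Lib_helper36.CMC.W.R1
import Pool.Agent.Lib_helper36.CMC.W.R2
import Pool.Agent.Lib_helper36.CMC.W.R5

set_option autoImplicit false

namespace Pool.Agent.CMC

open MeasureTheory Set
open scoped ContDiff

variable {n : ℕ}

/-- an almost minimal curve and its profile -/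
theorem Cal.g1_prof {G : Carnot n} (D : Cal G) (p q : Fin n → ℝ) {ε : ℝ} (hε : 0 < ε) :
    ∃ T, 0 ≤ T ∧ cc G p q ≤ T ∧ T < cc G p q + ε ∧ ∃ P : Prof n D.C T,
      (P.y 0 = D.yy p ∧ P.y T = D.yy q) ∧ (P.ξ 0 = D.xi p ∧ P.ξ T = D.xi q) ∧
      (P.w 0 = D.w p ∧ P.w T = D.w q) ∧ (∀ i, P.z i 0 = D.zz p i) ∧ ∀ i, P.z i T = D.zz q i := by
  obtain ⟨T, hT, hT2, γ, hγ, h0, h1⟩ := exists_near G p q hε
  obtain ⟨P, hy, hξ, hw, hz⟩ := exists_prof D hT hγ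
  refine ⟨T, hT, ?_, hT2, P, ?_, ?_, ?_, ?_, ?_⟩
  · have := cc_le_of_subunit G hT hγ
    rwa [h0, h1] at this
  · rw [hy, hy, h0, h1]; exact ⟨rfl, rfl⟩
  · rw [hξ, hξ, h0, h1]; exact ⟨rfl, rfl⟩
  · rw [hw, hw, h0, h1]; exact ⟨rfl, rfl⟩
  · intro i; rw [hz, h0]
  · intro i; rw [hz, h1]

theorem Cal.yy_lip {G : Carnot n} (D : Cal G) (p q : Fin n → ℝ) :
    |D.yy q - D.yy p| ≤ cc G p q := by
  refine le_of_forall_pos_le_add (fun ε hε => ?_)
  obtain ⟨T, hT, _, hT2, P, ⟨hy0, hy1⟩, _⟩ := D.g1_prof p q hε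
  have h := P.y_lip (s := 0) (t := T) ⟨le_rfl, hT⟩ ⟨hT, le_rfl⟩
  rw [hy0, hy1, sub_zero, abs_of_nonneg hT] at h
  linarith

theorem Cal.g1_yy_zero {G : Carnot n} (D : Cal G) : D.yy 0 = 0 := by
  unfold Cal.yy dt; simp

theorem Cal.g1_xi_zero {G : Carnot n} (D : Cal G) : D.xi 0 = 0 := by
  unfold Cal.xi dt; simp

theorem Cal.g1_zz_zero {G : Carnot n} (D : Cal G) (i : Fin n) : D.zz 0 i = 0 := by
  unfold Cal.zz
  rw [D.g1_yy_zero, D.g1_xi_zero]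
  unfold pj
  simp

theorem Cal.df_nonneg {G : Carnot n} (D : Cal G) (q : Fin n → ℝ) : 0 ≤ D.df q := by
  have h := D.yy_lip 0 q
  rw [D.g1_yy_zero, sub_zero] at h
  unfold Cal.df
  linarith [le_abs_self (D.yy q)]

theorem Cal.xs_nonneg {G : Carnot n} (D : Cal G) (q : Fin n → ℝ) : 0 ≤ D.xs q := by
  unfold Cal.xs nsq
  exact add_nonneg (sq_nonneg _) (Finset.sum_nonneg fun i _ => sq_nonneg _)

theorem Cal.xs_le {G : Carnot n} (D : Cal G) (q : Fin n → ℝ) :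
    D.xs q ≤ 2 * cc G 0 q * D.df q := by
  have hd := D.df_nonneg q
  have hc := cc_nonneg G 0 q
  have key : ∀ ε : ℝ, 0 < ε → D.xs q ≤ 2 * (cc G 0 q + ε) * (D.df q + ε) := by
    intro ε hε
    obtain ⟨T, hT, hT1, hT2, P, ⟨hy0, hy1⟩, ⟨hξ0, hξ1⟩, _, hz0, hz1⟩ := D.g1_prof 0 q hε
    have h1 := P.sq_le_en (s := 0) (t := T) ⟨le_rfl, hT⟩ ⟨hT, le_rfl⟩
    have h2 := P.en_zero_le
    rw [hξ0, hξ1, D.g1_xi_zero, sub_zero] at h1
    rw [hy0, hy1, D.g1_yy_zero, sub_zero] at h2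
    have h3 : ∑ i, (P.z i T - P.z i 0) ^ 2 = nsq (D.zz q) := by
      unfold nsq
      apply Finset.sum_congr rfl
      intro i _
      rw [hz0, hz1, D.g1_zz_zero, sub_zero]
    rw [h3] at h1
    have h4 : D.xs q ≤ T * (2 * (T - D.yy q)) := h1.trans (mul_le_mul_of_nonneg_left h2 hT)
    have h5 : D.df q = cc G 0 q - D.yy q := rfl
    have h6 : 0 ≤ T - D.yy q := by linarith
    calc D.xs q ≤ T * (2 * (T - D.yy q)) := h4
      _ ≤ (cc G 0 q + ε) * (2 * (T - D.yy q)) :=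
          mul_le_mul_of_nonneg_right hT2.le (by linarith)
      _ ≤ (cc G 0 q + ε) * (2 * (D.df q + ε)) :=
          mul_le_mul_of_nonneg_left (by linarith) (by linarith)
      _ = _ := by ring
  have hlim : Filter.Tendsto (fun ε : ℝ => 2 * (cc G 0 q + ε) * (D.df q + ε)) (nhdsWithin 0 (Ioi 0))
      (nhds (2 * (cc G 0 q + 0) * (D.df q + 0))) :=
    (Continuous.tendsto (by fun_prop) 0).mono_left nhdsWithin_le_nhds
  rw [add_zero, add_zero] at hlim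
  refine ge_of_tendsto hlim ?_
  filter_upwards [self_mem_nhdsWithin] with ε hε
  exact key ε hε

theorem Cal.w_le {G : Carnot n} (D : Cal G) (q : Fin n → ℝ) :
    |D.w q| ≤ 3 * D.C * cc G 0 q ^ 2 * D.df q := by
  have hd := D.df_nonneg q
  have hc := cc_nonneg G 0 q
  have hC := D.hC
  have key : ∀ ε : ℝ, 0 < ε → |D.w q| ≤ 3 * D.C * (cc G 0 q + ε) ^ 2 * (D.df q + ε) := by
    intro ε hε
    obtain ⟨T, hT, hT1, hT2, P, ⟨hy0, hy1⟩, ⟨hξ0, hξ1⟩, ⟨hw0, hw1⟩, hz0, hz1⟩ := D.g1_prof 0 q hε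
    have h2 := P.en_zero_le
    rw [hy0, hy1, D.g1_yy_zero, sub_zero] at h2
    have h5 : D.df q = cc G 0 q - D.yy q := rfl
    have h6 : 0 ≤ T - D.yy q := by linarith
    have h3 : ∀ t ∈ Icc 0 T, P.xx t ≤ T * (2 * (T - D.yy q)) := by
      intro t ht
      have h1 := P.sq_le_en (s := 0) (t := t) ⟨le_rfl, hT⟩ ht
      rw [hξ0, D.g1_xi_zero, sub_zero] at h1
      have h3 : ∑ i, (P.z i t - P.z i 0) ^ 2 = ∑ i, P.z i t ^ 2 := by
        apply Finset.sum_congr rfl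
        intro i _
        rw [hz0, D.g1_zz_zero, sub_zero]
      rw [h3] at h1
      exact h1.trans (mul_le_mul_of_nonneg_left h2 hT)
    have h4 := P.w_le h3
    rw [hw0, hw1, D.w0, sub_zero] at h4
    have h7 : T ^ 2 ≤ (cc G 0 q + ε) ^ 2 := pow_le_pow_left₀ hT hT2.le 2
    calc |D.w q| ≤ 3 / 2 * D.C * T * (T * (2 * (T - D.yy q))) := h4
      _ = 3 * D.C * (T ^ 2 * (T - D.yy q)) := by ring
      _ ≤ 3 * D.C * ((cc G 0 q + ε) ^ 2 * (D.df q + ε)) := by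
          apply mul_le_mul_of_nonneg_left _ (by linarith)
          exact mul_le_mul h7 (by linarith) h6 (by positivity)
      _ = _ := by ring
  have hlim : Filter.Tendsto (fun ε : ℝ => 3 * D.C * (cc G 0 q + ε) ^ 2 * (D.df q + ε))
      (nhdsWithin 0 (Ioi 0)) (nhds (3 * D.C * (cc G 0 q + 0) ^ 2 * (D.df q + 0))) :=
    (Continuous.tendsto (by fun_prop) 0).mono_left nhdsWithin_le_nhds
  rw [add_zero, add_zero] at hlim
  refine ge_of_tendsto hlim ?_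
  filter_upwards [self_mem_nhdsWithin] with ε hε
  exact key ε hε

end Pool.Agent.CMC
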