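import Pool.Agent.Lib_helper36.CMC.Defs
import Pool.Agent.Lib_helper36.CMC.W.A1
import Pool.Agent.Lib_helper36.CMC.W.A2
import Pool.Agent.Lib_helper36.CMC.W.A3
import Pool.Agent.Lib_helper36.CMC.W.D1
import Pool.Agent.Lib_helper36.CMC.W.D1b
import Pool.Agent.Lib_helper36.CMC.W.D2

set_option autoImplicit false

namespace Pool.Agent.CMC

open MeasureTheory Set
open scoped ContDiff

variable {n : ℕ}

theorem D2b_left_le (G : Carnot n) (g p q : Fin n → ℝ) :
    cc G (G.mul g p) (G.mul g q) ≤ cc G p q := by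
  refine le_of_forall_pos_le_add fun ε hε => ?_
  obtain ⟨T, hT, hlt, γ, hγ, h0, h1⟩ := exists_near G p q hε
  have h := cc_le_of_subunit G hT (subunit_left G g hγ)
  simp only [h0, h1] at h
  exact h.trans hlt.le

theorem cc_left (G : Carnot n) (g p q : Fin n → ℝ) :
    cc G (G.mul g p) (G.mul g q) = cc G p q := by
  refine le_antisymm (D2b_left_le G g p q) ?_
  have h := D2b_left_le G (-g) (G.mul g p) (G.mul g q)
  rwa [G.neg_mul_cancel, G.neg_mul_cancel] at h

theorem D2b_dl_le (G : Carnot n) {r : ℝ} (hr : 0 < r) (p q : Fin n → ℝ) :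
    cc G (dl G.wt r p) (dl G.wt r q) ≤ r * cc G p q := by
  refine le_of_forall_pos_le_add fun ε hε => ?_
  obtain ⟨T, hT, hlt, γ, hγ, h0, h1⟩ := exists_near G p q (div_pos hε hr)
  have h := cc_le_of_subunit G (mul_nonneg hr.le hT) (subunit_dl G hr hγ)
  have e1 : (0 : ℝ) / r = 0 := zero_div r
  have e2 : r * T / r = T := mul_div_cancel_left₀ T hr.ne'
  simp only [e1, e2, h0, h1] at h
  refine h.trans ?_
  have h2 : r * T ≤ r * (cc G p q + ε / r) := mul_le_mul_of_nonneg_left hlt.le hr.le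
  rwa [mul_add, mul_div_cancel₀ ε hr.ne'] at h2

theorem cc_dl (G : Carnot n) {r : ℝ} (hr : 0 < r) (p q : Fin n → ℝ) :
    cc G (dl G.wt r p) (dl G.wt r q) = r * cc G p q := by
  refine le_antisymm (D2b_dl_le G hr p q) ?_
  have h := D2b_dl_le G (inv_pos.2 hr) (dl G.wt r p) (dl G.wt r q)
  rw [dl_inv' G.wt hr, dl_inv' G.wt hr] at h
  have h2 := mul_le_mul_of_nonneg_left h hr.le
  rwa [← mul_assoc, mul_inv_cancel₀ hr.ne', one_mul] at h2

theorem D2b_nsq_smul (c : ℝ) (a : Fin n → ℝ) : nsq (c • a) = c ^ 2 * nsq a := by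
  simp only [nsq, Pi.smul_apply, smul_eq_mul, mul_pow, Finset.mul_sum]

theorem cc_seg (G : Carnot n) (g : Fin n → ℝ) {a : Fin n → ℝ} (ha : a ∈ lay G.wt 1) :
    cc G g (G.mul g a) ≤ Real.sqrt (nsq a) := by
  have hn : 0 ≤ nsq a := Finset.sum_nonneg fun i _ => sq_nonneg _
  rcases hn.eq_or_lt with h | h
  · have ha0 : a = 0 := by
      funext i
      have h1 := (Finset.sum_eq_zero_iff_of_nonneg (fun i _ => sq_nonneg (a i))).1 h.symm i
        (Finset.mem_univ i)
      exact pow_eq_zero_iff (two_ne_zero) |>.1 h1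
    rw [ha0, G.mul_zero, cc_self]
    exact Real.sqrt_nonneg _
  · have hs : 0 < Real.sqrt (nsq a) := Real.sqrt_pos.2 h
    have hm : (Real.sqrt (nsq a))⁻¹ • a ∈ lay G.wt 1 := (lay G.wt 1).smul_mem _ ha
    have h1 : nsq ((Real.sqrt (nsq a))⁻¹ • a) ≤ 1 := by
      rw [D2b_nsq_smul, inv_pow, Real.sq_sqrt hn, inv_mul_cancel₀ h.ne']
    have h2 := cc_le_of_subunit G hs.le (subunit_seg G g hm h1 (Real.sqrt (nsq a)))
    simp only [zero_smul, G.mul_zero] at h2
    rwa [smul_smul, mul_inv_cancel₀ hs.ne', one_smul] at h2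

end Pool.Agent.CMC
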