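import Pool.Agent.Lib_helper36.CMC.Defs
import Pool.Agent.Lib_helper36.CMC.W.A1
import Pool.Agent.Lib_helper36.CMC.W.A2
import Pool.Agent.Lib_helper36.CMC.W.A3
import Pool.Agent.Lib_helper36.CMC.W.F0
import Pool.Agent.Lib_helper36.CMC.W.D2
import Pool.Agent.Lib_helper36.CMC.W.D2b

set_option autoImplicit false

namespace Pool.Agent.CMC

open MeasureTheory Set
open scoped ContDiff

variable {n : ℕ}

theorem Cal.cc_stp {G : Carnot n} (D : Cal G) {κ h : ℝ} (hh : 0 ≤ h) (g : Fin n → ℝ) :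
    cc G g (D.stp κ h g) ≤ h * (1 + κ ^ 2 * D.xi g ^ 2 / 2) := by
  have hmem : h • (D.Y + (κ * D.xi g) • D.e) ∈ lay G.wt 1 :=
    (lay G.wt 1).smul_mem h (D.dir_mem (κ * D.xi g))
  have h1 := cc_seg G g hmem
  have h2 : nsq (h • (D.Y + (κ * D.xi g) • D.e)) = h ^ 2 * (1 + (κ * D.xi g) ^ 2) := by
    rw [← D.nsq_dir (κ * D.xi g)]
    unfold nsq
    rw [Finset.mul_sum]
    refine Finset.sum_congr rfl (fun i _ => ?_)
    rw [Pi.smul_apply, smul_eq_mul]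
    ring
  rw [h2] at h1
  refine le_trans h1 ?_
  have hx : 0 ≤ (κ * D.xi g) ^ 2 := sq_nonneg _
  have h3 : 0 ≤ h * (1 + κ ^ 2 * D.xi g ^ 2 / 2) := by positivity
  rw [Real.sqrt_le_iff]
  refine ⟨h3, ?_⟩
  have h4 : 1 + (κ * D.xi g) ^ 2 ≤ (1 + κ ^ 2 * D.xi g ^ 2 / 2) ^ 2 := by nlinarith
  calc h ^ 2 * (1 + (κ * D.xi g) ^ 2) ≤ h ^ 2 * (1 + κ ^ 2 * D.xi g ^ 2 / 2) ^ 2 :=
        mul_le_mul_of_nonneg_left h4 (sq_nonneg h)
    _ = (h * (1 + κ ^ 2 * D.xi g ^ 2 / 2)) ^ 2 := by ring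

end Pool.Agent.CMC
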