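import Pool.Agent.Lib_helper36.CMC.Defs
import Pool.Agent.Lib_helper36.CMC.W.A1
import Pool.Agent.Lib_helper36.CMC.W.A2
import Pool.Agent.Lib_helper36.CMC.W.F0

set_option autoImplicit false

namespace Pool.Agent.CMC

open MeasureTheory Set
open scoped ContDiff

variable {n : ℕ}

theorem Cal.f2_dt {G : Carnot n} (D : Cal G) (c : ℝ) : dt D.Y (D.Y + c • D.e) = 1 := by
  have h1 : dt D.Y (D.Y + c • D.e) = nsq D.Y + c * dt D.Y D.e := by
    unfold dt nsq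
    rw [Finset.mul_sum, ← Finset.sum_add_distrib]
    refine Finset.sum_congr rfl fun i _ => ?_
    simp only [Pi.add_apply, Pi.smul_apply, smul_eq_mul]
    ring
  rw [h1, D.hYY, D.hYe]
  ring

theorem Cal.f2_nonneg {G : Carnot n} (D : Cal G) (g : Fin n → ℝ) : 0 ≤ nsq (D.zz g) :=
  Finset.sum_nonneg fun i _ => sq_nonneg _

/-- the derivative along one step -/
theorem Cal.f2_deriv {G : Carnot n} (D : Cal G) (κ : ℝ) (g : Fin n → ℝ) (s : ℝ) :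
    HasDerivAt (fun s : ℝ => D.psi κ (D.stp κ s g))
      (κ ^ 2 * D.xi g ^ 2 * (1 + κ * s) + 1
        - κ ^ 2 * (D.Q (D.stp κ s g) / 2 + D.r (D.stp κ s g) (D.Y + (κ * D.xi g) • D.e))) s := by
  have hA := D.dir_mem (κ * D.xi g)
  have h1 := hasDerivAt_mul_smul G g (D.Y + (κ * D.xi g) • D.e) s
  have h2 : HasDerivAt (fun s : ℝ => D.w (D.stp κ s g))
      (D.Q (D.stp κ s g) / 2 + D.r (D.stp κ s g) (D.Y + (κ * D.xi g) • D.e)) s := by
    have h3 := ((D.hw.differentiable (by simp)).differentiableAt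
      (x := G.mul g (s • (D.Y + (κ * D.xi g) • D.e)))).hasFDerivAt.comp_hasDerivAt s h1
    have h4 := D.hX (G.mul g (s • (D.Y + (κ * D.xi g) • D.e))) _ hA
    rw [D.f2_dt, mul_one] at h4
    rw [h4] at h3
    exact h3
  have h5 : (fun s : ℝ => D.psi κ (D.stp κ s g)) =
      fun s : ℝ => κ * (D.xi g * (1 + κ * s)) ^ 2 / 2 + (D.yy g + s) - κ ^ 2 * D.w (D.stp κ s g) := by
    funext s
    unfold Cal.psi
    rw [D.xi_stp, D.yy_stp]
  rw [h5]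
  have h6 : HasDerivAt (fun s : ℝ => 1 + κ * s) κ s := by
    simpa using ((hasDerivAt_id s).const_mul κ).const_add 1
  have h7 := ((((h6.const_mul (D.xi g)).pow 2).const_mul κ).div_const 2)
  have h8 := (h7.add ((hasDerivAt_id s).const_add (D.yy g))).sub (h2.const_mul (κ ^ 2))
  refine h8.congr_deriv ?_
  simp only [Nat.cast_ofNat]
  ring

theorem Cal.psi_stp {G : Carnot n} (D : Cal G) {κ h : ℝ} (hκ : 0 ≤ κ) (hh : 0 ≤ h)
    (g : Fin n → ℝ) :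
    h * (1 + κ ^ 2 * D.xi g ^ 2 / 2) - κ ^ 4 * h ^ 3 * D.xi g ^ 2 / 6
      - h * κ ^ 2 * D.C * nsq (D.zz g) / 2
      - h * κ ^ 3 * D.C * Real.sqrt ((1 + κ * h) ^ 2 * D.xs g) ^ 3
      ≤ D.psi κ (D.stp κ h g) - D.psi κ g := by
  set ξ : ℝ := D.xi g with hξ
  set Z : ℝ := nsq (D.zz g) with hZ
  have hZ0 : 0 ≤ Z := D.f2_nonneg g
  set B : ℝ := Real.sqrt ((1 + κ * h) ^ 2 * D.xs g) with hB
  have hxs0 : 0 ≤ D.xs g := by
    unfold Cal.xs
    positivity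
  have hxs : D.xs g = ξ ^ 2 + Z := rfl
  have hB0 : 0 ≤ B := Real.sqrt_nonneg _
  have hB2 : B ^ 2 = (1 + κ * h) ^ 2 * D.xs g := Real.sq_sqrt (by positivity)
  have hC := D.hC
  -- the derivative of the polynomial
  have hP : ∀ s : ℝ, HasDerivAt (fun s : ℝ => s * (1 + κ ^ 2 * ξ ^ 2 / 2) - κ ^ 4 * s ^ 3 * ξ ^ 2 / 6
      - s * κ ^ 2 * D.C * Z / 2 - s * κ ^ 3 * D.C * B ^ 3)
      ((1 + κ ^ 2 * ξ ^ 2 / 2) - κ ^ 4 * s ^ 2 * ξ ^ 2 / 2 - κ ^ 2 * D.C * Z / 2 - κ ^ 3 * D.C * B ^ 3) s := by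
    intro s
    have h1 := (hasDerivAt_id s).mul_const (1 + κ ^ 2 * ξ ^ 2 / 2)
    have h2 := (((hasDerivAt_pow 3 s).const_mul (κ ^ 4)).mul_const (ξ ^ 2)).div_const 6
    have h3 := ((((hasDerivAt_id s).mul_const (κ ^ 2)).mul_const D.C).mul_const Z).div_const 2
    have h4 := (((hasDerivAt_id s).mul_const (κ ^ 3)).mul_const D.C).mul_const (B ^ 3)
    refine (((h1.sub h2).sub h3).sub h4).congr_deriv ?_
    norm_num
    ring
  have hF : ∀ s : ℝ, HasDerivAt (fun s : ℝ => D.psi κ (D.stp κ s g) -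
      (s * (1 + κ ^ 2 * ξ ^ 2 / 2) - κ ^ 4 * s ^ 3 * ξ ^ 2 / 6
      - s * κ ^ 2 * D.C * Z / 2 - s * κ ^ 3 * D.C * B ^ 3)) _ s := fun s =>
    (D.f2_deriv κ g s).sub (hP s)
  have hmono : MonotoneOn (fun s : ℝ => D.psi κ (D.stp κ s g) -
      (s * (1 + κ ^ 2 * ξ ^ 2 / 2) - κ ^ 4 * s ^ 3 * ξ ^ 2 / 6
      - s * κ ^ 2 * D.C * Z / 2 - s * κ ^ 3 * D.C * B ^ 3)) (Icc 0 h) := by
    refine monotoneOn_of_deriv_nonneg (convex_Icc 0 h) ?_ ?_ ?_
    · exact fun s _ => (hF s).continuousAt.continuousWithinAt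
    · exact fun s _ => (hF s).differentiableAt.differentiableWithinAt
    · intro s hs
      rw [interior_Icc] at hs
      rw [(hF s).deriv]
      set q := D.stp κ s g with hq
      have e1 : D.xi q = ξ * (1 + κ * s) := D.xi_stp κ s g
      have e2 : D.zz q = D.zz g := D.zz_stp κ s g
      have e3 : D.xs q = (ξ * (1 + κ * s)) ^ 2 + Z := by
        unfold Cal.xs
        rw [e1, e2]
      have hs0 : 0 ≤ κ * s := mul_nonneg hκ hs.1.le
      have hsh : κ * s ≤ κ * h := mul_le_mul_of_nonneg_left hs.2.le hκ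
      have hx1 : D.xs q ≤ B ^ 2 := by
        rw [hB2, hxs, e3]
        have h1 : (1 + κ * s) ^ 2 ≤ (1 + κ * h) ^ 2 := by
          apply pow_le_pow_left₀ <;> linarith
        have h2 : (1 : ℝ) ≤ (1 + κ * h) ^ 2 := by nlinarith
        have h3 : ξ ^ 2 * (1 + κ * s) ^ 2 ≤ ξ ^ 2 * (1 + κ * h) ^ 2 :=
          mul_le_mul_of_nonneg_left h1 (sq_nonneg _)
        have h4 : Z * 1 ≤ Z * (1 + κ * h) ^ 2 := mul_le_mul_of_nonneg_left h2 hZ0
        calc (ξ * (1 + κ * s)) ^ 2 + Z = ξ ^ 2 * (1 + κ * s) ^ 2 + Z * 1 := by ring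
          _ ≤ ξ ^ 2 * (1 + κ * h) ^ 2 + Z * (1 + κ * h) ^ 2 := by linarith
          _ = (1 + κ * h) ^ 2 * (ξ ^ 2 + Z) := by ring
      have hξB : |ξ| ≤ B := by
        apply abs_le_of_sq_le_sq _ hB0
        rw [hB2, hxs]
        have h2 : (1 : ℝ) ≤ (1 + κ * h) ^ 2 := by nlinarith
        nlinarith [sq_nonneg ξ, mul_le_mul_of_nonneg_right h2 (add_nonneg (sq_nonneg ξ) hZ0)]
      have hxs0' : 0 ≤ D.xs q := by rw [e3]; positivity
      -- `Q`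
      have hQ : D.Q q ≤ (ξ * (1 + κ * s)) ^ 2 + D.C * Z := by
        have h1 := D.hQ2 q
        have h2 := D.nsq_zz q
        rw [e2] at h2
        have h3 : nsq (pj G 1 q) - dt D.Y q ^ 2 - dt D.e q ^ 2 = Z := by
          rw [hZ, h2]; rfl
        rw [h3] at h1
        have h4 : dt D.e q = ξ * (1 + κ * s) := e1
        rw [h4] at h1
        exact h1
      -- `r`
      have hr : |D.r q (D.Y + (κ * ξ) • D.e)| ≤ D.C * B ^ 2 * (κ * B) := by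
        have h1 := D.hr q _ (D.dir_mem (κ * ξ))
        rw [D.f2_dt, D.nsq_dir] at h1
        have h2 : nsq (pj G 1 q) - dt D.Y q ^ 2 = D.xs q := (D.xs_eq q).symm
        rw [h2, show 1 + (κ * ξ) ^ 2 - 1 ^ 2 = (κ * ξ) ^ 2 by ring, Real.sqrt_sq_eq_abs, abs_mul,
          abs_of_nonneg hκ] at h1
        refine h1.trans ?_
        have hC0 : 0 ≤ D.C := by linarith
        gcongr
      have hr2 : D.r q (D.Y + (κ * ξ) • D.e) ≤ D.C * B ^ 2 * (κ * B) := (le_abs_self _).trans hr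
      have hk2 : 0 ≤ κ ^ 2 := sq_nonneg κ
      have m1 := mul_le_mul_of_nonneg_left hQ hk2
      have m2 := mul_le_mul_of_nonneg_left hr2 hk2
      have goal1 : κ ^ 2 * ξ ^ 2 * (1 + κ * s) + 1 - κ ^ 2 * (D.Q q / 2 + D.r q (D.Y + (κ * ξ) • D.e)) -
          (1 + κ ^ 2 * ξ ^ 2 / 2 - κ ^ 4 * s ^ 2 * ξ ^ 2 / 2 - κ ^ 2 * D.C * Z / 2 - κ ^ 3 * D.C * B ^ 3) =
          (κ ^ 2 * ((ξ * (1 + κ * s)) ^ 2 + D.C * Z) - κ ^ 2 * D.Q q) / 2 +
          (κ ^ 2 * (D.C * B ^ 2 * (κ * B)) - κ ^ 2 * D.r q (D.Y + (κ * ξ) • D.e)) := by ring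
      rw [goal1]
      linarith
  have h0 := hmono (left_mem_Icc.2 hh) (right_mem_Icc.2 hh) hh
  have hst : D.stp κ 0 g = g := by
    unfold Cal.stp
    rw [zero_smul, G.mul_zero]
  simp only [hst] at h0
  have e0 : (0 : ℝ) * (1 + κ ^ 2 * ξ ^ 2 / 2) - κ ^ 4 * 0 ^ 3 * ξ ^ 2 / 6 - 0 * κ ^ 2 * D.C * Z / 2 -
      0 * κ ^ 3 * D.C * B ^ 3 = 0 := by ring
  rw [e0] at h0
  linarith

end Pool.Agent.CMC
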