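import Pool.Agent.Lib_helper36.CMC.Defs
import Pool.Agent.Lib_helper36.CMC.W.A1
import Pool.Agent.Lib_helper36.CMC.W.A2
import Pool.Agent.Lib_helper36.CMC.W.F0
import Pool.Agent.Lib_helper36.CMC.W.F1
import Pool.Agent.Lib_helper36.CMC.W.F2
import Pool.Agent.Lib_helper36.CMC.W.D2

set_option autoImplicit false

namespace Pool.Agent.CMC

open MeasureTheory Set
open scoped ContDiff

variable {n : ℕ}

theorem f3_yy {G : Carnot n} (D : Cal G) (κ h : ℝ) (g : Fin n → ℝ) (m : ℕ) :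
    D.yy ((D.stp κ h)^[m] g) = D.yy g + m * h := by
  induction m with
  | zero => simp
  | succ m ih => rw [Function.iterate_succ_apply', D.yy_stp, ih]; push_cast; ring

theorem f3_xi {G : Carnot n} (D : Cal G) (κ h : ℝ) (g : Fin n → ℝ) (m : ℕ) :
    D.xi ((D.stp κ h)^[m] g) = D.xi g * (1 + κ * h) ^ m := by
  induction m with
  | zero => simp
  | succ m ih => rw [Function.iterate_succ_apply', D.xi_stp, ih]; ring

theorem f3_zz {G : Carnot n} (D : Cal G) (κ h : ℝ) (g : Fin n → ℝ) (m : ℕ) :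
    D.zz ((D.stp κ h)^[m] g) = D.zz g := by
  induction m with
  | zero => simp
  | succ m ih => rw [Function.iterate_succ_apply', D.zz_stp, ih]

theorem Cal.yy_flw {G : Carnot n} (D : Cal G) (κ : ℝ) {J : ℕ} (hJ : 1 ≤ J) (g : Fin n → ℝ) :
    D.yy (D.flw κ J g) = D.yy g + 1 := by
  have hJ0 : (J : ℝ) ≠ 0 := by positivity
  unfold Cal.flw
  rw [f3_yy]
  field_simp

theorem Cal.xi_flw {G : Carnot n} (D : Cal G) (κ : ℝ) {J : ℕ} (hJ : 1 ≤ J) (g : Fin n → ℝ) :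
    D.xi (D.flw κ J g) = D.xi g * (1 + κ / J) ^ J := by
  unfold Cal.flw
  rw [f3_xi]
  congr 2
  ring

theorem f3_nsq_nonneg (a : Fin n → ℝ) : 0 ≤ nsq a :=
  Finset.sum_nonneg fun i _ => sq_nonneg (a i)

/-- powers of the multiplier -/
theorem f3_pow_le {κ : ℝ} (hκ : 0 ≤ κ) {J : ℕ} (hJ : 1 ≤ J) {m : ℕ} (hm : m ≤ J) :
    (1 + κ * (1 / (J : ℝ))) ^ m ≤ Real.exp κ := by
  have hJ0 : (0 : ℝ) < J := by positivity
  have h1 : 1 + κ * (1 / (J : ℝ)) ≤ Real.exp (κ * (1 / (J : ℝ))) := by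
    have := Real.add_one_le_exp (κ * (1 / (J : ℝ)))
    linarith
  have h0 : (0 : ℝ) ≤ 1 + κ * (1 / (J : ℝ)) := by positivity
  calc (1 + κ * (1 / (J : ℝ))) ^ m ≤ Real.exp (κ * (1 / (J : ℝ))) ^ m :=
        pow_le_pow_left₀ h0 h1 m
    _ = Real.exp (m * (κ * (1 / (J : ℝ)))) := by rw [← Real.exp_nat_mul]
    _ ≤ Real.exp κ := by
        apply Real.exp_le_exp.2
        have h2 : (m : ℝ) ≤ J := by exact_mod_cast hm
        calc (m : ℝ) * (κ * (1 / (J : ℝ))) = κ * ((m : ℝ) / J) := by ring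
          _ ≤ κ * 1 := by
            apply mul_le_mul_of_nonneg_left _ hκ
            rw [div_le_one hJ0]; exact h2
          _ = κ := mul_one κ

/-- one step of the estimate -/
theorem f3_step {G : Carnot n} (D : Cal G) {κ : ℝ} (hκ : 1 ≤ κ) {J : ℕ} (hJ : 1 ≤ J)
    (hJ' : κ ^ 2 * Real.exp κ ≤ J) (g : Fin n → ℝ) {m : ℕ} (hm : m < J) :
    (1 / (J : ℝ)) * (1 + κ ^ 2 * D.xi ((D.stp κ (1 / J))^[m] g) ^ 2 / 2) -
      (1 / (J : ℝ)) * (D.xi g ^ 2 / 6 + κ ^ 2 * D.C * nsq (D.zz g) / 2 +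
        κ ^ 3 * D.C * Real.exp (3 * κ) * Real.sqrt (D.xs g) ^ 3) ≤
      D.psi κ ((D.stp κ (1 / J))^[m + 1] g) - D.psi κ ((D.stp κ (1 / J))^[m] g) := by
  have hJ0 : (0 : ℝ) < J := by positivity
  have hκ0 : 0 ≤ κ := by linarith
  have hh : (0 : ℝ) ≤ 1 / (J : ℝ) := by positivity
  have hC : 0 ≤ D.C := by linarith [D.hC]
  have hN : 0 ≤ nsq (D.zz g) := f3_nsq_nonneg _
  have h := D.psi_stp (κ := κ) (h := 1 / (J : ℝ)) hκ0 hh ((D.stp κ (1 / J))^[m] g)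
  rw [Function.iterate_succ_apply', f3_zz] at *
  set h0 : ℝ := 1 / (J : ℝ) with hh0
  set ξ : ℝ := D.xi g with hξ
  set E : ℝ := Real.exp κ with hE
  have hE1 : 0 < E := Real.exp_pos κ
  have hξj : D.xi ((D.stp κ h0)^[m] g) = ξ * (1 + κ * h0) ^ m := f3_xi D κ h0 g m
  have hp : (1 + κ * h0) ^ m ≤ E := f3_pow_le hκ0 hJ hm.le
  have hp1 : (1 + κ * h0) ^ (m + 1) ≤ E := f3_pow_le hκ0 hJ hm
  have hb : 0 ≤ 1 + κ * h0 := by positivity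
  have hp0 : 0 ≤ (1 + κ * h0) ^ m := pow_nonneg hb m
  have hsq : D.xi ((D.stp κ h0)^[m] g) ^ 2 ≤ E ^ 2 * ξ ^ 2 := by
    rw [hξj, mul_pow]
    have : ((1 + κ * h0) ^ m) ^ 2 ≤ E ^ 2 := pow_le_pow_left₀ hp0 hp 2
    nlinarith [sq_nonneg ξ]
  have hkE : κ ^ 2 * h0 * E ≤ 1 := by
    rw [hh0]
    have : κ ^ 2 * (1 / (J : ℝ)) * E = κ ^ 2 * E / J := by ring
    rw [this, div_le_one hJ0]
    exact hJ'
  have hkE0 : 0 ≤ κ ^ 2 * h0 * E := by positivity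
  -- the first error
  have e1 : κ ^ 4 * h0 ^ 3 * D.xi ((D.stp κ h0)^[m] g) ^ 2 / 6 ≤ h0 * (ξ ^ 2 / 6) := by
    have a1 : κ ^ 4 * h0 ^ 3 * D.xi ((D.stp κ h0)^[m] g) ^ 2 ≤
        κ ^ 4 * h0 ^ 3 * (E ^ 2 * ξ ^ 2) :=
      mul_le_mul_of_nonneg_left hsq (by positivity)
    have a2 : κ ^ 4 * h0 ^ 3 * (E ^ 2 * ξ ^ 2) = h0 * ((κ ^ 2 * h0 * E) ^ 2 * ξ ^ 2) := by ring
    have a3 : (κ ^ 2 * h0 * E) ^ 2 ≤ 1 := by
      have := pow_le_pow_left₀ hkE0 hkE 2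
      simpa using this
    have a4 : h0 * ((κ ^ 2 * h0 * E) ^ 2 * ξ ^ 2) ≤ h0 * (1 * ξ ^ 2) :=
      mul_le_mul_of_nonneg_left (mul_le_mul_of_nonneg_right a3 (sq_nonneg ξ)) hh
    nlinarith
  -- the cubic error
  have e2 : Real.sqrt ((1 + κ * h0) ^ 2 * D.xs ((D.stp κ h0)^[m] g)) ≤ E * Real.sqrt (D.xs g) := by
    have b1 : (1 + κ * h0) ^ 2 * D.xs ((D.stp κ h0)^[m] g) ≤ E ^ 2 * D.xs g := by
      unfold Cal.xs
      rw [f3_zz, hξj, ← hξ]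
      have c1 : (1 + κ * h0) ^ 2 * ((ξ * (1 + κ * h0) ^ m) ^ 2 + nsq (D.zz g)) =
          ((1 + κ * h0) ^ (m + 1)) ^ 2 * ξ ^ 2 + (1 + κ * h0) ^ 2 * nsq (D.zz g) := by ring
      rw [c1]
      have c2 : ((1 + κ * h0) ^ (m + 1)) ^ 2 ≤ E ^ 2 := pow_le_pow_left₀ (by positivity) hp1 2
      have c3 : 1 + κ * h0 ≤ E := by
        have := f3_pow_le (κ := κ) hκ0 hJ (m := 1) hJ
        rw [pow_one] at this
        exact this
      have c4 : (1 + κ * h0) ^ 2 ≤ E ^ 2 := pow_le_pow_left₀ hb c3 2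
      nlinarith [sq_nonneg ξ, mul_le_mul_of_nonneg_right c2 (sq_nonneg ξ),
        mul_le_mul_of_nonneg_right c4 hN]
    calc Real.sqrt ((1 + κ * h0) ^ 2 * D.xs ((D.stp κ h0)^[m] g)) ≤
          Real.sqrt (E ^ 2 * D.xs g) := Real.sqrt_le_sqrt b1
      _ = E * Real.sqrt (D.xs g) := by
          rw [Real.sqrt_mul (sq_nonneg E), Real.sqrt_sq hE1.le]
  have e3 : Real.sqrt ((1 + κ * h0) ^ 2 * D.xs ((D.stp κ h0)^[m] g)) ^ 3 ≤
      Real.exp (3 * κ) * Real.sqrt (D.xs g) ^ 3 := by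
    have d1 := pow_le_pow_left₀ (Real.sqrt_nonneg _) e2 3
    have d2 : Real.exp (3 * κ) = E ^ 3 := by
      rw [hE, ← Real.exp_nat_mul]; norm_num
    rw [d2]
    calc _ ≤ (E * Real.sqrt (D.xs g)) ^ 3 := d1
      _ = _ := by ring
  have e4 : h0 * κ ^ 3 * D.C *
      Real.sqrt ((1 + κ * h0) ^ 2 * D.xs ((D.stp κ h0)^[m] g)) ^ 3 ≤
      h0 * (κ ^ 3 * D.C * Real.exp (3 * κ) * Real.sqrt (D.xs g) ^ 3) := by
    have := mul_le_mul_of_nonneg_left e3 (show 0 ≤ h0 * κ ^ 3 * D.C by positivity)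
    calc _ ≤ _ := this
      _ = _ := by ring
  have e5 : h0 * κ ^ 2 * D.C * nsq (D.zz g) / 2 = h0 * (κ ^ 2 * D.C * nsq (D.zz g) / 2) := by ring
  linarith [h, e1, e4, e5]

/-- the length and the variation of `Ψ` along the flow -/
theorem Cal.flw_len {G : Carnot n} (D : Cal G) {κ : ℝ} (hκ : 1 ≤ κ) {J : ℕ} (hJ : 1 ≤ J)
    (hJ' : κ ^ 2 * Real.exp κ ≤ J) (g : Fin n → ℝ) :
    ∃ ℓ : ℝ, cc G g (D.flw κ J g) ≤ ℓ ∧ ℓ ≤ 1 + κ ^ 2 * Real.exp (2 * κ) * D.xi g ^ 2 / 2 ∧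
      ℓ - (D.xi g ^ 2 / 6 + κ ^ 2 * D.C * nsq (D.zz g) / 2 +
        κ ^ 3 * D.C * Real.exp (3 * κ) * Real.sqrt (D.xs g) ^ 3)
        ≤ D.psi κ (D.flw κ J g) - D.psi κ g := by
  have hJ0 : (0 : ℝ) < J := by positivity
  have hκ0 : 0 ≤ κ := by linarith
  have hh : (0 : ℝ) ≤ 1 / (J : ℝ) := by positivity
  set Er : ℝ := D.xi g ^ 2 / 6 + κ ^ 2 * D.C * nsq (D.zz g) / 2 +
        κ ^ 3 * D.C * Real.exp (3 * κ) * Real.sqrt (D.xs g) ^ 3 with hEr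
  have key : ∀ m : ℕ, m ≤ J → ∃ ℓ : ℝ, cc G g ((D.stp κ (1 / J))^[m] g) ≤ ℓ ∧
      ℓ ≤ (m : ℝ) * ((1 / (J : ℝ)) * (1 + κ ^ 2 * Real.exp (2 * κ) * D.xi g ^ 2 / 2)) ∧
      ℓ - (m : ℝ) * ((1 / (J : ℝ)) * Er) ≤
        D.psi κ ((D.stp κ (1 / J))^[m] g) - D.psi κ g := by
    intro m
    induction m with
    | zero =>
      intro _
      refine ⟨0, ?_, ?_, ?_⟩
      · simp [cc_self]
      · simp
      · simp
    | succ m ih =>
      intro hm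
      obtain ⟨ℓ, h1, h2, h3⟩ := ih (by omega)
      have hstep := f3_step D hκ hJ hJ' g (m := m) (by omega)
      rw [← hEr] at hstep
      refine ⟨ℓ + (1 / (J : ℝ)) * (1 + κ ^ 2 * D.xi ((D.stp κ (1 / J))^[m] g) ^ 2 / 2),
        ?_, ?_, ?_⟩
      · rw [Function.iterate_succ_apply']
        have h4 := D.cc_stp (κ := κ) hh ((D.stp κ (1 / J))^[m] g)
        have h5 := cc_triangle G g ((D.stp κ (1 / J))^[m] g)
          (D.stp κ (1 / J) ((D.stp κ (1 / J))^[m] g))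
        linarith
      · have h6 : D.xi ((D.stp κ (1 / J))^[m] g) ^ 2 ≤ Real.exp (2 * κ) * D.xi g ^ 2 := by
          rw [f3_xi, mul_pow]
          have hp : (1 + κ * (1 / (J : ℝ))) ^ m ≤ Real.exp κ := f3_pow_le hκ0 hJ (by omega)
          have hp2 := pow_le_pow_left₀ (by positivity) hp 2
          have d2 : Real.exp (2 * κ) = Real.exp κ ^ 2 := by
            rw [← Real.exp_nat_mul]; norm_num
          rw [d2]
          nlinarith [sq_nonneg (D.xi g)]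
        have h7 : κ ^ 2 * D.xi ((D.stp κ (1 / J))^[m] g) ^ 2 ≤
            κ ^ 2 * (Real.exp (2 * κ) * D.xi g ^ 2) :=
          mul_le_mul_of_nonneg_left h6 (sq_nonneg κ)
        have h8 : (1 / (J : ℝ)) * (1 + κ ^ 2 * D.xi ((D.stp κ (1 / J))^[m] g) ^ 2 / 2) ≤
            (1 / (J : ℝ)) * (1 + κ ^ 2 * Real.exp (2 * κ) * D.xi g ^ 2 / 2) := by
          apply mul_le_mul_of_nonneg_left _ hh
          linarith
        push_cast
        linarith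
      · push_cast
        linarith
  obtain ⟨ℓ, h1, h2, h3⟩ := key J le_rfl
  have hJ1 : (J : ℝ) * (1 / (J : ℝ)) = 1 := by field_simp
  refine ⟨ℓ, h1, ?_, ?_⟩
  · rw [← mul_assoc, hJ1, one_mul] at h2
    exact h2
  · rw [← mul_assoc, hJ1, one_mul] at h3
    exact h3

end Pool.Agent.CMC
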