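import Pool.Agent.Lib_helper36.CMC.Defs
import Pool.Agent.Lib_helper36.CMC.W.G1
import Pool.Agent.Lib_helper36.CMC.W.F3
import Pool.Agent.Lib_helper36.CMC.W.D2

set_option autoImplicit false

namespace Pool.Agent.CMC

open MeasureTheory Set
open scoped ContDiff

variable {n : ℕ}

/-- the image of a point of the region under the flow -/
theorem Cal.flw_facts {G : Carnot n} (D : Cal G) {κ : ℝ} (hκ : 1 ≤ κ) {J : ℕ} (hJ : 1 ≤ J)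
    (hJ' : κ ^ 2 * Real.exp κ ≤ J) {δ ρ : ℝ} (hδ : δ ≤ 1 / 2) (hρ : 0 ≤ ρ)
    (hρ' : 8 * κ * Real.exp (3 * κ) * ρ ≤ 1) {q : Fin n → ℝ} (hq : q ∈ D.reg δ ρ) :
    D.yy (D.flw κ J q) = D.yy q + 1 ∧
    D.xi (D.flw κ J q) ^ 2 ≤ 4 * Real.exp (2 * κ) * ρ ^ 2 ∧
    cc G 0 (D.flw κ J q) - D.psi κ (D.flw κ J q) ≤ 17 * D.C * κ ^ 2 * ρ ^ 2 ∧
    D.df (D.flw κ J q) ≤ (1 + 2 * κ ^ 2 * Real.exp (2 * κ)) * ρ ^ 2 ∧
    cc G 0 (D.flw κ J q) ≤ 3 := by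
  obtain ⟨hq1, hq2⟩ := hq
  rw [abs_le] at hq1
  have hC := D.hC
  have hE1 : 1 ≤ Real.exp κ := Real.one_le_exp (by linarith)
  have hE2 : Real.exp (2 * κ) = Real.exp κ ^ 2 := by rw [← Real.exp_nat_mul]; norm_num
  have hE3 : Real.exp (3 * κ) = Real.exp κ ^ 3 := by rw [← Real.exp_nat_mul]; norm_num
  rw [hE3] at hρ'
  rw [hE2]
  set E := Real.exp κ with hE
  have hdf := D.df_nonneg q
  have hcc := cc_nonneg G 0 q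
  have hxs0 := D.xs_nonneg q
  have hE3' : 1 ≤ E ^ 3 := one_le_pow₀ hE1
  have hκE : 1 ≤ κ * E ^ 3 := by nlinarith
  have hρ8 : 8 * ρ ≤ 1 := by
    have : 8 * ρ ≤ 8 * (κ * E ^ 3) * ρ := by nlinarith
    nlinarith
  have hρ2 : ρ ^ 2 ≤ 1 / 64 := by nlinarith
  have hdef : D.df q = cc G 0 q - D.yy q := rfl
  have hc2 : cc G 0 q ≤ 2 := by linarith [hq1.2]
  have hxs : D.xs q ≤ 4 * ρ ^ 2 := by
    refine (D.xs_le q).trans ?_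
    nlinarith
  have hw : |D.w q| ≤ 12 * D.C * ρ ^ 2 := by
    refine (D.w_le q).trans ?_
    have h1 : cc G 0 q ^ 2 ≤ 4 := by nlinarith
    have h2 : cc G 0 q ^ 2 * D.df q ≤ 4 * ρ ^ 2 := by
      have := mul_le_mul h1 hq2 hdf (by norm_num)
      linarith
    calc 3 * D.C * cc G 0 q ^ 2 * D.df q = 3 * D.C * (cc G 0 q ^ 2 * D.df q) := by ring
      _ ≤ 3 * D.C * (4 * ρ ^ 2) := mul_le_mul_of_nonneg_left h2 (by linarith)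
      _ = _ := by ring
  have hxsdef : D.xs q = D.xi q ^ 2 + nsq (D.zz q) := rfl
  have hz0 : 0 ≤ nsq (D.zz q) := by
    unfold nsq
    exact Finset.sum_nonneg fun i _ => sq_nonneg _
  have hxi2 : D.xi q ^ 2 ≤ 4 * ρ ^ 2 := by linarith
  have hzz : nsq (D.zz q) ≤ 4 * ρ ^ 2 := by nlinarith [sq_nonneg (D.xi q)]
  have hyy := D.yy_flw κ hJ q
  have hxif := D.xi_flw κ hJ q
  obtain ⟨ℓ, hℓ1, hℓ2, hℓ3⟩ := D.flw_len hκ hJ hJ' q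
  rw [hE2] at hℓ2
  rw [hE3] at hℓ3
  set f := D.flw κ J q with hf
  have htri := cc_triangle G 0 q f
  have hκ2 : 1 ≤ κ ^ 2 := one_le_pow₀ hκ
  have hCκ : 1 ≤ D.C * κ ^ 2 := by nlinarith
  -- the cubic term
  have hsqrt : Real.sqrt (D.xs q) ≤ 2 * ρ := by
    rw [show (2 * ρ) = Real.sqrt ((2 * ρ) ^ 2) from (Real.sqrt_sq (by linarith)).symm]
    apply Real.sqrt_le_sqrt
    calc D.xs q ≤ 4 * ρ ^ 2 := hxs
      _ = (2 * ρ) ^ 2 := by ring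
  have hcub : κ ^ 3 * D.C * E ^ 3 * Real.sqrt (D.xs q) ^ 3 ≤ D.C * κ ^ 2 * ρ ^ 2 := by
    have h1 : Real.sqrt (D.xs q) ^ 3 ≤ (2 * ρ) ^ 3 := pow_le_pow_left₀ (Real.sqrt_nonneg _) hsqrt 3
    have h2 : κ ^ 3 * D.C * E ^ 3 * Real.sqrt (D.xs q) ^ 3 ≤ κ ^ 3 * D.C * E ^ 3 * (2 * ρ) ^ 3 :=
      mul_le_mul_of_nonneg_left h1 (by positivity)
    have h3 : κ ^ 3 * D.C * E ^ 3 * (2 * ρ) ^ 3 = (D.C * κ ^ 2 * ρ ^ 2) * (8 * κ * E ^ 3 * ρ) := by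
      ring
    have h4 : (D.C * κ ^ 2 * ρ ^ 2) * (8 * κ * E ^ 3 * ρ) ≤ (D.C * κ ^ 2 * ρ ^ 2) * 1 :=
      mul_le_mul_of_nonneg_left hρ' (by positivity)
    linarith
  have hκ2C : κ ^ 2 * D.C * nsq (D.zz q) / 2 ≤ 2 * (D.C * κ ^ 2 * ρ ^ 2) := by
    have : κ ^ 2 * D.C * nsq (D.zz q) ≤ κ ^ 2 * D.C * (4 * ρ ^ 2) :=
      mul_le_mul_of_nonneg_left hzz (by positivity)
    linarith
  have hκw : κ ^ 2 * D.w q ≤ 12 * (D.C * κ ^ 2 * ρ ^ 2) := by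
    have h1 : κ ^ 2 * D.w q ≤ κ ^ 2 * (12 * D.C * ρ ^ 2) :=
      mul_le_mul_of_nonneg_left ((le_abs_self _).trans hw) (by positivity)
    linarith
  have hpsi : D.psi κ q = κ * D.xi q ^ 2 / 2 + D.yy q - κ ^ 2 * D.w q := rfl
  have hρ2' : ρ ^ 2 ≤ D.C * κ ^ 2 * ρ ^ 2 := by nlinarith [sq_nonneg ρ]
  have hκxi : 0 ≤ κ * D.xi q ^ 2 / 2 := by positivity
  -- the deficit of the image
  have hdff : D.df f ≤ (1 + 2 * κ ^ 2 * E ^ 2) * ρ ^ 2 := by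
    have h1 : D.df f = cc G 0 f - D.yy f := rfl
    have h2 : κ ^ 2 * E ^ 2 * D.xi q ^ 2 / 2 ≤ 2 * κ ^ 2 * E ^ 2 * ρ ^ 2 := by
      have : κ ^ 2 * E ^ 2 * D.xi q ^ 2 ≤ κ ^ 2 * E ^ 2 * (4 * ρ ^ 2) :=
        mul_le_mul_of_nonneg_left hxi2 (by positivity)
      linarith
    rw [h1, hyy]
    linarith
  refine ⟨hyy, ?_, ?_, hdff, ?_⟩
  · rw [hxif, mul_pow]
    have h1 : (1 + κ / J) ^ J ≤ E := by
      have hJ0 : (0 : ℝ) < J := by exact_mod_cast hJ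
      have h2 : 1 + κ / J ≤ Real.exp (κ / J) := by
        have := Real.add_one_le_exp (κ / J)
        linarith
      have h3 : (1 + κ / J) ^ J ≤ Real.exp (κ / J) ^ J :=
        pow_le_pow_left₀ (by positivity) h2 J
      rw [← Real.exp_nat_mul] at h3
      have h4 : (J : ℝ) * (κ / J) = κ := by field_simp
      rwa [h4] at h3
    have h0 : 0 ≤ (1 + κ / J) ^ J := by positivity
    have h2 : ((1 + κ / J) ^ J) ^ 2 ≤ E ^ 2 := pow_le_pow_left₀ h0 h1 2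
    calc D.xi q ^ 2 * ((1 + κ / J) ^ J) ^ 2 ≤ (4 * ρ ^ 2) * E ^ 2 :=
          mul_le_mul hxi2 h2 (by positivity) (by positivity)
      _ = _ := by ring
  · have h1 : cc G 0 q - D.psi κ q ≤ ρ ^ 2 + 12 * (D.C * κ ^ 2 * ρ ^ 2) := by
      rw [hpsi]; linarith
    have h2 : D.xi q ^ 2 / 6 ≤ 2 / 3 * ρ ^ 2 := by linarith
    have h3 : 17 * D.C * κ ^ 2 * ρ ^ 2 = 17 * (D.C * κ ^ 2 * ρ ^ 2) := by ring
    rw [h3]
    linarith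
  · have h1 : D.df f = cc G 0 f - D.yy f := rfl
    have h2 : 2 * κ ^ 2 * E ^ 2 * ρ ^ 2 ≤ 1 / 32 := by
      have h3 : (8 * κ * E ^ 3 * ρ) ^ 2 ≤ 1 := by
        rw [sq_le_one_iff₀ (by positivity)]; exact hρ'
      have h4 : (8 * κ * E ^ 3 * ρ) ^ 2 = 64 * (κ ^ 2 * ρ ^ 2) * E ^ 6 := by ring
      have h5 : E ^ 2 ≤ E ^ 6 := pow_le_pow_right₀ hE1 (by norm_num)
      have h6 : (κ ^ 2 * ρ ^ 2) * E ^ 2 ≤ (κ ^ 2 * ρ ^ 2) * E ^ 6 :=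
        mul_le_mul_of_nonneg_left h5 (by positivity)
      nlinarith
    have h3 : (1 + 2 * κ ^ 2 * E ^ 2) * ρ ^ 2 = ρ ^ 2 + 2 * κ ^ 2 * E ^ 2 * ρ ^ 2 := by ring
    rw [h3] at hdff
    linarith [hq1.2]

end Pool.Agent.CMC
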