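import Pool.Agent.Lib_helper36.CMC.Defs
import Pool.Agent.Lib_helper36.CMC.W.R0
import Pool.Agent.Lib_helper36.CMC.W.R1

set_option autoImplicit false

namespace Pool.Agent.CMC

open MeasureTheory Set
open scoped ContDiff

variable {n : ℕ}

variable {C T : ℝ}

theorem R3_comb {σ s u v a m k : ℝ} (ha0 : 0 ≤ a) (ha4 : a ≤ 1 / 4)
    (hm : m ≤ 1 / 2) (hσ0 : 0 ≤ σ) (hone : σ ^ 2 / 2 ≤ u + a / 2 * v + a * s)
    (htwo : v ≤ u + m * σ + 3 / 2 * a + a * s) (hsσ : s ≤ σ + m) (hk1 : a ^ 2 ≤ k)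
    (hk2 : a * m ≤ k) : σ ^ 2 ≤ 4 * (1 + a / 2) * u + 16 * k := by
  have c1 : a / 2 * v ≤ a / 2 * (u + m * σ + 3 / 2 * a + a * s) :=
    mul_le_mul_of_nonneg_left htwo (by positivity)
  have c2 : a * s ≤ a * (σ + m) := mul_le_mul_of_nonneg_left hsσ ha0
  have c3 : a ^ 2 * s ≤ a ^ 2 * (σ + m) := mul_le_mul_of_nonneg_left hsσ (by positivity)
  have c4 : a * σ * a ≤ a * σ * (1 / 4) := mul_le_mul_of_nonneg_left ha4 (by positivity)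
  have c5 : a * σ * m ≤ a * σ * (1 / 2) := mul_le_mul_of_nonneg_left hm (by positivity)
  have c6 : a ^ 2 * m ≤ a ^ 2 * (1 / 2) := mul_le_mul_of_nonneg_left hm (by positivity)
  have c7 : 0 ≤ (σ / 2 - 11 / 8 * a) ^ 2 := sq_nonneg _
  have c8 : 0 ≤ k := le_trans (sq_nonneg _) hk1
  nlinarith

theorem R3_kM {κ C M a : ℝ} (hκ : 1 ≤ κ) (hC : 1 ≤ C) (hM0 : 0 ≤ M)
    (ha : a = κ ^ 2 * C * M ^ 2) (ha4 : a ≤ 1 / 4) :
    (κ * M) ^ 2 ≤ a ∧ κ * M ≤ 1 / 2 := by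
  have hκ0 : 0 < κ := by linarith
  have hC0 : 0 < C := by linarith
  have hκM0 : 0 ≤ κ * M := by positivity
  have hκMa : (κ * M) ^ 2 ≤ a := by
    have h1 : a = (κ * M) ^ 2 * C := by rw [ha]; ring
    rw [h1]
    exact le_mul_of_one_le_right (sq_nonneg _) hC
  refine ⟨hκMa, ?_⟩
  apply le_of_sq_le_sq _ (by norm_num)
  calc (κ * M) ^ 2 ≤ 1 / 4 := hκMa.trans ha4
    _ = (1 / 2) ^ 2 := by norm_num

theorem R3_Qy {κ C M dy ξ Z Q a : ℝ} (hC : 1 ≤ C)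
    (ha : a = κ ^ 2 * C * M ^ 2) (hZ : 0 ≤ Z)
    (hx : ξ ^ 2 + Z ≤ M ^ 2) (hdy1 : dy ≤ 1) (hQ1 : ξ ^ 2 ≤ Q)
    (hQ2 : Q ≤ ξ ^ 2 + C * Z) :
    κ ^ 2 / 2 * (ξ ^ 2 - Q * dy) ≤ a / 2 * (1 - dy) := by
  have hC0 : 0 < C := by linarith
  have hCx : C * (ξ ^ 2 + Z) ≤ C * M ^ 2 := mul_le_mul_of_nonneg_left hx hC0.le
  have hCξ : ξ ^ 2 ≤ C * ξ ^ 2 := le_mul_of_one_le_left (sq_nonneg _) hC
  have hQC : ξ ^ 2 + C * Z ≤ C * M ^ 2 := by linarith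
  have hCZ : 0 ≤ C * Z := by positivity
  have hQy : ξ ^ 2 - Q * dy ≤ C * M ^ 2 * (1 - dy) := by
    rcases le_total 0 dy with h | h
    · have h0 : 0 ≤ (Q - ξ ^ 2) * dy := mul_nonneg (by linarith) h
      have h1 : ξ ^ 2 - Q * dy = ξ ^ 2 * (1 - dy) - (Q - ξ ^ 2) * dy := by ring
      have h2 : ξ ^ 2 ≤ C * M ^ 2 := by linarith
      have h3 : ξ ^ 2 * (1 - dy) ≤ C * M ^ 2 * (1 - dy) :=
        mul_le_mul_of_nonneg_right h2 (by linarith)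
      linarith
    · have h0 : 0 ≤ (ξ ^ 2 + C * Z - Q) * (-dy) := mul_nonneg (by linarith) (by linarith)
      have h1 : ξ ^ 2 - Q * dy = (ξ ^ 2 + C * Z) * (1 - dy) -
          (ξ ^ 2 + C * Z - Q) * (-dy) - C * Z := by ring
      have h3 : (ξ ^ 2 + C * Z) * (1 - dy) ≤ C * M ^ 2 * (1 - dy) :=
        mul_le_mul_of_nonneg_right hQC (by linarith)
      linarith
  calc κ ^ 2 / 2 * (ξ ^ 2 - Q * dy) ≤ κ ^ 2 / 2 * (C * M ^ 2 * (1 - dy)) :=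
        mul_le_mul_of_nonneg_left hQy (by positivity)
    _ = a / 2 * (1 - dy) := by rw [ha]; ring

theorem R3_kr {κ C M ξ Z r s a : ℝ} (hC : 1 ≤ C)
    (ha : a = κ ^ 2 * C * M ^ 2)
    (hx : ξ ^ 2 + Z ≤ M ^ 2) (hs0 : 0 ≤ s)
    (hr : |r| ≤ C * (ξ ^ 2 + Z) * s) : -(a * s) ≤ κ ^ 2 * r := by
  have hC0 : 0 < C := by linarith
  have hCx : C * (ξ ^ 2 + Z) ≤ C * M ^ 2 := mul_le_mul_of_nonneg_left hx hC0.le
  have h1 : |r| ≤ C * M ^ 2 * s := hr.trans (mul_le_mul_of_nonneg_right hCx hs0)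
  have h2 : κ ^ 2 * (-r) ≤ κ ^ 2 * (C * M ^ 2 * s) :=
    mul_le_mul_of_nonneg_left ((neg_le_abs r).trans h1) (by positivity)
  have h3 : κ ^ 2 * (C * M ^ 2 * s) = a * s := by rw [ha]; ring
  linarith

theorem R3_two {κ C M dy ξ dξ Zd Z Q σ a : ℝ} (hκ : 1 ≤ κ) (hC : 1 ≤ C) (hM0 : 0 ≤ M)
    (ha : a = κ ^ 2 * C * M ^ 2) (hZd : 0 ≤ Zd) (hZ : 0 ≤ Z)
    (hx : ξ ^ 2 + Z ≤ M ^ 2) (hdy2 : -1 ≤ dy) (hQ1 : ξ ^ 2 ≤ Q)
    (hQ2 : Q ≤ ξ ^ 2 + C * Z) (hσ0 : 0 ≤ σ)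
    (hσ : σ ^ 2 = (dξ - κ * ξ) ^ 2 + Zd) :
    κ * ξ * (dξ - κ * ξ) ≤ κ * M * σ ∧ κ ^ 2 * ξ ^ 2 ≤ κ ^ 2 * M ^ 2 ∧ κ ^ 2 * ξ ^ 2 ≤ a ∧
      -(κ ^ 2 / 2 * Q * dy) ≤ a / 2 := by
  have hκ0 : 0 < κ := by linarith
  have hC0 : 0 < C := by linarith
  have hκ2 : 0 < κ ^ 2 := by positivity
  have hξM : |ξ| ≤ M := by
    apply abs_le_of_sq_le_sq _ hM0
    linarith
  have hvσ : |dξ - κ * ξ| ≤ σ := by
    apply abs_le_of_sq_le_sq _ hσ0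
    linarith
  have hξ2 : ξ ^ 2 ≤ M ^ 2 := by linarith
  have h3 : κ ^ 2 * ξ ^ 2 ≤ κ ^ 2 * M ^ 2 := mul_le_mul_of_nonneg_left hξ2 hκ2.le
  have h5 : κ ^ 2 * M ^ 2 ≤ a := by
    have h1 : a = κ ^ 2 * M ^ 2 * C := by rw [ha]; ring
    rw [h1]
    exact le_mul_of_one_le_right (by positivity) hC
  have hCx : C * (ξ ^ 2 + Z) ≤ C * M ^ 2 := mul_le_mul_of_nonneg_left hx hC0.le
  have hCξ : ξ ^ 2 ≤ C * ξ ^ 2 := le_mul_of_one_le_left (sq_nonneg _) hC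
  have hQC : ξ ^ 2 + C * Z ≤ C * M ^ 2 := by linarith
  have hQ0 : 0 ≤ Q := le_trans (sq_nonneg _) hQ1
  refine ⟨?_, h3, h3.trans h5, ?_⟩
  · have h1 : κ * ξ * (dξ - κ * ξ) ≤ |κ * ξ * (dξ - κ * ξ)| := le_abs_self _
    rw [abs_mul, abs_mul, abs_of_pos hκ0] at h1
    have h2 : κ * |ξ| * |dξ - κ * ξ| ≤ κ * M * σ := by
      apply mul_le_mul _ hvσ (abs_nonneg _) (by positivity)
      exact mul_le_mul_of_nonneg_left hξM hκ0.le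
    linarith
  · have h1 : 0 ≤ κ ^ 2 / 2 * Q * (1 + dy) :=
      mul_nonneg (by positivity) (by linarith)
    have h2 : κ ^ 2 / 2 * Q * (1 + dy) = κ ^ 2 / 2 * Q + κ ^ 2 / 2 * Q * dy := by ring
    have h4 : Q ≤ C * M ^ 2 := by linarith
    have h6 : κ ^ 2 / 2 * Q ≤ κ ^ 2 / 2 * (C * M ^ 2) :=
      mul_le_mul_of_nonneg_left h4 (by positivity)
    have h7 : κ ^ 2 / 2 * (C * M ^ 2) = a / 2 := by rw [ha]; ring
    linarith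

theorem R3_alg {κ C M dy ξ dξ Zd Z Q r dw s σ a : ℝ} (hκ : 1 ≤ κ) (hC : 1 ≤ C) (hM0 : 0 ≤ M)
    (hM1 : M ≤ 1) (ha : a = κ ^ 2 * C * M ^ 2) (ha4 : a ≤ 1 / 4) (hZd : 0 ≤ Zd) (hZ : 0 ≤ Z)
    (hx : ξ ^ 2 + Z ≤ M ^ 2) (hsub : dy ^ 2 + dξ ^ 2 + Zd ≤ 1) (hQ1 : ξ ^ 2 ≤ Q)
    (hQ2 : Q ≤ ξ ^ 2 + C * Z) (hs0 : 0 ≤ s) (hs : s ^ 2 = dξ ^ 2 + Zd) (hσ0 : 0 ≤ σ)
    (hσ : σ ^ 2 = (dξ - κ * ξ) ^ 2 + Zd)
    (hr : |r| ≤ C * (ξ ^ 2 + Z) * s) (hw : dw = Q / 2 * dy + r) :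
    σ ^ 2 ≤ 4 * (1 + a / 2) * (1 - (κ * (ξ * dξ) + dy - κ ^ 2 * dw)) +
      16 * (κ ^ 4 * C ^ 2 * M ^ 3) := by
  have hκ0 : 0 < κ := by linarith
  have hC0 : 0 < C := by linarith
  have ha0 : 0 ≤ a := by rw [ha]; positivity
  have hκM0 : 0 ≤ κ * M := by positivity
  obtain ⟨-, hκM⟩ := R3_kM hκ hC hM0 ha ha4
  have hdy : dy ^ 2 ≤ 1 := by linarith [sq_nonneg dξ]
  have hdya : |dy| ≤ 1 := by
    apply abs_le_of_sq_le_sq _ (by norm_num)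
    linarith
  obtain ⟨hdy2, hdy1⟩ := abs_le.1 hdya
  have hQy2 := R3_Qy (κ := κ) hC ha hZ hx hdy1 hQ1 hQ2
  have hr2 := R3_kr hC ha hx hs0 hr
  obtain ⟨hξv, hξκM, hξκ, hQd⟩ := R3_two hκ hC hM0 ha hZd hZ hx hdy2 hQ1 hQ2 hσ0 hσ
  set u := 1 - (κ * (ξ * dξ) + dy - κ ^ 2 * dw) with hu
  have hu1 : u = (1 - dy) - κ * ξ * dξ + κ ^ 2 / 2 * Q * dy + κ ^ 2 * r := by
    rw [hu, hw]; ring
  have hs1 : s ^ 2 / 2 ≤ 1 - dy := by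
    have h1 : 0 ≤ (1 - dy) ^ 2 := sq_nonneg _
    have h2 : (1 - dy) ^ 2 = 1 - 2 * dy + dy ^ 2 := by ring
    linarith
  have hone : σ ^ 2 / 2 ≤ u + a / 2 * (1 - dy) + a * s := by
    have e1 : σ ^ 2 / 2 = s ^ 2 / 2 - κ * ξ * dξ + κ ^ 2 * ξ ^ 2 / 2 := by
      rw [hs, hσ]; ring
    have e2 : κ ^ 2 / 2 * (ξ ^ 2 - Q * dy) = κ ^ 2 * ξ ^ 2 / 2 - κ ^ 2 / 2 * Q * dy := by ring
    rw [e2] at hQy2
    rw [e1, hu1]
    linarith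
  have htwo : 1 - dy ≤ u + κ * M * σ + 3 / 2 * a + a * s := by
    have e1 : κ * ξ * dξ = κ * ξ * (dξ - κ * ξ) + κ ^ 2 * ξ ^ 2 := by ring
    rw [hu1]
    linarith
  have hsσ : s ≤ σ + κ * M := by
    apply le_of_sq_le_sq _ (by positivity)
    have e1 : s ^ 2 = σ ^ 2 + 2 * (κ * ξ * (dξ - κ * ξ)) + κ ^ 2 * ξ ^ 2 := by
      rw [hs, hσ]; ring
    have e2 : (σ + κ * M) ^ 2 = σ ^ 2 + 2 * (κ * M * σ) + κ ^ 2 * M ^ 2 := by ring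
    linarith
  have hk1 : a ^ 2 ≤ κ ^ 4 * C ^ 2 * M ^ 3 := by
    have h1 : a ^ 2 = κ ^ 4 * C ^ 2 * M ^ 3 * M := by rw [ha]; ring
    rw [h1]
    exact mul_le_of_le_one_right (by positivity) hM1
  have hk2 : a * (κ * M) ≤ κ ^ 4 * C ^ 2 * M ^ 3 := by
    have h1 : κ ^ 4 * C ^ 2 * M ^ 3 = a * (κ * M) * (κ * C) := by rw [ha]; ring
    rw [h1]
    exact le_mul_of_one_le_right (by positivity) (one_le_mul_of_one_le_of_one_le hκ hC)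
  exact R3_comb ha0 ha4 hκM hσ0 hone htwo hsσ hk1 hk2

theorem Prof.calib (P : Prof n C T) {κ M : ℝ} (hκ : 1 ≤ κ) (hM0 : 0 ≤ M) (hM1 : M ≤ 1)
    (hκM : κ ^ 2 * C * M ^ 2 ≤ 1 / 4) (hx : ∀ t ∈ Icc 0 T, P.xx t ≤ M ^ 2) :
    P.en κ ≤ 5 * (T - (P.ps κ T - P.ps κ 0)) + 20 * (κ ^ 4 * C ^ 2 * M ^ 3) * T := by
  have hC := P.hC
  have hT0 := P.hT
  have h0 : (0 : ℝ) ∈ Icc 0 T := ⟨le_rfl, P.hT⟩
  have hT : T ∈ Icc 0 T := ⟨P.hT, le_rfl⟩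
  set a := κ ^ 2 * C * M ^ 2 with ha
  have ha0 : 0 ≤ a := by
    have : 0 ≤ C := by linarith
    rw [ha]; positivity
  set k := κ ^ 4 * C ^ 2 * M ^ 3 with hk
  have hk0 : 0 ≤ k := by rw [hk]; positivity
  have hen0 : 0 ≤ P.en κ := P.en_nonneg κ
  -- the pointwise bound
  have hpt : ∀ᵐ t : ℝ, t ∈ Icc 0 T →
      (deriv P.ξ t - κ * P.ξ t) ^ 2 + ∑ i, deriv (P.z i) t ^ 2 ≤
        4 * (1 + a / 2) * (1 - (κ * (P.ξ t * deriv P.ξ t) + deriv P.y t -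
          κ ^ 2 * deriv P.w t)) + 16 * k := by
    filter_upwards [P.sub, P.wr] with t h1 h2 ht
    obtain ⟨Q, r, hQ1, hQ2, hr, hw⟩ := h2 ht
    have hsub := h1 ht
    have hxt := hx t ht
    unfold Prof.xx at hxt
    have hZd : 0 ≤ ∑ i, deriv (P.z i) t ^ 2 := Finset.sum_nonneg fun i _ => sq_nonneg _
    have hZ : 0 ≤ ∑ i, P.z i t ^ 2 := Finset.sum_nonneg fun i _ => sq_nonneg _
    have hp : 0 ≤ (deriv P.ξ t - κ * P.ξ t) ^ 2 + ∑ i, deriv (P.z i) t ^ 2 := by positivity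
    have hq : 0 ≤ deriv P.ξ t ^ 2 + ∑ i, deriv (P.z i) t ^ 2 := by positivity
    have := R3_alg (s := Real.sqrt (deriv P.ξ t ^ 2 + ∑ i, deriv (P.z i) t ^ 2))
      (σ := Real.sqrt ((deriv P.ξ t - κ * P.ξ t) ^ 2 + ∑ i, deriv (P.z i) t ^ 2))
      hκ hC hM0 hM1 ha hκM hZd hZ hxt hsub hQ1 hQ2 (Real.sqrt_nonneg _) (Real.sq_sqrt hq)
      (Real.sqrt_nonneg _) (Real.sq_sqrt hp) hr hw
    rwa [Real.sq_sqrt hp] at this
  have i1 : IntervalIntegrable (fun t => κ * (P.ξ t * deriv P.ξ t)) volume 0 T :=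
    (P.ii_ξdξ h0 hT).const_mul κ
  have i2 := P.ii_dy h0 hT
  have i3 : IntervalIntegrable (fun t => κ ^ 2 * deriv P.w t) volume 0 T :=
    (P.ii_dw h0 hT).const_mul _
  have ic : IntervalIntegrable (fun _ : ℝ => (1 : ℝ)) volume 0 T := intervalIntegrable_const
  have i4 : IntervalIntegrable (fun t => 1 - (κ * (P.ξ t * deriv P.ξ t) + deriv P.y t -
      κ ^ 2 * deriv P.w t)) volume 0 T := ic.sub ((i1.add i2).sub i3)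
  have i5 : IntervalIntegrable (fun t => 4 * (1 + a / 2) * (1 - (κ * (P.ξ t * deriv P.ξ t) +
      deriv P.y t - κ ^ 2 * deriv P.w t)) + 16 * k) volume 0 T :=
    (i4.const_mul _).add intervalIntegrable_const
  have hle : P.en κ ≤ ∫ t in (0 : ℝ)..T, (4 * (1 + a / 2) * (1 - (κ * (P.ξ t * deriv P.ξ t) +
      deriv P.y t - κ ^ 2 * deriv P.w t)) + 16 * k) := by
    unfold Prof.en
    apply intervalIntegral.integral_mono_ae_restrict P.hT (P.ii_en h0 hT κ) i5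
    exact (ae_restrict_iff' measurableSet_Icc).2 hpt
  have hval : ∫ t in (0 : ℝ)..T, (4 * (1 + a / 2) * (1 - (κ * (P.ξ t * deriv P.ξ t) +
      deriv P.y t - κ ^ 2 * deriv P.w t)) + 16 * k) =
      4 * (1 + a / 2) * (T - (P.ps κ T - P.ps κ 0)) + 16 * k * T := by
    rw [intervalIntegral.integral_add (i4.const_mul _) intervalIntegrable_const,
      intervalIntegral.integral_const_mul, intervalIntegral.integral_sub ic ((i1.add i2).sub i3),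
      intervalIntegral.integral_sub (i1.add i2) i3, intervalIntegral.integral_add i1 i2,
      intervalIntegral.integral_const_mul, intervalIntegral.integral_const_mul,
      P.int_ξdξ h0 hT, P.int_dy h0 hT, P.int_dw h0 hT]
    simp only [intervalIntegral.integral_const, smul_eq_mul]
    unfold Prof.ps
    ring
  rw [hval] at hle
  set u := T - (P.ps κ T - P.ps κ 0) with hu
  rcases le_total 0 u with h | h
  · have h1 : a * u ≤ 1 / 4 * u := mul_le_mul_of_nonneg_right hκM h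
    have h2 : 0 ≤ k * T := by positivity
    nlinarith
  · have h1 : a * u ≤ 0 := mul_nonpos_of_nonneg_of_nonpos ha0 h
    have h2 : 0 ≤ k * T := by positivity
    nlinarith

end Pool.Agent.CMC
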