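import Pool.Agent.Lib_helper36.CMC.Defs
import Pool.Agent.Lib_helper36.CMC.W.R0
import Pool.Agent.Lib_helper36.CMC.W.R1

set_option autoImplicit false

namespace Pool.Agent.CMC

open MeasureTheory Set
open scoped ContDiff

variable {n : ℕ}

variable {C T : ℝ}

theorem Prof.R4_tail (P : Prof n C T) (κ : ℝ) {s : ℝ} (hs : s ∈ Icc 0 T) :
    ∫ τ in s..T, (deriv P.ξ τ - κ * P.ξ τ) ^ 2 ≤ P.en κ := by
  have h0 : (0 : ℝ) ∈ Icc 0 T := ⟨le_rfl, P.hT⟩
  have hT : T ∈ Icc 0 T := ⟨P.hT, le_rfl⟩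
  have h1 : ∫ τ in s..T, (deriv P.ξ τ - κ * P.ξ τ) ^ 2 ≤
      ∫ τ in s..T, ((deriv P.ξ τ - κ * P.ξ τ) ^ 2 + ∑ i, deriv (P.z i) τ ^ 2) := by
    apply intervalIntegral.integral_mono_on hs.2 (P.ii_dξ2 hs hT κ) (P.ii_en hs hT κ)
    intro x _
    have : 0 ≤ ∑ i, deriv (P.z i) x ^ 2 := Finset.sum_nonneg fun i _ => sq_nonneg _
    linarith
  have h2 := intervalIntegral.integral_add_adjacent_intervals (P.ii_en h0 hs κ) (P.ii_en hs hT κ)
  have h3 : 0 ≤ ∫ τ in (0 : ℝ)..s,
      ((deriv P.ξ τ - κ * P.ξ τ) ^ 2 + ∑ i, deriv (P.z i) τ ^ 2) := by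
    apply intervalIntegral.integral_nonneg hs.1
    intro x _
    have : 0 ≤ ∑ i, deriv (P.z i) x ^ 2 := Finset.sum_nonneg fun i _ => sq_nonneg _
    positivity
  unfold Prof.en
  linarith

theorem Prof.hyper (P : Prof n C T) {κ : ℝ} (hκ : 0 < κ) {s : ℝ} (hs : s ∈ Icc 0 T) :
    P.ξ s ^ 2 ≤ 2 * Real.exp (-(2 * κ * (T - s))) * P.ξ T ^ 2 + P.en κ / κ := by
  have hT : T ∈ Icc 0 T := ⟨P.hT, le_rfl⟩
  have hV := P.R4_tail κ hs
  set V := ∫ τ in s..T, (deriv P.ξ τ - κ * P.ξ τ) ^ 2 with hVdef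
  set e : ℝ → ℝ := fun τ => Real.exp (-(κ * (τ - s))) with he
  have hed : ∀ τ, HasDerivAt e (-κ * e τ) τ := by
    intro τ
    have h1 : HasDerivAt (fun τ : ℝ => -(κ * (τ - s))) (-(κ * 1)) τ :=
      (((hasDerivAt_id τ).sub_const s).const_mul κ).neg
    have h2 := h1.exp
    convert h2 using 1
    simp only [he]
    ring
  have hec : Continuous e := by
    simp only [he]
    fun_prop
  have hcd : ContDiff ℝ 1 e := by
    simp only [he]
    fun_prop
  have hace : AbsolutelyContinuousOnInterval e s T :=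
    ContDiffOn.absolutelyContinuousOnInterval hcd.contDiffOn
  have hacx : AbsolutelyContinuousOnInterval P.ξ s T := by
    apply P.acξ.mono
    rw [uIcc_of_le hs.2, uIcc_of_le P.hT]
    exact Icc_subset_Icc_left hs.1
  have hI := AbsolutelyContinuousOnInterval.integral_deriv_mul_eq_sub hace hacx
  have hI2 : ∫ x in s..T, deriv e x * P.ξ x + e x * deriv P.ξ x =
      ∫ x in s..T, e x * (deriv P.ξ x - κ * P.ξ x) := by
    apply intervalIntegral.integral_congr
    intro x _
    simp only [(hed x).deriv]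
    ring
  set I := ∫ x in s..T, e x * (deriv P.ξ x - κ * P.ξ x) with hIdef
  have hes : e s = 1 := by simp [he]
  have heq : P.ξ s = e T * P.ξ T - I := by
    rw [hI2, hes] at hI
    linarith
  -- the integral of `e²`
  have hE : ∫ x in s..T, e x ^ 2 = (1 - Real.exp (-(2 * κ * (T - s)))) / (2 * κ) := by
    have hF : ∀ x ∈ uIcc s T, HasDerivAt (fun x => -(e x ^ 2) / (2 * κ)) (e x ^ 2) x := by
      intro x _
      have h1 := (((hed x).pow 2).neg).div_const (2 * κ)
      refine h1.congr_deriv ?_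
      rw [div_eq_iff (by positivity)]
      simp
      ring
    rw [intervalIntegral.integral_eq_sub_of_hasDerivAt hF
      ((hec.pow 2).intervalIntegrable s T), hes]
    have : e T ^ 2 = Real.exp (-(2 * κ * (T - s))) := by
      simp only [he, ← Real.exp_nat_mul]
      congr 1
      push_cast
      ring
    rw [this]
    ring
  have hElt : ∫ x in s..T, e x ^ 2 ≤ 1 / (2 * κ) := by
    rw [hE]
    apply div_le_div_of_nonneg_right _ (by positivity)
    have := Real.exp_pos (-(2 * κ * (T - s)))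
    linarith
  -- integrability
  have hiv : IntervalIntegrable (fun x => deriv P.ξ x - κ * P.ξ x) volume s T := by
    apply (P.ii_dξ hs hT).sub
    apply ContinuousOn.intervalIntegrable
    rw [uIcc_of_le hs.2]
    exact continuousOn_const.mul (P.contOn_ξ.mono (Icc_subset_Icc_left hs.1))
  have hiev : IntervalIntegrable (fun x => e x * (deriv P.ξ x - κ * P.ξ x)) volume s T :=
    hiv.continuousOn_mul hec.continuousOn
  have hie : IntervalIntegrable (fun x => e x ^ 2) volume s T :=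
    (hec.pow 2).intervalIntegrable s T
  have hiv2 := P.ii_dξ2 hs hT κ
  have hCS : ∀ l : ℝ, 0 ≤ V - 2 * l * I + l ^ 2 * ∫ x in s..T, e x ^ 2 := by
    intro l
    have h1 : 0 ≤ ∫ x in s..T, ((deriv P.ξ x - κ * P.ξ x) - l * e x) ^ 2 :=
      intervalIntegral.integral_nonneg hs.2 fun x _ => sq_nonneg _
    have h2 : ∫ x in s..T, ((deriv P.ξ x - κ * P.ξ x) - l * e x) ^ 2 =
        ∫ x in s..T, ((deriv P.ξ x - κ * P.ξ x) ^ 2 -
          2 * l * (e x * (deriv P.ξ x - κ * P.ξ x)) + l ^ 2 * e x ^ 2) := by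
      apply intervalIntegral.integral_congr
      intro x _
      simp only
      ring
    rw [h2, intervalIntegral.integral_add (hiv2.sub (hiev.const_mul _)) (hie.const_mul _),
      intervalIntegral.integral_sub hiv2 (hiev.const_mul _),
      intervalIntegral.integral_const_mul, intervalIntegral.integral_const_mul] at h1
    exact h1
  have hIV : 2 * κ * I ^ 2 ≤ V := by
    have h1 := hCS (2 * κ * I)
    have h2 : (2 * κ * I) ^ 2 * ∫ x in s..T, e x ^ 2 ≤ (2 * κ * I) ^ 2 * (1 / (2 * κ)) :=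
      mul_le_mul_of_nonneg_left hElt (sq_nonneg _)
    have h3 : (2 * κ * I) ^ 2 * (1 / (2 * κ)) = 2 * κ * I ^ 2 := by
      field_simp
    rw [h3] at h2
    linarith
  have hIV2 : 2 * I ^ 2 ≤ P.en κ / κ := by
    rw [le_div_iff₀ hκ]
    linarith
  have heT : e T ^ 2 = Real.exp (-(2 * κ * (T - s))) := by
    simp only [he, ← Real.exp_nat_mul]
    congr 1
    push_cast
    ring
  rw [heq]
  have h4 : (e T * P.ξ T - I) ^ 2 ≤ 2 * (e T ^ 2) * P.ξ T ^ 2 + 2 * I ^ 2 := by
    nlinarith [sq_nonneg (e T * P.ξ T + I)]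
  rw [heT] at h4
  linarith

end Pool.Agent.CMC
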