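import Pool.Agent.Lib_helper36.CMC.Defs
import Pool.Agent.Lib_helper36.CMC.W.R0
import Pool.Agent.Lib_helper36.CMC.W.R1
import Pool.Agent.Lib_helper36.CMC.W.R2
import Pool.Agent.Lib_helper36.CMC.W.R3
import Pool.Agent.Lib_helper36.CMC.W.R4
import Pool.Agent.Lib_helper36.CMC.W.R5

set_option autoImplicit false

namespace Pool.Agent.CMC

open MeasureTheory Set
open scoped ContDiff

variable {n : ℕ}

/-- the two halves of a nearly minimizing curve -/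
theorem Prof.two {C T₁ T₂ : ℝ} (P : Prof n C T₁) (P' : Prof n C T₂) (hT₁ : T₁ ≤ 2) (hT₂ : T₂ ≤ 2)
    (hξ0 : P.ξ 0 = 0) (hz0 : ∀ i, P.z i 0 = 0) (hy0 : P.y 0 = 0) (hw0 : P.w 0 = 0)
    (hξ : P.ξ T₁ = P'.ξ 0) (hz : ∀ i, P.z i T₁ = P'.z i 0) (hy : P.y T₁ = P'.y 0)
    (hw : P.w T₁ = P'.w 0)
    {κ M ν : ℝ} (hκ : 1 ≤ κ) (hM0 : 0 ≤ M) (hM1 : M ≤ 1) (hκM : κ ^ 2 * C * M ^ 2 ≤ 1 / 4)
    (hμ : 16 * (T₁ + T₂ - P'.y T₂) ≤ M ^ 2) (hν0 : 0 ≤ ν) (hν : T₁ + T₂ - P'.ps κ T₂ ≤ ν) :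
    T₁ - P.y T₁ ≤ 13 * C * κ ^ 2 * Real.exp (-(2 * κ * T₂)) * P'.ξ T₂ ^ 2 +
      81 * C * κ ^ 2 * ν + 1288 * C * κ ^ 2 * (κ ^ 4 * C ^ 2 * M ^ 3) := by
  have hC := P.hC
  have hT₁0 := P.hT
  have hT₂0 := P'.hT
  have h0 : (0 : ℝ) ∈ Icc 0 T₁ := ⟨le_rfl, P.hT⟩
  have h1 : T₁ ∈ Icc 0 T₁ := ⟨P.hT, le_rfl⟩
  have h0' : (0 : ℝ) ∈ Icc 0 T₂ := ⟨le_rfl, P'.hT⟩
  have h1' : T₂ ∈ Icc 0 T₂ := ⟨P'.hT, le_rfl⟩
  have e0 := P.en_nonneg 0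
  have e0' := P'.en_nonneg 0
  have z0 := P.en_zero_le
  have z0' := P'.en_zero_le
  rw [hy0, sub_zero] at z0
  rw [← hy] at z0'
  -- the defects of the two halves
  have l1 : P.y T₁ ≤ T₁ := by
    have h := P.y_lip h0 h1
    rw [hy0, sub_zero, sub_zero, abs_of_nonneg hT₁0] at h
    exact (le_abs_self _).trans h
  have l2 : P'.y T₂ - P.y T₁ ≤ T₂ := by
    have h := P'.y_lip h0' h1'
    rw [sub_zero, abs_of_nonneg hT₂0, ← hy] at h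
    exact (le_abs_self _).trans h
  obtain ⟨μ, hμdef⟩ : ∃ μ : ℝ, μ = T₁ + T₂ - P'.y T₂ := ⟨_, rfl⟩
  rw [← hμdef] at hμ
  have m1 : T₁ - P.y T₁ ≤ μ := by linarith
  have m2 : T₂ - (P'.y T₂ - P.y T₁) ≤ μ := by linarith
  have n1 : T₁ * P.en 0 ≤ 4 * μ := by
    have h := mul_le_mul_of_nonneg_right hT₁ e0
    linarith
  have n2 : T₂ * P'.en 0 ≤ 4 * μ := by
    have h := mul_le_mul_of_nonneg_right hT₂ e0'
    linarith
  have hμ0 : 0 ≤ μ := by linarith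
  -- the bounds for `|x|²`
  have x1 : ∀ t ∈ Icc 0 T₁, P.xx t ≤ 4 * μ := by
    intro t ht
    have h := P.sq_le_en h0 ht
    simp only [hξ0, hz0, sub_zero] at h
    exact h.trans n1
  have x2 : ∀ t ∈ Icc 0 T₂, P'.xx t ≤ 16 * μ := by
    intro t ht
    have h := (P'.sq_le_en h0' ht).trans n2
    have h2 := x1 T₁ h1
    unfold Prof.xx at h2 ⊢
    rw [hξ] at h2
    simp only [hz] at h2
    have h3 : P'.ξ t ^ 2 ≤ 2 * P'.ξ 0 ^ 2 + 2 * (P'.ξ t - P'.ξ 0) ^ 2 := by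
      nlinarith [sq_nonneg (P'.ξ t - 2 * P'.ξ 0)]
    have h4 : ∑ i, P'.z i t ^ 2 ≤ 2 * ∑ i, P'.z i 0 ^ 2 + 2 * ∑ i, (P'.z i t - P'.z i 0) ^ 2 := by
      rw [Finset.mul_sum, Finset.mul_sum, ← Finset.sum_add_distrib]
      apply Finset.sum_le_sum
      intro i _
      nlinarith [sq_nonneg (P'.z i t - 2 * P'.z i 0)]
    linarith
  obtain ⟨k, hk⟩ : ∃ k : ℝ, k = κ ^ 4 * C ^ 2 * M ^ 3 := ⟨_, rfl⟩
  have hk0 : 0 ≤ k := by rw [hk]; positivity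
  have c1 := P.calib hκ hM0 hM1 hκM fun t ht => (x1 t ht).trans (by linarith)
  have c2 := P'.calib hκ hM0 hM1 hκM fun t ht => (x2 t ht).trans (by linarith)
  rw [← hk] at c1 c2 ⊢
  have p0 : P.ps κ 0 = 0 := by
    unfold Prof.ps
    rw [hξ0, hy0, hw0]
    ring
  have p1 : P'.ps κ 0 = P.ps κ T₁ := by
    unfold Prof.ps
    rw [← hξ, ← hy, ← hw]
  rw [p0, sub_zero] at c1
  rw [p1] at c2
  have en1 := P.en_nonneg κ
  have en2 := P'.en_nonneg κ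
  obtain ⟨a, ha⟩ : ∃ a : ℝ, a = T₁ - P.ps κ T₁ := ⟨_, rfl⟩
  obtain ⟨b, hb⟩ : ∃ b : ℝ, b = T₂ - (P'.ps κ T₂ - P.ps κ T₁) := ⟨_, rfl⟩
  rw [← ha] at c1
  rw [← hb] at c2
  have hab : a + b ≤ ν := by rw [ha, hb]; linarith
  have kT1 : k * T₁ ≤ k * 2 := mul_le_mul_of_nonneg_left hT₁ hk0
  have kT2 : k * T₂ ≤ k * 2 := mul_le_mul_of_nonneg_left hT₂ hk0
  have a1 : -(8 * k) ≤ a := by linarith
  have b1 : -(8 * k) ≤ b := by linarith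
  obtain ⟨V, hV⟩ : ∃ V : ℝ, V = 5 * ν + 80 * k := ⟨_, rfl⟩
  have v1 : P.en κ ≤ V := by rw [hV]; linarith
  have v2 : P'.en κ ≤ V := by rw [hV]; linarith
  have hV0 : 0 ≤ V := en1.trans v1
  have hκ0 : 0 < κ := by linarith
  obtain ⟨A, hA⟩ : ∃ A : ℝ, A = Real.exp (-(2 * κ * T₂)) * P'.ξ T₂ ^ 2 := ⟨_, rfl⟩
  have hA0 : 0 ≤ A := by rw [hA]; positivity
  have q1 : P.ξ T₁ ^ 2 ≤ 2 * A + V / κ := by
    have h := P'.hyper hκ0 h0'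
    rw [sub_zero, ← hξ] at h
    have h2 : P'.en κ / κ ≤ V / κ := div_le_div_of_nonneg_right v2 hκ0.le
    rw [hA]
    linarith
  have hVκ : V / κ ≤ V := div_le_self hV0 hκ
  have q2 : ∀ t ∈ Icc 0 T₁, P.xx t ≤ 4 * A + 5 * V := by
    intro t ht
    have h := P.hyper hκ0 ht
    have h2 : P.en κ / κ ≤ V / κ := div_le_div_of_nonneg_right v1 hκ0.le
    have h3 : Real.exp (-(2 * κ * (T₁ - t))) ≤ 1 := by
      apply Real.exp_le_one_iff.2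
      have := mul_nonneg (mul_nonneg zero_le_two hκ0.le) (sub_nonneg.2 ht.2)
      linarith
    have h4 : Real.exp (-(2 * κ * (T₁ - t))) * P.ξ T₁ ^ 2 ≤ 1 * P.ξ T₁ ^ 2 :=
      mul_le_mul_of_nonneg_right h3 (sq_nonneg _)
    have h5 := P.sq_z_le_en κ h0 ht
    simp only [hz0, sub_zero] at h5
    have h6 : T₁ * P.en κ ≤ 2 * V := mul_le_mul hT₁ v1 en1 zero_le_two
    unfold Prof.xx
    linarith
  have w1 := P.w_le q2
  rw [hw0, sub_zero] at w1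
  have hB0 : 0 ≤ 4 * A + 5 * V := by positivity
  have w2 : 3 / 2 * C * T₁ * (4 * A + 5 * V) ≤ 3 * C * (4 * A + 5 * V) := by
    apply mul_le_mul_of_nonneg_right _ hB0
    have h := mul_le_mul_of_nonneg_left hT₁ (show 0 ≤ C by linarith)
    linarith
  have w3 : -(P.w T₁) ≤ 3 * C * (4 * A + 5 * V) := (neg_le_abs _).trans (w1.trans w2)
  have y1 : T₁ - P.y T₁ = a + κ * P.ξ T₁ ^ 2 / 2 - κ ^ 2 * P.w T₁ := by
    rw [ha]
    unfold Prof.ps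
    ring
  have y2 : κ * P.ξ T₁ ^ 2 ≤ 2 * κ * A + V := by
    have h := mul_le_mul_of_nonneg_left q1 hκ0.le
    have h2 : κ * (2 * A + V / κ) = 2 * κ * A + V := by
      field_simp
    linarith
  have y3 : κ ^ 2 * -(P.w T₁) ≤ κ ^ 2 * (3 * C * (4 * A + 5 * V)) :=
    mul_le_mul_of_nonneg_left w3 (sq_nonneg _)
  obtain ⟨c, hc⟩ : ∃ c : ℝ, c = C * κ ^ 2 := ⟨_, rfl⟩
  have g1 : κ ≤ c := by
    rw [hc]
    have h2 : κ * 1 ≤ κ * κ := mul_le_mul_of_nonneg_left hκ hκ0.le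
    have h3 : 1 * κ ^ 2 ≤ C * κ ^ 2 := mul_le_mul_of_nonneg_right hC (sq_nonneg κ)
    linarith [sq κ]
  have g2 : 1 ≤ c := hκ.trans g1
  have g3 : κ * A ≤ c * A := mul_le_mul_of_nonneg_right g1 hA0
  have g4 : V ≤ c * V := le_mul_of_one_le_left hV0 g2
  have g5 : ν ≤ c * ν := le_mul_of_one_le_left hν0 g2
  have g6 : k ≤ c * k := le_mul_of_one_le_left hk0 g2
  have g7 : κ ^ 2 * (3 * C * (4 * A + 5 * V)) = 12 * (c * A) + 15 * (c * V) := by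
    rw [hc]
    ring
  have g8 : c * V = 5 * (c * ν) + 80 * (c * k) := by
    rw [hV]
    ring
  have g9 : 13 * C * κ ^ 2 * Real.exp (-(2 * κ * T₂)) * P'.ξ T₂ ^ 2 = 13 * (c * A) := by
    rw [hc, hA]
    ring
  have g10 : 81 * C * κ ^ 2 * ν = 81 * (c * ν) := by
    rw [hc]
    ring
  have g11 : 1288 * C * κ ^ 2 * k = 1288 * (c * k) := by
    rw [hc]
    ring
  have g12 : 0 ≤ c * ν := by positivity
  have g13 : 0 ≤ c * k := by positivity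
  rw [g9, g10, g11, y1]
  have y4 : κ ^ 2 * -(P.w T₁) = -(κ ^ 2 * P.w T₁) := by ring
  rw [y4, g7] at y3
  have a2 : a ≤ ν + 8 * k := by linarith
  linarith

end Pool.Agent.CMC
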