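import Pool.Agent.Lib_helper36.CMC.Defs
import Pool.Agent.Lib_helper36.CMC.W.F0
import Pool.Agent.Lib_helper36.CMC.W.D2
import Pool.Agent.Lib_helper36.CMC.W.D3b
import Pool.Agent.Lib_helper36.CMC.W.R6

set_option autoImplicit false

namespace Pool.Agent.CMC

open MeasureTheory Set
open scoped ContDiff

variable {n : ℕ}

/-- a point between `0` and `q` on a nearly minimizing curve -/
theorem Cal.mid {G : Carnot n} (D : Cal G) {κ : ℝ} (hκ : 1 ≤ κ) {T₁ T₂ : ℝ} (hT₁ : 0 ≤ T₁)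
    (hT₂ : 0 ≤ T₂) (hT₁' : T₁ ≤ 2) (hT₂' : T₂ ≤ 2) {γ η : ℝ → Fin n → ℝ} (hγ : SubUnit G T₁ γ)
    (hη : SubUnit G T₂ η) {p q : Fin n → ℝ} (h0 : γ 0 = 0) (h1 : γ T₁ = p) (h2 : η 0 = p)
    (h3 : η T₂ = q) {M ν : ℝ} (hM0 : 0 ≤ M) (hM1 : M ≤ 1)
    (hκM : κ ^ 2 * D.C * M ^ 2 ≤ 1 / 4) (hμ : 16 * (T₁ + T₂ - D.yy q) ≤ M ^ 2) (hν0 : 0 ≤ ν)
    (hν : T₁ + T₂ - D.psi κ q ≤ ν) :
    T₁ - D.yy p ≤ 13 * D.C * κ ^ 2 * Real.exp (-(2 * κ * T₂)) * D.xi q ^ 2 +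
      81 * D.C * κ ^ 2 * ν + 1288 * D.C * κ ^ 2 * (κ ^ 4 * D.C ^ 2 * M ^ 3) := by
  obtain ⟨P, hy, hξ, hw, hz⟩ := exists_prof D hT₁ hγ
  obtain ⟨P', hy', hξ', hw', hz'⟩ := exists_prof D hT₂ hη
  have e0 : D.xi 0 = 0 := by simp [Cal.xi, dt]
  have e1 : D.yy 0 = 0 := by simp [Cal.yy, dt]
  have e2 : ∀ i, D.zz 0 i = 0 := by
    intro i
    simp [Cal.zz, pj, e0, e1]
  have hps : P'.ps κ T₂ = D.psi κ q := by
    unfold Prof.ps Cal.psi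
    rw [hy', hξ', hw', h3]
  have key := Prof.two P P' hT₁' hT₂' (by rw [hξ, h0, e0]) (fun i => by rw [hz, h0, e2])
    (by rw [hy, h0, e1]) (by rw [hw, h0, D.w0]) (by rw [hξ, hξ', h1, h2])
    (fun i => by rw [hz, hz', h1, h2]) (by rw [hy, hy', h1, h2]) (by rw [hw, hw', h1, h2])
    hκ hM0 hM1 hκM (by rw [hy', h3]; exact hμ) hν0 (by rw [hps]; exact hν)
  rw [hy, h1, hξ', h3] at key
  exact key

end Pool.Agent.CMC
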