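import Pool.Agent.Lib_helper36.CMC.Defs
import Pool.Agent.Lib_helper36.CMC.W.G1
import Pool.Agent.Lib_helper36.CMC.W.G2
import Pool.Agent.Lib_helper36.CMC.W.G3
import Pool.Agent.Lib_helper36.CMC.W.D2

set_option autoImplicit false

namespace Pool.Agent.CMC

open MeasureTheory Set
open scoped ContDiff

variable {n : ℕ}

theorem G4_mono {C κ E : ℝ} (hC : 1 ≤ C) (hκ : 1 ≤ κ) (hE : 1 ≤ E) {a b c : ℕ} (ha : a ≤ 2)
    (hb : b ≤ 6) (hc : c ≤ 4) : C ^ a * κ ^ b * E ^ c ≤ C ^ 2 * κ ^ 6 * E ^ 4 := by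
  have h1 : C ^ a ≤ C ^ 2 := pow_le_pow_right₀ hC ha
  have h2 : κ ^ b ≤ κ ^ 6 := pow_le_pow_right₀ hκ hb
  have h3 : E ^ c ≤ E ^ 4 := pow_le_pow_right₀ hE hc
  have p1 : 0 ≤ C ^ a := by positivity
  have p2 : 0 ≤ κ ^ b := by positivity
  have p3 : 0 ≤ E ^ c := by positivity
  exact mul_le_mul (mul_le_mul h1 h2 p2 (by positivity)) h3 p3 (by positivity)

/-- the final estimate for `T₁ - y(p)` -/
theorem G4_num {C κ E F ρ x t X : ℝ} (hC : 1 ≤ C) (hκ : 1 ≤ κ) (hE : 1 ≤ E) (hF : 1 ≤ F)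
    (hρ : 0 < ρ) (hP : 659456 * (C ^ 2 * κ ^ 6 * E ^ 4) * ρ ≤ 1) (ht : 0 ≤ t)
    (_hx : 0 ≤ x) (hx' : x ≤ 4 * E ^ 2 * ρ ^ 2) (ht' : t * E ^ 2 ≤ F ^ 2)
    (hX : X ≤ 13 * C * κ ^ 2 * t * x + 81 * C * κ ^ 2 * (18 * C * κ ^ 2 * ρ ^ 2) +
      1288 * C * κ ^ 2 * (κ ^ 4 * C ^ 2 * (8 * κ * E * ρ) ^ 3)) :
    X ≤ (40 * C * κ ^ 2 * F * ρ) ^ 2 := by
  have hCp : 0 < C := by linarith
  have hκp : 0 < κ := by linarith
  have hEp : 0 < E := by linarith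
  have a1 : 13 * C * κ ^ 2 * t * x ≤ 52 * (C * κ ^ 2) * F ^ 2 * ρ ^ 2 := by
    have h1 : 13 * C * κ ^ 2 * t * x ≤ 13 * C * κ ^ 2 * t * (4 * E ^ 2 * ρ ^ 2) := by gcongr
    have h2 : 13 * C * κ ^ 2 * t * (4 * E ^ 2 * ρ ^ 2) = 52 * (C * κ ^ 2) * (t * E ^ 2) * ρ ^ 2 := by
      ring
    have h3 : 52 * (C * κ ^ 2) * (t * E ^ 2) * ρ ^ 2 ≤ 52 * (C * κ ^ 2) * F ^ 2 * ρ ^ 2 := by
      gcongr
    linarith
  have hF2 : 1 ≤ F ^ 2 := one_le_pow₀ hF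
  have hCC : C ≤ C ^ 2 := by nlinarith
  have hκκ : κ ^ 2 ≤ κ ^ 4 := pow_le_pow_right₀ hκ (by norm_num)
  have a1' : 52 * (C * κ ^ 2) * F ^ 2 * ρ ^ 2 ≤ 52 * (C ^ 2 * κ ^ 4) * F ^ 2 * ρ ^ 2 := by
    have : C * κ ^ 2 ≤ C ^ 2 * κ ^ 4 := mul_le_mul hCC hκκ (by positivity) (by positivity)
    gcongr
  have a2 : 81 * C * κ ^ 2 * (18 * C * κ ^ 2 * ρ ^ 2) ≤ 1458 * (C ^ 2 * κ ^ 4) * F ^ 2 * ρ ^ 2 := by
    have h1 : 81 * C * κ ^ 2 * (18 * C * κ ^ 2 * ρ ^ 2) = 1458 * (C ^ 2 * κ ^ 4) * 1 * ρ ^ 2 := by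
      ring
    rw [h1]
    gcongr
  have a3 : 1288 * C * κ ^ 2 * (κ ^ 4 * C ^ 2 * (8 * κ * E * ρ) ^ 3) ≤
      1 * (C ^ 2 * κ ^ 4) * F ^ 2 * ρ ^ 2 := by
    have h1 : 1288 * C * κ ^ 2 * (κ ^ 4 * C ^ 2 * (8 * κ * E * ρ) ^ 3) =
        659456 * (C ^ 1 * κ ^ 5 * E ^ 3) * ρ * ((C ^ 2 * κ ^ 4) * ρ ^ 2) := by ring
    have h2 : C ^ 1 * κ ^ 5 * E ^ 3 ≤ C ^ 2 * κ ^ 6 * E ^ 4 :=
      G4_mono hC hκ hE (by norm_num) (by norm_num) (by norm_num)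
    have h3 : 659456 * (C ^ 1 * κ ^ 5 * E ^ 3) * ρ ≤ 1 := by
      refine le_trans ?_ hP
      gcongr
    rw [h1]
    calc 659456 * (C ^ 1 * κ ^ 5 * E ^ 3) * ρ * ((C ^ 2 * κ ^ 4) * ρ ^ 2)
        ≤ 1 * ((C ^ 2 * κ ^ 4) * ρ ^ 2) := by gcongr
      _ = 1 * (C ^ 2 * κ ^ 4) * 1 * ρ ^ 2 := by ring
      _ ≤ 1 * (C ^ 2 * κ ^ 4) * F ^ 2 * ρ ^ 2 := by gcongr
  have a4 : (40 * C * κ ^ 2 * F * ρ) ^ 2 = 1600 * ((C ^ 2 * κ ^ 4) * F ^ 2 * ρ ^ 2) := by ring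
  have a5 : 0 ≤ (C ^ 2 * κ ^ 4) * F ^ 2 * ρ ^ 2 := by positivity
  rw [a4]
  linarith

/-- the midpoints of the flowed region lie in a region of the same kind -/
theorem Cal.incl {G : Carnot n} (D : Cal G) {κ : ℝ} (hκ : 1 ≤ κ) {J : ℕ} (hJ : 1 ≤ J)
    (hJ' : κ ^ 2 * Real.exp κ ≤ J) {δ : ℝ} (hδ0 : 0 < δ) (hδ : δ ≤ 1 / 2) :
    ∃ ρ₀ : ℝ, 0 < ρ₀ ∧ ρ₀ ≤ 1 ∧ ∀ ρ : ℝ, 0 < ρ → ρ ≤ ρ₀ → ∀ q ∈ D.reg δ ρ, ∀ p : Fin n → ℝ,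
      cc G 0 p = cc G 0 (D.flw κ J q) / 2 → cc G p (D.flw κ J q) = cc G 0 (D.flw κ J q) / 2 →
      p ∈ D.reg δ (40 * D.C * κ ^ 2 * Real.exp (κ * δ / 2) * ρ) := by
  have hC : 1 ≤ D.C := D.hC
  have hE : 1 ≤ Real.exp κ := Real.one_le_exp (by linarith)
  have hE2 : Real.exp (2 * κ) = Real.exp κ ^ 2 := by
    rw [← Real.exp_nat_mul]; norm_num
  have hE3 : Real.exp (3 * κ) = Real.exp κ ^ 3 := by
    rw [← Real.exp_nat_mul]; norm_num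
  have hF : 1 ≤ Real.exp (κ * δ / 2) := Real.one_le_exp (by positivity)
  have hF2 : Real.exp (κ * δ / 2) ^ 2 = Real.exp (κ * δ) := by
    rw [← Real.exp_nat_mul]; congr 1; push_cast; ring
  have hFE : Real.exp (κ * δ / 2) ^ 2 ≤ Real.exp κ := by
    rw [hF2]; exact Real.exp_le_exp.2 (by nlinarith)
  set P : ℝ := D.C ^ 2 * κ ^ 6 * Real.exp κ ^ 4 with hPdef
  have hP1 : 1 ≤ P := by
    have h := G4_mono (a := 0) (b := 0) (c := 0) hC hκ hE (by norm_num) (by norm_num) (by norm_num)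
    simpa using h
  have hPpos : 0 < P := by linarith
  refine ⟨δ / (10000000 * P), by positivity, ?_, ?_⟩
  · rw [div_le_one (by positivity)]
    linarith
  intro ρ hρ hρ₀ q hq p hp1 hp2
  have hρP : 10000000 * P * ρ ≤ δ := by
    rw [le_div_iff₀ (by positivity)] at hρ₀
    linarith
  have hPρ0 : 0 ≤ P * ρ := by positivity
  have hρ1 : ρ ≤ P * ρ := by nlinarith
  have hk : 8 * κ * Real.exp (3 * κ) * ρ ≤ 1 := by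
    have h := G4_mono (a := 0) (b := 1) (c := 3) hC hκ hE (by norm_num) (by norm_num) (by norm_num)
    rw [← hPdef] at h
    have h2 := mul_le_mul_of_nonneg_right h hρ.le
    rw [hE3]
    have e1 : 8 * κ * Real.exp κ ^ 3 * ρ = 8 * (D.C ^ 0 * κ ^ 1 * Real.exp κ ^ 3 * ρ) := by ring
    rw [e1]
    linarith
  obtain ⟨f1, f2, f3, f4, f5⟩ := D.flw_facts hκ hJ hJ' hδ hρ.le hk hq
  set q' := D.flw κ J q with hq'
  obtain ⟨T₁, hT₁, hT₁lt, γ, hγ, g0, g1⟩ := exists_near G 0 p (show 0 < ρ ^ 2 / 2 by positivity)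
  obtain ⟨T₂, hT₂, hT₂lt, η, hη, g2, g3⟩ := exists_near G p q' (show 0 < ρ ^ 2 / 2 by positivity)
  have c1 : cc G 0 p ≤ T₁ := by
    have h := cc_le_of_subunit G hT₁ hγ
    rwa [g0, g1] at h
  have c2 : cc G p q' ≤ T₂ := by
    have h := cc_le_of_subunit G hT₂ hη
    rwa [g2, g3] at h
  have hρ2 : ρ ^ 2 ≤ 1 := by nlinarith
  have hy : |D.yy q - 1| ≤ δ := hq.1
  have hya := (abs_le.1 hy).1
  have hyb := (abs_le.1 hy).2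
  have hdf : 0 ≤ D.df q' := D.df_nonneg q'
  have hdf' : D.df q' = cc G 0 q' - D.yy q' := rfl
  have hT₂' : 1 - δ / 2 ≤ T₂ := by linarith
  have hxi : 0 ≤ D.xi q' ^ 2 := sq_nonneg _
  -- the smallness of the various terms
  have m1 : κ * Real.exp κ * ρ ≤ P * ρ := by
    have h := G4_mono (a := 0) (b := 1) (c := 1) hC hκ hE (by norm_num) (by norm_num) (by norm_num)
    have h2 := mul_le_mul_of_nonneg_right h hρ.le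
    calc κ * Real.exp κ * ρ = D.C ^ 0 * κ ^ 1 * Real.exp κ ^ 1 * ρ := by ring
      _ ≤ _ := h2
  have m2 : D.C * κ ^ 4 * Real.exp κ ^ 2 * ρ ≤ P * ρ := by
    have h := G4_mono (a := 1) (b := 4) (c := 2) hC hκ hE (by norm_num) (by norm_num) (by norm_num)
    have h2 := mul_le_mul_of_nonneg_right h hρ.le
    calc D.C * κ ^ 4 * Real.exp κ ^ 2 * ρ = D.C ^ 1 * κ ^ 4 * Real.exp κ ^ 2 * ρ := by ring
      _ ≤ _ := h2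
  have m3 : κ ^ 2 * Real.exp κ ^ 2 * ρ ≤ P * ρ := by
    have h := G4_mono (a := 0) (b := 2) (c := 2) hC hκ hE (by norm_num) (by norm_num) (by norm_num)
    have h2 := mul_le_mul_of_nonneg_right h hρ.le
    calc κ ^ 2 * Real.exp κ ^ 2 * ρ = D.C ^ 0 * κ ^ 2 * Real.exp κ ^ 2 * ρ := by ring
      _ ≤ _ := h2
  have m4 : D.C ^ 2 * κ ^ 4 * Real.exp (κ * δ / 2) ^ 2 * ρ ≤ P * ρ := by
    have h := G4_mono (a := 2) (b := 4) (c := 1) hC hκ hE (by norm_num) (by norm_num) (by norm_num)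
    have h2 := mul_le_mul_of_nonneg_right h hρ.le
    calc D.C ^ 2 * κ ^ 4 * Real.exp (κ * δ / 2) ^ 2 * ρ ≤ D.C ^ 2 * κ ^ 4 * Real.exp κ * ρ := by
          gcongr
      _ = D.C ^ 2 * κ ^ 4 * Real.exp κ ^ 1 * ρ := by ring
      _ ≤ _ := h2
  have hκE : 1 ≤ κ ^ 2 * Real.exp κ ^ 2 := by
    have h1 : 1 ≤ κ ^ 2 := one_le_pow₀ hκ
    have h2 : 1 ≤ Real.exp κ ^ 2 := one_le_pow₀ hE
    nlinarith
  have hM0 : 0 ≤ 8 * κ * Real.exp κ * ρ := by positivity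
  have hM1 : 8 * κ * Real.exp κ * ρ ≤ 1 := by
    have : 8 * κ * Real.exp κ * ρ = 8 * (κ * Real.exp κ * ρ) := by ring
    rw [this]; linarith
  have hκM : κ ^ 2 * D.C * (8 * κ * Real.exp κ * ρ) ^ 2 ≤ 1 / 4 := by
    have e : κ ^ 2 * D.C * (8 * κ * Real.exp κ * ρ) ^ 2 =
        64 * (D.C * κ ^ 4 * Real.exp κ ^ 2 * ρ) * ρ := by ring
    rw [e]
    have hs : ρ ≤ 1 := by nlinarith
    have h0 : 0 ≤ D.C * κ ^ 4 * Real.exp κ ^ 2 * ρ := by positivity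
    nlinarith
  have hμ : 16 * (T₁ + T₂ - D.yy q') ≤ (8 * κ * Real.exp κ * ρ) ^ 2 := by
    have e : (8 * κ * Real.exp κ * ρ) ^ 2 = 64 * (κ ^ 2 * Real.exp κ ^ 2) * ρ ^ 2 := by ring
    rw [e]
    rw [hE2] at f4
    have h1 : (1 + 2 * κ ^ 2 * Real.exp κ ^ 2) * ρ ^ 2 + ρ ^ 2 ≤
        4 * (κ ^ 2 * Real.exp κ ^ 2) * ρ ^ 2 := by
      have : 0 ≤ ρ ^ 2 := sq_nonneg ρ
      nlinarith
    linarith
  have hν : T₁ + T₂ - D.psi κ q' ≤ 18 * D.C * κ ^ 2 * ρ ^ 2 := by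
    have h1 : 1 ≤ D.C * κ ^ 2 := by
      have := one_le_pow₀ hκ (n := 2)
      nlinarith
    have h2 : ρ ^ 2 ≤ D.C * κ ^ 2 * ρ ^ 2 := by
      have : 0 ≤ ρ ^ 2 := sq_nonneg ρ
      nlinarith
    linarith
  have hmid := D.mid hκ hT₁ hT₂ (by linarith) (by linarith) hγ hη g0 g1 g2 g3 hM0 hM1 hκM hμ
    (by positivity) hν
  have ht : Real.exp (-(2 * κ * T₂)) * Real.exp κ ^ 2 ≤ Real.exp (κ * δ / 2) ^ 2 := by
    rw [hF2, ← hE2, ← Real.exp_add]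
    refine Real.exp_le_exp.2 ?_
    nlinarith
  rw [hE2] at f2
  have hX := G4_num hC hκ hE hF hρ (by rw [← hPdef]; linarith) (Real.exp_pos _).le hxi f2 ht hmid
  have hdp : D.df p = cc G 0 p - D.yy p := rfl
  have hdp' : D.df p ≤ (40 * D.C * κ ^ 2 * Real.exp (κ * δ / 2) * ρ) ^ 2 := by linarith
  refine ⟨?_, hdp'⟩
  have hdp0 : 0 ≤ D.df p := D.df_nonneg p
  have s1 : D.df p ≤ 1600 * (D.C ^ 2 * κ ^ 4 * Real.exp (κ * δ / 2) ^ 2 * ρ) * ρ := by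
    refine hdp'.trans (le_of_eq ?_)
    ring
  have hs : ρ ≤ 1 := by nlinarith
  have s2 : D.df p ≤ 1600 * (P * ρ) := by
    have h0 : 0 ≤ D.C ^ 2 * κ ^ 4 * Real.exp (κ * δ / 2) ^ 2 * ρ := by positivity
    nlinarith
  have s3 : D.df q' ≤ 3 * (P * ρ) := by
    rw [hE2] at f4
    have h0 : 0 ≤ κ ^ 2 * Real.exp κ ^ 2 * ρ := by positivity
    have h1 : (1 + 2 * κ ^ 2 * Real.exp κ ^ 2) * ρ ^ 2 ≤ 3 * (κ ^ 2 * Real.exp κ ^ 2 * ρ) * ρ := by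
      have : 0 ≤ ρ ^ 2 := sq_nonneg ρ
      nlinarith
    nlinarith
  rw [abs_le]
  constructor
  · linarith
  · linarith

end Pool.Agent.CMC
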