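import Pool.Agent.Lib_helper36.CMC.Defs
import Pool.Agent.Lib_helper36.CMC.W.A3

set_option autoImplicit false

namespace Pool.Agent.CMC

open MeasureTheory Set
open scoped ContDiff

variable {n : ℕ}

theorem dlL_det (wt : Fin n → ℕ) (r : ℝ) :
    LinearMap.det ((dlL wt r : (Fin n → ℝ) →L[ℝ] (Fin n → ℝ)) : (Fin n → ℝ) →ₗ[ℝ] (Fin n → ℝ)) =
      r ^ ∑ i, wt i := by
  have h : ((dlL wt r : (Fin n → ℝ) →L[ℝ] (Fin n → ℝ)) : (Fin n → ℝ) →ₗ[ℝ] (Fin n → ℝ)) =
      Matrix.toLin' (Matrix.diagonal fun i => r ^ wt i) := by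
    apply LinearMap.ext
    intro a
    funext i
    rw [Matrix.toLin'_apply, Matrix.mulVec_diagonal]
    rfl
  rw [h, LinearMap.det_toLin', Matrix.det_diagonal,
    Finset.prod_pow_eq_pow_sum]

theorem volume_dl (G : Carnot n) {r : ℝ} (hr : 0 < r) (A : Set (Fin n → ℝ)) :
    volume (dl G.wt r '' A) = ENNReal.ofReal (r ^ hd G) * volume A := by
  have h := Measure.addHaar_image_continuousLinearMap (volume : Measure (Fin n → ℝ))
    (dlL G.wt r) A
  rw [dlL_det, abs_of_pos (pow_pos hr _)] at h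
  exact h

end Pool.Agent.CMC
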