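import Pool.Agent.Lib_helper36.CMC.Defs
import Pool.Agent.Lib_helper36.CMC.W.A1
import Pool.Agent.Lib_helper36.CMC.W.A2
import Pool.Agent.Lib_helper36.CMC.W.A3
import Pool.Agent.Lib_helper36.CMC.W.D1
import Pool.Agent.Lib_helper36.CMC.W.D1b
import Pool.Agent.Lib_helper36.CMC.W.D2
import Pool.Agent.Lib_helper36.CMC.W.D2b

set_option autoImplicit false

namespace Pool.Agent.CMC

open MeasureTheory Set
open scoped ContDiff

variable {n : ℕ}

theorem d4_lip {f : ℝ → ℝ} {K : NNReal} {T t0 M : ℝ} (hf : LipschitzOnWith K f (Icc 0 T))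
    (h0 : 0 ≤ t0) (h1 : t0 ≤ T)
    (hd : ∀ᵐ t : ℝ, t ∈ Icc 0 t0 → t < t0 → ∃ d, HasDerivAt f d t ∧ |d| ≤ M) :
    |f t0 - f 0| ≤ M * t0 := by
  have hac : AbsolutelyContinuousOnInterval f 0 t0 := by
    refine LipschitzOnWith.absolutelyContinuousOnInterval (K := K) (hf.mono ?_)
    rw [uIcc_of_le h0]
    exact Icc_subset_Icc_right h1
  rw [← hac.integral_deriv_eq_sub]
  have h2 : ∀ᵐ t : ℝ, t ∈ Set.uIoc 0 t0 → ‖deriv f t‖ ≤ M := by
    have hne : ∀ᵐ t : ℝ, t ≠ t0 := by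
      rw [ae_iff]
      simp
    filter_upwards [hd, hne] with t ht hne ht0
    rw [uIoc_of_le h0] at ht0
    obtain ⟨d, hd1, hd2⟩ := ht ⟨ht0.1.le, ht0.2⟩ (lt_of_le_of_ne ht0.2 hne)
    rw [hd1.deriv]
    exact hd2
  have h3 := intervalIntegral.norm_integral_le_of_norm_le_const_ae h2
  rw [sub_zero, abs_of_nonneg h0] at h3
  exact h3

theorem d4_nsq {u : Fin n → ℝ} (h : nsq u ≤ 1) : ‖u‖ ≤ 1 := by
  rw [pi_norm_le_iff_of_nonneg zero_le_one]
  intro i
  have h1 : u i ^ 2 ≤ nsq u :=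
    Finset.single_le_sum (f := fun i => u i ^ 2) (fun _ _ => sq_nonneg _) (Finset.mem_univ i)
  rw [Real.norm_eq_abs]
  exact (sq_le_one_iff_abs_le_one (u i)).1 (by linarith)

theorem ball_small (G : Carnot n) : ∃ r : ℝ, 0 < r ∧ ∀ q, cc G 0 q < r → ‖q‖ ≤ 1 := by
  obtain ⟨C, hC⟩ := ((isCompact_closedBall (0 : Fin n → ℝ) 1).prod
    (isCompact_closedBall (0 : Fin n → ℝ) 1)).exists_bound_of_continuousOn
    (smooth_X2 G).continuous.continuousOn
  have hM0 : (0 : ℝ) < |C| + 1 := by positivity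
  refine ⟨(|C| + 1)⁻¹, by positivity, fun q hq => ?_⟩
  obtain ⟨T, hT0, hT1, γ, ⟨⟨K, hK⟩, hγ⟩, h0, h1⟩ :=
    exists_near G 0 q (ε := (|C| + 1)⁻¹ - cc G 0 q) (by linarith)
  have hT2 : T < (|C| + 1)⁻¹ := by linarith
  by_contra hno
  push Not at hno
  have hcont : ContinuousOn γ (Icc 0 T) := hK.continuousOn
  set S : Set ℝ := Icc 0 T ∩ (fun t => ‖γ t‖) ⁻¹' (Ici 1) with hS
  have hScl : IsClosed S := hcont.norm.preimage_isClosed_of_isClosed isClosed_Icc isClosed_Ici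
  have hSne : S.Nonempty := ⟨T, ⟨hT0, le_refl T⟩, by
    simp only [mem_preimage, mem_Ici]
    rw [h1]; exact hno.le⟩
  have hSbd : BddBelow S := ⟨0, fun t ht => ht.1.1⟩
  set t0 := sInf S with ht0
  have ht0S : t0 ∈ S := hScl.csInf_mem hSne hSbd
  have hlt : ∀ t, t ∈ Icc 0 t0 → t < t0 → ‖γ t‖ ≤ 1 := by
    intro t ht htt
    by_contra hc
    push Not at hc
    have : t ∈ S := ⟨⟨ht.1, ht.2.trans ht0S.1.2⟩, by
      simp only [mem_preimage, mem_Ici]; exact hc.le⟩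
    exact absurd (csInf_le hSbd this) (not_le.2 htt)
  have hbound : ‖γ t0‖ ≤ (|C| + 1) * t0 := by
    rw [pi_norm_le_iff_of_nonneg (mul_nonneg hM0.le ht0S.1.1)]
    intro i
    have hKi : LipschitzOnWith K (fun t => γ t i) (Icc 0 T) := by
      intro x hx y hy
      exact (edist_le_pi_edist (γ x) (γ y) i).trans (hK hx hy)
    have h5 := d4_lip (M := |C| + 1) hKi ht0S.1.1 ht0S.1.2 (by
      filter_upwards [hγ] with t ht ht1 ht2
      obtain ⟨u, hu, hu1, hu2⟩ := ht ⟨ht1.1, ht1.2.trans ht0S.1.2⟩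
      refine ⟨_, hasDerivAt_pi.1 hu2 i, ?_⟩
      have h6 := hC (u, γ t) ⟨by simpa using d4_nsq hu1, by simpa using hlt t ht1 ht2⟩
      have h7 := norm_le_pi_norm (X G u (γ t)) i
      rw [Real.norm_eq_abs] at h7
      have h8 := le_abs_self C
      exact h7.trans (h6.trans (by linarith)))
    rw [h0] at h5
    simpa using h5
  have h9 : (1 : ℝ) ≤ ‖γ t0‖ := ht0S.2
  have h10 : (|C| + 1) * t0 < 1 := by
    have : t0 < (|C| + 1)⁻¹ := lt_of_le_of_lt ht0S.1.2 hT2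
    calc (|C| + 1) * t0 < (|C| + 1) * (|C| + 1)⁻¹ := mul_lt_mul_of_pos_left this hM0
      _ = 1 := mul_inv_cancel₀ hM0.ne'
  linarith

theorem ball_bounded (G : Carnot n) (R : ℝ) : Bornology.IsBounded {q | cc G 0 q ≤ R} := by
  obtain ⟨r, hr, hball⟩ := ball_small G
  have hR : (0 : ℝ) < |R| + 1 := by positivity
  set c : ℝ := r / (|R| + 1) / 2 with hc
  have hc0 : 0 < c := by positivity
  have hcomp : IsCompact (dlL G.wt c⁻¹ '' Metric.closedBall (0 : Fin n → ℝ) 1) :=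
    (isCompact_closedBall _ _).image (dlL G.wt c⁻¹).continuous
  refine hcomp.isBounded.subset ?_
  intro q hq
  refine ⟨dl G.wt c q, ?_, ?_⟩
  · have h1 := cc_dl G hc0 0 q
    rw [dl_zero] at h1
    have h2 : cc G 0 (dl G.wt c q) < r := by
      rw [h1]
      have h3 : cc G 0 q ≤ |R| + 1 := by
        have : cc G 0 q ≤ R := hq
        linarith [le_abs_self R]
      have h4 : c * cc G 0 q ≤ c * (|R| + 1) := mul_le_mul_of_nonneg_left h3 hc0.le
      have h5 : c * (|R| + 1) = r / 2 := by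
        rw [hc]; field_simp
      linarith
    simpa using hball _ h2
  · rw [dlL_apply]
    exact dl_inv' G.wt hc0 q

end Pool.Agent.CMC
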