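import Pool.Agent.Lib_helper36.CMC.Defs
import Pool.Agent.Lib_helper36.CMC.W.A1
import Pool.Agent.Lib_helper36.CMC.W.A2
import Pool.Agent.Lib_helper36.CMC.W.C5

set_option autoImplicit false

namespace Pool.Agent.CMC

open MeasureTheory Set
open scoped ContDiff

variable {n : ℕ}

theorem c6_compact (G : Carnot n) (M : ℝ) :
    IsCompact {a : Fin n → ℝ | a ∈ lay G.wt 1 ∧ nsq a ≤ M ^ 2} := by
  have h1 : IsClosed {a : Fin n → ℝ | a ∈ lay G.wt 1 ∧ nsq a ≤ M ^ 2} := by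
    have h2 : IsClosed ((lay G.wt 1 : Submodule ℝ (Fin n → ℝ)) : Set (Fin n → ℝ)) :=
      Submodule.closed_of_finiteDimensional _
    have h3 : IsClosed {a : Fin n → ℝ | nsq a ≤ M ^ 2} := by
      refine isClosed_le ?_ continuous_const
      unfold nsq
      fun_prop
    exact h2.inter h3
  refine (isCompact_closedBall (0 : Fin n → ℝ) |M|).of_isClosed_subset h1 ?_
  intro a ha
  rw [mem_closedBall_zero_iff, pi_norm_le_iff_of_nonneg (abs_nonneg M)]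
  intro i
  have h4 : a i ^ 2 ≤ nsq a := by
    unfold nsq
    exact Finset.single_le_sum (f := fun j => a j ^ 2) (fun j _ => sq_nonneg _) (Finset.mem_univ i)
  rw [Real.norm_eq_abs]
  exact sq_le_sq.mp (h4.trans ha.2)

theorem c6_succ (G : Carnot n) (M : ℝ) (k : ℕ) : KK G M (k + 1) =
    (fun p : (Fin n → ℝ) × (Fin n → ℝ) => G.mul p.1 p.2) ''
      (KK G M k ×ˢ {a : Fin n → ℝ | a ∈ lay G.wt 1 ∧ nsq a ≤ M ^ 2}) := by
  ext q
  simp only [KK, mem_ofPred_eq, mem_image, mem_prod, Prod.exists]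
  constructor
  · rintro ⟨g, hg, a, ha, haM, rfl⟩
    exact ⟨g, a, ⟨hg, ha, haM⟩, rfl⟩
  · rintro ⟨g, a, ⟨hg, ha, haM⟩, rfl⟩
    exact ⟨g, hg, a, ha, haM, rfl⟩

theorem isCompact_KK (G : Carnot n) (M : ℝ) (k : ℕ) : IsCompact (KK G M k) := by
  induction k with
  | zero => exact isCompact_singleton
  | succ k ih =>
    rw [c6_succ]
    exact (ih.prod (c6_compact G M)).image G.smooth.continuous

theorem c6_mono_M (G : Carnot n) {M M' : ℝ} (hM : M ^ 2 ≤ M' ^ 2) (k : ℕ) :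
    KK G M k ⊆ KK G M' k := by
  induction k with
  | zero => exact subset_rfl
  | succ k ih =>
    rintro q ⟨g, hg, a, ha, haM, rfl⟩
    exact ⟨g, ih hg, a, ha, haM.trans hM, rfl⟩

theorem c6_mono_k (G : Carnot n) (M : ℝ) {k k' : ℕ} (h : k ≤ k') : KK G M k ⊆ KK G M k' := by
  induction k', h using Nat.le_induction with
  | base => exact subset_rfl
  | succ m _ ih =>
    intro g hg
    refine ⟨g, ih hg, 0, Submodule.zero_mem _, ?_, (G.mul_zero g).symm⟩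
    have h0 : nsq (0 : Fin n → ℝ) = 0 := by simp [nsq]
    rw [h0]
    positivity

theorem exists_KK (G : Carnot n) (g : Fin n → ℝ) : ∃ m : ℕ, g ∈ KK G m m := by
  have hg := gen_all G g
  induction hg with
  | zero => exact ⟨0, rfl⟩
  | step g a hg ha ih =>
    obtain ⟨m, hm⟩ := ih
    refine ⟨m + ⌈nsq a⌉₊ + 1, ?_⟩
    have h1 : ((m : ℕ) : ℝ) ^ 2 ≤ ((m + ⌈nsq a⌉₊ + 1 : ℕ) : ℝ) ^ 2 := by
      refine pow_le_pow_left₀ (Nat.cast_nonneg m) ?_ 2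
      exact_mod_cast (by omega : m ≤ m + ⌈nsq a⌉₊ + 1)
    have h2 := c6_mono_k G ((m + ⌈nsq a⌉₊ + 1 : ℕ) : ℝ) (by omega : m ≤ m + ⌈nsq a⌉₊)
      (c6_mono_M G h1 m hm)
    refine ⟨g, h2, a, ha, ?_, rfl⟩
    have h3 : nsq a ≤ ((m + ⌈nsq a⌉₊ + 1 : ℕ) : ℝ) := by
      refine (Nat.le_ceil _).trans ?_
      exact_mod_cast (by omega : ⌈nsq a⌉₊ ≤ m + ⌈nsq a⌉₊ + 1)
    have h4 : (1 : ℝ) ≤ ((m + ⌈nsq a⌉₊ + 1 : ℕ) : ℝ) := by
      exact_mod_cast (by omega : 1 ≤ m + ⌈nsq a⌉₊ + 1)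
    nlinarith

end Pool.Agent.CMC
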