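import Pool.Agent.Lib_helper36.CMC.Defs
import Pool.Agent.Lib_helper36.CMC.W.A1
import Pool.Agent.Lib_helper36.CMC.W.A2
import Pool.Agent.Lib_helper36.CMC.W.A3
import Pool.Agent.Lib_helper36.CMC.W.C6
import Pool.Agent.Lib_helper36.CMC.W.D2
import Pool.Agent.Lib_helper36.CMC.W.D2b

set_option autoImplicit false

namespace Pool.Agent.CMC

open MeasureTheory Set
open scoped ContDiff

variable {n : ℕ}

theorem cc_KK (G : Carnot n) {M : ℝ} (hM : 0 ≤ M) (k : ℕ) {q : Fin n → ℝ} (hq : q ∈ KK G M k) :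
    cc G 0 q ≤ k * M := by
  induction k generalizing q with
  | zero =>
    have h : q = 0 := hq
    rw [h, cc_self]
    simp
  | succ k ih =>
    obtain ⟨g, hg, a, ha, hn, rfl⟩ := hq
    have h1 := cc_triangle G 0 g (G.mul g a)
    have h2 := cc_seg G g ha
    have h3 : Real.sqrt (nsq a) ≤ M := Real.sqrt_le_iff.2 ⟨hM, hn⟩
    have h4 := ih hg
    push_cast
    linarith

theorem D5_ball (G : Carnot n) : ∃ R : ℝ, 0 ≤ R ∧ {q | cc G 0 q ≤ R} ∈ nhds (0 : Fin n → ℝ) := by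
  have hU : (⋃ m : ℕ, KK G (m : ℝ) m) = univ := by
    ext g
    simp only [mem_iUnion, mem_univ, iff_true]
    exact exists_KK G g
  obtain ⟨m, p, hp⟩ := nonempty_interior_of_iUnion_of_closed
    (fun m : ℕ => (isCompact_KK G (m : ℝ) m).isClosed) hU
  refine ⟨(m : ℝ) * m + m * m, by positivity, ?_⟩
  have hc : ContinuousAt (G.mul p) 0 := (smooth_right G p).continuous.continuousAt
  have hn : interior (KK G (m : ℝ) m) ∈ nhds (G.mul p 0) := by
    rw [G.mul_zero]
    exact isOpen_interior.mem_nhds hp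
  refine Filter.mem_of_superset (hc hn) ?_
  intro q hq
  have h1 : G.mul p q ∈ KK G (m : ℝ) m := interior_subset hq
  have h2 := cc_KK G (Nat.cast_nonneg m) m h1
  have h3 := cc_KK G (Nat.cast_nonneg m) m (interior_subset hp)
  have h4 := cc_left G p 0 q
  rw [G.mul_zero] at h4
  have h5 := cc_triangle G p 0 (G.mul p q)
  rw [cc_symm G p 0] at h5
  show cc G 0 q ≤ _
  linarith

theorem ball_nhds (G : Carnot n) {r : ℝ} (hr : 0 < r) : {q | cc G 0 q < r} ∈ nhds (0 : Fin n → ℝ) := by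
  obtain ⟨R, hR, hN⟩ := D5_ball G
  have hs : 0 < r / (R + 1) := by positivity
  have hc : ContinuousAt (dlL G.wt (r / (R + 1))⁻¹) 0 :=
    (dlL G.wt (r / (R + 1))⁻¹).continuous.continuousAt
  have hn : {q | cc G 0 q ≤ R} ∈ nhds (dlL G.wt (r / (R + 1))⁻¹ 0) := by
    rw [map_zero]
    exact hN
  refine Filter.mem_of_superset (hc hn) ?_
  intro q hq
  have h1 : cc G 0 (dl G.wt (r / (R + 1))⁻¹ q) ≤ R := hq
  have h2 := cc_dl G hs 0 (dl G.wt (r / (R + 1))⁻¹ q)
  rw [dl_zero, dl_inv G.wt hs] at h2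
  show cc G 0 q < r
  rw [h2]
  have h3 : r / (R + 1) * (R + 1) = r := by
    field_simp
  nlinarith [mul_le_mul_of_nonneg_left h1 hs.le]

end Pool.Agent.CMC
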