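import Pool.Agent.Lib_helper36.CMC.Defs
import Pool.Agent.Lib_helper36.CMC.W.A1
import Pool.Agent.Lib_helper36.CMC.W.A2
import Pool.Agent.Lib_helper36.CMC.W.A3
import Pool.Agent.Lib_helper36.CMC.W.A5
import Pool.Agent.Lib_helper36.CMC.W.A6
import Pool.Agent.Lib_helper36.CMC.W.D2
import Pool.Agent.Lib_helper36.CMC.W.D2b
import Pool.Agent.Lib_helper36.CMC.W.D4
import Pool.Agent.Lib_helper36.CMC.W.D5

set_option autoImplicit false

namespace Pool.Agent.CMC

open MeasureTheory Set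
open scoped ContDiff

variable {n : ℕ}

theorem d6_cc_eq (G : Carnot n) (p q : Fin n → ℝ) : cc G p q = cc G 0 (G.mul (-p) q) := by
  have h := cc_left G p 0 (G.mul (-p) q)
  rw [G.mul_zero, G.mul_neg_cancel] at h
  exact h

theorem d6_abs (G : Carnot n) (q q' : Fin n → ℝ) :
    |cc G 0 q' - cc G 0 q| ≤ cc G 0 (G.mul (-q) q') := by
  rw [← d6_cc_eq, abs_le]
  have h1 := cc_triangle G 0 q q'
  have h2 := cc_triangle G 0 q' q
  rw [cc_symm G q' q] at h2
  constructor <;> linarith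

theorem continuous_cc (G : Carnot n) : Continuous (fun q => cc G 0 q) := by
  rw [continuous_iff_continuousAt]
  intro q
  rw [Metric.continuousAt_iff']
  intro ε hε
  have h1 : {x | cc G 0 x < ε} ∈ nhds (G.mul (-q) q) := by
    rw [G.neg_mul]
    exact ball_nhds G hε
  have h2 : ∀ᶠ q' in nhds q, G.mul (-q) q' ∈ {x | cc G 0 x < ε} :=
    (smooth_right G (-q)).continuous.continuousAt.eventually h1
  filter_upwards [h2] with q' hq'
  rw [Real.dist_eq]
  exact lt_of_le_of_lt (d6_abs G q q') hq'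

theorem d6_closed (G : Carnot n) (r : ℝ) : IsClosed {q | cc G 0 q ≤ r} :=
  isClosed_le (continuous_cc G) continuous_const

theorem d6_ball_left (G : Carnot n) (p : Fin n → ℝ) (r : ℝ) :
    {q | cc G p q ≤ r} = G.mul p '' {q | cc G 0 q ≤ r} := by
  ext q
  simp only [mem_ofPred_eq, mem_image]
  constructor
  · intro h
    exact ⟨G.mul (-p) q, by rwa [← d6_cc_eq], G.mul_neg_cancel p q⟩
  · rintro ⟨x, hx, rfl⟩
    rwa [d6_cc_eq, G.neg_mul_cancel]

theorem d6_ball_dl (G : Carnot n) {r : ℝ} (hr : 0 < r) :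
    {q | cc G 0 q ≤ r} = dl G.wt r '' {q | cc G 0 q ≤ 1} := by
  have key : ∀ x, cc G 0 (dl G.wt r x) = r * cc G 0 x := by
    intro x
    have h := cc_dl G hr 0 x
    rwa [dl_zero] at h
  ext q
  simp only [mem_ofPred_eq, mem_image]
  constructor
  · intro h
    refine ⟨dl G.wt r⁻¹ q, ?_, dl_inv G.wt hr q⟩
    have h1 := key (dl G.wt r⁻¹ q)
    rw [dl_inv G.wt hr q] at h1
    rw [h1] at h
    by_contra hcon
    push Not at hcon
    nlinarith
  · rintro ⟨x, hx, rfl⟩
    rw [key]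
    nlinarith

theorem volume_ball (G : Carnot n) (p : Fin n → ℝ) {r : ℝ} (hr : 0 < r) :
    volume {q | cc G p q ≤ r} = ENNReal.ofReal (r ^ hd G) * volume {q | cc G 0 q ≤ 1} := by
  rw [d6_ball_left, volume_mul_image G p (d6_closed G r).measurableSet, d6_ball_dl G hr,
    volume_dl G hr]

theorem volume_ball_pos (G : Carnot n) : 0 < volume {q | cc G 0 q ≤ 1} := by
  have h1 : {q | cc G 0 q ≤ 1} ∈ nhds (0 : Fin n → ℝ) := by
    refine Filter.mem_of_superset (ball_nhds G one_pos) ?_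
    intro q hq
    rw [mem_ofPred_eq] at hq ⊢
    exact le_of_lt hq
  exact Measure.measure_pos_of_mem_nhds volume h1

theorem volume_ball_lt_top (G : Carnot n) (R : ℝ) : volume {q | cc G 0 q ≤ R} < ⊤ :=
  (ball_bounded G R).measure_lt_top

end Pool.Agent.CMC
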