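import Pool.Agent.Lib_helper36.CMC.Defs
import Pool.Agent.Lib_helper36.CMC.W.D2
import Pool.Agent.Lib_helper36.CMC.W.D2b
import Pool.Agent.Lib_helper36.CMC.W.D6
import Pool.Agent.Lib_helper36.CMC.W.G1

set_option autoImplicit false

namespace Pool.Agent.CMC

open MeasureTheory Set
open scoped ContDiff

variable {n : ℕ}

theorem Cal.G5_continuous_yy {G : Carnot n} (D : Cal G) : Continuous D.yy := by
  have h : D.yy = fun g => ∑ i, D.Y i * g i := rfl
  rw [h]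
  fun_prop

theorem Cal.reg_closed {G : Carnot n} (D : Cal G) (δ ρ : ℝ) : IsClosed (D.reg δ ρ) := by
  have h1 : IsClosed {q | |D.yy q - 1| ≤ δ} :=
    isClosed_le (D.G5_continuous_yy.sub continuous_const).abs continuous_const
  have h2 : IsClosed {q | D.df q ≤ ρ ^ 2} :=
    isClosed_le ((continuous_cc G).sub D.G5_continuous_yy) continuous_const
  exact h1.inter h2

theorem Cal.reg_lt_top {G : Carnot n} (D : Cal G) (δ ρ : ℝ) : volume (D.reg δ ρ) < ⊤ := by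
  refine lt_of_le_of_lt (measure_mono ?_) (volume_ball_lt_top G (1 + δ + ρ ^ 2))
  rintro q ⟨h1, h2⟩
  have h3 := (abs_le.1 h1).2
  have h4 : cc G 0 q - D.yy q ≤ ρ ^ 2 := h2
  show cc G 0 q ≤ 1 + δ + ρ ^ 2
  linarith

theorem Cal.reg_lower {G : Carnot n} (D : Cal G) {δ ρ : ℝ} (hρ : 0 < ρ) (h : ρ ^ 2 / 2 ≤ δ) :
    ENNReal.ofReal ((ρ ^ 2 / 2) ^ hd G) * volume {q | cc G 0 q ≤ 1} ≤ volume (D.reg δ ρ) := by
  have hr : 0 < ρ ^ 2 / 2 := by positivity
  rw [← volume_ball G D.Y hr]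
  refine measure_mono ?_
  intro q hq
  have hq' : cc G D.Y q ≤ ρ ^ 2 / 2 := hq
  have hY : D.yy D.Y = 1 := by
    have : D.yy D.Y = nsq D.Y := by
      unfold Cal.yy dt nsq
      exact Finset.sum_congr rfl fun i _ => (sq _).symm
    rw [this, D.hYY]
  have h0 : cc G 0 D.Y ≤ 1 := by
    have := cc_seg G 0 D.hY
    rwa [G.zero_mul, D.hYY, Real.sqrt_one] at this
  have h1 := D.yy_lip D.Y q
  rw [hY] at h1
  have h2 := cc_triangle G 0 D.Y q
  refine ⟨by linarith, ?_⟩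
  show cc G 0 q - D.yy q ≤ ρ ^ 2
  have h3 := (abs_le.1 h1).1
  linarith

end Pool.Agent.CMC
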