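import Pool.Agent.Lib_helper36.CMC.Defs

set_option autoImplicit false

namespace Pool.Agent.CMC

open MeasureTheory Set
open scoped ContDiff

variable {n : ℕ}

/-- the iteration -/
theorem iter_bound {v : ℝ → ENNReal} {a c ρ₀ Λ : ℝ} {Q : ℕ} (hρ₀ : 0 < ρ₀) (hΛ : 1 ≤ Λ)
    (hc : 0 < c) (ha : 0 ≤ a) (hfin : v ρ₀ < ⊤)
    (hlow : ∀ ρ, 0 < ρ → ρ ≤ ρ₀ → ENNReal.ofReal (c * (ρ ^ 2) ^ Q) ≤ v ρ)
    (hstep : ∀ ρ, 0 < ρ → Λ * ρ ≤ ρ₀ → ENNReal.ofReal a * v ρ ≤ v (Λ * ρ)) :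
    a ≤ Λ ^ (2 * Q) := by
  have hΛ0 : 0 < Λ := by linarith
  by_contra hcon
  rw [not_le] at hcon
  -- the iterated inequality
  have hit : ∀ j : ℕ, ENNReal.ofReal (a ^ j * (c * ((ρ₀ / Λ ^ j) ^ 2) ^ Q)) ≤ v ρ₀ := by
    intro j
    have hgen : ∀ i : ℕ, i ≤ j → ENNReal.ofReal (a ^ i) * v (ρ₀ / Λ ^ j) ≤ v (ρ₀ / Λ ^ (j - i)) := by
      intro i
      induction i with
      | zero => intro _; simp
      | succ i ih =>
        intro hi
        have h1 := ih (by omega)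
        have h2 : Λ * (ρ₀ / Λ ^ (j - i)) = ρ₀ / Λ ^ (j - (i + 1)) := by
          have h3 : j - i = (j - (i + 1)) + 1 := by omega
          rw [h3, pow_succ]
          field_simp
        have h4 : 0 < ρ₀ / Λ ^ (j - i) := by positivity
        have h5 : Λ * (ρ₀ / Λ ^ (j - i)) ≤ ρ₀ := by
          rw [h2]
          exact div_le_self hρ₀.le (one_le_pow₀ hΛ)
        have h6 := hstep _ h4 h5
        rw [h2] at h6
        calc ENNReal.ofReal (a ^ (i + 1)) * v (ρ₀ / Λ ^ j)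
            = ENNReal.ofReal a * (ENNReal.ofReal (a ^ i) * v (ρ₀ / Λ ^ j)) := by
              rw [pow_succ, mul_comm (a ^ i) a, ENNReal.ofReal_mul ha, mul_assoc]
          _ ≤ ENNReal.ofReal a * v (ρ₀ / Λ ^ (j - i)) := by gcongr
          _ ≤ v (ρ₀ / Λ ^ (j - (i + 1))) := h6
    have h1 := hgen j le_rfl
    rw [Nat.sub_self, pow_zero, div_one] at h1
    have h2 := hlow (ρ₀ / Λ ^ j) (by positivity) (div_le_self hρ₀.le (one_le_pow₀ hΛ))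
    rw [ENNReal.ofReal_mul (by positivity)]
    refine le_trans ?_ h1
    gcongr
  -- rewrite
  set q : ℝ := a / Λ ^ (2 * Q) with hq
  have hq1 : 1 < q := by
    rw [hq, one_lt_div (by positivity)]
    exact hcon
  have hc' : 0 < c * (ρ₀ ^ 2) ^ Q := by positivity
  have hform : ∀ j : ℕ, a ^ j * (c * ((ρ₀ / Λ ^ j) ^ 2) ^ Q) = (c * (ρ₀ ^ 2) ^ Q) * q ^ j := by
    intro j
    rw [hq, div_pow, div_pow, div_pow]
    have e1 : (((Λ ^ j) ^ 2) ^ Q : ℝ) = (Λ ^ (2 * Q)) ^ j := by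
      rw [← pow_mul, ← pow_mul, ← pow_mul]
      congr 1
      ring
    rw [e1]
    ring
  have hle : ∀ j : ℕ, (c * (ρ₀ ^ 2) ^ Q) * q ^ j ≤ (v ρ₀).toReal := by
    intro j
    have h1 := hit j
    rw [hform j] at h1
    exact (ENNReal.ofReal_le_iff_le_toReal hfin.ne).1 h1
  obtain ⟨j, hj⟩ := pow_unbounded_of_one_lt ((v ρ₀).toReal / (c * (ρ₀ ^ 2) ^ Q)) hq1
  rw [div_lt_iff₀ hc'] at hj
  have := hle j
  linarith [mul_comm (q ^ j) (c * (ρ₀ ^ 2) ^ Q)]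

/-- the choice of `κ` and `J` -/
theorem exists_kappa (C N : ℝ) (hC : 1 ≤ C) (Q : ℕ) (hQ : 1 ≤ Q) :
    ∃ κ : ℝ, 1 ≤ κ ∧ ∃ J : ℕ, 1 ≤ J ∧ κ ^ 2 * Real.exp κ ≤ J ∧
      (40 * C * κ ^ 2 * Real.exp (κ * (1 / (2 * (Q : ℝ))) / 2)) ^ (2 * Q) <
        (1 / 2 : ℝ) ^ N * (1 + κ / J) ^ J := by
  have hQ0 : (0 : ℝ) < Q := by exact_mod_cast hQ
  have hC0 : 0 < C := by linarith
  -- polynomial against exponential
  have hlim := Real.tendsto_pow_mul_exp_neg_atTop_nhds_zero (4 * Q)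
  have hlim2 := hlim.comp (Filter.tendsto_id.atTop_div_const (by norm_num : (0 : ℝ) < 2))
  set c₀ : ℝ := (1 / 2 : ℝ) ^ N with hc₀
  have hc₀0 : 0 < c₀ := by positivity
  set K : ℝ := (40 * C) ^ (2 * Q) * 2 ^ (4 * Q) with hK
  have hK0 : 0 < K := by positivity
  have hev := (hlim2.eventually (gt_mem_nhds (div_pos (by positivity : (0 : ℝ) < c₀ / 2) hK0))).and
    (Filter.eventually_ge_atTop 1)
  obtain ⟨κ, hκ, hκ1⟩ := hev.exists
  simp only [Function.comp, id] at hκ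
  have hκ0 : 0 < κ := by linarith
  refine ⟨κ, hκ1, ?_⟩
  have hmain : (40 * C * κ ^ 2 * Real.exp (κ * (1 / (2 * (Q : ℝ))) / 2)) ^ (2 * Q) <
      c₀ / 2 * Real.exp κ := by
    have e1 : (40 * C * κ ^ 2 * Real.exp (κ * (1 / (2 * (Q : ℝ))) / 2)) ^ (2 * Q) =
        K * ((κ / 2) ^ (4 * Q) * Real.exp (κ / 2)) := by
      rw [mul_pow, mul_pow, ← Real.exp_nat_mul]
      have e2 : ((2 * Q : ℕ) : ℝ) * (κ * (1 / (2 * (Q : ℝ))) / 2) = κ / 2 := by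
        push_cast
        field_simp
      rw [e2, hK, div_pow, ← pow_mul, show 2 * (2 * Q) = 4 * Q by ring]
      field_simp
    rw [e1]
    have e3 : (κ / 2) ^ (4 * Q) * Real.exp (κ / 2) =
        (κ / 2) ^ (4 * Q) * Real.exp (-(κ / 2)) * Real.exp κ := by
      rw [mul_assoc, ← Real.exp_add]
      congr 2
      ring
    rw [e3]
    have h2 : K * ((κ / 2) ^ (4 * Q) * Real.exp (-(κ / 2))) < c₀ / 2 := by
      rw [lt_div_iff₀ hK0] at hκ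
      linarith
    calc K * ((κ / 2) ^ (4 * Q) * Real.exp (-(κ / 2)) * Real.exp κ)
        = K * ((κ / 2) ^ (4 * Q) * Real.exp (-(κ / 2))) * Real.exp κ := by ring
      _ < c₀ / 2 * Real.exp κ := mul_lt_mul_of_pos_right h2 (Real.exp_pos κ)
  have hJ := Real.tendsto_one_add_div_pow_exp κ
  have hJ2 : ∀ᶠ J : ℕ in Filter.atTop, Real.exp κ / 2 < (1 + κ / (J : ℝ)) ^ J :=
    hJ.eventually (lt_mem_nhds (by linarith [Real.exp_pos κ]))
  obtain ⟨J, ⟨hJa, hJb⟩, hJc⟩ := ((hJ2.and (Filter.eventually_ge_atTop 1)).and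
    (Filter.eventually_ge_atTop (⌈κ ^ 2 * Real.exp κ⌉₊))).exists
  refine ⟨J, hJb, Nat.ceil_le.1 hJc, hmain.trans_le ?_⟩
  calc c₀ / 2 * Real.exp κ = c₀ * (Real.exp κ / 2) := by ring
    _ ≤ c₀ * (1 + κ / J) ^ J := by gcongr

end Pool.Agent.CMC
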