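import Pool.Agent.Lib_helper36.CMC.Defs
import Pool.Agent.Lib_helper36.CMC.W.A1
import Pool.Agent.Lib_helper36.CMC.W.D2
import Pool.Agent.Lib_helper36.CMC.W.F5
import Pool.Agent.Lib_helper36.CMC.W.G4
import Pool.Agent.Lib_helper36.CMC.W.G5
import Pool.Agent.Lib_helper36.CMC.W.G6

set_option autoImplicit false

namespace Pool.Agent.CMC

open MeasureTheory Set
open scoped ContDiff

variable {n : ℕ}

theorem g7_hd_pos {G : Carnot n} (D : Cal G) : 1 ≤ hd G := by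
  have h : ∃ i, D.e i ≠ 0 := by
    by_contra hc
    push Not at hc
    have h1 := D.hee
    unfold nsq at h1
    rw [Finset.sum_eq_zero (fun i _ => by rw [hc i]; ring)] at h1
    exact zero_ne_one h1
  obtain ⟨i, _⟩ := h
  unfold hd
  calc 1 ≤ G.wt i := G.wt_pos i
    _ ≤ ∑ j, G.wt j := Finset.single_le_sum (f := G.wt) (fun j _ => Nat.zero_le _)
        (Finset.mem_univ i)

theorem not_mcp_of_cal {G : Carnot n} (D : Cal G) (N : ℝ) : ¬ MCP G N := by
  intro hM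
  have hQ : 1 ≤ hd G := g7_hd_pos D
  set Q : ℕ := hd G with hQd
  have hQR : (1 : ℝ) ≤ (Q : ℝ) := by exact_mod_cast hQ
  obtain ⟨κ, hκ, J, hJ, hJ', hlt⟩ := exists_kappa D.C N D.hC Q hQ
  have hκ0 : 0 ≤ κ := by linarith
  set δ : ℝ := 1 / (2 * (Q : ℝ)) with hδd
  have hδ0 : 0 < δ := by rw [hδd]; positivity
  have hδ : δ ≤ 1 / 2 := by
    rw [hδd]
    apply one_div_le_one_div_of_le (by norm_num)
    linarith
  obtain ⟨ρ₀, hρ₀, hρ₁, hincl⟩ := D.incl hκ hJ hJ' hδ0 hδ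
  set Λ : ℝ := 40 * D.C * κ ^ 2 * Real.exp (κ * δ / 2) with hΛd
  have hΛ : 1 ≤ Λ := by
    have h1 : 1 ≤ Real.exp (κ * δ / 2) := Real.one_le_exp (by positivity)
    have h2 : 1 ≤ κ ^ 2 := one_le_pow₀ hκ
    have h3 := D.hC
    have h4 : 1 ≤ 40 * D.C := by linarith
    have h5 : 1 ≤ 40 * D.C * κ ^ 2 := one_le_mul_of_one_le_of_one_le h4 h2
    rw [hΛd]
    exact one_le_mul_of_one_le_of_one_le h5 h1
  have hJ0 : (0 : ℝ) < J := by positivity
  set a : ℝ := (1 / 2 : ℝ) ^ N * (1 + κ / J) ^ J with ha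
  have hmul0 : (0 : ℝ) ≤ (1 + κ / J) ^ J := by positivity
  have hhalf0 : (0 : ℝ) ≤ (1 / 2 : ℝ) ^ N := Real.rpow_nonneg (by norm_num) N
  have ha0 : 0 ≤ a := by rw [ha]; positivity
  set B : ENNReal := volume {q | cc G 0 q ≤ 1} with hB
  have hBpos : 0 < B := volume_ball_pos G
  have hBtop : B < ⊤ := volume_ball_lt_top G 1
  have hBr : 0 < B.toReal := ENNReal.toReal_pos hBpos.ne' hBtop.ne
  set ρm : ℝ := min ρ₀ δ with hρm
  have hρm0 : 0 < ρm := lt_min hρ₀ hδ0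
  have hmain : a ≤ Λ ^ (2 * Q) := by
    refine iter_bound (v := fun ρ => volume (D.reg δ ρ)) (c := (1 / 2) ^ Q * B.toReal) hρm0 hΛ
      (by positivity) ha0 (D.reg_lt_top δ ρm) ?_ ?_
    · intro ρ hρ hρle
      have h1 : ρ ≤ δ := hρle.trans (min_le_right _ _)
      have h2 : ρ ^ 2 / 2 ≤ δ := by nlinarith
      have h3 := D.reg_lower hρ h2
      refine le_trans (le_of_eq ?_) h3
      have h4 : (1 / 2 : ℝ) ^ Q * B.toReal * (ρ ^ 2) ^ Q = (ρ ^ 2 / 2) ^ Q * B.toReal := by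
        rw [div_eq_mul_inv (ρ ^ 2) 2, mul_pow, one_div]; ring
      rw [h4, ENNReal.ofReal_mul (by positivity), ENNReal.ofReal_toReal hBtop.ne]
    · intro ρ hρ hρle
      have hρ1 : ρ ≤ ρ₀ := by
        have h1 : ρ ≤ Λ * ρ := by nlinarith
        exact (h1.trans hρle).trans (min_le_left _ _)
      have hmeas : MeasurableSet (D.reg δ ρ) := (D.reg_closed δ ρ).measurableSet
      obtain ⟨hm, hv⟩ := D.volume_flw hκ0 J hmeas
      rcases eq_or_ne (volume (D.reg δ ρ)) 0 with h0 | h0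
      · simp only [h0, mul_zero]; exact bot_le
      · have hpos : 0 < volume (D.flw κ J '' D.reg δ ρ) := by
          rw [hv]
          apply ENNReal.mul_pos _ h0
          rw [Ne, ENNReal.ofReal_eq_zero, not_le]
          positivity
        have hlt' : volume (D.flw κ J '' D.reg δ ρ) < ⊤ := by
          rw [hv]
          exact ENNReal.mul_lt_top ENNReal.ofReal_lt_top (D.reg_lt_top δ ρ)
        have hkey := hM 0 (D.flw κ J '' D.reg δ ρ) hm hpos hlt' (1 / 2)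
          ⟨by norm_num, by norm_num⟩
        have hsub : Zt G (1 / 2) 0 (D.flw κ J '' D.reg δ ρ) ⊆ D.reg δ (Λ * ρ) := by
          rintro p ⟨γ, hγ, hγ0, ⟨q, hq, hγ1⟩, hp⟩
          have g1 := hγ 0 ⟨le_rfl, zero_le_one⟩ (1 / 2) ⟨by norm_num, by norm_num⟩
          have g2 := hγ (1 / 2) ⟨by norm_num, by norm_num⟩ 1 ⟨zero_le_one, le_rfl⟩
          rw [hp, hγ0, ← hγ1] at g1
          rw [hp, hγ0, ← hγ1] at g2
          have e1 : cc G 0 p = cc G 0 (D.flw κ J q) / 2 := by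
            rw [g1, show |(0 : ℝ) - 1 / 2| = 1 / 2 by norm_num]; ring
          have e2 : cc G p (D.flw κ J q) = cc G 0 (D.flw κ J q) / 2 := by
            rw [g2, show |(1 / 2 : ℝ) - 1| = 1 / 2 by rw [abs_sub_comm]; norm_num]; ring
          exact hincl ρ hρ hρ1 q hq p e1 e2
        calc ENNReal.ofReal a * volume (D.reg δ ρ)
            = ENNReal.ofReal ((1 / 2 : ℝ) ^ N) * volume (D.flw κ J '' D.reg δ ρ) := by
              rw [hv, ha, ENNReal.ofReal_mul hhalf0, mul_assoc]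
          _ ≤ volume (Zt G (1 / 2) 0 (D.flw κ J '' D.reg δ ρ)) := hkey
          _ ≤ volume (D.reg δ (Λ * ρ)) := measure_mono hsub
  exact absurd hmain (not_le.2 hlt)

end Pool.Agent.CMC
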