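import Pool.Agent.Lib_helper36.CMC.Defs
import Pool.Agent.Lib_helper36.CMC.W.A1
import Pool.Agent.Lib_helper36.CMC.W.A2
import Pool.Agent.Lib_helper36.CMC.W.C1
import Pool.Agent.Lib_helper36.CMC.W.D2
import Pool.Agent.Lib_helper36.CMC.W.D2b
import Pool.Agent.Lib_helper36.CMC.W.D3

set_option autoImplicit false

namespace Pool.Agent.CMC

open MeasureTheory Set
open scoped ContDiff

variable {n : ℕ}

theorem H1_contDiff_dt (v : Fin n → ℝ) : ContDiff ℝ 1 (dt v) := by
  unfold dt; fun_prop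

theorem H1_fderiv_dt (v g x : Fin n → ℝ) : fderiv ℝ (dt v) g x = dt v x := by
  have h : dt v = (∑ i, v i • (ContinuousLinearMap.proj (R := ℝ) (φ := fun _ : Fin n => ℝ) i) :
      (Fin n → ℝ) →L[ℝ] ℝ) := by
    funext y
    simp [dt]
  rw [h, ContinuousLinearMap.fderiv]

theorem H1_dt_X (G : Carnot n) {v : Fin n → ℝ} (hv : v ∈ lay G.wt 1) (u g : Fin n → ℝ) :
    dt v (X G u g) = dt v u := by
  unfold dt
  refine Finset.sum_congr rfl fun i _ => ?_
  by_cases h : G.wt i = 1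
  · rw [X_wt1 G u g i h]
  · rw [hv i h]; simp

theorem H1_cs (v u : Fin n → ℝ) (hv : nsq v = 1) (hu : nsq u ≤ 1) : |dt v u| ≤ 1 := by
  have h := Finset.sum_mul_sq_le_sq_mul_sq Finset.univ v u
  have h2 : dt v u ^ 2 ≤ 1 := by
    calc dt v u ^ 2 ≤ nsq v * nsq u := h
      _ ≤ 1 := by rw [hv, one_mul]; exact hu
  exact abs_le_one_iff_mul_self_le_one.2 (by nlinarith)

/-- linear coordinates of unit horizontal vectors are one-Lipschitz -/
theorem dt_lip (G : Carnot n) {v : Fin n → ℝ} (hv : v ∈ lay G.wt 1) (h1 : nsq v = 1)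
    (p q : Fin n → ℝ) : |dt v q - dt v p| ≤ cc G p q := by
  refine le_of_forall_pos_le_add fun ε hε => ?_
  obtain ⟨T, hT, hTε, γ, hγ, h0, hT'⟩ := exists_near G p q hε
  have hac := ac_comp G (H1_contDiff_dt v) hT hγ
  have hd := deriv_comp G hγ
  have hint := hac.integral_deriv_eq_sub
  have hb : ∀ᵐ t : ℝ, t ∈ Set.uIoc (0 : ℝ) T → ‖deriv (fun t => dt v (γ t)) t‖ ≤ 1 := by
    filter_upwards [hd] with t ht ht'
    rw [uIoc_of_le hT] at ht'
    obtain ⟨u, hu, hu1, hf⟩ := ht ⟨ht'.1.le, ht'.2⟩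
    rw [hf (dt v) (H1_contDiff_dt v), H1_fderiv_dt, H1_dt_X G hv, Real.norm_eq_abs]
    exact H1_cs v u h1 hu1
  have h2 := intervalIntegral.norm_integral_le_of_norm_le_const_ae hb
  rw [hint, Real.norm_eq_abs, sub_zero, abs_of_nonneg hT, one_mul, h0, hT'] at h2
  linarith

/-- the lines `t ↦ t Y` are minimizing geodesics of unit speed -/
theorem cc_line (G : Carnot n) {Y : Fin n → ℝ} (hY : Y ∈ lay G.wt 1) (h1 : nsq Y = 1) (s t : ℝ) :
    cc G (s • Y) (t • Y) = |s - t| := by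
  have hYY : ∀ c : ℝ, dt Y (c • Y) = c := by
    intro c
    have : dt Y (c • Y) = c * nsq Y := by
      unfold dt nsq
      rw [Finset.mul_sum]
      refine Finset.sum_congr rfl fun i _ => ?_
      simp only [Pi.smul_apply, smul_eq_mul]; ring
    rw [this, h1, mul_one]
  refine le_antisymm ?_ ?_
  · have e1 : G.mul (s • Y) ((t - s) • Y) = t • Y := by
      rw [G.expo]; congr 1; ring
    have h := cc_seg G (s • Y) ((lay G.wt 1).smul_mem (t - s) hY)
    rw [e1] at h
    have h2 : nsq ((t - s) • Y) = (t - s) ^ 2 := by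
      have : nsq ((t - s) • Y) = (t - s) ^ 2 * nsq Y := by
        unfold nsq
        rw [Finset.mul_sum]
        refine Finset.sum_congr rfl fun i _ => ?_
        simp only [Pi.smul_apply, smul_eq_mul]; ring
      rw [this, h1, mul_one]
    rw [h2, Real.sqrt_sq_eq_abs, abs_sub_comm] at h
    exact h
  · have h := dt_lip G hY h1 (s • Y) (t • Y)
    rw [hYY, hYY, abs_sub_comm] at h
    exact h

theorem geod_line (G : Carnot n) {Y : Fin n → ℝ} (hY : Y ∈ lay G.wt 1) (h1 : nsq Y = 1) :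
    Geod G (fun t => t • Y) := by
  intro s _ t _
  simp only []
  rw [cc_line G hY h1, cc_line G hY h1]
  simp

end Pool.Agent.CMC
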