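import Pool.Agent.Lib_helper36.CMC.Plain2
import Pool.Agent.Lib_helper36.CMC.W.H1
import Pool.Agent.Lib_helper36.CMC.W.F0

set_option autoImplicit false

namespace Pool.Agent.CMC

open MeasureTheory Set
open scoped ContDiff

variable {n : ℕ}

theorem H4_lip {f : (Fin n → ℝ) → ℝ} (hf : ContDiff ℝ 1 f) {γ : ℝ → Fin n → ℝ} {K : NNReal}
    (hK : LipschitzOnWith K γ (Icc 0 1)) :
    ∃ C : NNReal, LipschitzOnWith C (fun t => f (γ t)) (Icc 0 1) := by
  have hcomp : IsCompact (γ '' Icc 0 1) := isCompact_Icc.image_of_continuousOn hK.continuousOn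
  obtain ⟨R, hR⟩ := hcomp.isBounded.subset_closedBall 0
  obtain ⟨C, hC⟩ := hf.contDiffOn.exists_lipschitzOnWith (s := Metric.closedBall (0 : Fin n → ℝ) R)
    one_ne_zero (convex_closedBall 0 R) (isCompact_closedBall 0 R)
  exact ⟨C * K, hC.comp hK fun x hx => hR (mem_image_of_mem γ hx)⟩

/-- variation of a function along a curve -/
theorem H4_est {f : (Fin n → ℝ) → ℝ} (hf : ContDiff ℝ 1 f) {γ : ℝ → Fin n → ℝ} {K : NNReal}
    (hK : LipschitzOnWith K γ (Icc 0 1)) {B : ℝ} (hB0 : 0 ≤ B)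
    (hB : ∀ᵐ t : ℝ, t ∈ Icc 0 1 → |deriv (fun s => f (γ s)) t| ≤ B) {s : ℝ} (hs : s ∈ Icc 0 1) :
    |f (γ s) - f (γ 0)| ≤ B := by
  obtain ⟨C, hC⟩ := H4_lip hf hK
  have h2 : LipschitzOnWith C (fun t => f (γ t)) (uIcc 0 s) := by
    rw [uIcc_of_le hs.1]
    exact hC.mono (Icc_subset_Icc le_rfl hs.2)
  have hac := h2.absolutelyContinuousOnInterval
  have hint := hac.integral_deriv_eq_sub
  have hb : ∀ᵐ t : ℝ, t ∈ Set.uIoc (0 : ℝ) s → ‖deriv (fun t => f (γ t)) t‖ ≤ B := by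
    filter_upwards [hB] with t ht ht'
    rw [uIoc_of_le hs.1] at ht'
    exact ht ⟨ht'.1.le, ht'.2.trans hs.2⟩
  have h3 := intervalIntegral.norm_integral_le_of_norm_le_const_ae hb
  rw [hint, Real.norm_eq_abs, sub_zero, abs_of_nonneg hs.1] at h3
  calc |f (γ s) - f (γ 0)| ≤ B * s := h3
    _ ≤ B * 1 := mul_le_mul_of_nonneg_left hs.2 hB0
    _ = B := mul_one B

theorem H4_deriv {G : Carnot n} {A : Fin n → ℝ} {f : (Fin n → ℝ) → ℝ} (hf : ContDiff ℝ 1 f)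
    {γ : ℝ → Fin n → ℝ} {t : ℝ} (h : HasDerivAt γ (lif G.mul A (γ t)) t) :
    deriv (fun s => f (γ s)) t = fderiv ℝ f (γ t) (X G A (γ t)) := by
  have hfd : HasFDerivAt f (fderiv ℝ f (γ t)) (γ t) :=
    (hf.differentiable one_ne_zero).differentiableAt.hasFDerivAt
  exact (hfd.comp_hasDerivAt t h).deriv

theorem H4_dt_add (c a b : Fin n → ℝ) : dt c (a + b) = dt c a + dt c b := by
  unfold dt
  rw [← Finset.sum_add_distrib]
  exact Finset.sum_congr rfl fun i _ => by simp only [Pi.add_apply]; ring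

theorem H4_dt_smul (c a : Fin n → ℝ) (s : ℝ) : dt c (s • a) = s * dt c a := by
  unfold dt
  rw [Finset.mul_sum]
  exact Finset.sum_congr rfl fun i _ => by simp only [Pi.smul_apply, smul_eq_mul]; ring

theorem H4_dt_self (c : Fin n → ℝ) : dt c c = nsq c := by
  unfold dt nsq
  exact Finset.sum_congr rfl fun i _ => by ring

theorem H4_dt_comm (a b : Fin n → ℝ) : dt a b = dt b a := by
  unfold dt
  exact Finset.sum_congr rfl fun i _ => by ring

theorem H4_coord_le {c : Fin n → ℝ} {N : ℝ} (hN : 0 ≤ N) (h : nsq c ≤ N ^ 2) (i : Fin n) :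
    |c i| ≤ N := by
  have h1 : c i ^ 2 ≤ N ^ 2 :=
    (Finset.single_le_sum (f := fun i => c i ^ 2) (fun i _ => sq_nonneg _)
      (Finset.mem_univ i)).trans h
  exact abs_le_of_sq_le_sq h1 hN

theorem H4_dt_le {c v : Fin n → ℝ} {N : ℝ} (hN : 0 ≤ N) (hc : nsq c = 1) (h : nsq v ≤ N ^ 2) :
    |dt c v| ≤ N := by
  have h1 := Finset.sum_mul_sq_le_sq_mul_sq Finset.univ c v
  have h2 : dt c v ^ 2 ≤ N ^ 2 := by
    calc dt c v ^ 2 ≤ nsq c * nsq v := h1
      _ ≤ N ^ 2 := by rw [hc, one_mul]; exact h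
  exact abs_le_of_sq_le_sq h2 hN

theorem H4_contDiff_zz {G : Carnot n} (D : Cal G) (i : Fin n) :
    ContDiff ℝ 1 (fun g => D.zz g i) := by
  unfold Cal.zz Cal.yy Cal.xi pj dt
  by_cases h : G.wt i = 1 <;> simp only [h, if_true, if_false] <;> fun_prop

/-- `zz` is linear -/
noncomputable def H4_zL {G : Carnot n} (D : Cal G) (i : Fin n) : (Fin n → ℝ) →ₗ[ℝ] ℝ where
  toFun g := D.zz g i
  map_add' a b := by
    simp only [Cal.zz, Cal.yy, Cal.xi, H4_dt_add, pj]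
    by_cases h : G.wt i = 1 <;> simp only [h, if_true, if_false, Pi.add_apply] <;> ring
  map_smul' c a := by
    simp only [Cal.zz, Cal.yy, Cal.xi, H4_dt_smul, pj, RingHom.id_apply, smul_eq_mul]
    by_cases h : G.wt i = 1 <;> simp only [h, if_true, if_false, Pi.smul_apply, smul_eq_mul] <;> ring

theorem H4_fderiv_zz {G : Carnot n} (D : Cal G) (i : Fin n) (g x : Fin n → ℝ) :
    fderiv ℝ (fun g => D.zz g i) g x = D.zz x i := by
  have h : (fun g => D.zz g i) = (LinearMap.toContinuousLinearMap (H4_zL D i)) := rfl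
  rw [h, ContinuousLinearMap.fderiv]
  rfl

theorem H4_zz_X {G : Carnot n} (D : Cal G) (A g : Fin n → ℝ) (i : Fin n) :
    D.zz (X G A g) i = D.zz A i := by
  simp only [Cal.zz, Cal.yy, Cal.xi, H1_dt_X G D.hY, H1_dt_X G D.he, pj]
  by_cases h : G.wt i = 1
  · simp only [h, if_true, X_wt1 G A g i h]
  · simp only [h, if_false]

theorem H4_zz_Y {G : Carnot n} (D : Cal G) (i : Fin n) : D.zz D.Y i = 0 := by
  simp only [Cal.zz, Cal.yy, Cal.xi, H4_dt_self, D.hYY, H4_dt_comm D.e D.Y, D.hYe, pj]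
  by_cases h : G.wt i = 1
  · simp only [h, if_true]; ring
  · simp only [h, if_false, D.hY i h]; ring

theorem H4_zz_le {G : Carnot n} (D : Cal G) {v : Fin n → ℝ} {N : ℝ} (hN : 0 ≤ N)
    (h : nsq v ≤ N ^ 2) (i : Fin n) : |D.zz v i| ≤ 3 * N := by
  have h1 : |pj G 1 v i| ≤ N := by
    by_cases hi : G.wt i = 1
    · simp only [pj, hi, if_true]; exact H4_coord_le hN h i
    · simp only [pj, hi, if_false, abs_zero]; exact hN
  have h2 : |D.yy v| ≤ N := H4_dt_le hN D.hYY h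
  have h3 : |D.xi v| ≤ N := H4_dt_le hN D.hee h
  have h4 : |D.Y i| ≤ 1 := H4_coord_le zero_le_one (by rw [D.hYY, one_pow]) i
  have h5 : |D.e i| ≤ 1 := H4_coord_le zero_le_one (by rw [D.hee, one_pow]) i
  have h6 : |D.yy v * D.Y i| ≤ N := by
    rw [abs_mul]
    calc |D.yy v| * |D.Y i| ≤ N * 1 := mul_le_mul h2 h4 (abs_nonneg _) hN
      _ = N := mul_one N
  have h7 : |D.xi v * D.e i| ≤ N := by
    rw [abs_mul]
    calc |D.xi v| * |D.e i| ≤ N * 1 := mul_le_mul h3 h5 (abs_nonneg _) hN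
      _ = N := mul_one N
  have h8 : D.zz v i = pj G 1 v i - D.yy v * D.Y i - D.xi v * D.e i := rfl
  rw [h8]
  rw [abs_le] at *
  constructor <;> linarith [h1.1, h1.2, h6.1, h6.2, h7.1, h7.2]

/-- the calibrating function is quadratically small along the variations of the line -/
theorem H4_w_small {G : Carnot n} (D : Cal G) {v : ℝ → Fin n → ℝ} {N : ℝ} (hN : 1 ≤ N)
    (hv : ∀ t, v t ∈ lay G.wt 1) (hvN : ∀ t, nsq (v t) ≤ N ^ 2) {ε : ℝ} (hε : |ε| ≤ 1)
    {γ : ℝ → Fin n → ℝ} (h : Traj G (fun t => D.Y + ε • v t) γ) (h0 : γ 0 = 0) :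
    |D.w (γ 1)| ≤ (D.C * (1 + 9 * n) * N ^ 2 * (1 + N) + 2 * N * (D.C * (1 + 9 * n) * N ^ 2)) * ε ^ 2 := by
  obtain ⟨⟨K, hK⟩, hd⟩ := h
  have hN0 : 0 ≤ N := by linarith
  have hC : 1 ≤ D.C := D.hC
  -- the coordinate `ξ`
  have hxi : ∀ s ∈ Icc (0 : ℝ) 1, |D.xi (γ s)| ≤ |ε| * N := by
    intro s hs
    have h1 := H4_est (H1_contDiff_dt D.e) hK (B := |ε| * N) (by positivity) (by
      filter_upwards [hd] with t ht htm
      rw [H4_deriv (H1_contDiff_dt D.e) (ht htm), H1_fderiv_dt, H1_dt_X G D.he, H4_dt_add,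
        H4_dt_smul, H4_dt_comm D.e D.Y, D.hYe, zero_add, abs_mul]
      exact mul_le_mul_of_nonneg_left (H4_dt_le hN0 D.hee (hvN t)) (abs_nonneg _)) hs
    rw [h0] at h1
    have h2 : dt D.e 0 = 0 := by simp [dt]
    rw [h2, sub_zero] at h1
    exact h1
  have hzz : ∀ i, ∀ s ∈ Icc (0 : ℝ) 1, |D.zz (γ s) i| ≤ |ε| * (3 * N) := by
    intro i s hs
    have h1 := H4_est (H4_contDiff_zz D i) hK (B := |ε| * (3 * N)) (by positivity) (by
      filter_upwards [hd] with t ht htm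
      rw [H4_deriv (H4_contDiff_zz D i) (ht htm), H4_fderiv_zz, H4_zz_X]
      have e1 : D.zz (D.Y + ε • v t) i = ε * D.zz (v t) i := by
        have := (H4_zL D i).map_add D.Y (ε • v t)
        rw [(H4_zL D i).map_smul] at this
        have e2 : (H4_zL D i) D.Y = 0 := H4_zz_Y D i
        rw [e2, zero_add] at this
        exact this
      rw [e1, abs_mul]
      exact mul_le_mul_of_nonneg_left (H4_zz_le D hN0 (hvN t) i) (abs_nonneg _)) hs
    rw [h0] at h1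
    have h2 : D.zz 0 i = 0 := (H4_zL D i).map_zero
    rw [h2, sub_zero] at h1
    exact h1
  have hnz : ∀ s ∈ Icc (0 : ℝ) 1, nsq (D.zz (γ s)) ≤ 9 * n * N ^ 2 * ε ^ 2 := by
    intro s hs
    have h1 : ∀ i ∈ (Finset.univ : Finset (Fin n)), D.zz (γ s) i ^ 2 ≤ 9 * N ^ 2 * ε ^ 2 := by
      intro i _
      have := hzz i s hs
      have h2 : D.zz (γ s) i ^ 2 ≤ (|ε| * (3 * N)) ^ 2 := by
        rw [← sq_abs (D.zz (γ s) i)]
        exact pow_le_pow_left₀ (abs_nonneg _) this 2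
      calc D.zz (γ s) i ^ 2 ≤ (|ε| * (3 * N)) ^ 2 := h2
        _ = 9 * N ^ 2 * |ε| ^ 2 := by ring
        _ = 9 * N ^ 2 * ε ^ 2 := by rw [sq_abs]
    have h3 := Finset.sum_le_card_nsmul Finset.univ _ _ h1
    rw [Finset.card_univ, Fintype.card_fin, nsmul_eq_mul] at h3
    calc nsq (D.zz (γ s)) ≤ n * (9 * N ^ 2 * ε ^ 2) := h3
      _ = 9 * n * N ^ 2 * ε ^ 2 := by ring
  have hx2 : ∀ s ∈ Icc (0 : ℝ) 1, D.xi (γ s) ^ 2 ≤ N ^ 2 * ε ^ 2 := by
    intro s hs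
    have := hxi s hs
    calc D.xi (γ s) ^ 2 = |D.xi (γ s)| ^ 2 := (sq_abs _).symm
      _ ≤ (|ε| * N) ^ 2 := pow_le_pow_left₀ (abs_nonneg _) this 2
      _ = N ^ 2 * |ε| ^ 2 := by ring
      _ = N ^ 2 * ε ^ 2 := by rw [sq_abs]
  set S : ℝ := (1 + 9 * n) * N ^ 2 * ε ^ 2 with hS
  have hS0 : 0 ≤ S := by positivity
  have hfin := H4_est D.hw hK (B := (D.C * (1 + 9 * n) * N ^ 2 * (1 + N) +
    2 * N * (D.C * (1 + 9 * n) * N ^ 2)) * ε ^ 2) (by positivity) (by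
    filter_upwards [hd] with t ht htm
    have hA : D.Y + ε • v t ∈ lay G.wt 1 :=
      (lay G.wt 1).add_mem D.hY ((lay G.wt 1).smul_mem _ (hv t))
    rw [H4_deriv D.hw (ht htm), D.hX _ _ hA]
    have q1 := D.hQ1 (γ t)
    have q2 := D.hQ2 (γ t)
    have q3 := D.hr (γ t) _ hA
    have z1 := D.nsq_zz (γ t)
    have e1 : nsq (pj G 1 (γ t)) - dt D.Y (γ t) ^ 2 - dt D.e (γ t) ^ 2 = nsq (D.zz (γ t)) :=
      z1.symm
    have e2 : nsq (pj G 1 (γ t)) - dt D.Y (γ t) ^ 2 = D.xi (γ t) ^ 2 + nsq (D.zz (γ t)) := by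
      have : D.xi (γ t) = dt D.e (γ t) := rfl
      rw [this]; linarith
    rw [e1] at q2
    rw [e2] at q3
    have b1 := hnz t htm
    have b2 := hx2 t htm
    have b2' : dt D.e (γ t) ^ 2 ≤ N ^ 2 * ε ^ 2 := b2
    have b3 : D.xi (γ t) ^ 2 + nsq (D.zz (γ t)) ≤ S := by rw [hS]; nlinarith
    have hnn : 0 ≤ nsq (D.zz (γ t)) := Finset.sum_nonneg fun i _ => sq_nonneg _
    -- the bound for `Q`
    have hQ0 : 0 ≤ D.Q (γ t) := le_trans (sq_nonneg _) q1
    have hQS : D.Q (γ t) ≤ D.C * S := by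
      have h1 : D.C * nsq (D.zz (γ t)) ≤ D.C * (9 * n * N ^ 2 * ε ^ 2) :=
        mul_le_mul_of_nonneg_left b1 (by linarith)
      have h2 : N ^ 2 * ε ^ 2 ≤ D.C * (N ^ 2 * ε ^ 2) := le_mul_of_one_le_left (by positivity) hC
      rw [hS]
      nlinarith
    -- the bound for `<Y, A>`
    have hYA : |dt D.Y (D.Y + ε • v t)| ≤ 1 + N := by
      rw [H4_dt_add, H4_dt_smul, H4_dt_self, D.hYY]
      have h1 := H4_dt_le hN0 D.hYY (hvN t)
      have h2 : |ε * dt D.Y (v t)| ≤ N := by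
        rw [abs_mul]
        calc |ε| * |dt D.Y (v t)| ≤ 1 * N := mul_le_mul hε h1 (abs_nonneg _) zero_le_one
          _ = N := one_mul N
      calc |1 + ε * dt D.Y (v t)| ≤ |(1 : ℝ)| + |ε * dt D.Y (v t)| := abs_add_le _ _
        _ ≤ 1 + N := by rw [abs_one]; linarith
    -- the bound for the root
    have hA2 : nsq (D.Y + ε • v t) ≤ (2 * N) ^ 2 := by
      have h1 : nsq (D.Y + ε • v t) = 1 + 2 * ε * dt D.Y (v t) + ε ^ 2 * nsq (v t) := by
        rw [← H4_dt_self, H4_dt_add, H4_dt_smul, H4_dt_comm (D.Y + ε • v t) D.Y,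
          H4_dt_comm (D.Y + ε • v t) (v t), H4_dt_add, H4_dt_smul, H4_dt_add, H4_dt_smul,
          H4_dt_self, D.hYY, H4_dt_self, H4_dt_comm (v t) D.Y]
        ring
      have h2 := H4_dt_le hN0 D.hYY (hvN t)
      have h3 : ε * dt D.Y (v t) ≤ N := by
        calc ε * dt D.Y (v t) ≤ |ε * dt D.Y (v t)| := le_abs_self _
          _ = |ε| * |dt D.Y (v t)| := abs_mul _ _
          _ ≤ 1 * N := mul_le_mul hε h2 (abs_nonneg _) zero_le_one
          _ = N := one_mul N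
      have h4 : ε ^ 2 ≤ 1 := by rw [← sq_abs]; exact pow_le_one₀ (abs_nonneg _) hε
      have h5 : ε ^ 2 * nsq (v t) ≤ 1 * N ^ 2 :=
        mul_le_mul h4 (hvN t) (Finset.sum_nonneg fun i _ => sq_nonneg _) zero_le_one
      rw [h1]
      nlinarith
    have hroot : Real.sqrt (nsq (D.Y + ε • v t) - dt D.Y (D.Y + ε • v t) ^ 2) ≤ 2 * N := by
      rw [Real.sqrt_le_left (by linarith)]
      nlinarith [sq_nonneg (dt D.Y (D.Y + ε • v t))]
    have hr1 : |D.r (γ t) (D.Y + ε • v t)| ≤ D.C * S * (2 * N) := by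
      refine q3.trans ?_
      have h1 : D.C * (D.xi (γ t) ^ 2 + nsq (D.zz (γ t))) ≤ D.C * S :=
        mul_le_mul_of_nonneg_left b3 (by linarith)
      exact mul_le_mul h1 hroot (Real.sqrt_nonneg _) (by positivity)
    have hq1 : |D.Q (γ t) / 2 * dt D.Y (D.Y + ε • v t)| ≤ D.C * S * (1 + N) := by
      rw [abs_mul, abs_of_nonneg (by linarith : 0 ≤ D.Q (γ t) / 2)]
      exact mul_le_mul (by linarith) hYA (abs_nonneg _) (by positivity)
    calc |D.Q (γ t) / 2 * dt D.Y (D.Y + ε • v t) + D.r (γ t) (D.Y + ε • v t)|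
        ≤ |D.Q (γ t) / 2 * dt D.Y (D.Y + ε • v t)| + |D.r (γ t) (D.Y + ε • v t)| :=
          abs_add_le _ _
      _ ≤ D.C * S * (1 + N) + D.C * S * (2 * N) := add_le_add hq1 hr1
      _ = (D.C * (1 + 9 * n) * N ^ 2 * (1 + N) + 2 * N * (D.C * (1 + 9 * n) * N ^ 2)) * ε ^ 2 := by
          rw [hS]; ring) (s := 1) ⟨zero_le_one, le_rfl⟩
  rw [h0, D.w0, sub_zero] at hfin
  exact hfin

theorem H4_deriv_zero {f : ℝ → ℝ} {B : ℝ} (h : ∀ ε : ℝ, |ε| ≤ 1 → |f ε| ≤ B * ε ^ 2) :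
    HasDerivAt f 0 0 := by
  have h0 : f 0 = 0 := by
    have := h 0 (by simp)
    simp at this
    exact this
  rw [hasDerivAt_iff_isLittleO_nhds_zero]
  simp only [zero_add, h0, sub_zero, smul_zero]
  have h1 : (fun ε : ℝ => f ε) =O[nhds 0] fun ε : ℝ => ε ^ 2 := by
    refine Asymptotics.IsBigO.of_bound B ?_
    filter_upwards [Metric.closedBall_mem_nhds (0 : ℝ) one_pos] with ε hε
    rw [mem_closedBall_zero_iff, Real.norm_eq_abs] at hε
    have := h ε hε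
    rw [Real.norm_eq_abs, Real.norm_eq_abs, abs_of_nonneg (sq_nonneg ε)]
    exact this
  exact h1.trans_isLittleO (Asymptotics.isLittleO_pow_id one_lt_two)

/-- groups with calibrating data are non-ideal -/
theorem nonIdeal_of_cal {G : Carnot n} (D : Cal G) (hd : fderiv ℝ D.w D.Y ≠ 0) : NonIdeal G := by
  refine ⟨fun _ => D.Y, fun t => t • D.Y, ?_, ?_, ?_, geod_line G D.hY D.hYY, ?_⟩
  · exact ⟨measurable_const, fun _ => D.hY, nsq D.Y, fun _ => le_rfl⟩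
  · refine ⟨?_, Filter.Eventually.of_forall fun t _ => ?_⟩
    · have h : ContDiff ℝ 1 (fun t : ℝ => t • D.Y) := by fun_prop
      exact h.contDiffOn.exists_lipschitzOnWith one_ne_zero (convex_Icc _ _) isCompact_Icc
    · have h := hasDerivAt_mul_smul G 0 D.Y t
      simp only [G.zero_mul] at h
      exact h
  · refine ⟨fderiv ℝ D.w D.Y, hd, ?_⟩
    rintro v ⟨-, hv, K, hK⟩ Γ hΓ hΓ0 w hw
    set N : ℝ := |K| + 1 with hN
    have hN1 : 1 ≤ N := by rw [hN]; linarith [abs_nonneg K]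
    have hvN : ∀ t, nsq (v t) ≤ N ^ 2 := by
      intro t
      have h1 : nsq (v t) ≤ K := hK t
      have h2 : K ≤ |K| := le_abs_self K
      have h3 : 0 ≤ |K| := abs_nonneg K
      rw [hN]; nlinarith
    have h1 : HasDerivAt (fun ε => D.w (Γ ε 1)) 0 0 := by
      refine H4_deriv_zero (B := D.C * (1 + 9 * n) * N ^ 2 * (1 + N) +
        2 * N * (D.C * (1 + 9 * n) * N ^ 2)) fun ε hε => ?_
      refine H4_w_small D hN1 hv hvN hε (hΓ ε).1 ?_
      have := (hΓ ε).2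
      simp only [zero_smul] at this
      exact this
    have e1 : Γ 0 1 = D.Y := by
      have e0 := hΓ0 1 ⟨zero_le_one, le_rfl⟩
      exact e0.trans (one_smul ℝ D.Y)
    have h2 : HasDerivAt (fun ε => D.w (Γ ε 1)) (fderiv ℝ D.w (Γ 0 1) w) 0 :=
      ((D.hw.differentiable one_ne_zero) (Γ 0 1)).hasFDerivAt.comp_hasDerivAt (0 : ℝ) hw
    rw [e1] at h2
    exact h2.unique h1
  · simp only [zero_smul, one_smul]
    intro h
    have := D.hYY
    rw [← h] at this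
    simp [nsq] at this

end Pool.Agent.CMC
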